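import Mathlib
import Pool.Agent.Lib.MP_1a3405_co.Ord.Cert

/-!
Counting neighbours in `ℤ^d` (without a box), coordinates `(b; a; x)` of the points of
`ℤ^(D+2)` (height `b`, column `a`, fibre `x`).
-/

namespace Pool.Agent.Lib.MP_1a3405_co.BP

open Pool.Agent.Lib.MP_1a3405_co Pool.Agent.Lib.MP_1a3405_co.Ord

variable {d n : ℕ}

open Classical in
/-- The number of neighbours of `p` in `ℤ^d` which satisfy `Q`. -/
noncomputable def cz {d : ℕ} (Q : (Fin d → ℤ) → Prop) (p : Fin d → ℤ) : ℕ :=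
  ∑ i : Fin d, ∑ b : Bool, if Q (nb p (i, b)) then 1 else 0

open Classical in
lemma cz_eq_card (Q : (Fin d → ℤ) → Prop) (p : Fin d → ℤ) :
    cz Q p = (Finset.univ.filter fun δ : Fin d × Bool => Q (nb p δ)).card := by
  rw [cz, Finset.card_filter, Fintype.sum_prod_type]

lemma cnt_eq_cz (Q : (Fin d → ℤ) → Prop) (p : Fin d → ℤ) :
    cnt n Q p = cz (fun q => InBox n q ∧ Q q) p := by
  rw [cnt_eq_card, cz_eq_card]
  congr

lemma cz_mono {Q Q' : (Fin d → ℤ) → Prop} {p : Fin d → ℤ}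
    (h : ∀ δ, Q (nb p δ) → Q' (nb p δ)) : cz Q p ≤ cz Q' p := by
  classical
  rw [cz_eq_card, cz_eq_card]
  apply Finset.card_le_card
  intro δ hδ
  simp only [Finset.mem_filter, Finset.mem_univ, true_and] at hδ ⊢
  exact h δ hδ

lemma cz_congr {Q Q' : (Fin d → ℤ) → Prop} {p : Fin d → ℤ}
    (h : ∀ δ, Q (nb p δ) ↔ Q' (nb p δ)) : cz Q p = cz Q' p :=
  le_antisymm (cz_mono fun δ hq => (h δ).1 hq) (cz_mono fun δ hq => (h δ).2 hq)

/-- Upper bound: all relevant directions lie in a given finite set. -/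
lemma cz_le_of_subset {Q : (Fin d → ℤ) → Prop} {p : Fin d → ℤ} (S : Finset (Fin d × Bool))
    (h : ∀ δ, Q (nb p δ) → δ ∈ S) : cz Q p ≤ S.card := by
  classical
  rw [cz_eq_card]
  apply Finset.card_le_card
  intro δ hδ
  simp only [Finset.mem_filter, Finset.mem_univ, true_and] at hδ
  exact h δ hδ

/-- Lower bound: a given finite set of directions. -/
lemma le_cz_of_subset {Q : (Fin d → ℤ) → Prop} {p : Fin d → ℤ} (S : Finset (Fin d × Bool))
    (h : ∀ δ ∈ S, Q (nb p δ)) : S.card ≤ cz Q p := by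
  classical
  rw [cz_eq_card]
  apply Finset.card_le_card
  intro δ hδ
  simp only [Finset.mem_filter, Finset.mem_univ, true_and]
  exact h δ hδ

/-- The count is the size of the set of directions. -/
lemma cz_eq_of_iff {Q : (Fin d → ℤ) → Prop} {p : Fin d → ℤ} (S : Finset (Fin d × Bool))
    (h : ∀ δ, Q (nb p δ) ↔ δ ∈ S) : cz Q p = S.card :=
  le_antisymm (cz_le_of_subset S fun δ hq => (h δ).1 hq)
    (le_cz_of_subset S fun δ hq => (h δ).2 hq)

lemma cz_or_le (Q Q' : (Fin d → ℤ) → Prop) (p : Fin d → ℤ) :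
    cz (fun q => Q q ∨ Q' q) p ≤ cz Q p + cz Q' p := by
  classical
  rw [cz_eq_card, cz_eq_card, cz_eq_card]
  refine le_trans (Finset.card_le_card ?_) (Finset.card_union_le _ _)
  intro δ hδ
  simp only [Finset.mem_filter, Finset.mem_univ, true_and, Finset.mem_union] at hδ ⊢
  tauto

lemma cz_or_of_disjoint {Q Q' : (Fin d → ℤ) → Prop} {p : Fin d → ℤ}
    (h : ∀ δ, Q (nb p δ) → ¬ Q' (nb p δ)) :
    cz (fun q => Q q ∨ Q' q) p = cz Q p + cz Q' p := by
  classical
  rw [cz_eq_card, cz_eq_card, cz_eq_card, ← Finset.card_union_of_disjoint]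
  · congr 1
    ext δ
    simp only [Finset.mem_filter, Finset.mem_univ, true_and, Finset.mem_union]
  · rw [Finset.disjoint_left]
    intro δ hδ hδ'
    simp only [Finset.mem_filter, Finset.mem_univ, true_and] at hδ hδ'
    exact h δ hδ hδ'

lemma cz_eq_zero {Q : (Fin d → ℤ) → Prop} {p : Fin d → ℤ}
    (h : ∀ δ, ¬ Q (nb p δ)) : cz Q p = 0 := by
  have := cz_le_of_subset (Q := Q) (p := p) ∅ (fun δ hq => absurd hq (h δ))
  simpa using this

lemma cz_pos {Q : (Fin d → ℤ) → Prop} {p : Fin d → ℤ} (δ : Fin d × Bool) (h : Q (nb p δ)) :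
    1 ≤ cz Q p := by
  have := le_cz_of_subset (Q := Q) (p := p) {δ} (fun ε hε => by
    rw [Finset.mem_singleton] at hε; rw [hε]; exact h)
  simpa using this

/-- at most one direction -/
lemma cz_le_one {Q : (Fin d → ℤ) → Prop} {p : Fin d → ℤ}
    (h : ∀ δ δ', Q (nb p δ) → Q (nb p δ') → δ = δ') : cz Q p ≤ 1 := by
  classical
  rw [cz_eq_card, Finset.card_le_one]
  intro δ hδ δ' hδ'
  simp only [Finset.mem_filter, Finset.mem_univ, true_and] at hδ hδ'
  exact h δ δ' hδ hδ'

/-- upward and downward neighbours -/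
lemma cz_up_dn (Q : (Fin d → ℤ) → Prop) [DecidablePred Q] (p : Fin d → ℤ) :
    cz Q p = (Finset.univ.filter fun i : Fin d => Q (nb p (i, true))).card +
      (Finset.univ.filter fun i : Fin d => Q (nb p (i, false))).card := by
  classical
  rw [cz, Finset.card_filter, Finset.card_filter, ← Finset.sum_add_distrib]
  apply Finset.sum_congr rfl
  intro i _
  rw [Fintype.sum_bool]
  congr

/-- translation -/
lemma nb_add (p w : Fin d → ℤ) (δ : Fin d × Bool) : nb (p + w) δ = nb p δ + w := by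
  obtain ⟨i, b⟩ := δ
  funext j
  by_cases h : j = i
  · subst h; simp only [nb, Function.update_self, Pi.add_apply]; ring
  · simp [nb, Function.update_of_ne h]

lemma cz_shift (Q : (Fin d → ℤ) → Prop) (p w : Fin d → ℤ) :
    cz (fun q => Q (q - w)) (p + w) = cz Q p := by
  have h : ∀ δ, nb (p + w) δ - w = nb p δ := fun δ => by
    rw [nb_add, add_sub_cancel_right]
  exact le_antisymm
    (by
      rw [cz_eq_card, cz_eq_card]
      apply Finset.card_le_card
      intro δ hδ
      simp only [Finset.mem_filter, Finset.mem_univ, true_and, h] at hδ ⊢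
      exact hδ)
    (by
      rw [cz_eq_card, cz_eq_card]
      apply Finset.card_le_card
      intro δ hδ
      simp only [Finset.mem_filter, Finset.mem_univ, true_and, h] at hδ ⊢
      exact hδ)

open Classical in
/-- Splitting off the first coordinate. -/
lemma cz_cons (z : ℤ) (q : Fin d → ℤ) (Q : (Fin (d + 1) → ℤ) → Prop) :
    cz Q (Fin.cons z q) =
      (if Q (Fin.cons (z + 1) q) then 1 else 0) +
      (if Q (Fin.cons (z - 1) q) then 1 else 0) +
      cz (fun q' => Q (Fin.cons z q')) q := by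
  simp only [cz, Fin.sum_univ_succ, Fintype.sum_bool, nb_cons_zero, nb_cons_succ, if_true,
    Bool.false_eq_true, if_false]
  rw [show z + -1 = z - 1 by ring]

variable {D : ℕ}

/-- the point with height `b`, column `a` and fibre `x` -/
def pt (a b : ℤ) (x : Fin D → ℤ) : Fin (D + 2) → ℤ := Fin.cons b (Fin.cons a x)

/-- the fibre of a point -/
def fib (p : Fin (D + 2) → ℤ) : Fin D → ℤ := Fin.tail (Fin.tail p)

@[simp] lemma pt_zero (a b : ℤ) (x : Fin D → ℤ) : pt a b x 0 = b := rfl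

@[simp] lemma pt_one (a b : ℤ) (x : Fin D → ℤ) : pt a b x 1 = a := rfl

@[simp] lemma fib_pt (a b : ℤ) (x : Fin D → ℤ) : fib (pt a b x) = x := rfl

@[simp] lemma tail_pt (a b : ℤ) (x : Fin D → ℤ) :
    Fin.tail (pt a b x) = (Fin.cons a x : Fin (D + 1) → ℤ) := rfl

lemma pt_eta (p : Fin (D + 2) → ℤ) : pt (p 1) (p 0) (fib p) = p := by
  funext i
  refine Fin.cases rfl (fun i => ?_) i
  refine Fin.cases rfl (fun i => rfl) i

lemma exists_pt (p : Fin (D + 2) → ℤ) : ∃ a b x, p = pt a b x :=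
  ⟨p 1, p 0, fib p, (pt_eta p).symm⟩

lemma pt_inj {a b a' b' : ℤ} {x x' : Fin D → ℤ} :
    pt a b x = pt a' b' x' ↔ a = a' ∧ b = b' ∧ x = x' := by
  constructor
  · intro h
    exact ⟨congrFun h 1, congrFun h 0, by rw [← fib_pt a b x, h, fib_pt]⟩
  · rintro ⟨rfl, rfl, rfl⟩; rfl

lemma nb_pt_b (a b : ℤ) (x : Fin D → ℤ) (s : Bool) :
    nb (pt a b x) (0, s) = pt a (b + if s then 1 else -1) x := by
  rw [pt, nb_cons_zero]; rfl

lemma nb_pt_a (a b : ℤ) (x : Fin D → ℤ) (s : Bool) :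
    nb (pt a b x) (1, s) = pt (a + if s then 1 else -1) b x := by
  rw [pt, show (1 : Fin (D + 2)) = (0 : Fin (D + 1)).succ from rfl, nb_cons_succ, nb_cons_zero]
  rfl

lemma nb_pt_x (a b : ℤ) (x : Fin D → ℤ) (i : Fin D) (s : Bool) :
    nb (pt a b x) (i.succ.succ, s) = pt a b (nb x (i, s)) := by
  rw [pt, nb_cons_succ b (Fin.cons a x : Fin (D + 1) → ℤ) i.succ s, nb_cons_succ]; rfl

/-- each direction is a height, a column or a fibre direction -/
lemma dir_cases (δ : Fin (D + 2) × Bool) :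
    (∃ s, δ = (0, s)) ∨ (∃ s, δ = (1, s)) ∨ (∃ (i : Fin D) (s : Bool), δ = (i.succ.succ, s)) := by
  obtain ⟨j, s⟩ := δ
  refine Fin.cases (Or.inl ⟨s, rfl⟩) (fun j => ?_) j
  refine Fin.cases (Or.inr (Or.inl ⟨s, rfl⟩)) (fun j => ?_) j
  exact Or.inr (Or.inr ⟨j, s, rfl⟩)

open Classical in
/-- Counting neighbours in coordinates. -/
lemma cz_pt (a b : ℤ) (x : Fin D → ℤ) (Q : (Fin (D + 2) → ℤ) → Prop) :
    cz Q (pt a b x) =
      (if Q (pt a (b + 1) x) then 1 else 0) +
      (if Q (pt a (b - 1) x) then 1 else 0) +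
      ((if Q (pt (a + 1) b x) then 1 else 0) +
      (if Q (pt (a - 1) b x) then 1 else 0) +
      cz (fun y => Q (pt a b y)) x) := by
  rw [pt, cz_cons, cz_cons]
  rfl

/-- a neighbour of `x` in the direction `(i, s)`, coordinate by coordinate -/
lemma nb_self (x : Fin d → ℤ) (i : Fin d) (s : Bool) :
    nb x (i, s) i = x i + if s then 1 else -1 := by
  simp [nb]

lemma nb_other (x : Fin d → ℤ) {i j : Fin d} (s : Bool) (h : j ≠ i) :
    nb x (i, s) j = x j := by
  simp [nb, Function.update_of_ne h]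

/-- going back -/
lemma nb_nb_not (x : Fin d → ℤ) (i : Fin d) (s : Bool) : nb (nb x (i, s)) (i, !s) = x := by
  funext j
  by_cases h : j = i
  · subst h; cases s <;> simp [nb]
  · simp [nb, Function.update_of_ne h]

lemma nb_ne (x : Fin d → ℤ) (δ : Fin d × Bool) : nb x δ ≠ x := by
  obtain ⟨i, s⟩ := δ
  intro h
  have := congrFun h i
  rw [nb_self] at this
  cases s <;> simp at this

/-- each coordinate changes by at most one -/
lemma nb_near (x : Fin d → ℤ) (δ : Fin d × Bool) (j : Fin d) :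
    nb x δ j ≤ x j + 1 ∧ x j - 1 ≤ nb x δ j := by
  obtain ⟨i, s⟩ := δ
  by_cases h : j = i
  · subst h
    rw [nb_self]
    cases s
    · simp only [Bool.false_eq_true, if_false]; omega
    · simp only [if_true]; omega
  · rw [nb_other x s h]; omega

end Pool.Agent.Lib.MP_1a3405_co.BP
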