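import Mathlib
import Pool.Agent.Lib.MP_1a3405_co.BP.Cz

/-!
# The block-pattern construction: definitions

Points of `ℤ^(D+2)` are written `pt a b x` = (height `b`; column `a`; fibre `x ∈ ℤ^D`).

* `KC L e x a b` / `SC L e x a b`: chain cells / seeds of an active fibre with entry column `e`
  and exit column `x` (`L` even): the chain goes `(e,2) → (e,1) → …` along row `1` to the right,
  zigzags through `[1,L]²` and leaves along row `L` to the left until `(x,L) → (x,L-1)`.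
* `MF L eF xF a b`: the cells of a face fibre (all of them are seeds).
* `Wire`, `WC`, `WS`, `wkey`: a vertical wire in `ℤ^E × ℤ` (height = coordinate `0`), going down
  from height `hi` to height `lo`; at height `b` it is at the position `X b ∈ ℤ^E`
  (at a step height also at `X (b+1)`); its seeds are the cells `X b + e_l`, `l ∈ J b`.
* `Plan`: the full combinatorial plan: `M` active fibres `v 0, …, v (M-1)` in this order with
  columns `e g`, `x g`; the faces `F`; the wires `X g`, `J g` from `(x g; v g)` (height `L-2`)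
  to `(e (g+1); v (g+1))` (height `3`); the last wire ends in the fibre `xs`, column `aF`.
-/

namespace Pool.Agent.Lib.MP_1a3405_co.BP

open Pool.Agent.Lib.MP_1a3405_co Pool.Agent.Lib.MP_1a3405_co.Ord

/-! ### planar sets -/

/-- chain cells of an active fibre -/
def KC (L e x a b : ℤ) : Prop :=
  (b = 2 ∧ a = e) ∨ (b = 1 ∧ e ≤ a ∧ a ≤ L) ∨ (2 ≤ b ∧ b ≤ L - 1 ∧ 1 ≤ a ∧ a ≤ L) ∨
    (b = L ∧ x ≤ a ∧ a ≤ L) ∨ (b = L - 1 ∧ a = x)

/-- the seeds of an active fibre which are also seeds in the face fibres -/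
def SC0 (L e x a b : ℤ) : Prop :=
  (b = 0 ∧ -2 ≤ a ∧ a ≤ L) ∨ (b = 2 ∧ e < a ∧ a ≤ -3) ∨
    (3 ≤ b ∧ b ≤ L - 1 ∧ b % 2 = 1 ∧ a = 0) ∨ (2 ≤ b ∧ b ≤ L ∧ b % 2 = 0 ∧ a = L + 1) ∨
    (b = L - 1 ∧ x < a ∧ a ≤ -1)

/-- seeds of an active fibre -/
def SC (L e x a b : ℤ) : Prop :=
  SC0 L e x a b ∨ (b = 0 ∧ a = e) ∨ (b = L + 1 ∧ a = x)

/-- cells of a face fibre (all are seeds) -/
def MF (L e x a b : ℤ) : Prop := KC L e x a b ∨ SC0 L e x a b

/-- phase of a chain cell (first key of the order inside a fibre) -/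
def ph (L e x a b : ℤ) : ℤ :=
  if b = 2 ∧ a = e then 0 else if b = L - 1 ∧ a = x then L + 1 else b

/-- second key of the order inside a fibre -/
def sg (a b : ℤ) : ℤ := if b % 2 = 1 then a else -a

/-! ### wires -/

/-- a vertical wire in `ℤ^E × ℤ` -/
structure Wire {E : ℕ} (r : ℕ) (lo hi : ℤ) (X : ℤ → Fin E → ℤ) (J : ℤ → Finset (Fin E)) :
    Prop where
  len : lo + 5 ≤ hi
  card : ∀ b, (J b).card = r - 1
  step : ∀ b, X b = X (b + 1) ∨ ∃ i s, X b = nb (X (b + 1)) (i, s) ∧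
    i ∉ J (b - 1) ∧ i ∉ J b ∧ i ∉ J (b + 1)
  gap : ∀ b, X b ≠ X (b + 1) → X (b + 1) = X (b + 2)
  lo_const : ∀ b, b ≤ lo + 2 → X b = X lo
  hi_const : ∀ b, hi - 2 ≤ b → X b = X hi

/-- chain cells of a wire -/
def WC {E : ℕ} (lo hi : ℤ) (X : ℤ → Fin E → ℤ) (p : Fin (E + 1) → ℤ) : Prop :=
  lo ≤ p 0 ∧ p 0 ≤ hi ∧ (Fin.tail p = X (p 0) ∨ Fin.tail p = X (p 0 + 1))

/-- seeds of a wire -/
def WS {E : ℕ} (lo hi : ℤ) (X : ℤ → Fin E → ℤ) (J : ℤ → Finset (Fin E))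
    (p : Fin (E + 1) → ℤ) : Prop :=
  lo ≤ p 0 ∧ p 0 ≤ hi ∧ ∃ l ∈ J (p 0),
    Fin.tail p = nb (X (p 0)) (l, true) ∨ Fin.tail p = nb (X (p 0 + 1)) (l, true)

open Classical in
/-- the time order along a wire (downwards; at a step height first `X (b+1)`, then `X b`) -/
noncomputable def wkey {E : ℕ} (X : ℤ → Fin E → ℤ) (p : Fin (E + 1) → ℤ) : ℤ :=
  -2 * p 0 + (if Fin.tail p = X (p 0) then 1 else 0)

/-! ### the plan -/

/-- The combinatorial plan of the construction for threshold `r` in dimension `D + 2` and side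
length `n`. -/
structure Plan (D r : ℕ) where
  /-- side length of the box -/
  n : ℕ
  /-- side length of the sheets -/
  L : ℤ
  /-- the pattern -/
  T : (Fin D → ℤ) → Prop
  /-- number of active fibres -/
  M : ℕ
  /-- the active fibres, in their order -/
  v : ℕ → Fin D → ℤ
  /-- entry columns -/
  e : ℕ → ℤ
  /-- exit columns -/
  x : ℕ → ℤ
  /-- the face fibres -/
  F : (Fin D → ℤ) → Prop
  /-- entry column of the faces -/
  eF : ℤ
  /-- exit column of the faces -/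
  xF : ℤ
  /-- positions of the wires -/
  X : ℕ → ℤ → Fin (D + 1) → ℤ
  /-- seed directions of the wires -/
  J : ℕ → ℤ → Finset (Fin (D + 1))
  /-- final column -/
  aF : ℤ
  hr : 4 ≤ r
  hrD : r ≤ D + 1
  hL : L % 2 = 0
  hL12 : 12 ≤ L
  T_up : ∀ y, T y → {i : Fin D | T (nb y (i, true))}.ncard = r - 2
  T_dn : ∀ y, T y → {i : Fin D | T (nb y (i, false))}.ncard = r - 2
  T_out : ∀ y, ¬ T y → cz T y ≤ r - 1
  M_pos : 1 ≤ M
  v_inj : ∀ g < M, ∀ h < M, v g = v h → g = h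
  v_T : ∀ g < M, T (v g)
  F_T : ∀ y, F y → T y
  v_F : ∀ g < M, ¬ F (v g)
  low : ∀ g < M, ∀ i, T (nb (v g) (i, false)) →
    F (nb (v g) (i, false)) ∨ ∃ h < g, v h = nb (v g) (i, false) ∧ x h ≤ e g
  up_F : ∀ g < M, ∀ i, ¬ F (nb (v g) (i, true))
  F_one : ∀ y, F y → ∀ δ δ', (∃ g < M, v g = nb y δ) → (∃ g < M, v g = nb y δ') → δ = δ'
  out_two : ∀ y, T y → ¬ F y → (∀ g < M, v g ≠ y) → cz (fun z => F z ∨ ∃ g < M, v g = z) y ≤ 2
  ex : ∀ g < M, e g + 6 ≤ x g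
  x_le : ∀ g < M, x g ≤ -12
  eF_le : ∀ g < M, eF ≤ e g
  xF_le : ∀ g < M, xF ≤ x g
  eF_xF : eF + 6 ≤ xF
  wire : ∀ g < M, Wire r 3 (L - 2) (X g) (J g)
  X_hi : ∀ g < M, X g (L - 2) = Fin.cons (x g) (v g)
  X_lo : ∀ g, g + 1 < M → X g 3 = Fin.cons (e (g + 1)) (v (g + 1))
  J_hi : ∀ g < M, ∀ l, l ∈ J g (L - 2) ↔ l = 0 ∨ ∃ i : Fin D, l = i.succ ∧ T (nb (v g) (i, true))
  J_lo : ∀ g, g + 1 < M → ∀ l, l ∈ J g 3 ↔
    l = 0 ∨ ∃ i : Fin D, l = i.succ ∧ T (nb (v (g + 1)) (i, true))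
  far : ∀ g < M, ∀ h < M, g ≠ h → ∀ b c, ∃ i, 4 ≤ |X g b i - X h c i|
  far0 : ∀ g < M, ∀ b, ∃ i, 4 ≤ |X g b i - (Fin.cons (e 0) (v 0) : Fin (D + 1) → ℤ) i|
  X_last : X (M - 1) 3 = Fin.cons aF (fun j : Fin D => if (j : ℕ) < r - 1 then 2 else 1)
  aF_lt : aF + 6 ≤ eF
  v_box : ∀ g < M, ∀ j, 6 ≤ v g j ∧ v g j + 2 ≤ n
  F_box : ∀ y, F y → ∀ j, 5 ≤ y j ∧ y j + 2 ≤ n
  X_col : ∀ g, g + 1 < M → ∀ b, eF ≤ X g b 0 ∧ X g b 0 ≤ -12
  X_box : ∀ g, g + 1 < M → ∀ b (j : Fin D), 6 ≤ X g b j.succ ∧ X g b j.succ + 2 ≤ n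
  Xl_col : ∀ b, aF ≤ X (M - 1) b 0 ∧ X (M - 1) b 0 ≤ -12
  Xl_box : ∀ b (j : Fin D), (if (j : ℕ) < r - 1 then 2 else 1) ≤ X (M - 1) b j.succ ∧
    X (M - 1) b j.succ + 2 ≤ n
  L_box : L + 8 ≤ n ∧ L + 5 - aF ≤ n

namespace Plan

variable {D r : ℕ} (P : Plan D r)

/-- chain cells of the active fibres -/
def CC (p : Fin (D + 2) → ℤ) : Prop :=
  ∃ g < P.M, fib p = P.v g ∧ KC P.L (P.e g) (P.x g) (p 1) (p 0)

/-- seeds of the active fibres and of the faces -/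
def CS (p : Fin (D + 2) → ℤ) : Prop :=
  (∃ g < P.M, fib p = P.v g ∧ SC P.L (P.e g) (P.x g) (p 1) (p 0)) ∨
    (P.F (fib p) ∧ MF P.L P.eF P.xF (p 1) (p 0))

/-- the start cell of the whole chain -/
def start : Fin (D + 2) → ℤ := pt (P.e 0) 3 (P.v 0)

/-- the last cell of the whole chain -/
def last : Fin (D + 2) → ℤ := pt (P.x (P.M - 1)) (P.L - 1) (P.v (P.M - 1))

/-- chain cells of the links -/
def LC (p : Fin (D + 2) → ℤ) : Prop :=
  p = P.start ∨ ∃ g, g + 1 < P.M ∧ WC 3 (P.L - 2) (P.X g) p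

/-- seeds of the links (including the final wire and the seeds of the start cell) -/
def LS (p : Fin (D + 2) → ℤ) : Prop :=
  (p = pt (P.e 0) 4 (P.v 0) ∨ p = pt (P.e 0 + 1) 3 (P.v 0) ∨
    ∃ i, P.T (nb (P.v 0) (i, true)) ∧ p = pt (P.e 0) 3 (nb (P.v 0) (i, true))) ∨
  ∃ g < P.M, WS 3 (P.L - 2) (P.X g) (P.J g) p

/-- the cells of the final wire -/
def FP (p : Fin (D + 2) → ℤ) : Prop := WC 3 (P.L - 2) (P.X (P.M - 1)) p

/-- the chain -/
def C (p : Fin (D + 2) → ℤ) : Prop := P.CC p ∨ P.LC p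

/-- the seeds -/
def S (p : Fin (D + 2) → ℤ) : Prop := P.CS p ∨ P.LS p

open Classical in
/-- the number of an active fibre -/
noncomputable def idx (y : Fin D → ℤ) : ℕ :=
  if h : ∃ g, g < P.M ∧ P.v g = y then h.choose else 0

open Classical in
/-- the number of a link -/
noncomputable def lidx (p : Fin (D + 2) → ℤ) : ℕ :=
  if h : ∃ g, g + 1 < P.M ∧ WC 3 (P.L - 2) (P.X g) p then h.choose else 0

open Classical in
/-- first key: the number of the module (start `0`, fibre `g`: `2g+1`, link `g`: `2g+2`) -/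
noncomputable def k1 (p : Fin (D + 2) → ℤ) : ℤ :=
  if P.CC p then 2 * (P.idx (fib p) : ℤ) + 1
  else if p = P.start then 0
  else 2 * (P.lidx p : ℤ) + 2

open Classical in
/-- second key -/
noncomputable def k2 (p : Fin (D + 2) → ℤ) : ℤ :=
  if P.CC p then ph P.L (P.e (P.idx (fib p))) (P.x (P.idx (fib p))) (p 1) (p 0)
  else if p = P.start then 0
  else wkey (P.X (P.lidx p)) p

open Classical in
/-- third key -/
noncomputable def k3 (p : Fin (D + 2) → ℤ) : ℤ :=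
  if P.CC p then sg (p 1) (p 0) else 0

/-- the time order of the chain -/
def bef (p q : Fin (D + 2) → ℤ) : Prop :=
  P.k1 p < P.k1 q ∨ (P.k1 p = P.k1 q ∧ (P.k2 p < P.k2 q ∨ (P.k2 p = P.k2 q ∧ P.k3 p < P.k3 q)))

end Plan

end Pool.Agent.Lib.MP_1a3405_co.BP
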