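import Mathlib
import Pool.Agent.Lib.MP_1a3405_co.BP.Defs

/-!
Planar lemmas: inclusions between the sets of different fibres.
-/

namespace Pool.Agent.Lib.MP_1a3405_co.BP

/-- chain cells are not seeds -/
theorem kc_not_sc {L e x a b : ℤ} (hL : L % 2 = 0) (hL12 : 12 ≤ L) (hex : e + 6 ≤ x)
    (hx : x ≤ -12) (h : KC L e x a b) : ¬ SC L e x a b := by
  unfold KC at h
  unfold SC SC0
  omega

/-- a chain cell belongs to all earlier neighbouring fibres -/
theorem kc_lower {L e x e' x' a b : ℤ} (hL : L % 2 = 0) (hL12 : 12 ≤ L) (hex : e + 6 ≤ x)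
    (hx : x ≤ -12) (hex' : e' + 6 ≤ x') (hxe : x' ≤ e) (h : KC L e x a b) :
    KC L e' x' a b ∨ SC L e' x' a b := by
  unfold KC at *
  unfold SC SC0
  rcases h with h | h | h | h | h
  · right; left; right; left; omega
  · left; right; left; omega
  · left; right; right; left; omega
  · left; right; right; right; left; omega
  · right; left; right; right; right; right; omega

/-- a chain cell belongs to the face fibres -/
theorem kc_face {L e x e' x' a b : ℤ} (hL : L % 2 = 0) (hL12 : 12 ≤ L) (hex : e + 6 ≤ x)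
    (hx : x ≤ -12) (he : e' ≤ e) (hxx : x' ≤ x) (h : KC L e x a b) : MF L e' x' a b := by
  unfold MF SC0
  unfold KC at *
  rcases h with h | h | h | h | h
  · by_cases hee : e = e'
    · left; left; omega
    · right; right; left; omega
  · left; right; left; omega
  · left; right; right; left; omega
  · left; right; right; right; left; omega
  · by_cases hee : x = x'
    · left; right; right; right; right; omega
    · right; right; right; right; right; omega

/-- a chain cell is not a seed of a later neighbouring fibre -/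
theorem kc_upper {L e x e' x' a b : ℤ} (hL : L % 2 = 0) (hL12 : 12 ≤ L) (hex : e + 6 ≤ x)
    (hx : x ≤ -12) (hex' : e' + 6 ≤ x') (hx' : x' ≤ -12) (hxe : x ≤ e') (h : KC L e x a b) :
    ¬ SC L e' x' a b := by
  unfold KC at *
  unfold SC SC0
  omega

/-- heights and columns of the core cells -/
theorem core_zone {L e x a b : ℤ} (hL : L % 2 = 0) (hL12 : 12 ≤ L) (hex : e + 6 ≤ x)
    (hx : x ≤ -12) (h : KC L e x a b ∨ SC L e x a b) :
    0 ≤ b ∧ b ≤ L + 1 ∧ e ≤ a ∧ a ≤ L + 1 ∧ (3 ≤ b → b ≤ L - 2 → 0 ≤ a) ∧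
      (L - 1 ≤ b → x ≤ a) := by
  unfold KC SC SC0 at h
  refine ⟨?_, ?_, ?_, ?_, ?_, ?_⟩ <;> omega

/-- the same for the faces -/
theorem face_zone {L e x a b : ℤ} (hL : L % 2 = 0) (hL12 : 12 ≤ L) (hex : e + 6 ≤ x)
    (hx : x ≤ -12) (h : MF L e x a b) :
    0 ≤ b ∧ b ≤ L + 1 ∧ e ≤ a ∧ a ≤ L + 1 ∧ (3 ≤ b → b ≤ L - 2 → 0 ≤ a) ∧
      (L - 1 ≤ b → x ≤ a) := by
  unfold MF KC SC0 at h
  refine ⟨?_, ?_, ?_, ?_, ?_, ?_⟩ <;> omega

end Pool.Agent.Lib.MP_1a3405_co.BP
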