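import Mathlib
import Pool.Agent.Lib.MP_1a3405_co.BP.PIncl

/-!
* `nb_order`: if `v h = v g + e_i` (both active) then `g < h` and `x g ≤ e h`: apply `low` to `h`
  (the fibre `v g = v h - e_i` is in the pattern, not a face by `v_F`; `v_inj`).
* A core chain cell is not a core seed (`kc_not_sc`, `v_inj`, `v_F`).
-/

namespace Pool.Agent.Lib.MP_1a3405_co.BP

open Pool.Agent.Lib.MP_1a3405_co Pool.Agent.Lib.MP_1a3405_co.Ord

namespace Plan

variable {D r : ℕ} (P : Plan D r)

/-- the relation between two active neighbouring fibres -/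
theorem nb_order {g h : ℕ} (hg : g < P.M) (hh : h < P.M) {i : Fin D}
    (he : P.v h = nb (P.v g) (i, true)) : g < h ∧ P.x g ≤ P.e h := by
  have hb : nb (P.v h) (i, false) = P.v g := by
    rw [he]
    exact nb_nb_not (P.v g) i true
  rcases P.low h hh i (by rw [hb]; exact P.v_T g hg) with hF | ⟨h', hlt, hv, hx⟩
  · rw [hb] at hF
    exact absurd hF (P.v_F g hg)
  · rw [hb] at hv
    have e := P.v_inj h' (lt_trans hlt hh) g hg hv
    subst e
    exact ⟨hlt, hx⟩

theorem cc_not_cs {p : Fin (D + 2) → ℤ} (h : P.CC p) : ¬ P.CS p := by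
  obtain ⟨g, hg, hf, hk⟩ := h
  rintro (⟨g', hg', hf', hs⟩ | ⟨hF, -⟩)
  · have e := P.v_inj g' hg' g hg (by rw [← hf', hf])
    subst e
    exact kc_not_sc P.hL P.hL12 (P.ex g' hg) (P.x_le g' hg) hk hs
  · rw [hf] at hF
    exact P.v_F g hg hF

end Plan

end Pool.Agent.Lib.MP_1a3405_co.BP
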