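import Mathlib
import Pool.Agent.Lib.MP_1a3405_co.BP.Defs

/-!
Where the cells of the links are, and what they look like at the two end heights `3` and
`L - 2`. Everything follows by unfolding `LC`, `LS`, `FP`, `WC`, `WS` and the fields
`X_hi`, `X_lo`, `J_hi`, `J_lo`, `X_last`, `Wire.lo_const`, `Wire.hi_const`, `X_col`, `Xl_col`.
-/

namespace Pool.Agent.Lib.MP_1a3405_co.BP

open Pool.Agent.Lib.MP_1a3405_co Pool.Agent.Lib.MP_1a3405_co.Ord

namespace Plan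

variable {D r : ℕ} (P : Plan D r)

private lemma pt_start_iff (a b : ℤ) (y : Fin D → ℤ) :
    pt a b y = P.start ↔ a = P.e 0 ∧ b = 3 ∧ y = P.v 0 := pt_inj

private lemma cons_inj' {a a' : ℤ} {y y' : Fin D → ℤ} :
    (Fin.cons a y : Fin (D + 1) → ℤ) = Fin.cons a' y' ↔ a = a' ∧ y = y' :=
  Fin.cons_inj

private lemma nbt_zero (a : ℤ) (y : Fin D → ℤ) :
    nb (Fin.cons a y : Fin (D + 1) → ℤ) (0, true) = Fin.cons (a + 1) y := by
  rw [nb_cons_zero]; rfl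

private lemma nbt_succ (a : ℤ) (y : Fin D → ℤ) (i : Fin D) :
    nb (Fin.cons a y : Fin (D + 1) → ℤ) (i.succ, true) = Fin.cons a (nb y (i, true)) := by
  rw [nb_cons_succ]

private lemma X3 {g : ℕ} (hg : g < P.M) (b : ℤ) (hb : b ≤ 5) : P.X g b = P.X g 3 :=
  (P.wire g hg).lo_const b (by omega)

private lemma Xtop {g : ℕ} (hg : g < P.M) (b : ℤ) (hb : P.L - 4 ≤ b) :
    P.X g b = P.X g (P.L - 2) :=
  (P.wire g hg).hi_const b (by omega)

private lemma e_bd {g : ℕ} (hg : g < P.M) : P.aF + 6 ≤ P.e g ∧ P.e g ≤ -18 := by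
  have h1 := P.aF_lt
  have h2 := P.eF_le g hg
  have h3 := P.ex g hg
  have h4 := P.x_le g hg
  omega

private lemma X_bd {g : ℕ} (hg : g < P.M) (b : ℤ) : P.aF ≤ P.X g b 0 ∧ P.X g b 0 ≤ -12 := by
  by_cases h : g + 1 < P.M
  · have h1 := P.X_col g h b
    have h2 := P.aF_lt
    omega
  · have h1 : g = P.M - 1 := by omega
    subst h1
    exact P.Xl_col b

private lemma nb_bd {d : ℕ} (y : Fin d → ℤ) (l i : Fin d) :
    y i ≤ nb y (l, true) i ∧ nb y (l, true) i ≤ y i + 1 := by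
  by_cases h : i = l
  · subst h; simp [nb]
  · simp [nb, Function.update_of_ne h]

private lemma wc_zone {g : ℕ} (hg : g < P.M) {p : Fin (D + 2) → ℤ}
    (h : WC 3 (P.L - 2) (P.X g) p) :
    3 ≤ p 0 ∧ p 0 ≤ P.L - 2 ∧ P.aF ≤ p 1 ∧ p 1 ≤ -11 := by
  obtain ⟨h1, h2, h3⟩ := h
  have hp : p 1 = Fin.tail p 0 := rfl
  rcases h3 with h3 | h3
  · have h4 := X_bd P hg (p 0)
    rw [hp, h3]; omega
  · have h4 := X_bd P hg (p 0 + 1)
    rw [hp, h3]; omega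

private lemma ws_zone {g : ℕ} (hg : g < P.M) {p : Fin (D + 2) → ℤ}
    (h : WS 3 (P.L - 2) (P.X g) (P.J g) p) :
    3 ≤ p 0 ∧ p 0 ≤ P.L - 2 ∧ P.aF ≤ p 1 ∧ p 1 ≤ -11 := by
  obtain ⟨h1, h2, l, _, h3⟩ := h
  have hp : p 1 = Fin.tail p 0 := rfl
  rcases h3 with h3 | h3
  · have h4 := X_bd P hg (p 0)
    have h5 := nb_bd (P.X g (p 0)) l 0
    rw [hp, h3]; omega
  · have h4 := X_bd P hg (p 0 + 1)
    have h5 := nb_bd (P.X g (p 0 + 1)) l 0
    rw [hp, h3]; omega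

theorem l_zone (p : Fin (D + 2) → ℤ) (h : P.LC p ∨ P.LS p ∨ P.FP p) :
    3 ≤ p 0 ∧ p 0 ≤ P.L - 2 ∧ P.aF ≤ p 1 ∧ p 1 ≤ -11 := by
  have hL := P.hL12
  have he := e_bd P P.M_pos
  rcases h with (h | ⟨g, hg, h⟩) | ((h | h | ⟨i, _, h⟩) | ⟨g, hg, h⟩) | h
  · rw [h, start, pt_zero, pt_one]; omega
  · exact wc_zone P (by omega) h
  · rw [h, pt_zero, pt_one]; omega
  · rw [h, pt_zero, pt_one]; omega
  · rw [h, pt_zero, pt_one]; omega
  · exact ws_zone P hg h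
  · have := P.M_pos
    exact wc_zone P (by omega) h

theorem lc_three (a : ℤ) (y : Fin D → ℤ) :
    P.LC (pt a 3 y) ↔ ∃ g < P.M, y = P.v g ∧ a = P.e g := by
  have hL := P.hL12
  constructor
  · rintro (h | ⟨g, hg, -, -, h⟩)
    · rw [pt_start_iff] at h
      exact ⟨0, P.M_pos, h.2.2, h.1⟩
    · rw [tail_pt, pt_zero, X3 P (by omega) (3 + 1) (by omega), or_self, P.X_lo g hg,
        cons_inj'] at h
      exact ⟨g + 1, hg, h.2, h.1⟩
  · rintro ⟨g, hg, rfl, rfl⟩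
    rcases g with _ | g
    · exact Or.inl rfl
    · refine Or.inr ⟨g, hg, ?_, ?_, Or.inl ?_⟩
      · rw [pt_zero]
      · rw [pt_zero]; omega
      · rw [tail_pt, pt_zero, P.X_lo g hg]

theorem ls_three (a : ℤ) (y : Fin D → ℤ) (h : P.LS (pt a 3 y)) :
    (∃ g < P.M, y = P.v g ∧ a = P.e g + 1) ∨
    (∃ g < P.M, ∃ i, P.T (nb (P.v g) (i, true)) ∧ y = nb (P.v g) (i, true) ∧ a = P.e g) ∨
    a ≤ P.eF - 5 := by
  have hL := P.hL12
  rcases h with (h | h | ⟨i, hi, h⟩) | ⟨g, hg, -, -, l, hl, h⟩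
  · rw [pt_inj] at h
    omega
  · rw [pt_inj] at h
    exact Or.inl ⟨0, P.M_pos, h.2.2, h.1⟩
  · rw [pt_inj] at h
    exact Or.inr (Or.inl ⟨0, P.M_pos, i, hi, h.2.2, h.1⟩)
  · rw [pt_zero] at hl
    rw [tail_pt, pt_zero, X3 P hg (3 + 1) (by omega), or_self] at h
    by_cases hg1 : g + 1 < P.M
    · rw [P.X_lo g hg1] at h
      rw [P.J_lo g hg1] at hl
      rcases hl with rfl | ⟨i, rfl, hi⟩
      · rw [nbt_zero, cons_inj'] at h
        exact Or.inl ⟨g + 1, hg1, h.2, h.1⟩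
      · rw [nbt_succ, cons_inj'] at h
        exact Or.inr (Or.inl ⟨g + 1, hg1, i, hi, h.2, h.1⟩)
    · right; right
      have h1 : g = P.M - 1 := by omega
      subst h1
      have h2 := nb_bd (P.X (P.M - 1) 3) l 0
      have h3 : nb (P.X (P.M - 1) 3) (l, true) 0 = a := by rw [← h]; rfl
      have h4 : P.X (P.M - 1) 3 0 = P.aF := by rw [P.X_last]; rfl
      have h5 := P.aF_lt
      omega

theorem lc_top (a : ℤ) (y : Fin D → ℤ) :
    P.LC (pt a (P.L - 2) y) ↔ ∃ g, g + 1 < P.M ∧ y = P.v g ∧ a = P.x g := by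
  have hL := P.hL12
  constructor
  · rintro (h | ⟨g, hg, -, -, h⟩)
    · rw [pt_start_iff] at h
      omega
    · rw [tail_pt, pt_zero, Xtop P (by omega) (P.L - 2 + 1) (by omega), or_self,
        P.X_hi g (by omega), cons_inj'] at h
      exact ⟨g, hg, h.2, h.1⟩
  · rintro ⟨g, hg, rfl, rfl⟩
    refine Or.inr ⟨g, hg, ?_, ?_, Or.inl ?_⟩
    · rw [pt_zero]; omega
    · rw [pt_zero]
    · rw [tail_pt, pt_zero, P.X_hi g (by omega)]

theorem ls_top (a : ℤ) (y : Fin D → ℤ) (h : P.LS (pt a (P.L - 2) y)) :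
    (∃ g < P.M, y = P.v g ∧ a = P.x g + 1) ∨
    (∃ g < P.M, ∃ i, P.T (nb (P.v g) (i, true)) ∧ y = nb (P.v g) (i, true) ∧ a = P.x g) := by
  have hL := P.hL12
  rcases h with (h | h | ⟨i, hi, h⟩) | ⟨g, hg, -, -, l, hl, h⟩
  · rw [pt_inj] at h
    omega
  · rw [pt_inj] at h
    omega
  · rw [pt_inj] at h
    omega
  · rw [pt_zero] at hl
    rw [tail_pt, pt_zero, Xtop P hg (P.L - 2 + 1) (by omega), or_self, P.X_hi g hg] at h
    rw [P.J_hi g hg] at hl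
    rcases hl with rfl | ⟨i, rfl, hi⟩
    · rw [nbt_zero, cons_inj'] at h
      exact Or.inl ⟨g, hg, h.2, h.1⟩
    · rw [nbt_succ, cons_inj'] at h
      exact Or.inr ⟨g, hg, i, hi, h.2, h.1⟩

theorem fp_top (a : ℤ) (y : Fin D → ℤ) :
    P.FP (pt a (P.L - 2) y) ↔ y = P.v (P.M - 1) ∧ a = P.x (P.M - 1) := by
  have hL := P.hL12
  have hM : P.M - 1 < P.M := by have := P.M_pos; omega
  constructor
  · rintro ⟨-, -, h⟩
    rw [tail_pt, pt_zero, Xtop P hM (P.L - 2 + 1) (by omega), or_self, P.X_hi _ hM,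
      cons_inj'] at h
    exact ⟨h.2, h.1⟩
  · rintro ⟨rfl, rfl⟩
    refine ⟨?_, ?_, Or.inl ?_⟩
    · rw [pt_zero]; omega
    · rw [pt_zero]
    · rw [tail_pt, pt_zero, P.X_hi _ hM]

theorem fp_three (a : ℤ) (y : Fin D → ℤ) (h : P.FP (pt a 3 y)) : a = P.aF := by
  have hM : P.M - 1 < P.M := by have := P.M_pos; omega
  obtain ⟨-, -, h⟩ := h
  rw [tail_pt, pt_zero, X3 P hM (3 + 1) (by omega), or_self] at h
  have h3 : P.X (P.M - 1) 3 0 = a := by rw [← h]; rfl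
  have h4 : P.X (P.M - 1) 3 0 = P.aF := by rw [P.X_last]; rfl
  omega

end Plan

end Pool.Agent.Lib.MP_1a3405_co.BP
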