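import Mathlib
import Pool.Agent.Lib.MP_1a3405_co.BP.LSlice
import Pool.Agent.Lib.MP_1a3405_co.BP.PIncl

/-!
The region and the size of the chain.
-/

namespace Pool.Agent.Lib.MP_1a3405_co.BP

open Pool.Agent.Lib.MP_1a3405_co Pool.Agent.Lib.MP_1a3405_co.Ord

namespace Plan

variable {D r : ℕ} (P : Plan D r)

/-- the translation which puts the structure into the box `{1..n}^(D+2)` -/
def w : Fin (D + 2) → ℤ := pt (2 - P.aF) 5 (fun _ => 0)

theorem add_sub_w (p : Fin (D + 2) → ℤ) : p + P.w - P.w = p := by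
  funext i; simp

theorem sub_add_w (p : Fin (D + 2) → ℤ) : p - P.w + P.w = p := by
  funext i; simp

private theorem all_idx {Q : Fin (D + 2) → Prop} (h0 : Q 0) (h1 : Q 1)
    (h2 : ∀ j : Fin D, Q j.succ.succ) : ∀ i, Q i :=
  fun i => Fin.cases h0 (fun i => Fin.cases h1 h2 i) i

private theorem box_of {p : Fin (D + 2) → ℤ} {c : ℤ} (h0 : c ≤ p 0 + 5 ∧ p 0 + 5 < P.n)
    (h1 : c ≤ p 1 + (2 - P.aF) ∧ p 1 + (2 - P.aF) < P.n)
    (h2 : ∀ j : Fin D, c ≤ fib p j ∧ fib p j < P.n) :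
    ∀ i, c ≤ (p + P.w) i ∧ (p + P.w) i < P.n := by
  refine all_idx h0 h1 (fun j => ?_)
  have h3 : (p + P.w) j.succ.succ = fib p j := add_zero _
  rw [h3]
  exact h2 j

private theorem nb_up {E : ℕ} (x : Fin E → ℤ) (i j : Fin E) :
    x j ≤ nb x (i, true) j ∧ nb x (i, true) j ≤ x j + 1 := by
  by_cases h : j = i
  · subst h
    rw [nb_self]
    simp
  · rw [nb_other x true h]
    omega

private theorem e_facts {g : ℕ} (hg : g < P.M) :
    P.aF + 6 ≤ P.e g ∧ P.e g + 6 ≤ P.x g ∧ P.x g ≤ -12 := by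
  have h1 := P.aF_lt
  have h2 := P.eF_le g hg
  exact ⟨by omega, P.ex g hg, P.x_le g hg⟩

private theorem box_core {p : Fin (D + 2) → ℤ} {g : ℕ} (hg : g < P.M) (hf : fib p = P.v g)
    (h : KC P.L (P.e g) (P.x g) (p 1) (p 0) ∨ SC P.L (P.e g) (P.x g) (p 1) (p 0)) :
    ∀ i, 5 ≤ (p + P.w) i ∧ (p + P.w) i < P.n := by
  obtain ⟨f1, f2, f3⟩ := P.e_facts hg
  have hz := core_zone P.hL P.hL12 f2 f3 h
  obtain ⟨z1, z2, z3, z4, -, -⟩ := hz
  have hb := P.L_box
  refine P.box_of (by omega) (by omega) (fun j => ?_)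
  rw [hf]
  have := P.v_box g hg j
  omega

private theorem box_start (a b : ℤ) (ha : P.e 0 ≤ a) (ha' : a ≤ P.e 0 + 1) (hb : 3 ≤ b)
    (hb' : b ≤ 4) (y : Fin D → ℤ) (hy : ∀ j, P.v 0 j ≤ y j ∧ y j ≤ P.v 0 j + 1) :
    ∀ i, 5 ≤ (pt a b y + P.w) i ∧ (pt a b y + P.w) i < P.n := by
  obtain ⟨f1, f2, f3⟩ := P.e_facts P.M_pos
  have hL12 := P.hL12
  have hbx := P.L_box
  refine P.box_of ?_ ?_ (fun j => ?_)
  · rw [pt_zero]
    omega
  · rw [pt_one]
    omega
  · rw [fib_pt]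
    have h1 := P.v_box 0 P.M_pos j
    have h2 := hy j
    omega

/-- all cells except those of the final wire have coordinates `≥ 5` after the translation -/
theorem box_c {p : Fin (D + 2) → ℤ} (h : P.C p) : ∀ i, 5 ≤ (p + P.w) i ∧ (p + P.w) i < P.n := by
  rcases h with ⟨g, hg, hf, hk⟩ | h | ⟨g, hg, h3, hL, ht⟩
  · exact P.box_core hg hf (Or.inl hk)
  · rw [h]
    exact P.box_start _ _ le_rfl (by omega) le_rfl (by omega) _ (fun j => by omega)
  · obtain ⟨c, hc⟩ : ∃ c, Fin.tail p = P.X g c := by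
      rcases ht with ht | ht
      · exact ⟨_, ht⟩
      · exact ⟨_, ht⟩
    have h1 : p 1 = P.X g c 0 := congrFun hc 0
    have h2 : ∀ j : Fin D, fib p j = P.X g c j.succ := fun j => congrFun hc j.succ
    have hb := P.L_box
    have h4 := P.X_col g hg c
    have h5 := P.aF_lt
    refine P.box_of (by omega) (by omega) (fun j => ?_)
    rw [h2 j]
    have := P.X_box g hg c j
    omega

theorem box_s {p : Fin (D + 2) → ℤ} (h : P.S p) :
    (∀ i, 5 ≤ (p + P.w) i ∧ (p + P.w) i < P.n) ∨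
      (WS 3 (P.L - 2) (P.X (P.M - 1)) (P.J (P.M - 1)) p ∧ 8 ≤ (p + P.w) 0 ∧
        ∀ i, 1 ≤ (p + P.w) i ∧ (p + P.w) i < P.n) := by
  rcases h with (⟨g, hg, hf, hk⟩ | ⟨hF, hm⟩) | (h | h | ⟨i, -, h⟩) | ⟨g, hg, hws⟩
  · exact Or.inl (P.box_core hg hf (Or.inr hk))
  · left
    have hx0 := P.xF_le 0 P.M_pos
    have hx1 := P.x_le 0 P.M_pos
    have hz := face_zone P.hL P.hL12 P.eF_xF (by omega) hm
    obtain ⟨z1, z2, z3, z4, -, -⟩ := hz
    have hb := P.L_box
    have h5 := P.aF_lt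
    refine P.box_of (by omega) (by omega) (fun j => ?_)
    have := P.F_box _ hF j
    omega
  · left
    rw [h]
    exact P.box_start _ _ le_rfl (by omega) (by omega) le_rfl _ (fun j => by omega)
  · left
    rw [h]
    exact P.box_start _ _ (by omega) le_rfl le_rfl (by omega) _ (fun j => by omega)
  · left
    rw [h]
    exact P.box_start _ _ le_rfl (by omega) le_rfl (by omega) _ (fun j => nb_up _ _ _)
  · have hws' := hws
    obtain ⟨h3, hL, l, hl, ht⟩ := hws
    obtain ⟨c, hc⟩ : ∃ c, Fin.tail p = nb (P.X g c) (l, true) := by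
      rcases ht with ht | ht
      · exact ⟨_, ht⟩
      · exact ⟨_, ht⟩
    have h1 : p 1 = nb (P.X g c) (l, true) 0 := congrFun hc 0
    have h2 : ∀ j : Fin D, fib p j = nb (P.X g c) (l, true) j.succ := fun j => congrFun hc j.succ
    have hb := P.L_box
    have h5 := P.aF_lt
    have n1 := nb_up (P.X g c) l 0
    by_cases hgM : g + 1 < P.M
    · left
      have h4 := P.X_col g hgM c
      refine P.box_of (by omega) (by omega) (fun j => ?_)
      rw [h2 j]
      have h6 := P.X_box g hgM c j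
      have h7 := nb_up (P.X g c) l j.succ
      omega
    · right
      have e : g = P.M - 1 := by omega
      subst e
      refine ⟨hws', ?_, ?_⟩
      · show 8 ≤ p 0 + 5
        omega
      · have h4 := P.Xl_col c
        refine P.box_of (by omega) (by omega) (fun j => ?_)
        rw [h2 j]
        have h6 := P.Xl_box c j
        have h7 := nb_up (P.X (P.M - 1) c) l j.succ
        have h8 : 1 ≤ (if (j : ℕ) < r - 1 then (2 : ℤ) else 1) := by split_ifs <;> norm_num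
        omega

theorem box_f {p : Fin (D + 2) → ℤ} (h : P.FP p) :
    8 ≤ (p + P.w) 0 ∧ 2 ≤ (p + P.w) 1 ∧ ∀ i, 1 ≤ (p + P.w) i ∧ (p + P.w) i < P.n := by
  obtain ⟨h3, hL, ht⟩ := h
  obtain ⟨c, hc⟩ : ∃ c, Fin.tail p = P.X (P.M - 1) c := by
    rcases ht with ht | ht
    · exact ⟨_, ht⟩
    · exact ⟨_, ht⟩
  have h1 : p 1 = P.X (P.M - 1) c 0 := congrFun hc 0
  have h2 : ∀ j : Fin D, fib p j = P.X (P.M - 1) c j.succ := fun j => congrFun hc j.succ
  have hb := P.L_box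
  have h4 := P.Xl_col c
  refine ⟨?_, ?_, ?_⟩
  · show 8 ≤ p 0 + 5
    omega
  · show 2 ≤ p 1 + (2 - P.aF)
    omega
  · refine P.box_of (by omega) (by omega) (fun j => ?_)
    rw [h2 j]
    have h6 := P.Xl_box c j
    have h8 : 1 ≤ (if (j : ℕ) < r - 1 then (2 : ℤ) else 1) := by split_ifs <;> norm_num
    omega

theorem c_finite : {p | P.C p}.Finite := by
  refine (Set.finite_Icc (fun i => 5 - P.w i) (fun i => (P.n : ℤ) - P.w i)).subset ?_
  intro p hp
  have h := P.box_c hp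
  constructor
  · intro i
    have h1 := (h i).1
    rw [Pi.add_apply] at h1
    show 5 - P.w i ≤ p i
    omega
  · intro i
    have h1 := (h i).2
    rw [Pi.add_apply] at h1
    show p i ≤ (P.n : ℤ) - P.w i
    omega

/-- the chain contains the sheets `[1, L]² × {v g}` -/
theorem c_card : (P.M : ℤ) * P.L ^ 2 ≤ ({p | P.C p}.ncard : ℤ) := by
  classical
  have hL12 := P.hL12
  set S : Finset (Fin (D + 2) → ℤ) :=
    ((Finset.range P.M) ×ˢ ((Finset.Icc 1 P.L) ×ˢ (Finset.Icc 1 P.L))).image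
      (fun t : ℕ × ℤ × ℤ => pt t.2.1 t.2.2 (P.v t.1)) with hS
  have hinj : Set.InjOn (fun t : ℕ × ℤ × ℤ => pt t.2.1 t.2.2 (P.v t.1))
      (((Finset.range P.M) ×ˢ ((Finset.Icc 1 P.L) ×ˢ (Finset.Icc 1 P.L)) :
        Finset (ℕ × ℤ × ℤ)) : Set (ℕ × ℤ × ℤ)) := by
    rintro ⟨g, a, b⟩ h1 ⟨g', a', b'⟩ h2 he
    simp only [Finset.coe_product, Set.mem_prod, Finset.mem_coe, Finset.mem_range] at h1 h2
    have he' := pt_inj.mp he
    obtain ⟨e1, e2, e3⟩ := he'
    have e4 := P.v_inj g h1.1 g' h2.1 e3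
    simp only at e1 e2
    rw [e1, e2, e4]
  have hcard : (S.card : ℤ) = P.M * P.L ^ 2 := by
    rw [hS, Finset.card_image_of_injOn hinj, Finset.card_product, Finset.card_product,
      Finset.card_range, Int.card_Icc]
    have h1 : (((P.L + 1 - 1).toNat : ℕ) : ℤ) = P.L := by
      rw [Int.toNat_of_nonneg (by omega)]
      ring
    push_cast
    rw [h1]
    ring
  have hsub : (S : Set (Fin (D + 2) → ℤ)) ⊆ {p | P.C p} := by
    intro p hp
    rw [hS, Finset.coe_image] at hp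
    obtain ⟨⟨g, a, b⟩, h1, rfl⟩ := hp
    simp only [Finset.coe_product, Set.mem_prod, Finset.mem_coe, Finset.mem_range,
      Finset.mem_Icc] at h1
    obtain ⟨hg, ⟨ha1, ha2⟩, hb1, hb2⟩ := h1
    obtain ⟨f1, f2, f3⟩ := P.e_facts hg
    refine Or.inl ⟨g, hg, rfl, ?_⟩
    show KC P.L (P.e g) (P.x g) a b
    unfold KC
    omega
  rw [← hcard, ← Set.ncard_coe_finset]
  exact_mod_cast Set.ncard_le_ncard hsub P.c_finite

end Plan

end Pool.Agent.Lib.MP_1a3405_co.BP
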