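import Mathlib
import Pool.Agent.Lib.MP_1a3405_co.BP.LNear
import Pool.Agent.Lib.MP_1a3405_co.BP.LSlice

/-!
The keys of the time order. `lidx p` is the number of the link containing `p`
(well defined by `near_unique`). The chain cells of the links are not core cells
(`3 ≤ height ≤ L - 2` and column `≤ -11`), so `k1`, `k2` are given by the link formulas.
-/

namespace Pool.Agent.Lib.MP_1a3405_co.BP

open Pool.Agent.Lib.MP_1a3405_co Pool.Agent.Lib.MP_1a3405_co.Ord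

namespace Plan

variable {D r : ℕ} (P : Plan D r)

theorem idx_v {g : ℕ} (hg : g < P.M) : P.idx (P.v g) = g := by
  have h : ∃ k, k < P.M ∧ P.v k = P.v g := ⟨g, hg, rfl⟩
  unfold idx
  rw [dif_pos h]
  exact P.v_inj _ h.choose_spec.1 g hg h.choose_spec.2

private lemma near_refl' (p : Fin (D + 2) → ℤ) (j : Fin (D + 2)) : |p j - p j| ≤ 2 := by
  simp

theorem lidx_eq {g : ℕ} (hg : g + 1 < P.M) {p : Fin (D + 2) → ℤ}
    (hp : WC 3 (P.L - 2) (P.X g) p) : P.lidx p = g := by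
  have h : ∃ k, k + 1 < P.M ∧ WC 3 (P.L - 2) (P.X k) p := ⟨g, hg, hp⟩
  unfold lidx
  rw [dif_pos h]
  have h1 := h.choose_spec.1
  exact P.near_unique (by omega) (by omega) (Or.inl h.choose_spec.2) (Or.inl hp)
    (near_refl' p)

theorem lc_not_cc {p : Fin (D + 2) → ℤ} (h : P.LC p) : ¬ P.CC p := by
  rintro ⟨g, -, -, hk⟩
  have hz := P.l_zone p (Or.inl h)
  have hL := P.hL12
  unfold KC at hk
  omega

theorem not_start {g : ℕ} (hg : g < P.M) {p : Fin (D + 2) → ℤ}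
    (hp : WC 3 (P.L - 2) (P.X g) p) : p ≠ P.start := by
  intro h
  exact P.near_start hg (Or.inl hp) (Or.inl h) (near_refl' p)

theorem k_start : P.k1 P.start = 0 ∧ P.k2 P.start = 0 ∧ P.k3 P.start = 0 := by
  have h : ¬ P.CC P.start := P.lc_not_cc (Or.inl rfl)
  refine ⟨?_, ?_, ?_⟩
  · unfold k1
    rw [if_neg h, if_pos rfl]
  · unfold k2
    rw [if_neg h, if_pos rfl]
  · unfold k3
    rw [if_neg h]

theorem k_wire {g : ℕ} (hg : g + 1 < P.M) {p : Fin (D + 2) → ℤ}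
    (hp : WC 3 (P.L - 2) (P.X g) p) :
    P.k1 p = 2 * (g : ℤ) + 2 ∧ P.k2 p = wkey (P.X g) p ∧ P.k3 p = 0 := by
  have h : ¬ P.CC p := P.lc_not_cc (Or.inr ⟨g, hg, hp⟩)
  have hs : p ≠ P.start := P.not_start (by omega : g < P.M) hp
  refine ⟨?_, ?_, ?_⟩
  · unfold k1
    rw [if_neg h, if_neg hs, P.lidx_eq hg hp]
  · unfold k2
    rw [if_neg h, if_neg hs, P.lidx_eq hg hp]
  · unfold k3
    rw [if_neg h]

theorem k_core {g : ℕ} (hg : g < P.M) {a b : ℤ} (h : KC P.L (P.e g) (P.x g) a b) :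
    P.k1 (pt a b (P.v g)) = 2 * (g : ℤ) + 1 ∧
      P.k2 (pt a b (P.v g)) = ph P.L (P.e g) (P.x g) a b ∧ P.k3 (pt a b (P.v g)) = sg a b := by
  have hc : P.CC (pt a b (P.v g)) := ⟨g, hg, by rw [fib_pt], by rw [pt_one, pt_zero]; exact h⟩
  refine ⟨?_, ?_, ?_⟩
  · unfold k1
    rw [if_pos hc, fib_pt, P.idx_v hg]
  · unfold k2
    rw [if_pos hc, fib_pt, P.idx_v hg, pt_one, pt_zero]
  · unfold k3
    rw [if_pos hc, pt_one, pt_zero]

end Plan

end Pool.Agent.Lib.MP_1a3405_co.BP
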