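import Mathlib
import Pool.Agent.Lib.MP_1a3405_co.BP.Defs

/-!
Planar lemmas on the order `(ph, sg)` of the chain cells inside a fibre: injectivity, first and
last cell, immediate predecessors.
-/

namespace Pool.Agent.Lib.MP_1a3405_co.BP

/-- the order inside a fibre -/
def pl (L e x a' b' a b : ℤ) : Prop :=
  ph L e x a' b' < ph L e x a b ∨ (ph L e x a' b' = ph L e x a b ∧ sg a' b' < sg a b)

variable {L e x : ℤ}

/-- the values of the two keys -/
theorem ph_sg_cases (hL : L % 2 = 0) (hL12 : 12 ≤ L) (hex : e + 6 ≤ x) (hx : x ≤ -12)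
    {a b : ℤ} (h : KC L e x a b) :
    (a = e ∧ b = 2 ∧ ph L e x a b = 0) ∨
    (a = x ∧ b = L - 1 ∧ ph L e x a b = L + 1) ∨
    (ph L e x a b = b ∧ b % 2 = 1 ∧ sg a b = a ∧ (b = 1 ∧ e ≤ a ∨ 3 ≤ b ∧ b ≤ L - 1 ∧ 1 ≤ a) ∧
      a ≤ L) ∨
    (ph L e x a b = b ∧ b % 2 = 0 ∧ sg a b = -a ∧ (2 ≤ b ∧ b ≤ L - 2 ∧ 1 ≤ a ∨ b = L ∧ x ≤ a) ∧
      a ≤ L) := by
  unfold KC at h
  unfold ph sg
  by_cases h1 : b = 2 ∧ a = e
  · left
    rw [if_pos h1]
    omega
  by_cases h2 : b = L - 1 ∧ a = x
  · right; left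
    rw [if_neg h1, if_pos h2]
    omega
  rw [if_neg h1, if_neg h2]
  rcases Int.emod_two_eq_zero_or_one b with hb | hb
  · right; right; right
    rw [if_neg (by omega)]
    omega
  · right; right; left
    rw [if_pos hb]
    omega

theorem pl_inj (hL : L % 2 = 0) (hL12 : 12 ≤ L) (hex : e + 6 ≤ x) (hx : x ≤ -12)
    {a b a' b' : ℤ} (h : KC L e x a b) (h' : KC L e x a' b')
    (h1 : ph L e x a b = ph L e x a' b') (h2 : sg a b = sg a' b') : a = a' ∧ b = b' := by
  rcases ph_sg_cases hL hL12 hex hx h with c | c | c | c <;>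
    rcases ph_sg_cases hL hL12 hex hx h' with c' | c' | c' | c' <;> omega

theorem pl_first (hL : L % 2 = 0) (hL12 : 12 ≤ L) (hex : e + 6 ≤ x) (hx : x ≤ -12)
    {a b : ℤ} (h : KC L e x a b) : (a = e ∧ b = 2) ∨ pl L e x e 2 a b := by
  have h0 : ph L e x e 2 = 0 := by unfold ph; rw [if_pos ⟨rfl, rfl⟩]
  unfold pl
  rw [h0]
  rcases ph_sg_cases hL hL12 hex hx h with c | c | c | c
  · left; omega
  · right; left; omega
  · right; left; omega
  · right; left; omega

theorem pl_last (hL : L % 2 = 0) (hL12 : 12 ≤ L) (hex : e + 6 ≤ x) (hx : x ≤ -12)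
    {a b : ℤ} (h : KC L e x a b) : (a = x ∧ b = L - 1) ∨ pl L e x a b x (L - 1) := by
  have h0 : ph L e x x (L - 1) = L + 1 := by
    unfold ph
    rw [if_neg (by omega), if_pos ⟨rfl, rfl⟩]
  unfold pl
  rw [h0]
  rcases ph_sg_cases hL hL12 hex hx h with c | c | c | c
  · right; left; omega
  · left; omega
  · right; left; omega
  · right; left; omega

theorem pl_pred_aux (hL : L % 2 = 0) (hL12 : 12 ≤ L) (hex : e + 6 ≤ x) (hx : x ≤ -12)
    {a b a' b' : ℤ} (h : KC L e x a b) (h' : KC L e x a' b')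
    (hp : (ph L e x a' b' = ph L e x a b ∧ sg a' b' + 1 = sg a b) ∨
      (ph L e x a' b' + 1 = ph L e x a b ∧ (∀ a'' b'', KC L e x a'' b'' →
        ph L e x a'' b'' = ph L e x a' b' → (a'' = a' ∧ b'' = b') ∨ sg a'' b'' < sg a' b') ∧
        (∀ a'' b'', KC L e x a'' b'' →
        ph L e x a'' b'' = ph L e x a b → sg a b ≤ sg a'' b''))) :
    pl L e x a' b' a b ∧
      ∀ a'' b'', KC L e x a'' b'' → pl L e x a'' b'' a b →
        (a'' = a' ∧ b'' = b') ∨ pl L e x a'' b'' a' b' := by
  rcases hp with hp | ⟨hp1, hp2, hp3⟩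
  · refine ⟨Or.inr (by omega), ?_⟩
    intro a'' b'' h'' hpl
    unfold pl at hpl ⊢
    rcases hpl with hpl | hpl
    · right; left; omega
    · by_cases hs : sg a'' b'' = sg a' b'
      · left
        exact pl_inj hL hL12 hex hx h'' h' (by omega) hs
      · right; right; omega
  · refine ⟨Or.inl (by omega), ?_⟩
    intro a'' b'' h'' hpl
    unfold pl at hpl ⊢
    rcases hpl with hpl | hpl
    · by_cases hs : ph L e x a'' b'' = ph L e x a' b'
      · rcases hp2 a'' b'' h'' hs with h3 | h3
        · left; exact h3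
        · right; right; exact ⟨hs, h3⟩
      · right; left; omega
    · exfalso
      have := hp3 a'' b'' h'' hpl.1
      omega

/-- the immediate predecessor is one of the four neighbours -/
theorem pl_pred (hL : L % 2 = 0) (hL12 : 12 ≤ L) (hex : e + 6 ≤ x) (hx : x ≤ -12)
    {a b : ℤ} (h : KC L e x a b) (hne : ¬ (a = e ∧ b = 2)) :
    ∃ a' b', ((a' = a ∧ b' = b + 1) ∨ (a' = a ∧ b' = b - 1) ∨ (a' = a + 1 ∧ b' = b) ∨
        (a' = a - 1 ∧ b' = b)) ∧ KC L e x a' b' ∧ pl L e x a' b' a b ∧
      ∀ a'' b'', KC L e x a'' b'' → pl L e x a'' b'' a b →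
        (a'' = a' ∧ b'' = b') ∨ pl L e x a'' b'' a' b' := by
  rcases ph_sg_cases hL hL12 hex hx h with c | c | c | c
  · omega
  · -- (x, L-1): predecessor (x, L)
    obtain ⟨rfl, rfl, c⟩ := c
    have hk : KC L e a a L := by unfold KC; right; right; right; left; omega
    have hph : ph L e a a L = L := by
      unfold ph; rw [if_neg (by omega), if_neg (by omega)]
    refine ⟨a, L, by omega, hk, pl_pred_aux hL hL12 hex hx h hk (Or.inr ⟨by omega, ?_, ?_⟩)⟩
    · intro a'' b'' h'' he
      have hsg : sg a L = -a := by unfold sg; rw [if_neg (by omega)]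
      rcases ph_sg_cases hL hL12 hex hx h'' with c' | c' | c' | c' <;> omega
    · intro a'' b'' h'' he
      rcases ph_sg_cases hL hL12 hex hx h'' with c' | c' | c' | c'
      · omega
      · rw [c'.1, c'.2.1]
      · omega
      · omega
  · -- odd row
    obtain ⟨c1, c2, c3, c4, c5⟩ := c
    by_cases hs : (b = 1 ∧ a = e) ∨ (3 ≤ b ∧ a = 1)
    · -- start of a row
      rcases hs with ⟨rfl, rfl⟩ | ⟨hb, rfl⟩
      · have hk : KC L a x a 2 := by unfold KC; left; omega
        have hph : ph L a x a 2 = 0 := by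
          unfold ph; rw [if_pos ⟨rfl, rfl⟩]
        refine ⟨a, 2, by omega, hk, pl_pred_aux hL hL12 hex hx h hk (Or.inr ⟨by omega, ?_, ?_⟩)⟩
        · intro a'' b'' h'' he
          rcases ph_sg_cases hL hL12 hex hx h'' with c' | c' | c' | c' <;> omega
        · intro a'' b'' h'' he
          rcases ph_sg_cases hL hL12 hex hx h'' with c' | c' | c' | c' <;> omega
      · have hk : KC L e x 1 (b - 1) := by unfold KC; omega
        have hph : ph L e x 1 (b - 1) = b - 1 := by
          unfold ph; rw [if_neg (by omega), if_neg (by omega)]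
        have hsg : sg 1 (b - 1) = -1 := by unfold sg; rw [if_neg (by omega)]
        refine ⟨1, b - 1, by omega, hk,
          pl_pred_aux hL hL12 hex hx h hk (Or.inr ⟨by omega, ?_, ?_⟩)⟩
        · intro a'' b'' h'' he
          rcases ph_sg_cases hL hL12 hex hx h'' with c' | c' | c' | c' <;> omega
        · intro a'' b'' h'' he
          rcases ph_sg_cases hL hL12 hex hx h'' with c' | c' | c' | c' <;> omega
    · have hk : KC L e x (a - 1) b := by unfold KC; omega
      have hph : ph L e x (a - 1) b = b := by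
        unfold ph; rw [if_neg (by omega), if_neg (by omega)]
      have hsg : sg (a - 1) b = a - 1 := by unfold sg; rw [if_pos (by omega)]
      exact ⟨a - 1, b, by omega, hk,
        pl_pred_aux hL hL12 hex hx h hk (Or.inl ⟨by omega, by omega⟩)⟩
  · -- even row
    obtain ⟨c1, c2, c3, c4, c5⟩ := c
    by_cases hs : a = L
    · have hk : KC L e x L (b - 1) := by unfold KC; omega
      have hph : ph L e x L (b - 1) = b - 1 := by
        unfold ph; rw [if_neg (by omega), if_neg (by omega)]
      have hsg : sg L (b - 1) = L := by unfold sg; rw [if_pos (by omega)]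
      refine ⟨L, b - 1, by omega, hk,
        pl_pred_aux hL hL12 hex hx h hk (Or.inr ⟨by omega, ?_, ?_⟩)⟩
      · intro a'' b'' h'' he
        rcases ph_sg_cases hL hL12 hex hx h'' with c' | c' | c' | c' <;> omega
      · intro a'' b'' h'' he
        rcases ph_sg_cases hL hL12 hex hx h'' with c' | c' | c' | c' <;> omega
    · have hk : KC L e x (a + 1) b := by unfold KC; omega
      have hph : ph L e x (a + 1) b = b := by
        unfold ph; rw [if_neg (by omega), if_neg (by omega)]
      have hsg : sg (a + 1) b = -(a + 1) := by unfold sg; rw [if_neg (by omega)]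
      exact ⟨a + 1, b, by omega, hk,
        pl_pred_aux hL hL12 hex hx h hk (Or.inl ⟨by omega, by omega⟩)⟩

end Pool.Agent.Lib.MP_1a3405_co.BP
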