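import Mathlib
import Pool.Agent.Lib.MP_1a3405_co.BP.Defs

/-!
The order along a wire: `wkey` is injective on the chain cells; each chain cell except the first
one has exactly one earlier chain cell among its neighbours, its immediate predecessor.
(The predecessor of `(b; X (b+1))` is `(b+1; X (b+1))`; at a step height the predecessor of
`(b; X b)` is `(b; X (b+1))`. By `gap`, `X (b+2) ≠ X b` if `X b ≠ X (b+1)`.)
-/

namespace Pool.Agent.Lib.MP_1a3405_co.BP

open Pool.Agent.Lib.MP_1a3405_co Pool.Agent.Lib.MP_1a3405_co.Ord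

variable {E r : ℕ} {lo hi : ℤ} {X : ℤ → Fin E → ℤ} {J : ℤ → Finset (Fin E)}

private lemma wc_cons (b : ℤ) (t : Fin E → ℤ) :
    WC lo hi X (Fin.cons b t) ↔ lo ≤ b ∧ b ≤ hi ∧ (t = X b ∨ t = X (b + 1)) := Iff.rfl

open Classical in
private lemma wkey_cons (b : ℤ) (t : Fin E → ℤ) :
    wkey X (Fin.cons b t) = -2 * b + (if t = X b then 1 else 0) := rfl

private lemma wkey_pos {b : ℤ} {t : Fin E → ℤ} (h : t = X b) :
    wkey X (Fin.cons b t) = -2 * b + 1 := by
  rw [wkey_cons, if_pos h]

private lemma wkey_neg {b : ℤ} {t : Fin E → ℤ} (h : t ≠ X b) :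
    wkey X (Fin.cons b t) = -2 * b := by
  rw [wkey_cons, if_neg h, add_zero]

private lemma wkey_bds (b : ℤ) (t : Fin E → ℤ) :
    -2 * b ≤ wkey X (Fin.cons b t) ∧ wkey X (Fin.cons b t) ≤ -2 * b + 1 := by
  by_cases h : t = X b
  · rw [wkey_pos h]; omega
  · rw [wkey_neg h]; omega

private lemma nb_inj' {x : Fin E → ℤ} {δ δ' : Fin E × Bool} (h : nb x δ = nb x δ') : δ = δ' := by
  obtain ⟨i, s⟩ := δ
  obtain ⟨j, s'⟩ := δ'
  by_cases hij : i = j
  · subst hij
    have h1 := congrFun h i
    rw [nb_self, nb_self] at h1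
    cases s <;> cases s' <;> simp at h1 ⊢
  · have h1 := congrFun h i
    rw [nb_self, nb_other x s' hij] at h1
    cases s <;> simp at h1

private lemma exists_cons (p : Fin (E + 1) → ℤ) : ∃ b t, p = Fin.cons b t :=
  ⟨p 0, Fin.tail p, (Fin.cons_self_tail p).symm⟩

theorem wire_key_inj (h : Wire r lo hi X J) {p q : Fin (E + 1) → ℤ} (hp : WC lo hi X p)
    (hq : WC lo hi X q) (hk : wkey X p = wkey X q) : p = q := by
  obtain ⟨b, t, rfl⟩ := exists_cons p
  obtain ⟨b', t', rfl⟩ := exists_cons q
  rw [wc_cons] at hp hq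
  by_cases h1 : t = X b
  · by_cases h2 : t' = X b'
    · rw [wkey_pos h1, wkey_pos h2] at hk
      have : b = b' := by omega
      subst this
      rw [h1, h2]
    · rw [wkey_pos h1, wkey_neg h2] at hk
      omega
  · by_cases h2 : t' = X b'
    · rw [wkey_neg h1, wkey_pos h2] at hk
      omega
    · rw [wkey_neg h1, wkey_neg h2] at hk
      have : b = b' := by omega
      subst this
      rw [hp.2.2.resolve_left h1, hq.2.2.resolve_left h2]

theorem wire_first (h : Wire r lo hi X J) :
    WC lo hi X (Fin.cons hi (X hi)) ∧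
      ∀ q, WC lo hi X q → wkey X (Fin.cons hi (X hi)) ≤ wkey X q := by
  have hl := h.len
  refine ⟨(wc_cons _ _).2 ⟨by omega, le_refl _, Or.inl rfl⟩, fun q hq => ?_⟩
  obtain ⟨b, t, rfl⟩ := exists_cons q
  rw [wc_cons] at hq
  rw [wkey_pos rfl]
  rcases lt_or_eq_of_le hq.2.1 with hb | hb
  · have := (wkey_bds (X := X) b t).1
    omega
  · subst hb
    have ht : t = X b := by
      rcases hq.2.2 with h1 | h1
      · exact h1
      · rw [h1]; exact h.hi_const (b + 1) (by omega)
    rw [wkey_pos ht]

theorem wire_last (h : Wire r lo hi X J) :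
    WC lo hi X (Fin.cons lo (X lo)) ∧
      ∀ q, WC lo hi X q → wkey X q ≤ wkey X (Fin.cons lo (X lo)) := by
  have hl := h.len
  refine ⟨(wc_cons _ _).2 ⟨le_refl _, by omega, Or.inl rfl⟩, fun q hq => ?_⟩
  obtain ⟨b, t, rfl⟩ := exists_cons q
  rw [wc_cons] at hq
  rw [wkey_pos (b := lo) rfl]
  have := (wkey_bds (X := X) b t).2
  omega

/-- general form: a predecessor whose key is the largest one below, plus the count -/
private lemma pred_aux (h : Wire r lo hi X J) {p : Fin (E + 1) → ℤ} (δ : Fin (E + 1) × Bool)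
    (h1 : WC lo hi X (nb p δ)) (h2 : wkey X (nb p δ) < wkey X p)
    (h3 : ∀ q, WC lo hi X q → wkey X q < wkey X p → wkey X q ≤ wkey X (nb p δ))
    (h4 : ∀ δ', WC lo hi X (nb p δ') → wkey X (nb p δ') < wkey X p → δ' = δ) :
    cz (fun q => WC lo hi X q ∧ wkey X q < wkey X p) p = 1 ∧
      ∃ δ, WC lo hi X (nb p δ) ∧ wkey X (nb p δ) < wkey X p ∧
        ∀ q, WC lo hi X q → wkey X q < wkey X p → q = nb p δ ∨ wkey X q < wkey X (nb p δ) := by
  refine ⟨?_, δ, h1, h2, fun q hq hlt => ?_⟩
  · rw [cz_eq_of_iff (S := {δ})]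
    · simp
    · intro δ'
      rw [Finset.mem_singleton]
      constructor
      · rintro ⟨ha, hb⟩; exact h4 δ' ha hb
      · rintro rfl; exact ⟨h1, h2⟩
  · rcases lt_or_eq_of_le (h3 q hq hlt) with hh | hh
    · exact Or.inr hh
    · exact Or.inl (wire_key_inj h hq h1 hh)

theorem wire_pred (h : Wire r lo hi X J) {p : Fin (E + 1) → ℤ} (hp : WC lo hi X p)
    (hne : p ≠ Fin.cons hi (X hi)) :
    cz (fun q => WC lo hi X q ∧ wkey X q < wkey X p) p = 1 ∧
      ∃ δ, WC lo hi X (nb p δ) ∧ wkey X (nb p δ) < wkey X p ∧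
        ∀ q, WC lo hi X q → wkey X q < wkey X p → q = nb p δ ∨ wkey X q < wkey X (nb p δ) := by
  obtain ⟨b, t, rfl⟩ := exists_cons p
  have hp' := (wc_cons _ _).1 hp
  have hb1 : b + 1 ≤ hi := by
    rcases lt_or_eq_of_le hp'.2.1 with hb | hb
    · omega
    · subst hb
      exfalso
      apply hne
      rcases hp'.2.2 with h1 | h1
      · rw [h1]
      · rw [h1, h.hi_const (b + 1) (by omega)]
  by_cases ht : t = X b
  · by_cases hs : X b = X (b + 1)
    · -- no step: the predecessor is above
      have htn : t = X (b + 1) := ht.trans hs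
      refine pred_aux h (0, true) ?_ ?_ ?_ ?_
      · rw [nb_cons_zero, if_pos rfl]
        exact (wc_cons _ _).2 ⟨by omega, hb1, Or.inl htn⟩
      · rw [nb_cons_zero, if_pos rfl, wkey_pos htn, wkey_pos ht]; omega
      · intro q hq hlt
        rw [nb_cons_zero, if_pos rfl, wkey_pos htn]
        rw [wkey_pos ht] at hlt
        obtain ⟨b', t', rfl⟩ := exists_cons q
        rw [wc_cons] at hq
        have hbd := wkey_bds (X := X) b' t'
        by_contra hc
        have hb' : b' = b := by omega
        subst hb'
        have ht' : t' = X b' := by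
          rcases hq.2.2 with h1 | h1
          · exact h1
          · rw [h1, hs]
        rw [wkey_pos ht'] at hlt
        omega
      · rintro ⟨j, s⟩ hW hlt
        rw [wkey_pos ht] at hlt
        refine Fin.cases (fun hW hlt => ?_) (fun j hW hlt => ?_) j hW hlt
        · rw [nb_cons_zero] at hW hlt
          cases s
          · exfalso
            have := (wkey_bds (X := X) (b + if (false = true) then 1 else -1) t).1
            simp only [Bool.false_eq_true, if_false] at this hlt
            omega
          · rfl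
        · exfalso
          rw [nb_cons_succ, wc_cons] at hW
          rcases hW.2.2 with h1 | h1
          · exact nb_ne t (j, s) (h1.trans ht.symm)
          · exact nb_ne t (j, s) (h1.trans htn.symm)
    · -- step height, after the step
      obtain ⟨i, s₀, hi1, -, -, -⟩ := (h.step b).resolve_left hs
      have hnb : nb t (i, !s₀) = X (b + 1) := by
        rw [ht, hi1, nb_nb_not]
      have hnx : nb t (i, !s₀) ≠ X b := by rw [hnb]; exact fun hh => hs hh.symm
      refine pred_aux h (i.succ, !s₀) ?_ ?_ ?_ ?_
      · rw [nb_cons_succ]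
        exact (wc_cons _ _).2 ⟨hp'.1, hp'.2.1, Or.inr hnb⟩
      · rw [nb_cons_succ, wkey_pos ht, wkey_neg hnx]; omega
      · intro q hq hlt
        rw [nb_cons_succ, wkey_neg hnx]
        rw [wkey_pos ht] at hlt
        omega
      · rintro ⟨j, s⟩ hW hlt
        rw [wkey_pos ht] at hlt
        refine Fin.cases (fun hW hlt => ?_) (fun j hW hlt => ?_) j hW hlt
        · rw [nb_cons_zero] at hW hlt
          exfalso
          cases s
          · have := (wkey_bds (X := X) (b + if (false = true) then 1 else -1) t).1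
            simp only [Bool.false_eq_true, if_false] at this hlt
            omega
          · rw [if_pos rfl, wc_cons] at hW
            rcases hW.2.2 with h1 | h1
            · exact hs (ht.symm.trans h1)
            · rw [show b + 1 + 1 = b + 2 by ring, ← h.gap b hs] at h1
              exact hs (ht.symm.trans h1)
        · rw [nb_cons_succ, wc_cons] at hW
          rcases hW.2.2 with h1 | h1
          · exact absurd (h1.trans ht.symm) (nb_ne t (j, s))
          · have := nb_inj' (h1.trans hnb.symm)
            simp only [Prod.mk.injEq] at this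
            rw [this.1, this.2]
  · -- step height, before the step
    have htn : t = X (b + 1) := hp'.2.2.resolve_left ht
    refine pred_aux h (0, true) ?_ ?_ ?_ ?_
    · rw [nb_cons_zero, if_pos rfl]
      exact (wc_cons _ _).2 ⟨by omega, hb1, Or.inl htn⟩
    · rw [nb_cons_zero, if_pos rfl, wkey_pos htn, wkey_neg ht]; omega
    · intro q hq hlt
      rw [nb_cons_zero, if_pos rfl, wkey_pos htn]
      rw [wkey_neg ht] at hlt
      omega
    · rintro ⟨j, s⟩ hW hlt
      rw [wkey_neg ht] at hlt
      refine Fin.cases (fun hW hlt => ?_) (fun j hW hlt => ?_) j hW hlt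
      · rw [nb_cons_zero] at hW hlt
        cases s
        · exfalso
          have := (wkey_bds (X := X) (b + if (false = true) then 1 else -1) t).1
          simp only [Bool.false_eq_true, if_false] at this hlt
          omega
        · rfl
      · exfalso
        rw [nb_cons_succ, wc_cons] at hW
        rw [nb_cons_succ] at hlt
        rcases hW.2.2 with h1 | h1
        · rw [wkey_pos h1] at hlt; omega
        · exact nb_ne t (j, s) (h1.trans htn.symm)

end Pool.Agent.Lib.MP_1a3405_co.BP
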