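import Mathlib
import Pool.Agent.Lib.MP_1a3405_co.BP.Defs

/-!
Planar lemma: a chain cell of an active fibre sees, inside its fibre, exactly two cells which are
seeds or earlier chain cells (only one for the first cell `(e, 2)`).

Row by row (`L` even): row `1` is run to the right from `e` to `L` (partner: the seed `(a,2)` for
`a ≤ -3`, `(a,0)` for `a ≥ -2` and for `a = e`), the rows `2, …, L` alternate (even rows to the
left, odd rows to the right; partner: the cell below; at the turns the seed `(L+1,b)`, `b` even,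
or `(0,b)`, `b` odd), row `L` goes on to the left until `x` (partner `(a,L-1)`; for `a = x` the
seed `(x,L+1)`), and the last cell is `(x,L-1)` (partner `(x+1,L-1)`).
-/

namespace Pool.Agent.Lib.MP_1a3405_co.BP

/-- `(a', b')` is a seed, or a chain cell earlier than `(a, b)` -/
def EK (L e x a b a' b' : ℤ) : Prop :=
  SC L e x a' b' ∨ (KC L e x a' b' ∧ (ph L e x a' b' < ph L e x a b ∨
    (ph L e x a' b' = ph L e x a b ∧ sg a' b' < sg a b)))

open Classical in
theorem sum_aux {p q r s : Prop} {c : Prop} [Decidable c] (hc : ¬ c)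
    (h : (p ∧ q ∧ ¬ r ∧ ¬ s) ∨ (p ∧ ¬ q ∧ r ∧ ¬ s) ∨ (p ∧ ¬ q ∧ ¬ r ∧ s) ∨
      (¬ p ∧ q ∧ r ∧ ¬ s) ∨ (¬ p ∧ q ∧ ¬ r ∧ s) ∨ (¬ p ∧ ¬ q ∧ r ∧ s)) :
    (if p then 1 else 0) + (if q then 1 else 0) + ((if r then 1 else 0) + (if s then 1 else 0)) =
      if c then 1 else 2 := by
  rcases h with ⟨h1, h2, h3, h4⟩ | ⟨h1, h2, h3, h4⟩ | ⟨h1, h2, h3, h4⟩ | ⟨h1, h2, h3, h4⟩ |
    ⟨h1, h2, h3, h4⟩ | ⟨h1, h2, h3, h4⟩ <;> simp [h1, h2, h3, h4, hc]

open Classical in
theorem plane_chain {L e x a b : ℤ} (hL : L % 2 = 0) (hL12 : 12 ≤ L) (hex : e + 6 ≤ x)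
    (hx : x ≤ -12) (h : KC L e x a b) :
    (if EK L e x a b a (b + 1) then 1 else 0) + (if EK L e x a b a (b - 1) then 1 else 0) +
      ((if EK L e x a b (a + 1) b then 1 else 0) + (if EK L e x a b (a - 1) b then 1 else 0)) =
    if b = 2 ∧ a = e then 1 else 2 := by
  unfold KC at h
  by_cases hf : b = 2 ∧ a = e
  · have h1 : ¬ EK L e x a b a (b + 1) := by unfold EK SC SC0 KC ph sg; omega
    have h2 : ¬ EK L e x a b a (b - 1) := by unfold EK SC SC0 KC ph sg; omega
    have h3 : EK L e x a b (a + 1) b := by left; unfold SC SC0; omega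
    have h4 : ¬ EK L e x a b (a - 1) b := by unfold EK SC SC0 KC ph sg; omega
    rw [if_pos hf, if_neg h1, if_neg h2, if_pos h3, if_neg h4]
  rcases h with h | ⟨hb, ha1, ha2⟩ | ⟨hb1, hb2, ha1, ha2⟩ | ⟨hb, ha1, ha2⟩ | ⟨hb, ha⟩
  · exact absurd h hf
  · -- row 1
    subst hb
    have h3 : ¬ EK L e x a 1 (a + 1) 1 := by unfold EK SC SC0 KC ph sg; omega
    rcases lt_trichotomy a (-2) with h | h | h
    · have h1 : EK L e x a 1 a (1 + 1) := by
        unfold EK SC SC0 KC ph sg; omega
      by_cases hae : a = e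
      · have h2 : EK L e x a 1 a (1 - 1) := by left; unfold SC SC0; omega
        have h4 : ¬ EK L e x a 1 (a - 1) 1 := by unfold EK SC SC0 KC ph sg; omega
        exact sum_aux hf (Or.inl ⟨h1, h2, h3, h4⟩)
      · have h2 : ¬ EK L e x a 1 a (1 - 1) := by unfold EK SC SC0 KC ph sg; omega
        have h4 : EK L e x a 1 (a - 1) 1 := by unfold EK SC SC0 KC ph sg; omega
        exact sum_aux hf (Or.inr (Or.inr (Or.inl ⟨h1, h2, h3, h4⟩)))
    · have h1 : ¬ EK L e x a 1 a (1 + 1) := by unfold EK SC SC0 KC ph sg; omega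
      have h2 : EK L e x a 1 a (1 - 1) := by left; unfold SC SC0; omega
      have h4 : EK L e x a 1 (a - 1) 1 := by unfold EK SC SC0 KC ph sg; omega
      exact sum_aux hf (Or.inr (Or.inr (Or.inr (Or.inr (Or.inl ⟨h1, h2, h3, h4⟩)))))
    · have h1 : ¬ EK L e x a 1 a (1 + 1) := by unfold EK SC SC0 KC ph sg; omega
      have h2 : EK L e x a 1 a (1 - 1) := by left; unfold SC SC0; omega
      have h4 : EK L e x a 1 (a - 1) 1 := by unfold EK SC SC0 KC ph sg; omega
      exact sum_aux hf (Or.inr (Or.inr (Or.inr (Or.inr (Or.inl ⟨h1, h2, h3, h4⟩)))))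
  · -- the square
    have h1 : ¬ EK L e x a b a (b + 1) := by unfold EK SC SC0 KC ph sg; omega
    have h2 : EK L e x a b a (b - 1) := by
      right
      refine ⟨?_, Or.inl ?_⟩
      · unfold KC; omega
      · unfold ph; omega
    rcases Int.emod_two_eq_zero_or_one b with hm | hm
    · have h3 : EK L e x a b (a + 1) b := by
        by_cases haL : a = L
        · left; unfold SC SC0; omega
        · right
          refine ⟨?_, Or.inr ⟨?_, ?_⟩⟩
          · unfold KC; omega
          · unfold ph; omega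
          · unfold sg; omega
      have h4 : ¬ EK L e x a b (a - 1) b := by unfold EK SC SC0 KC ph sg; omega
      exact sum_aux hf (Or.inr (Or.inr (Or.inr (Or.inl ⟨h1, h2, h3, h4⟩))))
    · have h3 : ¬ EK L e x a b (a + 1) b := by unfold EK SC SC0 KC ph sg; omega
      have h4 : EK L e x a b (a - 1) b := by
        by_cases ha1' : a = 1
        · left; unfold SC SC0; omega
        · right
          refine ⟨?_, Or.inr ⟨?_, ?_⟩⟩
          · unfold KC; omega
          · unfold ph; omega
          · unfold sg; omega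
      exact sum_aux hf (Or.inr (Or.inr (Or.inr (Or.inr (Or.inl ⟨h1, h2, h3, h4⟩)))))
  · -- the top row
    subst hb
    have h3 : EK b e x a b (a + 1) b := by
      by_cases haL : a = b
      · left; unfold SC SC0; omega
      · right
        refine ⟨?_, Or.inr ⟨?_, ?_⟩⟩
        · unfold KC; omega
        · unfold ph; omega
        · unfold sg; omega
    have h4 : ¬ EK b e x a b (a - 1) b := by unfold EK SC SC0 KC ph sg; omega
    by_cases hax : a = x
    · have h1 : EK b e x a b a (b + 1) := by left; unfold SC; omega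
      have h2 : ¬ EK b e x a b a (b - 1) := by unfold EK SC SC0 KC ph sg; omega
      exact sum_aux hf (Or.inr (Or.inl ⟨h1, h2, h3, h4⟩))
    · have h1 : ¬ EK b e x a b a (b + 1) := by unfold EK SC SC0 KC ph sg; omega
      have h2 : EK b e x a b a (b - 1) := by
        by_cases ha0 : 1 ≤ a
        · right
          refine ⟨?_, Or.inl ?_⟩
          · unfold KC; omega
          · unfold ph; omega
        · left; unfold SC SC0; omega
      exact sum_aux hf (Or.inr (Or.inr (Or.inr (Or.inl ⟨h1, h2, h3, h4⟩))))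
  · -- the last cell
    subst hb; subst ha
    have h1 : EK L e a a (L - 1) a (L - 1 + 1) := by
      right
      refine ⟨?_, Or.inl ?_⟩
      · unfold KC; omega
      · unfold ph; omega
    have h2 : ¬ EK L e a a (L - 1) a (L - 1 - 1) := by unfold EK SC SC0 KC ph sg; omega
    have h3 : EK L e a a (L - 1) (a + 1) (L - 1) := by left; unfold SC SC0; omega
    have h4 : ¬ EK L e a a (L - 1) (a - 1) (L - 1) := by unfold EK SC SC0 KC ph sg; omega
    exact sum_aux hf (Or.inr (Or.inl ⟨h1, h2, h3, h4⟩))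

end Pool.Agent.Lib.MP_1a3405_co.BP
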