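import Mathlib
import Pool.Agent.Lib.MP_1a3405_co.BP.PChain
import Pool.Agent.Lib.MP_1a3405_co.BP.PIncl
import Pool.Agent.Lib.MP_1a3405_co.BP.LKey
import Pool.Agent.Lib.MP_1a3405_co.BP.COrd

/-!
A chain cell `(a, b; v g)` of an active fibre sees exactly `r` core seeds and earlier core cells
(`r - 1` for the first cell of the fibre): two (one) inside the fibre (`plane_chain`), and one in
each of the `r - 2` fibres `v g - e_i` in the pattern (`T_dn`): by `low` such a fibre is a face
(`kc_face`) or an earlier active fibre (`kc_lower`). A fibre `v g + e_i` in the pattern is not a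
face (`up_F`); if it is active, `v g + e_i = v h`, then `g < h` and `x g ≤ e h` by `low` for `h`
(and `v_F`, `v_inj`), so the cell `(a, b)` there is not a seed (`kc_upper`) and not earlier.
The keys are computed by `k_core`, `idx_v`.
-/

namespace Pool.Agent.Lib.MP_1a3405_co.BP

open Pool.Agent.Lib.MP_1a3405_co Pool.Agent.Lib.MP_1a3405_co.Ord

namespace Plan

variable {D r : ℕ} (P : Plan D r)

/-- core chain cells over an active fibre -/
theorem cs_cc_iff {g : ℕ} (hg : g < P.M) (a b : ℤ) :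
    P.CC (pt a b (P.v g)) ↔ KC P.L (P.e g) (P.x g) a b := by
  constructor
  · rintro ⟨h, hh, hf, hk⟩
    rw [fib_pt] at hf
    have := P.v_inj g hg h hh hf
    subst this
    exact hk
  · intro hk
    exact ⟨g, hg, rfl, hk⟩

/-- core seeds over an active fibre -/
theorem cs_cs_iff {g : ℕ} (hg : g < P.M) (a b : ℤ) :
    P.CS (pt a b (P.v g)) ↔ SC P.L (P.e g) (P.x g) a b := by
  constructor
  · rintro (⟨h, hh, hf, hk⟩ | ⟨hF, -⟩)
    · rw [fib_pt] at hf
      have := P.v_inj g hg h hh hf
      subst this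
      exact hk
    · rw [fib_pt] at hF
      exact absurd hF (P.v_F g hg)
  · intro hk
    exact Or.inl ⟨g, hg, rfl, hk⟩

/-- the part of the count in the neighbouring fibres -/
theorem core_star_fib {g : ℕ} (hg : g < P.M) {a b : ℤ} (h : KC P.L (P.e g) (P.x g) a b) :
    cz (fun y => P.CS (pt a b y) ∨
      (P.CC (pt a b y) ∧ P.bef (pt a b y) (pt a b (P.v g)))) (P.v g) = r - 2 := by
  classical
  have hkg := P.k_core hg h
  have hup : ∀ i : Fin D, ¬ (P.CS (pt a b (nb (P.v g) (i, true))) ∨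
      (P.CC (pt a b (nb (P.v g) (i, true))) ∧
        P.bef (pt a b (nb (P.v g) (i, true))) (pt a b (P.v g)))) := by
    intro i hq
    rcases hq with (⟨k, hk, hf, hs⟩ | ⟨hF, -⟩) | ⟨⟨k, hk, hf, hs⟩, hb⟩
    · rw [fib_pt] at hf
      obtain ⟨-, h2⟩ := P.nb_order hg hk hf.symm
      exact kc_upper P.hL P.hL12 (P.ex g hg) (P.x_le g hg) (P.ex k hk) (P.x_le k hk) h2 h hs
    · rw [fib_pt] at hF
      exact P.up_F g hg i hF
    · rw [fib_pt] at hf
      obtain ⟨h1, -⟩ := P.nb_order hg hk hf.symm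
      rw [hf] at hb
      have hkk := P.k_core hk hs
      have hlt : (g : ℤ) < k := by exact_mod_cast h1
      simp only [pt_one, pt_zero] at hkk
      rcases hb with hb | ⟨hb, -⟩
      · rw [hkk.1, hkg.1] at hb
        omega
      · rw [hkk.1, hkg.1] at hb
        omega
  have hdn : ∀ i : Fin D, (P.CS (pt a b (nb (P.v g) (i, false))) ∨
      (P.CC (pt a b (nb (P.v g) (i, false))) ∧
        P.bef (pt a b (nb (P.v g) (i, false))) (pt a b (P.v g)))) ↔
        P.T (nb (P.v g) (i, false)) := by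
    intro i
    constructor
    · rintro ((⟨k, hk, hf, hs⟩ | ⟨hF, -⟩) | ⟨⟨k, hk, hf, hs⟩, hb⟩)
      · rw [fib_pt] at hf
        rw [hf]
        exact P.v_T k hk
      · rw [fib_pt] at hF
        exact P.F_T _ hF
      · rw [fib_pt] at hf
        rw [hf]
        exact P.v_T k hk
    · intro hT
      rcases P.low g hg i hT with hF | ⟨k, hk, hv, hx⟩
      · refine Or.inl (Or.inr ⟨hF, ?_⟩)
        exact kc_face P.hL P.hL12 (P.ex g hg) (P.x_le g hg) (P.eF_le g hg) (P.xF_le g hg) h
      · have hkM : k < P.M := hk.trans hg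
        rcases kc_lower P.hL P.hL12 (P.ex g hg) (P.x_le g hg) (P.ex k hkM) hx h with h1 | h1
        · right
          rw [← hv]
          refine ⟨⟨k, hkM, rfl, h1⟩, Or.inl ?_⟩
          rw [(P.k_core hkM h1).1, hkg.1]
          have : (k : ℤ) < g := by exact_mod_cast hk
          omega
        · left
          rw [← hv]
          exact Or.inl ⟨k, hkM, rfl, h1⟩
  rw [cz_up_dn]
  have e1 : (Finset.univ.filter fun i : Fin D => (P.CS (pt a b (nb (P.v g) (i, true))) ∨
      (P.CC (pt a b (nb (P.v g) (i, true))) ∧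
        P.bef (pt a b (nb (P.v g) (i, true))) (pt a b (P.v g))))) = ∅ :=
    Finset.filter_eq_empty_iff.2 fun i _ => hup i
  have e2 : (Finset.univ.filter fun i : Fin D => (P.CS (pt a b (nb (P.v g) (i, false))) ∨
      (P.CC (pt a b (nb (P.v g) (i, false))) ∧
        P.bef (pt a b (nb (P.v g) (i, false))) (pt a b (P.v g))))) =
      Finset.univ.filter fun i : Fin D => P.T (nb (P.v g) (i, false)) :=
    Finset.filter_congr fun i _ => hdn i
  rw [e1, e2, Finset.card_empty, zero_add, ← P.T_dn (P.v g) (P.v_T g hg),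
    ← Set.ncard_coe_finset]
  congr 1
  ext i
  simp

theorem core_star {g : ℕ} (hg : g < P.M) {a b : ℤ} (h : KC P.L (P.e g) (P.x g) a b) :
    cz (fun q => P.CS q ∨ (P.CC q ∧ P.bef q (pt a b (P.v g)))) (pt a b (P.v g)) =
      if b = 2 ∧ a = P.e g then r - 1 else r := by
  classical
  have hkg := P.k_core hg h
  have key : ∀ a' b' : ℤ, (P.CS (pt a' b' (P.v g)) ∨ (P.CC (pt a' b' (P.v g)) ∧
      P.bef (pt a' b' (P.v g)) (pt a b (P.v g)))) ↔ EK P.L (P.e g) (P.x g) a b a' b' := by
    intro a' b'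
    unfold EK
    rw [P.cs_cs_iff hg, P.cs_cc_iff hg]
    refine or_congr Iff.rfl (and_congr_right fun hk => ?_)
    have hkk := P.k_core hg hk
    unfold bef
    rw [hkk.1, hkk.2.1, hkk.2.2, hkg.1, hkg.2.1, hkg.2.2]
    constructor
    · rintro (h1 | ⟨-, h1⟩)
      · exact absurd h1 (lt_irrefl _)
      · exact h1
    · intro h1
      exact Or.inr ⟨rfl, h1⟩
  have hif : ∀ a' b' : ℤ, (@ite ℕ (P.CS (pt a' b' (P.v g)) ∨ (P.CC (pt a' b' (P.v g)) ∧
      P.bef (pt a' b' (P.v g)) (pt a b (P.v g)))) (Classical.propDecidable _) 1 0) =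
      @ite ℕ (EK P.L (P.e g) (P.x g) a b a' b') (Classical.propDecidable _) 1 0 :=
    fun a' b' => by rw [propext (key a' b')]
  rw [cz_pt, P.core_star_fib hg h, hif a (b + 1), hif a (b - 1), hif (a + 1) b,
    hif (a - 1) b]
  have hp := plane_chain P.hL P.hL12 (P.ex g hg) (P.x_le g hg) h
  have hr := P.hr
  rw [← add_assoc, hp]
  split_ifs <;> omega

end Plan

end Pool.Agent.Lib.MP_1a3405_co.BP
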