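import Mathlib
import Pool.Agent.Lib.MP_1a3405_co.BP.Defs

/-!
Neighbours in a star `{X} ∪ {X + e_l : l ∈ J}` of `ℤ^E`, and in the union of the stars of two
neighbouring points `X`, `X' = nb X (i, s)` with `i ∉ J`.

Hints. Two points at the same parity of the coordinate sum are never adjacent. `X + e_l` and
`X + e_{l'}` (`l ≠ l'`) have exactly the common neighbours `X` and `X + e_l + e_{l'}`.
-/

namespace Pool.Agent.Lib.MP_1a3405_co.BP

open Pool.Agent.Lib.MP_1a3405_co Pool.Agent.Lib.MP_1a3405_co.Ord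

variable {E : ℕ}

private lemma sum_nb (x : Fin E → ℤ) (i : Fin E) (s : Bool) :
    ∑ j, nb x (i, s) j = ∑ j, x j + (if s then 1 else -1) := by
  unfold nb
  rw [Finset.sum_update_of_mem (Finset.mem_univ i),
    ← Finset.add_sum_erase Finset.univ x (Finset.mem_univ i), Finset.sdiff_singleton_eq_erase]
  cases s <;> simp <;> ring

private lemma not_nb_nb (x : Fin E → ℤ) (δ : Fin E × Bool) (i l : Fin E) (s : Bool) :
    nb x δ ≠ nb (nb x (i, s)) (l, true) := by
  obtain ⟨k, b⟩ := δ
  intro h
  have h1 := congrArg (fun f : Fin E → ℤ => ∑ j, f j) h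
  simp only [sum_nb] at h1
  cases b <;> cases s <;> simp at h1 <;> omega

/-- the centre sees exactly the `J.card` points `X + e_l` -/
theorem star_center (X : Fin E → ℤ) (J : Finset (Fin E)) :
    cz (fun y => ∃ l ∈ J, y = nb X (l, true)) X = J.card := by
  classical
  have hc : (J.image fun l => ((l, true) : Fin E × Bool)).card = J.card :=
    Finset.card_image_of_injective _ fun a b h => congrArg Prod.fst h
  rw [← hc]
  refine cz_eq_of_iff _ fun δ => ?_
  rw [Finset.mem_image]
  constructor
  · rintro ⟨l, hl, h⟩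
    exact ⟨l, hl, (nb_injective X h).symm⟩
  · rintro ⟨l, hl, h⟩
    exact ⟨l, hl, by rw [h]⟩

/-- the same with a second star around a neighbour of `X` -/
theorem star_center_two (X : Fin E → ℤ) (J : Finset (Fin E)) (i : Fin E) (s : Bool) :
    cz (fun y => ∃ l ∈ J, y = nb X (l, true) ∨ y = nb (nb X (i, s)) (l, true)) X = J.card := by
  rw [← star_center X J]
  refine cz_congr fun δ => ?_
  constructor
  · rintro ⟨l, hl, h | h⟩
    · exact ⟨l, hl, h⟩
    · exact absurd h (not_nb_nb X δ i l s)
  · rintro ⟨l, hl, h⟩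
    exact ⟨l, hl, Or.inl h⟩

end Pool.Agent.Lib.MP_1a3405_co.BP
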