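import Mathlib
import Pool.Agent.Lib.MP_1a3405_co.BP.WStarA

/-!
A chain cell of a wire is not a seed and sees exactly `r - 1` seeds of the wire (all of them at
its own height: the centre of a star sees `J.card` points, see `star_center`,
`star_center_two`; the cells above and below a chain cell are not seeds because the axis of a
step at `b` is not in `J (b-1) ∪ J b ∪ J (b+1)`).
-/

namespace Pool.Agent.Lib.MP_1a3405_co.BP

open Pool.Agent.Lib.MP_1a3405_co Pool.Agent.Lib.MP_1a3405_co.Ord

variable {E r : ℕ} {lo hi : ℤ} {X : ℤ → Fin E → ℤ} {J : ℤ → Finset (Fin E)}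

/-- a step, seen from both ends -/
private theorem step_two (h : Wire r lo hi X J) (b : ℤ) (hne : X b ≠ X (b + 1)) :
    ∃ i s, X b = nb (X (b + 1)) (i, s) ∧ X (b + 1) = nb (X b) (i, !s) ∧
      i ∉ J (b - 1) ∧ i ∉ J b ∧ i ∉ J (b + 1) := by
  rcases h.step b with h1 | ⟨i, s, h1, h2, h3, h4⟩
  · exact absurd h1 hne
  · exact ⟨i, s, h1, by rw [h1, nb_nb_not], h2, h3, h4⟩

private theorem ne_of_axis {x y : Fin E → ℤ} {i l : Fin E} {s : Bool} (h : x = nb y (i, s))
    (hil : i ≠ l) : x ≠ nb y (l, true) := by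
  intro h2
  rw [h] at h2
  exact hil (congrArg Prod.fst (nb_injective y h2))

/-- a chain position is not a seed position at the same height -/
private theorem same_height (h : Wire r lo hi X J) {b : ℤ} {q : Fin E → ℤ}
    (hq : q = X b ∨ q = X (b + 1)) {l : Fin E} (hl : l ∈ J b) :
    q ≠ nb (X b) (l, true) ∧ q ≠ nb (X (b + 1)) (l, true) := by
  by_cases hne : X b = X (b + 1)
  · rw [← hne] at hq ⊢
    rw [or_self] at hq
    rw [hq]
    exact ⟨(nb_ne _ _).symm, (nb_ne _ _).symm⟩
  · obtain ⟨i, s, h1, h2, h3, h4, h5⟩ := step_two h b hne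
    have hil : i ≠ l := fun h => h4 (h ▸ hl)
    rcases hq with rfl | rfl
    · exact ⟨(nb_ne _ _).symm, ne_of_axis h1 hil⟩
    · exact ⟨ne_of_axis h2 hil, (nb_ne _ _).symm⟩

/-- a chain position is not a seed position one height above -/
private theorem above (h : Wire r lo hi X J) {b : ℤ} {q : Fin E → ℤ}
    (hq : q = X b ∨ q = X (b + 1)) {l : Fin E} (hl : l ∈ J (b + 1)) :
    q ≠ nb (X (b + 1)) (l, true) ∧ q ≠ nb (X (b + 2)) (l, true) := by
  have key : X (b + 1) ≠ nb (X (b + 2)) (l, true) := by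
    have h6 := same_height h (b := b + 1) (Or.inl rfl) hl
    have e : b + 1 + 1 = b + 2 := by ring
    rw [e] at h6
    exact h6.2
  by_cases hne : X b = X (b + 1)
  · have hq' : q = X (b + 1) := by
      rcases hq with h1 | h1
      · rw [h1, hne]
      · exact h1
    rw [hq']
    exact ⟨(nb_ne _ _).symm, key⟩
  · obtain ⟨i, s, h1, h2, h3, h4, h5⟩ := step_two h b hne
    have hil : i ≠ l := fun h => h5 (h ▸ hl)
    have hg := h.gap b hne
    rw [← hg]
    rcases hq with rfl | rfl
    · exact ⟨ne_of_axis h1 hil, ne_of_axis h1 hil⟩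
    · exact ⟨(nb_ne _ _).symm, (nb_ne _ _).symm⟩

/-- a chain position is not a seed position one height below -/
private theorem below (h : Wire r lo hi X J) {b : ℤ} {q : Fin E → ℤ}
    (hq : q = X b ∨ q = X (b + 1)) {l : Fin E} (hl : l ∈ J (b - 1)) :
    q ≠ nb (X (b - 1)) (l, true) ∧ q ≠ nb (X b) (l, true) := by
  have e : b - 1 + 1 = b := by ring
  by_cases hne : X b = X (b + 1)
  · have hq' : q = X b := by
      rcases hq with h1 | h1
      · exact h1
      · rw [h1, hne]
    have h6 := same_height h (b := b - 1) (q := q) (Or.inr (by rw [e]; exact hq')) hl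
    rw [e] at h6
    exact h6
  · obtain ⟨i, s, h1, h2, h3, h4, h5⟩ := step_two h b hne
    have hil : i ≠ l := fun h => h3 (h ▸ hl)
    have hprev : X (b - 1) = X b := by
      by_contra hne2
      have h7 : X (b - 1) ≠ X (b - 1 + 1) := by rw [e]; exact hne2
      have h8 := h.gap (b - 1) h7
      rw [e, show b - 1 + 2 = b + 1 by ring] at h8
      exact hne h8
    rw [hprev]
    rcases hq with rfl | rfl
    · exact ⟨(nb_ne _ _).symm, (nb_ne _ _).symm⟩
    · exact ⟨ne_of_axis h2 hil, ne_of_axis h2 hil⟩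

theorem wire_disj (h : Wire r lo hi X J) {p : Fin (E + 1) → ℤ} (hp : WC lo hi X p) :
    ¬ WS lo hi X J p := by
  rintro ⟨_, _, l, hl, h1⟩
  have h2 := same_height h hp.2.2 hl
  exact h1.elim h2.1 h2.2

theorem wire_seeds (h : Wire r lo hi X J) {p : Fin (E + 1) → ℤ} (hp : WC lo hi X p) :
    cz (WS lo hi X J) p = r - 1 := by
  classical
  obtain ⟨b, q, rfl⟩ : ∃ b q, p = Fin.cons b q := ⟨p 0, Fin.tail p, (Fin.cons_self_tail p).symm⟩
  obtain ⟨hlo, hhi, hq⟩ := hp
  simp only [Fin.cons_zero, Fin.tail_cons] at hlo hhi hq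
  rw [cz_cons]
  have h1 : ¬ WS lo hi X J (Fin.cons (b + 1) q) := by
    rintro ⟨_, _, l, hl, h1⟩
    simp only [Fin.cons_zero, Fin.tail_cons] at hl h1
    have h2 := above h hq hl
    rw [show b + 1 + 1 = b + 2 by ring] at h1
    exact h1.elim h2.1 h2.2
  have h2 : ¬ WS lo hi X J (Fin.cons (b - 1) q) := by
    rintro ⟨_, _, l, hl, h1⟩
    simp only [Fin.cons_zero, Fin.tail_cons] at hl h1
    have h2 := below h hq hl
    rw [show b - 1 + 1 = b by ring] at h1
    exact h1.elim h2.1 h2.2
  rw [if_neg h1, if_neg h2, zero_add, zero_add, ← h.card b]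
  have h3 : cz (fun q' => WS lo hi X J (Fin.cons b q')) q =
      cz (fun y => ∃ l ∈ J b, y = nb (X b) (l, true) ∨ y = nb (X (b + 1)) (l, true)) q := by
    refine cz_congr fun δ => ?_
    unfold WS
    simp only [Fin.cons_zero, Fin.tail_cons]
    constructor
    · rintro ⟨_, _, h⟩; exact h
    · intro h; exact ⟨hlo, hhi, h⟩
  rw [h3]
  by_cases hne : X b = X (b + 1)
  · have hq' : q = X b := by
      rcases hq with h4 | h4
      · exact h4
      · rw [h4, hne]
    rw [← hne, hq', ← star_center (X b) (J b)]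
    refine cz_congr fun δ => ?_
    simp only [or_self]
  · obtain ⟨i, s, h4, h5, _, _, _⟩ := step_two h b hne
    rcases hq with rfl | rfl
    · rw [← star_center_two (X b) (J b) i (!s), ← h5]
    · rw [← star_center_two (X (b + 1)) (J b) i s, ← h4]
      refine cz_congr fun δ => ?_
      simp only [or_comm]

end Pool.Agent.Lib.MP_1a3405_co.BP
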