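import Mathlib
import Pool.Agent.Lib.MP_1a3405_co.BP.LNear
import Pool.Agent.Lib.MP_1a3405_co.BP.WSeeds

/-!
Seeds seen by the chain cells of the links. All link cells near a cell of the wire `g` belong to
the wire `g` (`near_unique`, `near_start`), so the counts are those of a single wire
(`wire_seeds`, `wire_disj`). The start cell sees its `r` seeds `(4; e 0; v 0)`,
`(3; e 0 + 1; v 0)` and `(3; e 0; v 0 + e_i)` (`r - 2` of them, `T_up`).
-/

namespace Pool.Agent.Lib.MP_1a3405_co.BP

open Pool.Agent.Lib.MP_1a3405_co Pool.Agent.Lib.MP_1a3405_co.Ord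

namespace Plan

variable {D r : ℕ} (P : Plan D r)

/-- the seeds of the start cell -/
private def StS (p : Fin (D + 2) → ℤ) : Prop :=
  p = pt (P.e 0) 4 (P.v 0) ∨ p = pt (P.e 0 + 1) 3 (P.v 0) ∨
    ∃ i, P.T (nb (P.v 0) (i, true)) ∧ p = pt (P.e 0) 3 (nb (P.v 0) (i, true))

private lemma near_refl (p : Fin (D + 2) → ℤ) (j : Fin (D + 2)) : |p j - p j| ≤ 2 := by
  simp

private lemma wc_not_ls {g : ℕ} (hg : g < P.M) {p : Fin (D + 2) → ℤ}
    (h : WC 3 (P.L - 2) (P.X g) p) : ¬ P.LS p := by
  rintro (hs | ⟨k, hk, hs⟩)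
  · exact P.near_start hg (Or.inl h) (Or.inr hs) (near_refl p)
  · have e := P.near_unique hg hk (Or.inl h) (Or.inr hs) (near_refl p)
    subst e
    exact wire_disj (P.wire g hg) h hs

private lemma wc_seeds {g : ℕ} (hg : g < P.M) {p : Fin (D + 2) → ℤ}
    (h : WC 3 (P.L - 2) (P.X g) p) : cz P.LS p = r - 1 := by
  rw [← wire_seeds (P.wire g hg) h]
  apply cz_congr
  intro δ
  constructor
  · rintro (hs | ⟨k, hk, hs⟩)
    · exact (P.near_start hg (Or.inl h) (Or.inr hs) (near_self_nb p δ)).elim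
    · have e := P.near_unique hg hk (Or.inl h) (Or.inr hs) (near_self_nb p δ)
      subst e
      exact hs
  · intro hs
    exact Or.inr ⟨g, hg, hs⟩

private lemma M_sub_lt : P.M - 1 < P.M := by
  have := P.M_pos
  omega

theorem lc_not_ls {p : Fin (D + 2) → ℤ} (h : P.LC p) : ¬ P.LS p := by
  rcases h with h | ⟨g, hg, h⟩
  · rintro (hs | ⟨k, hk, hs⟩)
    · rw [h, start] at hs
      rcases hs with hs | hs | ⟨i, -, hs⟩
      · have := (pt_inj.1 hs).2.1
        omega
      · have := (pt_inj.1 hs).1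
        omega
      · exact nb_ne _ _ (pt_inj.1 hs).2.2.symm
    · exact P.near_start hk (Or.inr hs) (Or.inl h) (near_refl p)
  · exact P.wc_not_ls (by omega) h

theorem fp_not_ls {p : Fin (D + 2) → ℤ} (h : P.FP p) : ¬ P.LS p :=
  P.wc_not_ls P.M_sub_lt h

theorem fp_not_lc {p : Fin (D + 2) → ℤ} (h : P.FP p) : ¬ P.LC p := by
  rintro (hs | ⟨g, hg, hs⟩)
  · exact P.near_start P.M_sub_lt (Or.inl h) (Or.inl hs) (near_refl p)
  · have e := P.near_unique P.M_sub_lt (show g < P.M by omega) (Or.inl h) (Or.inl hs) (near_refl p)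
    omega

theorem lc_seeds {p : Fin (D + 2) → ℤ} (h : P.LC p) (hne : p ≠ P.start) :
    cz P.LS p = r - 1 := by
  rcases h with h | ⟨g, hg, h⟩
  · exact absurd h hne
  · exact P.wc_seeds (by omega) h

theorem start_seeds : cz P.LS P.start = r := by
  classical
  have h1 : cz P.LS P.start = cz P.StS P.start := by
    apply cz_congr
    intro δ
    constructor
    · rintro (hs | ⟨k, hk, hs⟩)
      · exact hs
      · refine (P.near_start hk (Or.inr hs) (Or.inl rfl) (fun j => ?_)).elim
        rw [abs_sub_comm]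
        exact near_self_nb _ _ _
    · intro hs
      exact Or.inl hs
  have hr := P.hr
  rw [h1, start, cz_pt]
  have a1 : P.StS (pt (P.e 0) (3 + 1) (P.v 0)) := Or.inl rfl
  have a2 : ¬ P.StS (pt (P.e 0) (3 - 1) (P.v 0)) := by
    rintro (hs | hs | ⟨i, -, hs⟩)
    · have := (pt_inj.1 hs).2.1
      omega
    · have := (pt_inj.1 hs).2.1
      omega
    · have := (pt_inj.1 hs).2.1
      omega
  have a3 : P.StS (pt (P.e 0 + 1) 3 (P.v 0)) := Or.inr (Or.inl rfl)
  have a4 : ¬ P.StS (pt (P.e 0 - 1) 3 (P.v 0)) := by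
    rintro (hs | hs | ⟨i, -, hs⟩)
    · have := (pt_inj.1 hs).2.1
      omega
    · have := (pt_inj.1 hs).1
      omega
    · have := (pt_inj.1 hs).1
      omega
  have a5 : cz (fun y => P.StS (pt (P.e 0) 3 y)) (P.v 0) = r - 2 := by
    rw [← P.T_up (P.v 0) (P.v_T 0 P.M_pos), Set.ncard_eq_toFinset_card']
    rw [← Finset.card_image_of_injective (f := fun i : Fin D => (i, true))
      _ (fun i j h => congrArg Prod.fst h)]
    apply cz_eq_of_iff
    intro δ
    simp only [Finset.mem_image, Set.mem_toFinset, Set.mem_ofPred_eq]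
    constructor
    · rintro (hs | hs | ⟨i, hi, hs⟩)
      · have := (pt_inj.1 hs).2.1
        omega
      · have := (pt_inj.1 hs).1
        omega
      · refine ⟨i, hi, ?_⟩
        have e := (pt_inj.1 hs).2.2
        obtain ⟨j, s⟩ := δ
        by_cases hij : j = i
        · subst hij
          have e2 := congrFun e j
          rw [nb_self, nb_self] at e2
          cases s
          · simp at e2
          · rfl
        · have e2 := congrFun e j
          rw [nb_self, nb_other _ _ hij] at e2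
          cases s <;> simp at e2
    · rintro ⟨i, hi, rfl⟩
      exact Or.inr (Or.inr ⟨i, hi, rfl⟩)
  rw [if_pos a1, if_neg a2, if_pos a3, if_neg a4, a5]
  omega

theorem fp_seeds {p : Fin (D + 2) → ℤ} (h : P.FP p) : cz P.LS p = r - 1 :=
  P.wc_seeds P.M_sub_lt h

theorem fp_lc {p : Fin (D + 2) → ℤ} (h : P.FP p) : cz P.LC p = 0 := by
  apply cz_eq_zero
  rintro δ (hs | ⟨g, hg, hs⟩)
  · exact P.near_start P.M_sub_lt (Or.inl h) (Or.inl hs) (near_self_nb p δ)
  · have e := P.near_unique P.M_sub_lt (show g < P.M by omega) (Or.inl h) (Or.inl hs)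
      (near_self_nb p δ)
    omega

end Plan

end Pool.Agent.Lib.MP_1a3405_co.BP
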