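import Mathlib

/-!
The rank function of a finite totally ordered set in which every element except `w` has an
immediate predecessor, related to it by `adj`. (`τ p = #{q ∈ C : q = p ∨ bef q p}` on `C`.)
-/

namespace Pool.Agent.Lib.MP_1a3405_co.BP

theorem exists_rank {α : Type*} (C : Set α) (hC : C.Finite) (bef adj : α → α → Prop)
    (irr : ∀ p, ¬ bef p p) (trans : ∀ p q z, bef p q → bef q z → bef p z)
    (tot : ∀ p ∈ C, ∀ q ∈ C, p = q ∨ bef p q ∨ bef q p) (w : α) (hw : w ∈ C)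
    (pred : ∀ p ∈ C, p ≠ w → ∃ q ∈ C, adj p q ∧ bef q p ∧ ∀ z ∈ C, bef z p → z = q ∨ bef z q) :
    ∃ τ : α → ℤ, τ w = 1 ∧ (∀ p ∈ C, 1 ≤ τ p ∧ τ p ≤ C.ncard) ∧
      (∀ p ∈ C, ∀ q ∈ C, bef q p ↔ τ q < τ p) ∧
      (∀ p ∈ C, p ≠ w → ∃ q ∈ C, adj p q ∧ bef q p ∧ τ q = τ p - 1) ∧
      (∀ p ∈ C, (∀ q ∈ C, q ≠ p → bef q p) → τ p = C.ncard) := by
  classical
  let D : α → Set α := fun p => {q | q ∈ C ∧ (q = p ∨ bef q p)}
  have hDC : ∀ p, D p ⊆ C := fun p q hq => hq.1
  have hDf : ∀ p, (D p).Finite := fun p => hC.subset (hDC p)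
  have hlt : ∀ p ∈ C, ∀ q ∈ C, bef q p → (D q).ncard < (D p).ncard := by
    intro p hp q hq hqp
    apply Set.ncard_lt_ncard _ (hDf p)
    constructor
    · rintro z ⟨hz, h | h⟩
      · subst h
        exact ⟨hz, Or.inr hqp⟩
      · exact ⟨hz, Or.inr (trans z q p h hqp)⟩
    · intro h
      have h1 : p ∈ D q := h ⟨hp, Or.inl rfl⟩
      rcases h1.2 with h2 | h2
      · rw [h2] at hqp
        exact irr q hqp
      · exact irr p (trans p q p h2 hqp)
  have hiff : ∀ p ∈ C, ∀ q ∈ C, bef q p ↔ (D q).ncard < (D p).ncard := by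
    intro p hp q hq
    constructor
    · exact hlt p hp q hq
    · intro h
      rcases tot p hp q hq with h1 | h1 | h1
      · rw [h1] at h
        exact absurd h (lt_irrefl _)
      · exact absurd (hlt q hq p hp h1) (not_lt.mpr h.le)
      · exact h1
  have hsucc : ∀ p ∈ C, p ≠ w → ∃ q ∈ C, adj p q ∧ bef q p ∧
      (D p).ncard = (D q).ncard + 1 := by
    intro p hp hpw
    obtain ⟨q, hq, ha, hb, hz⟩ := pred p hp hpw
    refine ⟨q, hq, ha, hb, ?_⟩
    have h1 : D p = insert p (D q) := by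
      ext z
      constructor
      · rintro ⟨hzC, h | h⟩
        · exact Or.inl h
        · exact Or.inr ⟨hzC, hz z hzC h⟩
      · rintro (h | ⟨hzC, h | h⟩)
        · rw [h]
          exact ⟨hp, Or.inl rfl⟩
        · rw [h] at hzC ⊢
          exact ⟨hzC, Or.inr hb⟩
        · exact ⟨hzC, Or.inr (trans z q p h hb)⟩
    have h2 : p ∉ D q := by
      rintro ⟨_, h | h⟩
      · rw [h] at hb
        exact irr q hb
      · exact irr p (trans p q p h hb)
    rw [h1, Set.ncard_insert_of_notMem h2 (hDf q)]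
  -- `w` minimises `ncard (D ·)`
  obtain ⟨m, hm, hmin⟩ := Set.exists_min_image C (fun p => (D p).ncard) hC ⟨w, hw⟩
  have hmw : m = w := by
    by_contra hne
    obtain ⟨q, hq, _, hb, _⟩ := hsucc m hm hne
    exact absurd (hlt m hm q hq hb) (not_lt.mpr (hmin q hq))
  subst hmw
  have hDw : D m = {m} := by
    ext z
    constructor
    · rintro ⟨hz, h | h⟩
      · exact h
      · exact absurd (hlt m hm z hz h) (not_lt.mpr (hmin z hz))
    · intro h
      rw [Set.mem_singleton_iff] at h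
      rw [h]
      exact ⟨hm, Or.inl rfl⟩
  refine ⟨fun p => ((D p).ncard : ℤ), ?_, ?_, ?_, ?_, ?_⟩
  · show ((D m).ncard : ℤ) = 1
    rw [hDw, Set.ncard_singleton]
    rfl
  · intro p hp
    constructor
    · have h1 : 0 < (D p).ncard := (Set.ncard_pos (hDf p)).mpr ⟨p, hp, Or.inl rfl⟩
      show (1 : ℤ) ≤ ((D p).ncard : ℤ)
      exact_mod_cast h1
    · show ((D p).ncard : ℤ) ≤ (C.ncard : ℤ)
      exact_mod_cast Set.ncard_le_ncard (hDC p) hC
  · intro p hp q hq
    rw [hiff p hp q hq]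
    show (D q).ncard < (D p).ncard ↔ ((D q).ncard : ℤ) < ((D p).ncard : ℤ)
    exact Nat.cast_lt.symm
  · intro p hp hpw
    obtain ⟨q, hq, ha, hb, hc⟩ := hsucc p hp hpw
    refine ⟨q, hq, ha, hb, ?_⟩
    show ((D q).ncard : ℤ) = ((D p).ncard : ℤ) - 1
    rw [hc]
    push_cast
    ring
  · intro p hp hall
    have h1 : D p = C := by
      ext z
      constructor
      · exact fun h => h.1
      · intro hz
        by_cases h : z = p
        · exact ⟨hz, Or.inl h⟩
        · exact ⟨hz, Or.inr (hall z hz h)⟩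
    show ((D p).ncard : ℤ) = (C.ncard : ℤ)
    rw [h1]

end Pool.Agent.Lib.MP_1a3405_co.BP
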