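import Mathlib
import Pool.Agent.Lib.MP_1a3405_co.BP.Cz

/-!
The skeleton: seeds are the points with at most `r - 1` coordinates different from `1`, except
the lock (all coordinates in `{1, 2}` and the coordinate `0` equal to `1`).

`skel_stable`: a point with coordinates `≥ 1` which is not in the skeleton sees at most `r - 1`
points of the skeleton. Let `ν` be the number of its coordinates `≠ 1`.
`ν ≥ r + 1`: none. `ν = r`: the neighbours `p - e_j` with `p j = 2` (not all of them if all these
coordinates are `2`: for `p 0 = 2` the one with `j = 0` is in the lock, for `p 0 = 1` all are).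
`ν ≤ r - 1` (`p` in the lock): `p + e_j` for `p j = 2`, and `p + e_0` if `ν ≤ r - 2`.
-/

namespace Pool.Agent.Lib.MP_1a3405_co.BP

open Pool.Agent.Lib.MP_1a3405_co Pool.Agent.Lib.MP_1a3405_co.Ord

variable {d : ℕ}

/-- the skeleton -/
def Skel (r : ℕ) (p : Fin (d + 1) → ℤ) : Prop :=
  {i | p i ≠ 1}.ncard ≤ r - 1 ∧ ¬ ((∀ i, p i ≤ 2) ∧ p 0 = 1)

/-- the number of coordinates different from `1` -/
def nuA (p : Fin (d + 1) → ℤ) : ℕ := (Finset.univ.filter fun i => p i ≠ 1).card

lemma ncard_eq_nuA (p : Fin (d + 1) → ℤ) : {i | p i ≠ 1}.ncard = nuA p := by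
  rw [nuA, Set.ncard_eq_toFinset_card']
  congr 1
  ext i
  simp

lemma ncard_two_eq (p : Fin (d + 1) → ℤ) :
    {i | p i = 2}.ncard = (Finset.univ.filter fun i => p i = 2).card := by
  rw [Set.ncard_eq_toFinset_card']
  congr 1
  ext i
  simp

/-- a step decreases `nuA` only if it makes a coordinate equal to `1`, and then by one -/
lemma nuA_nb_ge (p : Fin (d + 1) → ℤ) (δ : Fin (d + 1) × Bool) : nuA p ≤ nuA (nb p δ) + 1 := by
  obtain ⟨i, s⟩ := δ
  rw [nuA, nuA]
  have h : (Finset.univ.filter fun j => p j ≠ 1) ⊆
      insert i (Finset.univ.filter fun j => nb p (i, s) j ≠ 1) := by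
    intro j hj
    rw [Finset.mem_filter] at hj
    by_cases hji : j = i
    · rw [hji]
      exact Finset.mem_insert_self _ _
    · apply Finset.mem_insert_of_mem
      rw [Finset.mem_filter, nb_other p s hji]
      exact hj
  exact le_trans (Finset.card_le_card h) (Finset.card_insert_le _ _)

lemma nuA_nb_lt {p : Fin (d + 1) → ℤ} {i : Fin (d + 1)} {s : Bool}
    (h : nuA (nb p (i, s)) < nuA p) : p i ≠ 1 ∧ nb p (i, s) i = 1 := by
  by_contra hcon
  apply absurd h
  rw [not_lt, nuA, nuA]
  apply Finset.card_le_card
  intro j hj
  rw [Finset.mem_filter] at hj ⊢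
  refine ⟨Finset.mem_univ _, ?_⟩
  by_cases hji : j = i
  · subst hji
    intro h1
    exact hcon ⟨hj.2, h1⟩
  · rw [nb_other p s hji]
    exact hj.2

/-- points with more than `r` coordinates `≠ 1` see no point of the skeleton -/
theorem skel_none {r : ℕ} (hr : 3 ≤ r) {p : Fin (d + 1) → ℤ}
    (hν : r < {i | p i ≠ 1}.ncard) (δ : Fin (d + 1) × Bool) : ¬ Skel r (nb p δ) := by
  rintro ⟨h1, -⟩
  rw [ncard_eq_nuA] at hν h1
  have h2 := nuA_nb_ge p δ
  omega

lemma skel_dir {r : ℕ} (hr : 3 ≤ r) {p : Fin (d + 1) → ℤ} (hp : ∀ i, 1 ≤ p i)
    (hν : nuA p = r) {i : Fin (d + 1)} {s : Bool} (h : Skel r (nb p (i, s))) :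
    p i = 2 ∧ s = false := by
  have h1 : nuA (nb p (i, s)) ≤ r - 1 := by
    rw [← ncard_eq_nuA]
    exact h.1
  have h2 := nuA_nb_lt (p := p) (i := i) (s := s) (by omega)
  rw [nb_self] at h2
  have h3 := hp i
  cases s
  · simp only [Bool.false_eq_true, if_false] at h2
    exact ⟨by omega, rfl⟩
  · simp only [if_true] at h2
    omega

/-- points with exactly `r` coordinates `≠ 1` see at most as many skeleton points as they have
coordinates equal to `2` -/
theorem skel_twos {r : ℕ} (hr : 3 ≤ r) {p : Fin (d + 1) → ℤ} (hp : ∀ i, 1 ≤ p i)
    (hν : {i | p i ≠ 1}.ncard = r) :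
    cz (Skel r) p ≤ {i | p i = 2}.ncard := by
  rw [ncard_eq_nuA] at hν
  rw [ncard_two_eq]
  have h := cz_le_of_subset (Q := Skel r) (p := p)
    ((Finset.univ.filter fun i => p i = 2) ×ˢ {false}) (by
      rintro ⟨i, s⟩ h
      obtain ⟨h1, h2⟩ := skel_dir hr hp hν h
      rw [Finset.mem_product]
      exact ⟨by simpa using h1, by simpa using h2⟩)
  rw [Finset.card_product, Finset.card_singleton, mul_one] at h
  exact h

theorem skel_stable {r : ℕ} (hr : 3 ≤ r) {p : Fin (d + 1) → ℤ} (hp : ∀ i, 1 ≤ p i)
    (h : ¬ Skel r p) : cz (fun q => (∀ i, 1 ≤ q i) ∧ Skel r q) p ≤ r - 1 := by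
  have hmono : cz (fun q => (∀ i, 1 ≤ q i) ∧ Skel r q) p ≤ cz (Skel r) p :=
    cz_mono fun δ hq => hq.2
  have htwo_le : (Finset.univ.filter fun i => p i = 2) ⊆
      (Finset.univ.filter fun i => p i ≠ 1) := by
    intro i hi
    rw [Finset.mem_filter] at hi ⊢
    refine ⟨hi.1, ?_⟩
    rw [hi.2]
    norm_num
  rcases lt_trichotomy (nuA p) r with hlt | heq | hgt
  · -- the lock
    have hlock : (∀ i, p i ≤ 2) ∧ p 0 = 1 := by
      by_contra hcon
      apply h
      refine ⟨?_, hcon⟩
      rw [ncard_eq_nuA]
      omega
    obtain ⟨h2, h0⟩ := hlock
    have hdir : ∀ δ : Fin (d + 1) × Bool, ((∀ i, 1 ≤ nb p δ i) ∧ Skel r (nb p δ)) →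
        δ ∈ ((Finset.univ.filter fun i => p i = 2) ×ˢ {true}) ∪
          (if nuA p + 1 ≤ r - 1 then {((0 : Fin (d + 1)), true)} else ∅) := by
      rintro ⟨i, s⟩ ⟨hq, hs1, hs2⟩
      have hpi := hp i
      have hpi2 := h2 i
      rw [Finset.mem_union]
      by_cases hi2 : p i = 2
      · left
        rw [Finset.mem_product]
        refine ⟨by simpa using hi2, ?_⟩
        cases s
        · exfalso
          apply hs2
          refine ⟨?_, ?_⟩
          · intro j
            by_cases hji : j = i
            · subst hji
              rw [nb_self, hi2]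
              simp
            · rw [nb_other p _ hji]
              exact h2 j
          · have h0i : (0 : Fin (d + 1)) ≠ i := by
              intro hh
              rw [← hh, h0] at hi2
              norm_num at hi2
            rw [nb_other p _ h0i]
            exact h0
        · simp
      · right
        have hi1 : p i = 1 := by omega
        have hst : s = true := by
          cases s
          · exfalso
            have := hq i
            rw [nb_self, hi1] at this
            simp at this
          · rfl
        subst hst
        have hi0 : i = 0 := by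
          by_contra hne
          apply hs2
          refine ⟨?_, ?_⟩
          · intro j
            by_cases hji : j = i
            · subst hji
              rw [nb_self, hi1]
              simp
            · rw [nb_other p _ hji]
              exact h2 j
          · rw [nb_other p _ (fun hh => hne hh.symm)]
            exact h0
        subst hi0
        have hnu : nuA (nb p (0, true)) = nuA p + 1 := by
          rw [nuA, nuA]
          have he : (Finset.univ.filter fun j => nb p ((0 : Fin (d + 1)), true) j ≠ 1) =
              insert 0 (Finset.univ.filter fun j => p j ≠ 1) := by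
            ext j
            rw [Finset.mem_insert, Finset.mem_filter, Finset.mem_filter]
            by_cases hj : j = 0
            · subst hj
              rw [nb_self, hi1]
              simp
            · rw [nb_other p _ hj]
              simp [hj]
          rw [he, Finset.card_insert_of_notMem]
          rw [Finset.mem_filter]
          rintro ⟨_, hh⟩
          exact hh hi1
        rw [ncard_eq_nuA, hnu] at hs1
        rw [if_pos hs1]
        simp
    have hc := cz_le_of_subset (Q := fun q => (∀ i, 1 ≤ q i) ∧ Skel r q) (p := p) _ hdir
    refine le_trans hc ?_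
    refine le_trans (Finset.card_union_le _ _) ?_
    rw [Finset.card_product, Finset.card_singleton, mul_one]
    have h3 := Finset.card_le_card htwo_le
    have h4 : (Finset.univ.filter fun i => p i ≠ 1).card = nuA p := rfl
    rw [h4] at h3
    by_cases hcase : nuA p + 1 ≤ r - 1
    · rw [if_pos hcase, Finset.card_singleton]
      omega
    · rw [if_neg hcase, Finset.card_empty]
      omega
  · -- exactly `r` coordinates different from `1`
    have htw := skel_twos hr hp (by rw [ncard_eq_nuA]; exact heq)
    rw [ncard_two_eq] at htw
    have h3 := Finset.card_le_card htwo_le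
    have h4 : (Finset.univ.filter fun i => p i ≠ 1).card = nuA p := rfl
    by_cases hcase : (Finset.univ.filter fun i => p i = 2).card ≤ r - 1
    · exact le_trans hmono (le_trans htw hcase)
    · have heq2 : (Finset.univ.filter fun i => p i = 2) =
          (Finset.univ.filter fun i => p i ≠ 1) := by
        apply Finset.eq_of_subset_of_card_le htwo_le
        omega
      have h2 : ∀ i, p i ≤ 2 := by
        intro i
        by_cases hi : p i = 1
        · omega
        · have : i ∈ (Finset.univ.filter fun i => p i = 2) := by
            rw [heq2, Finset.mem_filter]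
            exact ⟨Finset.mem_univ _, hi⟩
          rw [Finset.mem_filter] at this
          omega
      have hdir : ∀ δ : Fin (d + 1) × Bool, Skel r (nb p δ) →
          δ ∈ ((Finset.univ.filter fun i => p i = 2).erase 0) ×ˢ {false} := by
        rintro ⟨i, s⟩ hs
        obtain ⟨hi2, hsf⟩ := skel_dir hr hp heq hs
        subst hsf
        rw [Finset.mem_product]
        refine ⟨?_, by simp⟩
        rw [Finset.mem_erase]
        refine ⟨?_, by simpa using hi2⟩
        intro hi0
        have hi0' : i = 0 := hi0
        subst hi0'
        apply hs.2
        refine ⟨?_, ?_⟩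
        · intro j
          by_cases hj : j = 0
          · subst hj
            rw [nb_self, hi2]
            simp
          · rw [nb_other p _ hj]
            exact h2 j
        · rw [nb_self, hi2]
          simp
      by_cases h0 : p 0 = 2
      · have hc := cz_le_of_subset (Q := Skel r) (p := p) _ hdir
        rw [Finset.card_product, Finset.card_singleton, mul_one, Finset.card_erase_of_mem
          (by simpa using h0)] at hc
        refine le_trans hmono (le_trans hc ?_)
        omega
      · have h01 : p 0 = 1 := by
          have := hp 0
          have := h2 0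
          omega
        have hz : cz (Skel r) p = 0 := by
          apply cz_eq_zero
          rintro ⟨i, s⟩ hs
          obtain ⟨hi2, hsf⟩ := skel_dir hr hp heq hs
          subst hsf
          have h0i : (0 : Fin (d + 1)) ≠ i := by
            intro hh
            rw [← hh, h01] at hi2
            norm_num at hi2
          apply hs.2
          refine ⟨?_, ?_⟩
          · intro j
            by_cases hji : j = i
            · subst hji
              rw [nb_self, hi2]
              simp
            · rw [nb_other p _ hji]
              exact h2 j
          · rw [nb_other p _ h0i]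
            exact h01
        refine le_trans hmono ?_
        rw [hz]
        exact Nat.zero_le _
  · -- more than `r`
    have hz : cz (Skel r) p = 0 := by
      apply cz_eq_zero
      intro δ
      exact skel_none hr (by rw [ncard_eq_nuA]; exact hgt) δ
    refine le_trans hmono ?_
    rw [hz]
    exact Nat.zero_le _

end Pool.Agent.Lib.MP_1a3405_co.BP
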