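import Mathlib
import Pool.Agent.Lib.MP_1a3405_co.BP.GStarA
import Pool.Agent.Lib.MP_1a3405_co.BP.GPred
import Pool.Agent.Lib.MP_1a3405_co.BP.Rank
import Pool.Agent.Lib.MP_1a3405_co.BP.GCount
import Pool.Agent.Lib.MP_1a3405_co.BP.SkelA

/-!
The certificate (`Ord.Good`): definitions, existence of the rank (`exists_rank`, `bef_irrefl`, `bef_trans`,
`bef_total`, `pred`, `last_max`).
-/

namespace Pool.Agent.Lib.MP_1a3405_co.BP

open Pool.Agent.Lib.MP_1a3405_co Pool.Agent.Lib.MP_1a3405_co.Ord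

namespace Plan

variable {D r : ℕ} (P : Plan D r)

/-- `τ` is the rank function of the chain -/
structure IsRank (τ : (Fin (D + 2) → ℤ) → ℤ) : Prop where
  start : τ P.start = 1
  range : ∀ p, P.C p → 1 ≤ τ p ∧ τ p ≤ ({p | P.C p}.ncard : ℤ)
  lt : ∀ p q, P.C p → P.C q → (P.bef q p ↔ τ q < τ p)
  pred : ∀ p, P.C p → p ≠ P.start → ∃ δ, P.C (nb p δ) ∧ P.bef (nb p δ) p ∧ τ (nb p δ) = τ p - 1
  last : τ P.last = ({p | P.C p}.ncard : ℤ)

theorem exists_isRank : ∃ τ, P.IsRank τ := by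
  obtain ⟨τ, h1, h2, h3, h4, h5⟩ := exists_rank {p | P.C p} P.c_finite P.bef
    (fun p q => ∃ δ, q = nb p δ) P.bef_irrefl (fun p q z => P.bef_trans)
    (fun p hp q hq => P.bef_total hp hq) P.start P.c_start (by
      intro p hp hne
      obtain ⟨δ, hδ, hb, hz⟩ := P.pred hp hne
      exact ⟨nb p δ, hδ, ⟨δ, rfl⟩, hb, hz⟩)
  refine ⟨τ, h1, h2, fun p q hp hq => h3 p hp q hq, ?_, ?_⟩
  · intro p hp hne
    obtain ⟨q, hq, ⟨δ, rfl⟩, hb, hτ⟩ := h4 p hp hne
    exact ⟨δ, hq, hb, hτ⟩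
  · exact h5 P.last P.c_last (fun q hq hne => P.last_max hq hne)

open Classical in
/-- the initial set and the times in the box -/
noncomputable def side (τ : (Fin (D + 2) → ℤ) → ℤ) : Side (D + 2) where
  T p := Skel r p ∨ P.S (p - P.w)
  τ p := if P.C (p - P.w) then τ (p - P.w) else ({p | P.C p}.ncard : ℤ) + 1
  w := P.start + P.w

variable {τ : (Fin (D + 2) → ℤ) → ℤ}

theorem side_τ_of_c {p : Fin (D + 2) → ℤ} (h : P.C (p - P.w)) :
    (P.side τ).τ p = τ (p - P.w) := by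
  simp only [side]
  rw [if_pos h]

theorem side_τ_of_not {p : Fin (D + 2) → ℤ} (h : ¬ P.C (p - P.w)) :
    (P.side τ).τ p = ({p | P.C p}.ncard : ℤ) + 1 := by
  simp only [side]
  rw [if_neg h]

theorem side_τ_add {p : Fin (D + 2) → ℤ} (h : P.C p) : (P.side τ).τ (p + P.w) = τ p := by
  rw [P.side_τ_of_c (by rw [P.add_sub_w]; exact h), P.add_sub_w]

/-- chain cells are not initially infected -/
theorem side_not {p : Fin (D + 2) → ℤ} (h : P.C p) : ¬ (P.side τ).T (p + P.w) := by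
  rintro (hs | hs)
  · have hbox := P.box_c h
    have huniv : {i | (p + P.w) i ≠ 1} = (Set.univ : Set (Fin (D + 2))) := by
      ext i
      simp only [Set.mem_ofPred_eq, Set.mem_univ, iff_true]
      have := (hbox i).1
      omega
    have hcard := hs.1
    rw [huniv, Set.ncard_univ, Nat.card_eq_fintype_card, Fintype.card_fin] at hcard
    have := P.hrD
    omega
  · rw [P.add_sub_w] at hs
    exact P.c_not_s h hs

end Plan

end Pool.Agent.Lib.MP_1a3405_co.BP
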