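import Mathlib
import Pool.Agent.Lib.MP_1a3405_co.BP.GStarA
import Pool.Agent.Lib.MP_1a3405_co.BP.LPred

/-!
Each chain cell (except the start cell) sees exactly `r` seeds and earlier chain cells; for the
core cells see `star_core`.

* Link cell `p`: `r - 1` link seeds (`lc_seeds`), one earlier link cell (`wire_earlier`) or, for
  the first cell `(x g, L-2)` of a link, none (`wire_earlier_first`) but the core cell
  `(x g, L-1)` above it. The core cells next to a link cell (columns `≤ -11`) are above height
  `L - 2` or below height `3` (`core_zone`, `face_zone`), so only the end cells of the links have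
  a core neighbour (`lc_three`, `lc_top`); the one below `(e g, 3)` is later.
* For the start cell see `start_seeds`; its only core neighbour is the chain cell `(e 0, 2)`.
-/

namespace Pool.Agent.Lib.MP_1a3405_co.BP

open Pool.Agent.Lib.MP_1a3405_co Pool.Agent.Lib.MP_1a3405_co.Ord

namespace Plan

variable {D r : ℕ} (P : Plan D r)

/-- core cells in negative columns are above height `L - 2` or below height `3` -/
theorem core_height {q : Fin (D + 2) → ℤ} (h : P.CC q ∨ P.CS q) (hq : q 1 < 0) :
    q 0 ≤ 2 ∨ P.L - 1 ≤ q 0 := by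
  by_contra hcon
  push Not at hcon
  obtain ⟨h1, h2⟩ := hcon
  have key : 0 ≤ q 1 := by
    rcases h with ⟨g, hg, -, hk⟩ | ⟨g, hg, -, hk⟩ | ⟨-, hm⟩
    · exact (core_zone P.hL P.hL12 (P.ex g hg) (P.x_le g hg) (Or.inl hk)).2.2.2.2.1
        (by omega) (by omega)
    · exact (core_zone P.hL P.hL12 (P.ex g hg) (P.x_le g hg) (Or.inr hk)).2.2.2.2.1
        (by omega) (by omega)
    · have hx : P.xF ≤ -12 := (P.xF_le 0 P.M_pos).trans (P.x_le 0 P.M_pos)
      exact (face_zone P.hL P.hL12 P.eF_xF hx hm).2.2.2.2.1 (by omega) (by omega)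
  omega

/-- a core neighbour of a cell in the zone of the links is directly above height `L - 2` or
directly below height `3` -/
theorem core_nb {p : Fin (D + 2) → ℤ} (h3 : 3 ≤ p 0) (hL : p 0 ≤ P.L - 2) (h1 : p 1 ≤ -11)
    {δ : Fin (D + 2) × Bool} (h : P.CC (nb p δ) ∨ P.CS (nb p δ)) :
    (δ = (0, false) ∧ p 0 = 3 ∧ nb p δ = pt (p 1) 2 (fib p)) ∨
      (δ = (0, true) ∧ p 0 = P.L - 2 ∧ nb p δ = pt (p 1) (P.L - 1) (fib p)) := by
  have hn := nb_near p δ 1
  have hh := P.core_height h (by omega)
  obtain ⟨a, b, x, rfl⟩ := exists_pt p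
  simp only [pt_zero, pt_one, fib_pt] at *
  rcases dir_cases δ with ⟨s, rfl⟩ | ⟨s, rfl⟩ | ⟨i, s, rfl⟩
  · rw [nb_pt_b] at hh ⊢
    simp only [pt_zero] at hh
    cases s
    · left
      simp only [Bool.false_eq_true, if_false] at hh ⊢
      have hb : b = 3 := by omega
      subst hb
      exact ⟨trivial, rfl, rfl⟩
    · right
      simp only [if_true] at hh ⊢
      have hb : b = P.L - 2 := by omega
      refine ⟨trivial, hb, ?_⟩
      rw [hb]
      congr 1
      ring
  · exfalso
    rw [nb_pt_a] at hh
    simp only [pt_zero] at hh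
    omega
  · exfalso
    rw [nb_pt_x] at hh
    simp only [pt_zero] at hh
    omega

theorem star_link {g : ℕ} (hg : g + 1 < P.M) {p : Fin (D + 2) → ℤ}
    (hp : WC 3 (P.L - 2) (P.X g) p) :
    cz (fun q => P.S q ∨ (P.C q ∧ P.bef q p)) p = r := by
  have hg0 : g < P.M := by omega
  have hLC : P.LC p := Or.inr ⟨g, hg, hp⟩
  have hne : p ≠ P.start := P.not_start hg0 hp
  have hz := P.l_zone p (Or.inl hLC)
  have hr := P.hr
  have hw := P.wire g hg0
  have hL12 := P.hL12
  -- separation of the core cells from the link cells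
  have hsep : ∀ δ, (P.LC (nb p δ) ∨ P.LS (nb p δ)) → ¬ (P.CC (nb p δ) ∨ P.CS (nb p δ)) := by
    intro δ h1 h2
    have hz' := P.l_zone (nb p δ) (by tauto)
    have := P.core_height h2 (by omega)
    omega
  have e1 : cz (fun q => P.S q ∨ (P.C q ∧ P.bef q p)) p =
      cz (fun q => P.LS q ∨ ((P.LC q ∧ P.bef q p) ∨ (P.CS q ∨ (P.CC q ∧ P.bef q p)))) p := by
    refine cz_congr fun δ => ?_
    simp only [S, C]
    tauto
  rw [e1, cz_or_of_disjoint (Q := P.LS)
    (Q' := fun q => (P.LC q ∧ P.bef q p) ∨ (P.CS q ∨ (P.CC q ∧ P.bef q p)))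
    (fun δ h1 h2 => by
      rcases h2 with h2 | h2
      · exact P.lc_not_ls h2.1 h1
      · exact hsep δ (Or.inr h1) (by tauto)),
    cz_or_of_disjoint (Q := fun q => P.LC q ∧ P.bef q p)
    (Q' := fun q => P.CS q ∨ (P.CC q ∧ P.bef q p))
    (fun δ h1 h2 => hsep δ (Or.inl h1.1) (by tauto)), P.lc_seeds hLC hne]
  -- the two cases
  by_cases htop : p = pt (P.x g) (P.L - 2) (P.v g)
  · have e2 : cz (fun q => P.LC q ∧ P.bef q p) p = 0 := by
      rw [htop]; exact P.wire_earlier_first hg
    have e3 : cz (fun q => P.CS q ∨ (P.CC q ∧ P.bef q p)) p = 1 := by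
      have := cz_eq_of_iff (Q := fun q => P.CS q ∨ (P.CC q ∧ P.bef q p)) (p := p)
        {((0 : Fin (D + 2)), true)} (fun δ => ?_)
      · simpa using this
      · rw [Finset.mem_singleton]
        constructor
        · intro h
          rcases P.core_nb hz.1 hz.2.1 hz.2.2.2 (δ := δ) (by tauto) with h2 | h2
          · have : p 0 = P.L - 2 := by rw [htop]; rfl
            omega
          · exact h2.1
        · rintro rfl
          right
          have hq : nb p ((0 : Fin (D + 2)), true) = pt (P.x g) (P.L - 1) (P.v g) := by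
            rw [htop, nb_pt_b]
            simp only [if_true]
            congr 1
            ring
          have hk : KC P.L (P.e g) (P.x g) (P.x g) (P.L - 1) :=
            Or.inr (Or.inr (Or.inr (Or.inr ⟨rfl, rfl⟩)))
          rw [hq]
          refine ⟨⟨g, hg0, rfl, hk⟩, Or.inl ?_⟩
          rw [(P.k_core hg0 hk).1, (P.k_wire hg hp).1]
          omega
    rw [e2, e3]
    omega
  · have e2 : cz (fun q => P.LC q ∧ P.bef q p) p = 1 := P.wire_earlier hg hp htop
    have e3 : cz (fun q => P.CS q ∨ (P.CC q ∧ P.bef q p)) p = 0 := by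
      refine cz_eq_zero fun δ h => ?_
      have hcore : P.CC (nb p δ) ∨ P.CS (nb p δ) := by tauto
      rcases P.core_nb hz.1 hz.2.1 hz.2.2.2 hcore with ⟨-, h3, hq⟩ | ⟨-, h3, -⟩
      · -- the cell below the end of the wire
        have htail : Fin.tail p = P.X g 3 := by
          rcases hp.2.2 with h | h
          · rw [h, h3]
          · rw [h, h3]
            exact hw.lo_const (3 + 1) (by norm_num)
        rw [P.X_lo g hg] at htail
        have hpe : p = pt (P.e (g + 1)) 3 (P.v (g + 1)) := by
          rw [pt, ← htail, ← h3]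
          exact (Fin.cons_self_tail p).symm
        have hk : KC P.L (P.e (g + 1)) (P.x (g + 1)) (P.e (g + 1)) 2 := Or.inl ⟨rfl, rfl⟩
        have hq' : nb p δ = pt (P.e (g + 1)) 2 (P.v (g + 1)) := by
          rw [hq, hpe]; rfl
        have hcc : P.CC (nb p δ) := by
          rw [hq']; exact ⟨g + 1, hg, rfl, hk⟩
        rcases h with h | h
        · exact P.cc_not_cs hcc h
        · have hb := h.2
          rw [hq'] at hb
          have h5 := (P.k_core hg hk).1
          have h6 := (P.k_wire hg hp).1
          rcases hb with hb | ⟨hb, -⟩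
          · rw [h5, h6] at hb
            push_cast at hb
            omega
          · rw [h5, h6] at hb
            push_cast at hb
            omega
      · -- the top cell
        apply htop
        have htail : Fin.tail p = P.X g (P.L - 2) := by
          rcases hp.2.2 with h | h
          · rw [h, h3]
          · rw [h, h3]
            exact hw.hi_const (P.L - 2 + 1) (by omega)
        rw [P.X_hi g hg0] at htail
        rw [pt, ← htail, ← h3]
        exact (Fin.cons_self_tail p).symm
    rw [e2, e3]
    omega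

theorem star {p : Fin (D + 2) → ℤ} (h : P.C p) (hne : p ≠ P.start) :
    cz (fun q => P.S q ∨ (P.C q ∧ P.bef q p)) p = r := by
  rcases h with ⟨g, hg, hv, hk⟩ | h | ⟨g, hg, hp⟩
  · have := P.star_core hg hk
    rw [← hv, pt_eta] at this
    exact this
  · exact absurd h hne
  · exact P.star_link hg hp

theorem star_start : cz P.S P.start = r := by
  have hM := P.M_pos
  have hL12 := P.hL12
  have he : P.e 0 ≤ -18 := by
    have h1 := P.ex 0 hM
    have h2 := P.x_le 0 hM
    omega
  have e1 : cz P.S P.start = cz P.LS P.start := by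
    refine cz_congr fun δ => ?_
    constructor
    · rintro (h | h)
      · exfalso
        rcases P.core_nb (p := P.start) (show (3 : ℤ) ≤ 3 by norm_num)
          (show (3 : ℤ) ≤ P.L - 2 by omega) (show P.e 0 ≤ -11 by omega) (Or.inr h) with
          ⟨-, -, hq⟩ | ⟨-, h3, -⟩
        · have hk : KC P.L (P.e 0) (P.x 0) (P.e 0) 2 := Or.inl ⟨rfl, rfl⟩
          have hcc : P.CC (nb P.start δ) := by
            rw [hq]; exact ⟨0, hM, rfl, hk⟩
          exact P.cc_not_cs hcc h
        · have : (3 : ℤ) = P.L - 2 := h3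
          omega
      · exact h
    · exact fun h => Or.inr h
  rw [e1, P.start_seeds]

end Plan

end Pool.Agent.Lib.MP_1a3405_co.BP
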