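import Mathlib
import Pool.Agent.Lib.MP_1a3405_co.BP.SkelA

/-!
Percolation from the skeleton (seeds: at most `r - 1` coordinates `≠ 1`, except the lock).

`skel_perc`: let `U` be a set of points outside of the skeleton such that each of its points
sees fewer than `r` points outside of `U` (in the box). If the point with coordinate `0` equal to
`c ≥ 2`, the coordinates in `A` (`0 ∉ A`, `A.card = r - 1`) equal to `2` and the others equal to
`1` is not in `U`, then `U` is empty.
Proof. (1) going down from `c`: the points `z b` (`b` in place of `c`), `1 ≤ b ≤ c`, are not in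
`U` (for `b ≥ 2`: the `r - 1` skeleton points `z b - e_l`, `l ∈ A`, and `z (b+1)`; for `b = 1`:
the `r - 1` skeleton points `z 1 + e_l`, `l ∈ A`, and `z 2`).
(2) The lock: points are given by their set `Y` of coordinates equal to `2` (`0 ∉ Y`,
`Y.card ≤ r - 1`). Induction on `(Y \ A).card`, and for a fixed value of it downwards on
`Y.card`. `Y.card ≤ r - 2`: seeds: `Y.card` (`2 → 3`) and `1` (coordinate `0`), and the
lock points with `Y ∪ {l}`, `l ∈ A \ Y`. `Y.card = r - 1`, `Y ≠ A`: the lock point
`Y \ {m}`, `m ∈ Y \ A`, and `r - 1` seeds (`2 → 3`).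
(3) All other points have at least `r` coordinates `≥ 2` and the neighbours `p - e_j` with
`p j ≥ 2` are not in `U` by induction on the sum of the coordinates.
-/

namespace Pool.Agent.Lib.MP_1a3405_co.BP

open Pool.Agent.Lib.MP_1a3405_co Pool.Agent.Lib.MP_1a3405_co.Ord

variable {d : ℕ}

namespace SkelBAux

lemma skel_of {r : ℕ} {p : Fin (d + 1) → ℤ} (T : Finset (Fin (d + 1))) (hT : T.card ≤ r - 1)
    (h : ∀ i, i ∉ T → p i = 1) (h2 : p 0 ≠ 1 ∨ ∃ i, 2 < p i) : Skel r p := by
  constructor
  · have h3 : {i | p i ≠ 1} ⊆ (T : Set (Fin (d + 1))) := by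
      intro i hi
      by_contra hc
      exact hi (h i (by simpa using hc))
    refine le_trans (Set.ncard_le_ncard h3 (Finset.finite_toSet T)) ?_
    rw [Set.ncard_coe_finset]
    exact hT
  · rintro ⟨h4, h5⟩
    rcases h2 with h2 | ⟨i, hi⟩
    · exact h2 h5
    · have := h4 i; omega

/-- coordinate `0` is `c`, the coordinates in `Y` are `2`, the others `1` -/
def skp (c : ℤ) (Y : Finset (Fin (d + 1))) : Fin (d + 1) → ℤ :=
  fun i => if i = 0 then c else if i ∈ Y then 2 else 1

lemma skp_zero (c : ℤ) (Y : Finset (Fin (d + 1))) : skp c Y 0 = c := by simp [skp]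

lemma skp_in {c : ℤ} {Y : Finset (Fin (d + 1))} {i : Fin (d + 1)} (h0 : i ≠ 0) (h : i ∈ Y) :
    skp c Y i = 2 := by simp [skp, h0, h]

lemma skp_out {c : ℤ} {Y : Finset (Fin (d + 1))} {i : Fin (d + 1)} (h0 : i ≠ 0) (h : i ∉ Y) :
    skp c Y i = 1 := by simp [skp, h0, h]

lemma skp_cases (c : ℤ) (Y : Finset (Fin (d + 1))) (i : Fin (d + 1)) :
    (i = 0 ∧ skp c Y i = c) ∨ (i ≠ 0 ∧ i ∈ Y ∧ skp c Y i = 2) ∨
      (i ≠ 0 ∧ i ∉ Y ∧ skp c Y i = 1) := by
  by_cases h0 : i = 0
  · left; subst h0; exact ⟨rfl, skp_zero c Y⟩
  · by_cases h : i ∈ Y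
    · right; left; exact ⟨h0, h, skp_in h0 h⟩
    · right; right; exact ⟨h0, h, skp_out h0 h⟩

lemma notU_of {r n : ℕ} {U : (Fin (d + 1) → ℤ) → Prop}
    (hU : ∀ p, U p → InBox n p ∧ ¬ Skel r p ∧ cnt n (fun q => ¬ U q) p < r)
    {p : Fin (d + 1) → ℤ} (S : Finset (Fin (d + 1) × Bool)) (hS : r ≤ S.card)
    (h : ∀ δ ∈ S, InBox n (nb p δ) ∧ ¬ U (nb p δ)) : ¬ U p := by
  intro hp
  have h1 := (hU p hp).2.2
  have h2 := le_cnt_of_subset (n := n) (Q := fun q => ¬ U q) (p := p) S h
  omega

lemma notU_skel {r n : ℕ} {U : (Fin (d + 1) → ℤ) → Prop}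
    (hU : ∀ p, U p → InBox n p ∧ ¬ Skel r p ∧ cnt n (fun q => ¬ U q) p < r)
    {p : Fin (d + 1) → ℤ} (h : Skel r p) : ¬ U p := fun hp => (hU p hp).2.1 h

lemma nb_skp_zero (c : ℤ) (Y : Finset (Fin (d + 1))) :
    nb (skp c Y) (0, true) = skp (c + 1) Y := by
  funext i
  by_cases h : i = 0
  · subst h
    rw [nb_self, skp_zero, skp_zero]
    simp
  · rw [nb_other _ _ h]
    simp only [skp, if_neg h]

/-- step up at a coordinate of `Y` -/
lemma up_seed {r n : ℕ} {c : ℤ} {Y : Finset (Fin (d + 1))} (hc : c = 1) (hn : 3 ≤ n)
    (hY0 : (0 : Fin (d + 1)) ∉ Y) (hY : Y.card ≤ r - 1) {l : Fin (d + 1)} (hl : l ∈ Y) :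
    InBox n (nb (skp c Y) (l, true)) ∧ Skel r (nb (skp c Y) (l, true)) := by
  have hl0 : l ≠ 0 := fun h => hY0 (h ▸ hl)
  have hn' : (3 : ℤ) ≤ n := by exact_mod_cast hn
  constructor
  · intro i
    by_cases h : i = l
    · subst h
      rw [nb_self, skp_in hl0 hl]
      simp only [if_true]
      omega
    · rw [nb_other _ _ h]
      rcases skp_cases c Y i with ⟨_, h2⟩ | ⟨_, _, h2⟩ | ⟨_, _, h2⟩ <;> rw [h2] <;> omega
  · refine skel_of Y hY ?_ (Or.inr ⟨l, ?_⟩)
    · intro i hi
      have h : i ≠ l := fun h => hi (h ▸ hl)
      rw [nb_other _ _ h]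
      rcases skp_cases c Y i with ⟨_, h2⟩ | ⟨_, h1, _⟩ | ⟨_, _, h2⟩
      · rw [h2, hc]
      · exact absurd h1 hi
      · exact h2
    · rw [nb_self, skp_in hl0 hl]
      simp

lemma sum_nb_false (p : Fin (d + 1) → ℤ) (j : Fin (d + 1)) :
    ∑ i, nb p (j, false) i = ∑ i, p i - 1 := by
  have h1 : ∀ i, nb p (j, false) i = p i + if i = j then -1 else 0 := by
    intro i
    by_cases h : i = j
    · subst h; rw [nb_self]; simp
    · rw [nb_other _ _ h, if_neg h, add_zero]
  rw [Finset.sum_congr rfl fun i _ => h1 i, Finset.sum_add_distrib, Finset.sum_ite_eq']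
  simp
  ring

end SkelBAux

open SkelBAux

/-- going down along the column -/
lemma skelB_one {r n : ℕ} (hr : 3 ≤ r) (hn : 3 ≤ n)
    (A : Finset (Fin (d + 1))) (hA0 : 0 ∉ A) (hA : A.card = r - 1) (c : ℤ) (hc : 2 ≤ c)
    (hcn : c ≤ n) (U : (Fin (d + 1) → ℤ) → Prop)
    (hU : ∀ p, U p → InBox n p ∧ ¬ Skel r p ∧ cnt n (fun q => ¬ U q) p < r)
    (hz : ¬ U (skp c A)) : ∀ (k : ℕ) (b : ℤ), b + k = c → 1 ≤ b → ¬ U (skp b A) := by
  classical
  intro k
  induction k with
  | zero =>
    intro b hb _
    have : b = c := by simpa using hb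
    rw [this]; exact hz
  | succ k ih =>
    intro b hb hb1
    have hbc : b + 1 ≤ c := by push_cast at hb; omega
    have hup : InBox n (nb (skp b A) (0, true)) ∧ ¬ U (nb (skp b A) (0, true)) := by
      rw [nb_skp_zero]
      refine ⟨?_, ih (b + 1) (by push_cast at hb; omega) (by omega)⟩
      intro i
      rcases skp_cases (b + 1) A i with ⟨_, h2⟩ | ⟨_, _, h2⟩ | ⟨_, _, h2⟩ <;> rw [h2] <;> omega
    by_cases hb2 : 2 ≤ b
    · refine notU_of hU (insert ((0 : Fin (d + 1)), true) (A ×ˢ {false})) ?_ ?_
      · rw [Finset.card_insert_of_notMem (by simp), Finset.card_product, Finset.card_singleton, hA]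
        omega
      · intro δ hδ
        rw [Finset.mem_insert] at hδ
        rcases hδ with rfl | hδ
        · exact hup
        · obtain ⟨l, s⟩ := δ
          rw [Finset.mem_product, Finset.mem_singleton] at hδ
          obtain ⟨hl, rfl⟩ := hδ
          have hl0 : l ≠ 0 := fun h => hA0 (h ▸ hl)
          have hval : ∀ i, i ≠ 0 → i ∉ A.erase l → nb (skp b A) (l, false) i = 1 := by
            intro i hi0 hi
            by_cases h : i = l
            · subst h
              rw [nb_self, skp_in hl0 hl]; simp
            · rw [nb_other _ _ h]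
              exact skp_out hi0 (fun h3 => hi (Finset.mem_erase.2 ⟨h, h3⟩))
          constructor
          · intro i
            by_cases h : i = l
            · subst h
              rw [nb_self, skp_in hl0 hl]; simp; omega
            · rw [nb_other _ _ h]
              rcases skp_cases b A i with ⟨_, h2⟩ | ⟨_, _, h2⟩ | ⟨_, _, h2⟩ <;> rw [h2] <;> omega
          · apply notU_skel hU
            refine skel_of (insert 0 (A.erase l)) ?_ ?_ (Or.inl ?_)
            · refine le_trans (Finset.card_insert_le _ _) ?_
              rw [Finset.card_erase_of_mem hl, hA]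
              omega
            · intro i hi
              rw [Finset.mem_insert] at hi
              push Not at hi
              exact hval i hi.1 hi.2
            · rw [nb_other _ _ (Ne.symm hl0), skp_zero]
              omega
    · have hb' : b = 1 := by omega
      refine notU_of hU (insert ((0 : Fin (d + 1)), true) (A ×ˢ {true})) ?_ ?_
      · rw [Finset.card_insert_of_notMem (by simpa using hA0), Finset.card_product,
          Finset.card_singleton, hA]
        omega
      · intro δ hδ
        rw [Finset.mem_insert] at hδ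
        rcases hδ with rfl | hδ
        · exact hup
        · obtain ⟨l, s⟩ := δ
          rw [Finset.mem_product, Finset.mem_singleton] at hδ
          obtain ⟨hl, rfl⟩ := hδ
          have h4 := up_seed (r := r) hb' hn hA0 (by omega) hl
          exact ⟨h4.1, notU_skel hU h4.2⟩

/-- the lock -/
lemma skelB_two {r n : ℕ} (hr : 3 ≤ r) (hn : 3 ≤ n)
    (A : Finset (Fin (d + 1))) (hA0 : 0 ∉ A) (hA : A.card = r - 1)
    (U : (Fin (d + 1) → ℤ) → Prop)
    (hU : ∀ p, U p → InBox n p ∧ ¬ Skel r p ∧ cnt n (fun q => ¬ U q) p < r)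
    (hz : ¬ U (skp 1 A)) : ∀ (k j : ℕ) (Y : Finset (Fin (d + 1))), 0 ∉ Y → (Y \ A).card = k →
      Y.card + j = r - 1 → ¬ U (skp 1 Y) := by
  classical
  have hn' : (3 : ℤ) ≤ n := by exact_mod_cast hn
  have hbox : ∀ Y : Finset (Fin (d + 1)), InBox n (skp 1 Y) := by
    intro Y i
    rcases skp_cases 1 Y i with ⟨_, h2⟩ | ⟨_, _, h2⟩ | ⟨_, _, h2⟩ <;> rw [h2] <;> omega
  intro k
  induction k with
  | zero =>
    intro j
    induction j with
    | zero =>
      intro Y hY0 hYA hYc
      have hsub : Y ⊆ A := by
        rw [Finset.card_eq_zero, Finset.sdiff_eq_empty_iff_subset] at hYA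
        exact hYA
      have : Y = A := Finset.eq_of_subset_of_card_le hsub (by omega)
      rw [this]; exact hz
    | succ j ihj =>
      intro Y hY0 hYA hYc
      refine notU_of hU ((insert 0 (Y ∪ A)) ×ˢ {true}) ?_ ?_
      · rw [Finset.card_product, Finset.card_singleton, Finset.card_insert_of_notMem (by
          rw [Finset.mem_union]; push Not; exact ⟨hY0, hA0⟩)]
        have : A.card ≤ (Y ∪ A).card := Finset.card_le_card Finset.subset_union_right
        omega
      · intro δ hδ
        obtain ⟨l, s⟩ := δ
        rw [Finset.mem_product, Finset.mem_singleton, Finset.mem_insert, Finset.mem_union] at hδ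
        dsimp only at hδ
        obtain ⟨hl, rfl⟩ := hδ
        by_cases hlY : l ∈ Y
        · have h4 := up_seed (r := r) (c := 1) rfl hn hY0 (by omega) hlY
          exact ⟨h4.1, notU_skel hU h4.2⟩
        by_cases hl0 : l = 0
        · subst hl0
          rw [nb_skp_zero]
          constructor
          · intro i
            rcases skp_cases (1 + 1) Y i with ⟨_, h2⟩ | ⟨_, _, h2⟩ | ⟨_, _, h2⟩ <;>
              rw [h2] <;> omega
          · apply notU_skel hU
            refine skel_of (insert 0 Y) ?_ ?_ (Or.inl ?_)
            · refine le_trans (Finset.card_insert_le _ _) ?_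
              omega
            · intro i hi
              rw [Finset.mem_insert] at hi
              push Not at hi
              exact skp_out hi.1 hi.2
            · rw [skp_zero]; norm_num
        · have hlA : l ∈ A := by tauto
          have heq : nb (skp 1 Y) (l, true) = skp 1 (insert l Y) := by
            funext i
            by_cases h : i = l
            · subst h
              rw [nb_self, skp_out hl0 hlY, skp_in hl0 (Finset.mem_insert_self _ _)]
              simp
            · rw [nb_other _ _ h]
              simp only [skp, Finset.mem_insert, h, false_or]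
          rw [heq]
          refine ⟨hbox _, ihj (insert l Y) ?_ ?_ ?_⟩
          · rw [Finset.mem_insert]; push Not; exact ⟨Ne.symm hl0, hY0⟩
          · rw [Finset.insert_sdiff_of_mem _ hlA]; exact hYA
          · rw [Finset.card_insert_of_notMem hlY]; omega
  | succ k ihk =>
    intro j
    induction j with
    | zero =>
      intro Y hY0 hYA hYc
      have hne : (Y \ A).Nonempty := by
        rw [← Finset.card_pos]; omega
      obtain ⟨m, hm⟩ := hne
      rw [Finset.mem_sdiff] at hm
      have hm0 : m ≠ 0 := fun h => hY0 (h ▸ hm.1)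
      refine notU_of hU (insert (m, false) (Y ×ˢ {true})) ?_ ?_
      · rw [Finset.card_insert_of_notMem (by simp), Finset.card_product, Finset.card_singleton]
        omega
      · intro δ hδ
        rw [Finset.mem_insert] at hδ
        rcases hδ with rfl | hδ
        · have heq : nb (skp 1 Y) (m, false) = skp 1 (Y.erase m) := by
            funext i
            by_cases h : i = m
            · subst h
              rw [nb_self, skp_in hm0 hm.1, skp_out hm0 (Finset.notMem_erase _ _)]
              simp
            · rw [nb_other _ _ h]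
              simp only [skp, Finset.mem_erase, h, ne_eq, not_false_eq_true, true_and]
          rw [heq]
          refine ⟨hbox _, ihk 1 (Y.erase m) ?_ ?_ ?_⟩
          · intro h; exact hY0 (Finset.mem_of_mem_erase h)
          · rw [Finset.erase_sdiff_comm, Finset.card_erase_of_mem (Finset.mem_sdiff.2 hm)]
            omega
          · rw [Finset.card_erase_of_mem hm.1]; omega
        · obtain ⟨l, s⟩ := δ
          rw [Finset.mem_product, Finset.mem_singleton] at hδ
          obtain ⟨hl, rfl⟩ := hδ
          have h4 := up_seed (r := r) (c := 1) rfl hn hY0 (by omega) hl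
          exact ⟨h4.1, notU_skel hU h4.2⟩
    | succ j ihj =>
      intro Y hY0 hYA hYc
      refine notU_of hU ((insert 0 (Y ∪ A)) ×ˢ {true}) ?_ ?_
      · rw [Finset.card_product, Finset.card_singleton, Finset.card_insert_of_notMem (by
          rw [Finset.mem_union]; push Not; exact ⟨hY0, hA0⟩)]
        have : A.card ≤ (Y ∪ A).card := Finset.card_le_card Finset.subset_union_right
        omega
      · intro δ hδ
        obtain ⟨l, s⟩ := δ
        rw [Finset.mem_product, Finset.mem_singleton, Finset.mem_insert, Finset.mem_union] at hδ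
        dsimp only at hδ
        obtain ⟨hl, rfl⟩ := hδ
        by_cases hlY : l ∈ Y
        · have h4 := up_seed (r := r) (c := 1) rfl hn hY0 (by omega) hlY
          exact ⟨h4.1, notU_skel hU h4.2⟩
        by_cases hl0 : l = 0
        · subst hl0
          rw [nb_skp_zero]
          constructor
          · intro i
            rcases skp_cases (1 + 1) Y i with ⟨_, h2⟩ | ⟨_, _, h2⟩ | ⟨_, _, h2⟩ <;>
              rw [h2] <;> omega
          · apply notU_skel hU
            refine skel_of (insert 0 Y) ?_ ?_ (Or.inl ?_)
            · refine le_trans (Finset.card_insert_le _ _) ?_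
              omega
            · intro i hi
              rw [Finset.mem_insert] at hi
              push Not at hi
              exact skp_out hi.1 hi.2
            · rw [skp_zero]; norm_num
        · have hlA : l ∈ A := by tauto
          have heq : nb (skp 1 Y) (l, true) = skp 1 (insert l Y) := by
            funext i
            by_cases h : i = l
            · subst h
              rw [nb_self, skp_out hl0 hlY, skp_in hl0 (Finset.mem_insert_self _ _)]
              simp
            · rw [nb_other _ _ h]
              simp only [skp, Finset.mem_insert, h, false_or]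
          rw [heq]
          refine ⟨hbox _, ihj (insert l Y) ?_ ?_ ?_⟩
          · rw [Finset.mem_insert]; push Not; exact ⟨Ne.symm hl0, hY0⟩
          · rw [Finset.insert_sdiff_of_mem _ hlA]; exact hYA
          · rw [Finset.card_insert_of_notMem hlY]; omega

theorem skel_perc {r n : ℕ} (hr : 3 ≤ r) (hrd : r ≤ d) (hn : 3 ≤ n)
    (A : Finset (Fin (d + 1))) (hA0 : 0 ∉ A) (hA : A.card = r - 1) (c : ℤ) (hc : 2 ≤ c)
    (hcn : c ≤ n) (U : (Fin (d + 1) → ℤ) → Prop)
    (hU : ∀ p, U p → InBox n p ∧ ¬ Skel r p ∧ cnt n (fun q => ¬ U q) p < r)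
    (hz : ¬ U (fun i => if i = 0 then c else if i ∈ A then 2 else 1)) : ∀ p, ¬ U p := by
  classical
  have hz1 : ¬ U (skp 1 A) := by
    refine skelB_one hr hn A hA0 hA c hc hcn U hU hz (c - 1).toNat 1 ?_ le_rfl
    rw [Int.toNat_of_nonneg (by omega)]; ring
  have hlock := skelB_two hr hn A hA0 hA U hU hz1
  have key : ∀ (N : ℕ) (p : Fin (d + 1) → ℤ), InBox n p → ∑ i, p i ≤ N → ¬ U p := by
    intro N
    induction N with
    | zero =>
      intro p hp hs
      exfalso
      have h1 : ∑ i : Fin (d + 1), (1 : ℤ) ≤ ∑ i, p i := Finset.sum_le_sum fun i _ => (hp i).1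
      rw [Finset.sum_const, Finset.card_univ, Fintype.card_fin] at h1
      simp at h1 hs
      omega
    | succ N ih =>
      intro p hp hs
      by_cases hsk : Skel r p
      · exact notU_skel hU hsk
      by_cases hν : {i | p i ≠ 1}.ncard ≤ r - 1
      · -- the lock
        have hl : (∀ i, p i ≤ 2) ∧ p 0 = 1 := by
          by_contra hcon
          exact hsk ⟨hν, hcon⟩
        obtain ⟨Y, hYdef⟩ : ∃ Y : Finset (Fin (d + 1)),
            Y = Finset.univ.filter fun i => p i ≠ 1 := ⟨_, rfl⟩
        have hYmem : ∀ i, i ∈ Y ↔ p i ≠ 1 := by intro i; rw [hYdef]; simp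
        have hYc : Y.card = {i | p i ≠ 1}.ncard := by
          rw [← Set.ncard_coe_finset]
          congr 1
          ext i
          simp [hYmem]
        have hpe : p = skp 1 Y := by
          funext i
          rcases skp_cases 1 Y i with ⟨h1, h2⟩ | ⟨_, h1, h2⟩ | ⟨_, h1, h2⟩
          · rw [h2, h1]; exact hl.2
          · rw [h2]
            have h3 := (hYmem i).1 h1
            have h4 := hl.1 i
            have h5 := (hp i).1
            omega
          · rw [h2]
            by_contra h3
            exact h1 ((hYmem i).2 h3)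
        rw [hpe]
        refine hlock (Y \ A).card (r - 1 - Y.card) Y ?_ rfl ?_
        · intro h; exact (hYmem 0).1 h hl.2
        · omega
      · push Not at hν
        obtain ⟨Y, hYdef⟩ : ∃ Y : Finset (Fin (d + 1)),
            Y = Finset.univ.filter fun i => p i ≠ 1 := ⟨_, rfl⟩
        have hYmem : ∀ i, i ∈ Y ↔ p i ≠ 1 := by intro i; rw [hYdef]; simp
        have hYc : Y.card = {i | p i ≠ 1}.ncard := by
          rw [← Set.ncard_coe_finset]
          congr 1
          ext i
          simp [hYmem]
        refine notU_of hU (Y ×ˢ {false}) ?_ ?_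
        · rw [Finset.card_product, Finset.card_singleton]
          omega
        · intro δ hδ
          obtain ⟨l, s⟩ := δ
          rw [Finset.mem_product, Finset.mem_singleton] at hδ
          obtain ⟨hl, rfl⟩ := hδ
          have hl1 : p l ≠ 1 := (hYmem l).1 hl
          have hbx : InBox n (nb p (l, false)) := by
            intro i
            by_cases h : i = l
            · subst h
              rw [nb_self]
              have := hp i
              simp only [Bool.false_eq_true, if_false]
              omega
            · rw [nb_other _ _ h]; exact hp i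
          refine ⟨hbx, ih _ hbx ?_⟩
          rw [sum_nb_false]
          push_cast at hs
          omega
  intro p hUp
  have hp := (hU p hUp).1
  refine key (∑ i, p i).toNat p hp ?_ hUp
  exact Int.self_le_toNat _

end Pool.Agent.Lib.MP_1a3405_co.BP
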