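import Mathlib
import Pool.Agent.Lib.MP_1a3405_co.BP.CPercA
import Pool.Agent.Lib.MP_1a3405_co.BP.SkelB

/-!
Percolation: a set `U` of points which are not initially infected, each of which sees fewer than
`r` points outside of `U`, is empty.

Step 1: no chain cell is in `U` (induction on `τ`, `star_start`, `star`; all cells are in the
box by `box_c`, `box_s`). Step 2: no cell of the final wire is in `U` (induction along the wire,
`wire_pred`, `fp_seeds`; the first one is below the last chain cell). Step 3: the point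
`z = (8; 1; 2, …, 2, 1, …, 1)` (`r - 1` twos) is not in `U`: it sees the last cell
`(8; 2; 2, …, 2, 1, …, 1)` of the final wire (`X_last`) and `r - 1` skeleton points. Step 4:
`skel_perc` with `A` = the first `r - 1` fibre coordinates, `c = 8`.
-/

namespace Pool.Agent.Lib.MP_1a3405_co.BP

open Pool.Agent.Lib.MP_1a3405_co Pool.Agent.Lib.MP_1a3405_co.Ord

/-- the fibre of the last cell of the final wire -/
def percFib (D r : ℕ) : Fin D → ℤ := fun j => if (j : ℕ) < r - 1 then 2 else 1

/-- the first `r - 1` fibre coordinates -/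
def percDir (D r : ℕ) : Finset (Fin (D + 2)) :=
  (Finset.univ.filter (fun j : Fin D => (j : ℕ) < r - 1)).map
    ⟨fun j => j.succ.succ, fun _ _ h => Fin.succ_injective _ (Fin.succ_injective _ h)⟩

theorem percDir_card {D r : ℕ} (h : r ≤ D + 1) : (percDir D r).card = r - 1 := by
  rw [percDir, Finset.card_map, Fin.card_filter_val_lt]
  omega

theorem mem_percDir {D r : ℕ} (j : Fin D) :
    j.succ.succ ∈ percDir D r ↔ (j : ℕ) < r - 1 := by
  simp only [percDir, Finset.mem_map, Finset.mem_filter, Finset.mem_univ, true_and,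
    Function.Embedding.coeFn_mk]
  constructor
  · rintro ⟨i, hi, h⟩
    rw [← Fin.succ_injective _ (Fin.succ_injective _ h)]
    exact hi
  · intro h
    exact ⟨j, h, rfl⟩

theorem zero_notMem_percDir {D r : ℕ} : (0 : Fin (D + 2)) ∉ percDir D r := by
  simp only [percDir, Finset.mem_map, Finset.mem_filter, Finset.mem_univ, true_and,
    Function.Embedding.coeFn_mk, not_exists, not_and]
  intro i _ h
  exact absurd h (Fin.succ_ne_zero _)

theorem one_notMem_percDir {D r : ℕ} : (1 : Fin (D + 2)) ∉ percDir D r := by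
  simp only [percDir, Finset.mem_map, Finset.mem_filter, Finset.mem_univ, true_and,
    Function.Embedding.coeFn_mk, not_exists, not_and]
  intro i _ h
  rw [show (1 : Fin (D + 2)) = (0 : Fin (D + 1)).succ from rfl] at h
  exact absurd (Fin.succ_injective _ h) (Fin.succ_ne_zero _)

/-- the point above the lock, coordinate by coordinate -/
theorem perc_z_eq {D r : ℕ} :
    (fun i : Fin (D + 2) => if i = 0 then (8 : ℤ) else if i ∈ percDir D r then 2 else 1) =
      pt 1 8 (percFib D r) := by
  funext i
  refine Fin.cases rfl (fun i => ?_) i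
  refine Fin.cases ?_ (fun j => ?_) i
  · rw [if_neg (Fin.succ_ne_zero _)]
    rw [show (0 : Fin (D + 1)).succ = (1 : Fin (D + 2)) from rfl, if_neg one_notMem_percDir]
    rfl
  · rw [if_neg (Fin.succ_ne_zero _)]
    show (if j.succ.succ ∈ percDir D r then (2 : ℤ) else 1) = percFib D r j
    rw [percFib]
    by_cases h : (j : ℕ) < r - 1
    · rw [if_pos h, if_pos ((mem_percDir j).2 h)]
    · rw [if_neg h, if_neg (fun h' => h ((mem_percDir j).1 h'))]

theorem perc_skel {D r : ℕ} (hr : 4 ≤ r) (hrD : r ≤ D + 1) {i : Fin (D + 2)}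
    (hi : i ∈ percDir D r) : Skel r (nb (pt 1 8 (percFib D r)) (i, false)) := by
  classical
  constructor
  · have hsub : {j | nb (pt 1 8 (percFib D r)) (i, false) j ≠ 1} ⊆
        ((insert 0 ((percDir D r).erase i) : Finset (Fin (D + 2))) : Set (Fin (D + 2))) := by
      intro j hj
      have hj1 : nb (pt 1 8 (percFib D r)) (i, false) j ≠ 1 := hj
      rw [Finset.mem_coe, Finset.mem_insert, Finset.mem_erase]
      by_cases h0 : j = 0
      · exact Or.inl h0
      right
      by_cases hji : j = i
      · exfalso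
        apply hj1
        rw [hji, nb_self, ← perc_z_eq]
        simp only
        rw [if_neg (fun h => zero_notMem_percDir (h ▸ hi)), if_pos hi]
        simp
      · refine ⟨hji, ?_⟩
        rw [nb_other _ _ hji, ← perc_z_eq] at hj1
        simp only at hj1
        rw [if_neg h0] at hj1
        by_contra hc
        rw [if_neg hc] at hj1
        exact hj1 rfl
    have h1 := Set.ncard_le_ncard hsub (Finset.finite_toSet _)
    rw [Set.ncard_coe_finset] at h1
    have h2 := Finset.card_insert_le (0 : Fin (D + 2)) ((percDir D r).erase i)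
    rw [Finset.card_erase_of_mem hi, percDir_card hrD] at h2
    refine le_trans h1 (le_trans h2 ?_)
    omega
  · rintro ⟨h, -⟩
    have h0 := h 0
    rw [nb_other _ _ (fun h => zero_notMem_percDir (h ▸ hi))] at h0
    rw [pt_zero] at h0
    norm_num at h0

namespace Plan

variable {D r : ℕ} (P : Plan D r) {τ : (Fin (D + 2) → ℤ) → ℤ}

theorem perc_last (hτ : P.IsRank τ) (U : (Fin (D + 2) → ℤ) → Prop)
    (hU : ∀ p, U p → InBox P.n p ∧ ¬ (P.side τ).T p ∧ cnt P.n (fun q => ¬ U q) p < r) :
    InBox P.n (pt 2 8 (percFib D r)) ∧ ¬ U (pt 2 8 (percFib D r)) := by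
  have hL := P.hL12
  have h1 : P.FP (pt P.aF 3 (percFib D r)) := by
    refine ⟨?_, ?_, Or.inl ?_⟩
    · rw [pt_zero]
    · rw [pt_zero]; omega
    · rw [pt_zero, tail_pt, P.X_last]
      rfl
  have h2 : pt P.aF 3 (percFib D r) + P.w = pt 2 8 (percFib D r) := by
    funext i
    refine Fin.cases ?_ (fun i => ?_) i
    · show (3 : ℤ) + 5 = 8
      norm_num
    · refine Fin.cases ?_ (fun j => ?_) i
      · show P.aF + (2 - P.aF) = 2
        ring
      · show percFib D r j + 0 = percFib D r j
        ring
  rw [← h2]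
  exact ⟨P.inBox_f h1, P.perc_final hτ U hU h1⟩

theorem perc_z (hτ : P.IsRank τ) (U : (Fin (D + 2) → ℤ) → Prop)
    (hU : ∀ p, U p → InBox P.n p ∧ ¬ (P.side τ).T p ∧ cnt P.n (fun q => ¬ U q) p < r) :
    ¬ U (pt 1 8 (percFib D r)) := by
  classical
  intro hu
  have hr := P.hr
  obtain ⟨hb, -, hlt⟩ := hU _ hu
  obtain ⟨hl1, hl2⟩ := P.perc_last hτ U hU
  have h1 : (insert ((1 : Fin (D + 2)), true)
      ((percDir D r).map ⟨fun i => (i, false), fun i j h => (Prod.ext_iff.1 h).1⟩)).card ≤
      cnt P.n (fun q => ¬ U q) (pt 1 8 (percFib D r)) := by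
    apply le_cnt_of_subset
    intro δ hδ
    rw [Finset.mem_insert, Finset.mem_map] at hδ
    rcases hδ with rfl | ⟨i, hi, rfl⟩
    · rw [nb_pt_a]
      simp only [if_true]
      rw [show (1 : ℤ) + 1 = 2 by norm_num]
      exact ⟨hl1, hl2⟩
    · simp only [Function.Embedding.coeFn_mk]
      refine ⟨?_, fun h => (hU _ h).2.1 (Or.inl (perc_skel hr P.hrD hi))⟩
      intro j
      by_cases hji : j = i
      · have h3 := hb i
        rw [hji, nb_self]
        have h4 : pt 1 8 (percFib D r) i = 2 := by
          rw [← perc_z_eq]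
          simp only
          rw [if_neg (fun h => zero_notMem_percDir (h ▸ hi)), if_pos hi]
        rw [h4] at h3 ⊢
        simp only [Bool.false_eq_true, if_false]
        omega
      · rw [nb_other _ _ hji]
        exact hb j
  rw [Finset.card_insert_of_notMem, Finset.card_map, percDir_card P.hrD] at h1
  · omega
  · rw [Finset.mem_map]
    rintro ⟨i, -, h⟩
    have := (Prod.ext_iff.1 h).2
    simp at this

theorem perc_all (hτ : P.IsRank τ) (U : (Fin (D + 2) → ℤ) → Prop)
    (hU : ∀ p, U p → InBox P.n p ∧ ¬ (P.side τ).T p ∧ cnt P.n (fun q => ¬ U q) p < r) :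
    ∀ p, ¬ U p := by
  have hr := P.hr
  have hL := P.hL12
  have hn := P.L_box.1
  apply skel_perc (r := r) (n := P.n) (by omega) P.hrD (by omega) (percDir D r)
    zero_notMem_percDir (percDir_card P.hrD) 8 (by norm_num) (by omega) U
  · intro p hp
    obtain ⟨h1, h2, h3⟩ := hU p hp
    exact ⟨h1, fun h => h2 (Or.inl h), h3⟩
  · have h := P.perc_z hτ U hU
    rw [← perc_z_eq] at h
    exact h

end Plan

end Pool.Agent.Lib.MP_1a3405_co.BP
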