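import Mathlib
import Pool.Agent.Lib.MP_1a3405_co.BP.Defs

/-!
Planar lemmas on the cells outside of a fibre's set `Mem L e x = KC ∪ SC`. The rows of `Mem`
(`L` even): row `0`: `[-2, L] ∪ {e}`; row `1`: `[e, L]`; row `2`: `[e, -3] ∪ [1, L+1]`;
rows `3 ≤ b ≤ L - 2`: `[1, L]`, `0` (`b` odd), `L + 1` (`b` even); row `L - 1`: `[x, L]`;
row `L`: `[x, L + 1]`; row `L + 1`: `{x}`. (It is best to prove this description first.)
-/

namespace Pool.Agent.Lib.MP_1a3405_co.BP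

/-- all cells of an active fibre -/
def Mem (L e x a b : ℤ) : Prop := KC L e x a b ∨ SC L e x a b

open Classical in
/-- the number of neighbours in the fibre -/
noncomputable def pin (Q : ℤ → ℤ → Prop) (a b : ℤ) : ℕ :=
  (if Q a (b + 1) then 1 else 0) + (if Q a (b - 1) then 1 else 0) +
    ((if Q (a + 1) b then 1 else 0) + (if Q (a - 1) b then 1 else 0))

variable {L e x a b : ℤ}

theorem mem_iff : Mem L e x a b ↔
    ((b = 2 ∧ a = e) ∨ (b = 1 ∧ e ≤ a ∧ a ≤ L) ∨ (2 ≤ b ∧ b ≤ L - 1 ∧ 1 ≤ a ∧ a ≤ L) ∨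
    (b = L ∧ x ≤ a ∧ a ≤ L) ∨ (b = L - 1 ∧ a = x)) ∨
    (((b = 0 ∧ -2 ≤ a ∧ a ≤ L) ∨ (b = 2 ∧ e < a ∧ a ≤ -3) ∨
    (3 ≤ b ∧ b ≤ L - 1 ∧ b % 2 = 1 ∧ a = 0) ∨ (2 ≤ b ∧ b ≤ L ∧ b % 2 = 0 ∧ a = L + 1) ∨
    (b = L - 1 ∧ x < a ∧ a ≤ -1)) ∨ (b = 0 ∧ a = e) ∨ (b = L + 1 ∧ a = x)) := by
  unfold Mem KC SC SC0
  exact Iff.rfl

theorem mf_iff : MF L e x a b ↔
    ((b = 2 ∧ a = e) ∨ (b = 1 ∧ e ≤ a ∧ a ≤ L) ∨ (2 ≤ b ∧ b ≤ L - 1 ∧ 1 ≤ a ∧ a ≤ L) ∨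
    (b = L ∧ x ≤ a ∧ a ≤ L) ∨ (b = L - 1 ∧ a = x)) ∨
    ((b = 0 ∧ -2 ≤ a ∧ a ≤ L) ∨ (b = 2 ∧ e < a ∧ a ≤ -3) ∨
    (3 ≤ b ∧ b ≤ L - 1 ∧ b % 2 = 1 ∧ a = 0) ∨ (2 ≤ b ∧ b ≤ L ∧ b % 2 = 0 ∧ a = L + 1) ∨
    (b = L - 1 ∧ x < a ∧ a ≤ -1)) := by
  unfold MF KC SC0
  exact Iff.rfl

theorem mem_coarse (hL12 : 12 ≤ L) (hex : e + 6 ≤ x) (hx : x ≤ -12) (h : Mem L e x a b) :
    e ≤ a ∧ 0 ≤ b ∧ b ≤ L + 1 ∧ (3 ≤ b → b ≤ L - 2 → 0 ≤ a) ∧ (L - 1 ≤ b → x ≤ a) := by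
  rw [mem_iff] at h
  rcases h with (h | h | h | h | h) | ((h | h | h | h | h) | h | h)
  all_goals refine ⟨?_, ?_, ?_, fun _ _ => ?_, fun _ => ?_⟩ <;> omega

theorem mem_of_mf (h : MF L e x a b) : Mem L e x a b :=
  h.elim Or.inl (fun h => Or.inr (Or.inl h))

/-- membership in a row, in the rows `0`, `1`, `2` -/
theorem mem_row0 (hL12 : 12 ≤ L) : Mem L e x a 0 ↔ (-2 ≤ a ∧ a ≤ L) ∨ a = e := by
  rw [mem_iff]
  constructor
  · rintro ((h | h | h | h | h) | ((h | h | h | h | h) | h | h)) <;> omega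
  · rintro (h | h)
    · exact Or.inr (Or.inl (Or.inl ⟨rfl, h⟩))
    · exact Or.inr (Or.inr (Or.inl ⟨rfl, h⟩))

theorem mem_row1 (hL12 : 12 ≤ L) : Mem L e x a 1 ↔ e ≤ a ∧ a ≤ L := by
  rw [mem_iff]
  constructor
  · rintro ((h | h | h | h | h) | ((h | h | h | h | h) | h | h)) <;> omega
  · intro h
    exact Or.inl (Or.inr (Or.inl ⟨rfl, h⟩))

theorem mem_row2 (hL12 : 12 ≤ L) (hex : e + 6 ≤ x) (hx : x ≤ -12) :
    Mem L e x a 2 ↔ (e ≤ a ∧ a ≤ -3) ∨ (1 ≤ a ∧ a ≤ L + 1) := by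
  rw [mem_iff]
  constructor
  · rintro ((h | h | h | h | h) | ((h | h | h | h | h) | h | h)) <;> omega
  · rintro (⟨h1, h2⟩ | ⟨h1, h2⟩)
    · rcases eq_or_lt_of_le h1 with h3 | h3
      · exact Or.inl (Or.inl ⟨rfl, h3.symm⟩)
      · exact Or.inr (Or.inl (Or.inr (Or.inl ⟨rfl, h3, h2⟩)))
    · rcases eq_or_lt_of_le h2 with h3 | h3
      · exact Or.inr (Or.inl (Or.inr (Or.inr (Or.inr (Or.inl ⟨by omega, by omega, by omega, h3⟩)))))
      · exact Or.inl (Or.inr (Or.inr (Or.inl ⟨by omega, by omega, h1, by omega⟩)))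

/-- membership in a middle row -/
theorem mem_rowM (hL12 : 12 ≤ L) (hb : 3 ≤ b) (hb' : b ≤ L - 2) :
    Mem L e x a b ↔ (1 ≤ a ∧ a ≤ L) ∨ (b % 2 = 1 ∧ a = 0) ∨ (b % 2 = 0 ∧ a = L + 1) := by
  rw [mem_iff]
  constructor
  · rintro ((h | h | h | h | h) | ((h | h | h | h | h) | h | h)) <;> omega
  · rintro (h | h | h)
    · exact Or.inl (Or.inr (Or.inr (Or.inl ⟨by omega, by omega, h⟩)))
    · exact Or.inr (Or.inl (Or.inr (Or.inr (Or.inl ⟨by omega, by omega, h⟩))))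
    · exact Or.inr (Or.inl (Or.inr (Or.inr (Or.inr (Or.inl ⟨by omega, by omega, h⟩)))))

/-- membership in the row `L - 1` -/
theorem mem_rowL1 (hL : L % 2 = 0) (hL12 : 12 ≤ L) (hx : x ≤ -12) (hb : b = L - 1) :
    Mem L e x a b ↔ x ≤ a ∧ a ≤ L := by
  subst hb
  rw [mem_iff]
  constructor
  · rintro ((h | h | h | h | h) | ((h | h | h | h | h) | h | h)) <;> omega
  · rintro ⟨h1, h2⟩
    rcases eq_or_lt_of_le h1 with h3 | h3
    · exact Or.inl (Or.inr (Or.inr (Or.inr (Or.inr ⟨rfl, h3.symm⟩))))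
    · by_cases h4 : a ≤ -1
      · exact Or.inr (Or.inl (Or.inr (Or.inr (Or.inr (Or.inr ⟨rfl, h3, h4⟩)))))
      · by_cases h5 : a = 0
        · exact Or.inr (Or.inl (Or.inr (Or.inr (Or.inl ⟨by omega, by omega, by omega, h5⟩))))
        · exact Or.inl (Or.inr (Or.inr (Or.inl ⟨by omega, by omega, by omega, h2⟩)))

/-- membership in the row `L` -/
theorem mem_rowL (hL : L % 2 = 0) (hL12 : 12 ≤ L) (hx : x ≤ -12) (hb : b = L) :
    Mem L e x a b ↔ x ≤ a ∧ a ≤ L + 1 := by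
  subst hb
  rw [mem_iff]
  constructor
  · rintro ((h | h | h | h | h) | ((h | h | h | h | h) | h | h)) <;> omega
  · rintro ⟨h1, h2⟩
    rcases eq_or_lt_of_le h2 with h3 | h3
    · exact Or.inr (Or.inl (Or.inr (Or.inr (Or.inr (Or.inl ⟨by omega, by omega, hL, h3⟩)))))
    · exact Or.inl (Or.inr (Or.inr (Or.inr (Or.inl ⟨rfl, h1, by omega⟩))))

/-- membership in the row `L + 1` -/
theorem mem_rowL2 (hL12 : 12 ≤ L) (hb : b = L + 1) : Mem L e x a b ↔ a = x := by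
  subst hb
  rw [mem_iff]
  constructor
  · rintro ((h | h | h | h | h) | ((h | h | h | h | h) | h | h)) <;> omega
  · intro h
    exact Or.inr (Or.inr (Or.inr ⟨rfl, h⟩))

/-- two horizontal neighbours of an outside cell are not both inside -/
theorem mem_gap (hL : L % 2 = 0) (hL12 : 12 ≤ L) (hex : e + 6 ≤ x) (hx : x ≤ -12)
    (h : ¬ Mem L e x a b) (h1 : Mem L e x (a + 1) b) (h2 : Mem L e x (a - 1) b) : False := by
  obtain ⟨-, hb0, hbL, -, -⟩ := mem_coarse hL12 hex hx h1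
  have hcases : b = 0 ∨ b = 1 ∨ b = 2 ∨ (3 ≤ b ∧ b ≤ L - 2) ∨ b = L - 1 ∨ b = L ∨ b = L + 1 := by
    omega
  rcases hcases with hb | hb | hb | hb | hb | hb | hb
  · subst hb
    rw [mem_row0 hL12] at h h1 h2
    omega
  · subst hb
    rw [mem_row1 hL12] at h h1 h2
    omega
  · subst hb
    rw [mem_row2 hL12 hex hx] at h h1 h2
    omega
  · rw [mem_rowM hL12 hb.1 hb.2] at h h1 h2
    omega
  · rw [mem_rowL1 hL hL12 hx hb] at h h1 h2
    omega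
  · rw [mem_rowL hL hL12 hx hb] at h h1 h2
    omega
  · rw [mem_rowL2 hL12 hb] at h h1 h2
    omega

theorem pin_le_three (hL : L % 2 = 0) (hL12 : 12 ≤ L) (hex : e + 6 ≤ x) (hx : x ≤ -12)
    (h : ¬ Mem L e x a b) : pin (Mem L e x) a b ≤ 3 := by
  classical
  have hg := mem_gap hL hL12 hex hx h
  unfold pin
  by_cases h1 : Mem L e x (a + 1) b
  · have h2 : ¬ Mem L e x (a - 1) b := fun h2 => hg h1 h2
    rw [if_neg h2]
    split_ifs <;> omega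
  · rw [if_neg h1]
    split_ifs <;> omega

/-- at most one neighbour if the other three are excluded -/
theorem pin_le_one_of {Q : ℤ → ℤ → Prop} (h1 : ¬ Q a (b + 1)) (h2 : ¬ Q a (b - 1))
    (h3 : ¬ Q (a - 1) b) : pin Q a b ≤ 1 := by
  classical
  unfold pin
  rw [if_neg h1, if_neg h2, if_neg h3]
  split_ifs <;> omega

theorem pin_le_one_of' {Q : ℤ → ℤ → Prop} (h1 : ¬ Q a (b + 1)) (h2 : ¬ Q (a + 1) b)
    (h3 : ¬ Q (a - 1) b) : pin Q a b ≤ 1 := by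
  classical
  unfold pin
  rw [if_neg h1, if_neg h2, if_neg h3]
  split_ifs <;> omega

theorem pin_le_one_of'' {Q : ℤ → ℤ → Prop} (h1 : ¬ Q a (b - 1)) (h2 : ¬ Q (a + 1) b)
    (h3 : ¬ Q (a - 1) b) : pin Q a b ≤ 1 := by
  classical
  unfold pin
  rw [if_neg h1, if_neg h2, if_neg h3]
  split_ifs <;> omega

/-- to the left of the set -/
theorem pin_left (hL12 : 12 ≤ L) (hex : e + 6 ≤ x) (hx : x ≤ -12)
    (h : (b ≤ 2 ∧ a < e) ∨ (L - 1 ≤ b ∧ a < x)) : pin (Mem L e x) a b ≤ 1 := by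
  apply pin_le_one_of
  · intro h1
    obtain ⟨c1, c2, c3, c4, c5⟩ := mem_coarse hL12 hex hx h1
    omega
  · intro h1
    obtain ⟨c1, c2, c3, c4, c5⟩ := mem_coarse hL12 hex hx h1
    omega
  · intro h1
    obtain ⟨c1, c2, c3, c4, c5⟩ := mem_coarse hL12 hex hx h1
    omega

/-- an outside cell of a set whose ends are further left is to the left -/
theorem left_of_mem {e' x' : ℤ} (hL : L % 2 = 0) (hL12 : 12 ≤ L) (hex : e + 6 ≤ x)
    (hx : x ≤ -12) (hx' : x' ≤ -12) (hex' : e' + 6 ≤ x') (he : e' < e) (hxx : x' < x)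
    (h : ¬ Mem L e x a b) (h' : Mem L e' x' a b) :
    (b ≤ 2 ∧ a < e) ∨ (L - 1 ≤ b ∧ a < x) := by
  obtain ⟨-, hb0, hbL, -, -⟩ := mem_coarse hL12 hex' hx' h'
  have hcases : b = 0 ∨ b = 1 ∨ b = 2 ∨ (3 ≤ b ∧ b ≤ L - 2) ∨ b = L - 1 ∨ b = L ∨ b = L + 1 := by
    omega
  rcases hcases with hb | hb | hb | hb | hb | hb | hb
  · subst hb
    rw [mem_row0 hL12] at h h'
    omega
  · subst hb
    rw [mem_row1 hL12] at h h'
    omega
  · subst hb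
    rw [mem_row2 hL12 hex hx] at h
    rw [mem_row2 hL12 hex' hx'] at h'
    omega
  · rw [mem_rowM hL12 hb.1 hb.2] at h h'
    omega
  · rw [mem_rowL1 hL hL12 hx hb] at h
    rw [mem_rowL1 hL hL12 hx' hb] at h'
    omega
  · rw [mem_rowL hL hL12 hx hb] at h
    rw [mem_rowL hL hL12 hx' hb] at h'
    omega
  · rw [mem_rowL2 hL12 hb] at h h'
    omega

/-- the same for a face -/
theorem left_of_mf {e' x' : ℤ} (hL : L % 2 = 0) (hL12 : 12 ≤ L) (hex : e + 6 ≤ x)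
    (hx : x ≤ -12) (he : e' ≤ e) (hxx : x' ≤ x)
    (h : ¬ Mem L e x a b) (h' : MF L e' x' a b) :
    (b ≤ 2 ∧ a < e) ∨ (L - 1 ≤ b ∧ a < x) := by
  rw [mf_iff] at h'
  rcases h' with (h' | h' | h' | h' | h') | (h' | h' | h' | h' | h')
  · obtain ⟨hb, ha⟩ := h'
    subst hb
    rw [mem_row2 hL12 hex hx] at h
    omega
  · obtain ⟨hb, ha⟩ := h'
    subst hb
    rw [mem_row1 hL12] at h
    omega
  · exact absurd (mem_iff.mpr (Or.inl (Or.inr (Or.inr (Or.inl h'))))) h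
  · rw [mem_rowL hL hL12 hx h'.1] at h
    omega
  · rw [mem_rowL1 hL hL12 hx h'.1] at h
    omega
  · exact absurd (mem_iff.mpr (Or.inr (Or.inl (Or.inl h')))) h
  · obtain ⟨hb, ha⟩ := h'
    subst hb
    rw [mem_row2 hL12 hex hx] at h
    omega
  · exact absurd (mem_iff.mpr (Or.inr (Or.inl (Or.inr (Or.inr (Or.inl h')))))) h
  · exact absurd (mem_iff.mpr (Or.inr (Or.inl (Or.inr (Or.inr (Or.inr (Or.inl h'))))))) h
  · rw [mem_rowL1 hL hL12 hx h'.1] at h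
    omega

/-- an outside cell in a set whose ends are further right is one of the two ends -/
theorem ends_of_mem {e' x' : ℤ} (hL : L % 2 = 0) (hL12 : 12 ≤ L) (hex : e + 6 ≤ x)
    (hx : x ≤ -12) (hx' : x' ≤ -12) (hex' : e' + 6 ≤ x') (he : e ≤ e') (hxx : x ≤ x')
    (h : ¬ Mem L e x a b) (h' : Mem L e' x' a b) :
    (b = 0 ∧ a = e') ∨ (b = L + 1 ∧ a = x') := by
  obtain ⟨-, hb0, hbL, -, -⟩ := mem_coarse hL12 hex' hx' h'
  have hcases : b = 0 ∨ b = 1 ∨ b = 2 ∨ (3 ≤ b ∧ b ≤ L - 2) ∨ b = L - 1 ∨ b = L ∨ b = L + 1 := by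
    omega
  rcases hcases with hb | hb | hb | hb | hb | hb | hb
  · subst hb
    rw [mem_row0 hL12] at h h'
    omega
  · subst hb
    rw [mem_row1 hL12] at h h'
    omega
  · subst hb
    rw [mem_row2 hL12 hex hx] at h
    rw [mem_row2 hL12 hex' hx'] at h'
    omega
  · rw [mem_rowM hL12 hb.1 hb.2] at h h'
    omega
  · rw [mem_rowL1 hL hL12 hx hb] at h
    rw [mem_rowL1 hL hL12 hx' hb] at h'
    omega
  · rw [mem_rowL hL hL12 hx hb] at h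
    rw [mem_rowL hL hL12 hx' hb] at h'
    omega
  · rw [mem_rowL2 hL12 hb] at h h'
    omega

/-- the cells of an earlier neighbouring fibre -/
theorem pin_lower {e' x' : ℤ} (hL : L % 2 = 0) (hL12 : 12 ≤ L) (hex : e + 6 ≤ x) (hx : x ≤ -12)
    (hex' : e' + 6 ≤ x') (hxe : x' ≤ e) (h : ¬ Mem L e x a b) (h' : Mem L e' x' a b) :
    pin (Mem L e x) a b ≤ 1 :=
  pin_left hL12 hex hx (left_of_mem hL hL12 hex hx (by omega) hex' (by omega) (by omega) h h')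

/-- the cells of a face -/
theorem pin_face {e' x' : ℤ} (hL : L % 2 = 0) (hL12 : 12 ≤ L) (hex : e + 6 ≤ x) (hx : x ≤ -12)
    (he : e' ≤ e) (hxx : x' ≤ x) (h : ¬ Mem L e x a b) (h' : MF L e' x' a b) :
    pin (Mem L e x) a b ≤ 1 :=
  pin_left hL12 hex hx (left_of_mf hL hL12 hex hx he hxx h h')

/-- the cells of a later neighbouring fibre -/
theorem pin_upper {e' x' : ℤ} (hL : L % 2 = 0) (hL12 : 12 ≤ L) (hex : e + 6 ≤ x) (hx : x ≤ -12)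
    (hex' : e' + 6 ≤ x') (hx' : x' ≤ -12) (hxe : x ≤ e') (h : ¬ Mem L e x a b)
    (h' : Mem L e' x' a b) : pin (Mem L e x) a b ≤ 1 := by
  rcases ends_of_mem hL hL12 hex hx hx' hex' (by omega) (by omega) h h' with ⟨hb, ha⟩ | ⟨hb, ha⟩
  · subst hb ha
    apply pin_le_one_of''
    · intro h1
      obtain ⟨c1, c2, c3, c4, c5⟩ := mem_coarse hL12 hex hx h1
      omega
    · rw [mem_row0 hL12]
      omega
    · rw [mem_row0 hL12]
      omega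
  · subst ha
    apply pin_le_one_of'
    · intro h1
      obtain ⟨c1, c2, c3, c4, c5⟩ := mem_coarse hL12 hex hx h1
      omega
    · rw [mem_rowL2 hL12 hb]
      omega
    · rw [mem_rowL2 hL12 hb]
      omega

end Pool.Agent.Lib.MP_1a3405_co.BP
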