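import Mathlib
import Pool.Agent.Lib.MP_1a3405_co.BP.POutA

/-!
More planar lemmas on cells outside of a fibre's set (see the rows in `POutA`).
-/

namespace Pool.Agent.Lib.MP_1a3405_co.BP

variable {L e x a b : ℤ}

/-- a cell outside cannot be in an earlier and in a later fibre -/
theorem mem_excl {e' x' e'' x'' : ℤ} (hL : L % 2 = 0) (hL12 : 12 ≤ L) (hex : e + 6 ≤ x)
    (hx : x ≤ -12) (hex' : e' + 6 ≤ x') (hxe : x' ≤ e) (hex'' : e'' + 6 ≤ x'')
    (hx'' : x'' ≤ -12) (hxe'' : x ≤ e'') (h : ¬ Mem L e x a b) (h' : Mem L e' x' a b)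
    (h'' : Mem L e'' x'' a b) : False := by
  have h1 := left_of_mem hL hL12 hex hx (by omega) hex' (by omega) (by omega) h h'
  have h2 := ends_of_mem hL hL12 hex hx hx'' hex'' (by omega) (by omega) h h''
  omega

/-- a cell outside cannot be in a face and in a later fibre -/
theorem face_excl {e' x' e'' x'' : ℤ} (hL : L % 2 = 0) (hL12 : 12 ≤ L) (hex : e + 6 ≤ x)
    (hx : x ≤ -12) (he : e' ≤ e) (hxx : x' ≤ x) (hex'' : e'' + 6 ≤ x'')
    (hx'' : x'' ≤ -12) (hxe'' : x ≤ e'') (h : ¬ Mem L e x a b) (h' : MF L e' x' a b)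
    (h'' : Mem L e'' x'' a b) : False := by
  have h1 := left_of_mf hL hL12 hex hx he hxx h h'
  have h2 := ends_of_mem hL hL12 hex hx hx'' hex'' (by omega) (by omega) h h''
  omega

/-- a face is the set of a fibre without its two extra seeds -/
theorem mf_iff_mem (hL12 : 12 ≤ L) (hex : e + 6 ≤ x) (hx : x ≤ -12) :
    MF L e x a b ↔ Mem L e x a b ∧ ¬ (b = 0 ∧ a = e) ∧ ¬ (b = L + 1 ∧ a = x) := by
  constructor
  · intro h
    refine ⟨mem_of_mf h, ?_, ?_⟩
    · rintro ⟨hb, ha⟩
      rw [mf_iff] at h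
      rcases h with (h | h | h | h | h) | (h | h | h | h | h) <;> omega
    · rintro ⟨hb, ha⟩
      rw [mf_iff] at h
      rcases h with (h | h | h | h | h) | (h | h | h | h | h) <;> omega
  · rintro ⟨h | h | h | h, h1, h2⟩
    · exact Or.inl h
    · exact Or.inr h
    · exact absurd h h1
    · exact absurd h h2

/-- cells outside of a face -/
theorem pin_F (hL : L % 2 = 0) (hL12 : 12 ≤ L) (hex : e + 6 ≤ x) (hx : x ≤ -12)
    (h : ¬ MF L e x a b) : pin (MF L e x) a b ≤ 3 := by
  classical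
  have hg : MF L e x (a + 1) b → MF L e x (a - 1) b → False := by
    intro h1 h2
    rw [mf_iff_mem hL12 hex hx] at h h1 h2
    by_cases hm : Mem L e x a b
    · have h3 : (b = 0 ∧ a = e) ∨ (b = L + 1 ∧ a = x) := by
        by_contra h4
        exact h ⟨hm, fun h5 => h4 (Or.inl h5), fun h5 => h4 (Or.inr h5)⟩
      rcases h3 with ⟨hb, ha⟩ | ⟨hb, ha⟩
      · have h4 := h1.1
        subst hb
        rw [mem_row0 hL12] at h4
        omega
      · have h4 := h1.1
        rw [mem_rowL2 hL12 hb] at h4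
        omega
    · exact mem_gap hL hL12 hex hx hm h1.1 h2.1
  unfold pin
  by_cases h1 : MF L e x (a + 1) b
  · have h2 : ¬ MF L e x (a - 1) b := fun h2 => hg h1 h2
    rw [if_neg h2]
    split_ifs <;> omega
  · rw [if_neg h1]
    split_ifs <;> omega

/-- cells outside of a face which belong to an active fibre -/
theorem pin_F_mem {e' x' : ℤ} (hL : L % 2 = 0) (hL12 : 12 ≤ L) (hex : e + 6 ≤ x)
    (hex' : e' + 6 ≤ x') (hx' : x' ≤ -12) (he : e ≤ e') (hxx : x ≤ x')
    (h : ¬ MF L e x a b) (h' : Mem L e' x' a b) : pin (MF L e x) a b ≤ 2 := by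
  classical
  have hx : x ≤ -12 := by omega
  have hends : (b = 0 ∧ a = e') ∨ (b = L + 1 ∧ a = x') := by
    rw [mf_iff_mem hL12 hex hx] at h
    by_cases hm : Mem L e x a b
    · have h3 : (b = 0 ∧ a = e) ∨ (b = L + 1 ∧ a = x) := by
        by_contra h4
        exact h ⟨hm, fun h5 => h4 (Or.inl h5), fun h5 => h4 (Or.inr h5)⟩
      rcases h3 with ⟨hb, ha⟩ | ⟨hb, ha⟩
      · subst hb
        rw [mem_row0 hL12] at h'
        omega
      · rw [mem_rowL2 hL12 hb] at h'
        omega
    · exact ends_of_mem hL hL12 hex hx hx' hex' he hxx hm h'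
  have h1 : ¬ MF L e x (a + 1) b := by
    intro h1
    rw [mf_iff_mem hL12 hex hx] at h1
    rcases hends with ⟨hb, ha⟩ | ⟨hb, ha⟩
    · have h4 := h1.1
      subst hb
      rw [mem_row0 hL12] at h4
      omega
    · have h4 := h1.1
      rw [mem_rowL2 hL12 hb] at h4
      omega
  have h2 : ¬ MF L e x (a - 1) b := by
    intro h1
    rw [mf_iff_mem hL12 hex hx] at h1
    rcases hends with ⟨hb, ha⟩ | ⟨hb, ha⟩
    · have h4 := h1.1
      subst hb
      rw [mem_row0 hL12] at h4
      omega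
    · have h4 := h1.1
      rw [mem_rowL2 hL12 hb] at h4
      omega
  unfold pin
  rw [if_neg h1, if_neg h2]
  split_ifs <;> omega

/-- no neighbour in the fibre at the end cells `(e', 2)`, `(x', L - 1)` of an earlier
neighbouring fibre, and these cells are not in any later fibre -/
theorem pin_ends {e' x' : ℤ} (hL : L % 2 = 0) (hL12 : 12 ≤ L) (hex : e + 6 ≤ x) (hx : x ≤ -12)
    (hex' : e' + 6 ≤ x') (hxe : x' ≤ e) :
    pin (Mem L e x) e' 2 = 0 ∧ pin (Mem L e x) x' (L - 1) = 0 ∧ ¬ Mem L e x e' 2 ∧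
      ¬ Mem L e x x' (L - 1) := by
  classical
  have key : ∀ a b : ℤ, a < e → ¬ Mem L e x a b := by
    intro a b ha h
    have := (mem_coarse hL12 hex hx h).1
    omega
  have key2 : ∀ a b : ℤ, L - 2 ≤ b → a < x → a < 0 → ¬ Mem L e x a b := by
    intro a b hb ha ha0 h
    obtain ⟨c1, c2, c3, c4, c5⟩ := mem_coarse hL12 hex hx h
    omega
  refine ⟨?_, ?_, key _ _ (by omega), key2 _ _ (by omega) (by omega) (by omega)⟩
  · unfold pin
    rw [if_neg (key _ _ (by omega)), if_neg (key _ _ (by omega)), if_neg (key _ _ (by omega)),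
      if_neg (key _ _ (by omega))]
  · unfold pin
    rw [if_neg (key2 _ _ (by omega) (by omega) (by omega)),
      if_neg (key2 _ _ (by omega) (by omega) (by omega)),
      if_neg (key2 _ _ (by omega) (by omega) (by omega)),
      if_neg (key2 _ _ (by omega) (by omega) (by omega))]

end Pool.Agent.Lib.MP_1a3405_co.BP
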