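import Mathlib
import Pool.Agent.Lib.MP_1a3405_co.BP.POutB
import Pool.Agent.Lib.MP_1a3405_co.BP.COrd

/-!
Cells outside of the core in an active fibre see at most `r - 1` core cells.

The neighbours inside the fibre: `pin (Mem …)`. The neighbouring fibres in the pattern: `r - 2`
fibres `v g - e_i` (faces, or earlier active fibres), `r - 2` fibres `v g + e_i` (not faces; if
active then later, `nb_order`). By `mem_excl`, `face_excl` the cell cannot belong to a lower and
to an upper one, and if it belongs to one of them then `pin ≤ 1`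
(`pin_lower`, `pin_face`, `pin_upper`); otherwise `pin ≤ 3 ≤ r - 1` (`pin_le_three`).
-/

namespace Pool.Agent.Lib.MP_1a3405_co.BP

open Pool.Agent.Lib.MP_1a3405_co Pool.Agent.Lib.MP_1a3405_co.Ord

namespace Plan

variable {D r : ℕ} (P : Plan D r)

/-- a core cell lies in an active fibre or in a face -/
private lemma core_cases {a b : ℤ} {y : Fin D → ℤ}
    (h : P.CC (pt a b y) ∨ P.CS (pt a b y)) :
    (∃ k < P.M, P.v k = y ∧ Mem P.L (P.e k) (P.x k) a b) ∨ (P.F y ∧ MF P.L P.eF P.xF a b) := by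
  rcases h with ⟨k, hk, hf, hc⟩ | ⟨k, hk, hf, hc⟩ | ⟨hF, hm⟩
  · rw [fib_pt] at hf
    exact Or.inl ⟨k, hk, hf.symm, Or.inl hc⟩
  · rw [fib_pt] at hf
    exact Or.inl ⟨k, hk, hf.symm, Or.inr hc⟩
  · exact Or.inr ⟨hF, hm⟩

/-- the core cells of an active fibre -/
private lemma core_iff {g : ℕ} (hg : g < P.M) (a b : ℤ) :
    (P.CC (pt a b (P.v g)) ∨ P.CS (pt a b (P.v g))) ↔ Mem P.L (P.e g) (P.x g) a b := by
  constructor
  · intro h
    rcases P.core_cases h with ⟨k, hk, hv, hm⟩ | ⟨hF, -⟩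
    · have e := P.v_inj k hk g hg hv
      subst e
      exact hm
    · exact absurd hF (P.v_F g hg)
  · rintro (h | h)
    · exact Or.inl ⟨g, hg, rfl, h⟩
    · exact Or.inr (Or.inl ⟨g, hg, rfl, h⟩)

/-- the directions of the count in the fibre directions -/
private lemma cz_le_side {y : Fin D → ℤ} (hT : P.T y) {Q : (Fin D → ℤ) → Prop} (s : Bool)
    (h : ∀ i s', Q (nb y (i, s')) → s' = s ∧ P.T (nb y (i, s'))) : cz Q y ≤ r - 2 := by
  classical
  have hc : {i : Fin D | P.T (nb y (i, s))}.ncard = r - 2 := by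
    cases s
    · exact P.T_dn y hT
    · exact P.T_up y hT
  have h1 : cz Q y ≤ ((Finset.univ.filter fun i : Fin D => P.T (nb y (i, s))).image
      (fun i => ((i, s) : Fin D × Bool))).card := by
    apply cz_le_of_subset
    rintro ⟨i, s'⟩ hQ
    obtain ⟨rfl, hT'⟩ := h i s' hQ
    simp only [Finset.mem_image, Finset.mem_filter, Finset.mem_univ, true_and]
    exact ⟨i, hT', rfl⟩
  have h2 : (Finset.univ.filter fun i : Fin D => P.T (nb y (i, s))).card = r - 2 := by
    rw [← hc, ← Set.ncard_coe_finset]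
    congr 1
    ext i
    simp
  calc cz Q y ≤ _ := h1
    _ ≤ _ := Finset.card_image_le
    _ = r - 2 := h2

/-- the count, split into the neighbours inside the fibre and in the fibre directions -/
private lemma cz_split {g : ℕ} (hg : g < P.M) (a b : ℤ) :
    cz (fun q => P.CC q ∨ P.CS q) (pt a b (P.v g)) =
      pin (Mem P.L (P.e g) (P.x g)) a b +
        cz (fun y => P.CC (pt a b y) ∨ P.CS (pt a b y)) (P.v g) := by
  classical
  rw [cz_pt]
  unfold pin
  simp only [P.core_iff hg]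
  ring

/-- lower directions -/
private lemma lower_cases {g : ℕ} (hg : g < P.M) {a b : ℤ} {i : Fin D}
    (h : P.CC (pt a b (nb (P.v g) (i, false))) ∨ P.CS (pt a b (nb (P.v g) (i, false)))) :
    P.T (nb (P.v g) (i, false)) ∧
      ((∃ k < g, P.x k ≤ P.e g ∧ Mem P.L (P.e k) (P.x k) a b) ∨ MF P.L P.eF P.xF a b) := by
  have hT : P.T (nb (P.v g) (i, false)) := by
    rcases P.core_cases h with ⟨k, hk, hv, -⟩ | ⟨hF, -⟩
    · rw [← hv]; exact P.v_T k hk
    · exact P.F_T _ hF
  refine ⟨hT, ?_⟩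
  rcases P.core_cases h with ⟨k, hk, hv, hm⟩ | ⟨-, hm⟩
  · rcases P.low g hg i hT with hF | ⟨k', hk', hv', hx⟩
    · rw [← hv] at hF
      exact absurd hF (P.v_F k hk)
    · have e := P.v_inj k' (lt_trans hk' hg) k hk (by rw [hv', hv])
      subst e
      exact Or.inl ⟨k', hk', hx, hm⟩
  · exact Or.inr hm

/-- upper directions -/
private lemma upper_cases {g : ℕ} (hg : g < P.M) {a b : ℤ} {i : Fin D}
    (h : P.CC (pt a b (nb (P.v g) (i, true))) ∨ P.CS (pt a b (nb (P.v g) (i, true)))) :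
    P.T (nb (P.v g) (i, true)) ∧
      ∃ k < P.M, P.x g ≤ P.e k ∧ Mem P.L (P.e k) (P.x k) a b := by
  rcases P.core_cases h with ⟨k, hk, hv, hm⟩ | ⟨hF, -⟩
  · refine ⟨by rw [← hv]; exact P.v_T k hk, k, hk, ?_, hm⟩
    exact (P.nb_order hg hk hv).2
  · exact absurd hF (P.up_F g hg i)

theorem core_two_act {g : ℕ} (hg : g < P.M) {a b : ℤ} (h : ¬ Mem P.L (P.e g) (P.x g) a b) :
    cz (fun q => P.CC q ∨ P.CS q) (pt a b (P.v g)) ≤ r - 1 := by
  have hr := P.hr
  have hex := P.ex g hg
  have hx := P.x_le g hg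
  rw [P.cz_split hg]
  by_cases hlow : ∃ i, P.CC (pt a b (nb (P.v g) (i, false))) ∨
      P.CS (pt a b (nb (P.v g) (i, false)))
  · obtain ⟨i, hi⟩ := hlow
    obtain ⟨-, hc⟩ := P.lower_cases hg hi
    have h1 : pin (Mem P.L (P.e g) (P.x g)) a b ≤ 1 := by
      rcases hc with ⟨k, hk, hxe, hm⟩ | hm
      · exact pin_lower P.hL P.hL12 hex hx (P.ex k (lt_trans hk hg)) hxe h hm
      · exact pin_face P.hL P.hL12 hex hx (P.eF_le g hg) (P.xF_le g hg) h hm
    have h2 : cz (fun y => P.CC (pt a b y) ∨ P.CS (pt a b y)) (P.v g) ≤ r - 2 := by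
      refine P.cz_le_side (P.v_T g hg) false ?_
      intro j s' hj
      cases s' with
      | false => exact ⟨rfl, (P.lower_cases hg hj).1⟩
      | true =>
        exfalso
        obtain ⟨-, k', hk', hxe', hm'⟩ := P.upper_cases hg hj
        rcases hc with ⟨k, hk, hxe, hm⟩ | hm
        · exact mem_excl P.hL P.hL12 hex hx (P.ex k (lt_trans hk hg)) hxe (P.ex k' hk')
            (P.x_le k' hk') hxe' h hm hm'
        · exact face_excl P.hL P.hL12 hex hx (P.eF_le g hg) (P.xF_le g hg) (P.ex k' hk')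
            (P.x_le k' hk') hxe' h hm hm'
    omega
  · by_cases hup : ∃ i, P.CC (pt a b (nb (P.v g) (i, true))) ∨
      P.CS (pt a b (nb (P.v g) (i, true)))
    · obtain ⟨i, hi⟩ := hup
      obtain ⟨-, k, hk, hxe, hm⟩ := P.upper_cases hg hi
      have h1 : pin (Mem P.L (P.e g) (P.x g)) a b ≤ 1 :=
        pin_upper P.hL P.hL12 hex hx (P.ex k hk) (P.x_le k hk) hxe h hm
      have h2 : cz (fun y => P.CC (pt a b y) ∨ P.CS (pt a b y)) (P.v g) ≤ r - 2 := by
        refine P.cz_le_side (P.v_T g hg) true ?_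
        intro j s' hj
        cases s' with
        | false => exact absurd ⟨j, hj⟩ hlow
        | true => exact ⟨rfl, (P.upper_cases hg hj).1⟩
      omega
    · have h1 := pin_le_three P.hL P.hL12 hex hx h
      have h2 : cz (fun y => P.CC (pt a b y) ∨ P.CS (pt a b y)) (P.v g) = 0 := by
        apply cz_eq_zero
        rintro ⟨j, s'⟩ hj
        cases s' with
        | false => exact hlow ⟨j, hj⟩
        | true => exact hup ⟨j, hj⟩
      omega

/-- the end cells of an earlier neighbouring fibre (use `pin_ends`) -/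
theorem core_two_ends_act {g h : ℕ} (hg : g < P.M) (hh : h < P.M) {i : Fin D}
    (he : P.v h = nb (P.v g) (i, true)) :
    cz (fun q => P.CC q ∨ P.CS q) (pt (P.e g) 2 (P.v h)) ≤ r - 2 ∧
      cz (fun q => P.CC q ∨ P.CS q) (pt (P.x g) (P.L - 1) (P.v h)) ≤ r - 2 := by
  obtain ⟨-, hxe⟩ := P.nb_order hg hh he
  have hexh := P.ex h hh
  obtain ⟨p1, p2, -, -⟩ := pin_ends P.hL P.hL12 (P.ex h hh) (P.x_le h hh) (P.ex g hg) hxe
  constructor
  · rw [P.cz_split hh, p1, zero_add]
    refine P.cz_le_side (P.v_T h hh) false ?_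
    intro j s' hj
    cases s' with
    | false => exact ⟨rfl, (P.lower_cases hh hj).1⟩
    | true =>
      exfalso
      obtain ⟨-, k, hk, hxk, hm⟩ := P.upper_cases hh hj
      obtain ⟨-, -, q1, -⟩ := pin_ends P.hL P.hL12 (P.ex k hk) (P.x_le k hk) (P.ex g hg)
        (by omega)
      exact q1 hm
  · rw [P.cz_split hh, p2, zero_add]
    refine P.cz_le_side (P.v_T h hh) false ?_
    intro j s' hj
    cases s' with
    | false => exact ⟨rfl, (P.lower_cases hh hj).1⟩
    | true =>
      exfalso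
      obtain ⟨-, k, hk, hxk, hm⟩ := P.upper_cases hh hj
      obtain ⟨-, -, -, q1⟩ := pin_ends P.hL P.hL12 (P.ex k hk) (P.x_le k hk) (P.ex g hg)
        (by omega)
      exact q1 hm

end Plan

end Pool.Agent.Lib.MP_1a3405_co.BP
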