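import Mathlib
import Pool.Agent.Lib.MP_1a3405_co.BP.POutB
import Pool.Agent.Lib.MP_1a3405_co.BP.COrd

/-!
Cells outside of the core in a face fibre `y` see at most `r - 1` core cells: inside the fibre
`pin (MF …) ≤ 3` (`pin_F`); the neighbouring faces do not contain the cell (the same set `MF`);
at most one neighbouring fibre is active (`F_one`), and if the cell belongs to it then
`pin (MF …) ≤ 2` (`pin_F_mem`, with `eF_le`, `xF_le`). Note that `y` itself is not active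
(`v_F`).
-/

namespace Pool.Agent.Lib.MP_1a3405_co.BP

open Pool.Agent.Lib.MP_1a3405_co Pool.Agent.Lib.MP_1a3405_co.Ord

namespace Plan

variable {D r : ℕ} (P : Plan D r)

theorem core_two_face {y : Fin D → ℤ} (hy : P.F y) {a b : ℤ} (h : ¬ MF P.L P.eF P.xF a b) :
    cz (fun q => P.CC q ∨ P.CS q) (pt a b y) ≤ r - 1 := by
  have hr := P.hr
  -- inside the fibre
  have hin : ∀ a' b', (P.CC (pt a' b' y) ∨ P.CS (pt a' b' y)) ↔ MF P.L P.eF P.xF a' b' := by
    intro a' b'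
    constructor
    · rintro (⟨g, hg, hf, -⟩ | ⟨g, hg, hf, -⟩ | ⟨-, hm⟩)
      · rw [fib_pt] at hf
        exact absurd (hf ▸ hy) (P.v_F g hg)
      · rw [fib_pt] at hf
        exact absurd (hf ▸ hy) (P.v_F g hg)
      · exact hm
    · intro hm
      exact Or.inr (Or.inr ⟨hy, hm⟩)
  -- the neighbouring fibres
  have hout : ∀ δ, (P.CC (pt a b (nb y δ)) ∨ P.CS (pt a b (nb y δ))) →
      ∃ g < P.M, P.v g = nb y δ ∧ Mem P.L (P.e g) (P.x g) a b := by
    rintro δ (⟨g, hg, hf, hk⟩ | ⟨g, hg, hf, hk⟩ | ⟨-, hm⟩)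
    · exact ⟨g, hg, hf.symm, Or.inl hk⟩
    · exact ⟨g, hg, hf.symm, Or.inr hk⟩
    · exact absurd hm h
  have hone : cz (fun z => P.CC (pt a b z) ∨ P.CS (pt a b z)) y ≤ 1 := by
    apply cz_le_one
    intro δ δ' h1 h2
    obtain ⟨g, hg, hv, -⟩ := hout δ h1
    obtain ⟨g', hg', hv', -⟩ := hout δ' h2
    exact P.F_one y hy δ δ' ⟨g, hg, hv⟩ ⟨g', hg', hv'⟩
  have hsplit : cz (fun q => P.CC q ∨ P.CS q) (pt a b y) =
      pin (MF P.L P.eF P.xF) a b + cz (fun z => P.CC (pt a b z) ∨ P.CS (pt a b z)) y := by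
    classical
    rw [cz_pt, pin]
    simp only [hin]
    ring
  rw [hsplit]
  by_cases hz : ∃ δ, P.CC (pt a b (nb y δ)) ∨ P.CS (pt a b (nb y δ))
  · obtain ⟨δ, hδ⟩ := hz
    obtain ⟨g, hg, -, hm⟩ := hout δ hδ
    have := pin_F_mem P.hL P.hL12 P.eF_xF (P.ex g hg) (P.x_le g hg) (P.eF_le g hg)
      (P.xF_le g hg) h hm
    omega
  · have h0 : cz (fun z => P.CC (pt a b z) ∨ P.CS (pt a b z)) y = 0 :=
      cz_eq_zero fun δ hδ => hz ⟨δ, hδ⟩
    have hx0 : P.xF ≤ -12 := le_trans (P.xF_le 0 P.M_pos) (P.x_le 0 P.M_pos)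
    have := pin_F P.hL P.hL12 P.eF_xF hx0 h
    omega

end Plan

end Pool.Agent.Lib.MP_1a3405_co.BP
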