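import Mathlib
import Pool.Agent.Lib.MP_1a3405_co.BP.CTwoA
import Pool.Agent.Lib.MP_1a3405_co.BP.CTwoB

/-!
Cells outside of the core see at most `r - 1` core cells; at the end cells of the active fibres
in the upper neighbouring pattern fibres: at most `r - 2`.

Cases: an active fibre (`core_two_act`, `core_two_ends_act`); a face fibre
(`core_two_face`); a fibre of the pattern
which is neither a face nor active: no cell inside and `≤ 2 ≤ r - 2` in the neighbouring fibres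
(`out_two`); a fibre outside of the pattern: no cell inside and `≤ r - 1` (`T_out`).
-/

namespace Pool.Agent.Lib.MP_1a3405_co.BP

open Pool.Agent.Lib.MP_1a3405_co Pool.Agent.Lib.MP_1a3405_co.Ord

namespace Plan

variable {D r : ℕ} (P : Plan D r)

/-- the fibre of a core cell is active or a face -/
private lemma CTwo_cases {a b : ℤ} {y : Fin D → ℤ}
    (h : P.CC (pt a b y) ∨ P.CS (pt a b y)) : P.F y ∨ ∃ g < P.M, P.v g = y := by
  rcases h with ⟨k, hk, hf, -⟩ | ⟨k, hk, hf, -⟩ | ⟨hF, -⟩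
  · rw [fib_pt] at hf
    exact Or.inr ⟨k, hk, hf.symm⟩
  · rw [fib_pt] at hf
    exact Or.inr ⟨k, hk, hf.symm⟩
  · exact Or.inl hF

/-- the count if there is no core cell in the fibre -/
private lemma CTwo_split {y : Fin D → ℤ} (hF : ¬ P.F y) (hv : ∀ g < P.M, P.v g ≠ y) (a b : ℤ) :
    cz (fun q => P.CC q ∨ P.CS q) (pt a b y) ≤ cz (fun z => P.F z ∨ ∃ g < P.M, P.v g = z) y := by
  classical
  have h0 : ∀ a' b', ¬ (P.CC (pt a' b' y) ∨ P.CS (pt a' b' y)) := by
    intro a' b' h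
    rcases P.CTwo_cases h with h1 | ⟨g, hg, h1⟩
    · exact hF h1
    · exact hv g hg h1
  rw [cz_pt]
  simp only [h0, if_false, zero_add]
  exact cz_mono fun δ h => P.CTwo_cases h

theorem core_two_other {y : Fin D → ℤ} (hT : P.T y) (hF : ¬ P.F y) (hv : ∀ g < P.M, P.v g ≠ y)
    (a b : ℤ) : cz (fun q => P.CC q ∨ P.CS q) (pt a b y) ≤ 2 :=
  (P.CTwo_split hF hv a b).trans (P.out_two y hT hF hv)

theorem core_two_out {y : Fin D → ℤ} (hT : ¬ P.T y) (a b : ℤ) :
    cz (fun q => P.CC q ∨ P.CS q) (pt a b y) ≤ r - 1 := by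
  refine (P.CTwo_split (fun h => hT (P.F_T y h)) (fun g hg h => hT (h ▸ P.v_T g hg)) a b).trans ?_
  refine (cz_mono ?_).trans (P.T_out y hT)
  rintro δ (h | ⟨g, hg, h⟩)
  · exact P.F_T _ h
  · rw [← h]
    exact P.v_T g hg

theorem core_two {p : Fin (D + 2) → ℤ} (h1 : ¬ P.CC p) (h2 : ¬ P.CS p) :
    cz (fun q => P.CC q ∨ P.CS q) p ≤ r - 1 := by
  have hr := P.hr
  obtain ⟨a, b, y, rfl⟩ := exists_pt p
  by_cases hv : ∃ g < P.M, P.v g = y
  · obtain ⟨g, hg, rfl⟩ := hv
    refine P.core_two_act hg ?_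
    rintro (h | h)
    · exact h1 ⟨g, hg, rfl, h⟩
    · exact h2 (Or.inl ⟨g, hg, rfl, h⟩)
  · by_cases hF : P.F y
    · exact P.core_two_face hF fun h => h2 (Or.inr ⟨hF, h⟩)
    · by_cases hT : P.T y
      · have := P.core_two_other hT hF (fun g hg h => hv ⟨g, hg, h⟩) a b
        omega
      · exact P.core_two_out hT a b

theorem core_two_ends {g : ℕ} (hg : g < P.M) {i : Fin D} (hT : P.T (nb (P.v g) (i, true))) :
    cz (fun q => P.CC q ∨ P.CS q) (pt (P.e g) 2 (nb (P.v g) (i, true))) ≤ r - 2 ∧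
      cz (fun q => P.CC q ∨ P.CS q) (pt (P.x g) (P.L - 1) (nb (P.v g) (i, true))) ≤ r - 2 := by
  have hr := P.hr
  by_cases hv : ∃ h < P.M, P.v h = nb (P.v g) (i, true)
  · obtain ⟨h, hh, he⟩ := hv
    rw [← he]
    exact P.core_two_ends_act hg hh he
  · have hF := P.up_F g hg i
    have h1 := P.core_two_other hT hF (fun h hh e => hv ⟨h, hh, e⟩) (P.e g) 2
    have h2 := P.core_two_other hT hF (fun h hh e => hv ⟨h, hh, e⟩) (P.x g) (P.L - 1)
    constructor <;> omega

end Plan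

end Pool.Agent.Lib.MP_1a3405_co.BP
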