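import Mathlib
import Pool.Agent.Lib.MP_1a3405_co.BP.Defs

/-!
Neighbours in a star `{X} ∪ {X + e_l : l ∈ J}` of `ℤ^E`, and in the union of the stars of two
neighbouring points `X`, `X' = nb X (i, s)` with `i ∉ J`.

Hints. Two points at the same parity of the coordinate sum are never adjacent. `X + e_l` and
`X + e_{l'}` (`l ≠ l'`) have exactly the common neighbours `X` and `X + e_l + e_{l'}`.
-/

namespace Pool.Agent.Lib.MP_1a3405_co.BP

open Pool.Agent.Lib.MP_1a3405_co Pool.Agent.Lib.MP_1a3405_co.Ord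

variable {E : ℕ}

private lemma wb_apply (p : Fin E → ℤ) (i : Fin E) (s : Bool) (j : Fin E) :
    nb p (i, s) j = p j + if j = i then (if s then 1 else -1) else 0 := by
  by_cases h : j = i
  · subst h; rw [nb_self, if_pos rfl]
  · rw [nb_other p s h, if_neg h, add_zero]

private lemma wb_par (p : Fin E → ℤ) (δ : Fin E × Bool) :
    (∑ j, nb p δ j) % 2 = (∑ j, p j + 1) % 2 := by
  obtain ⟨i, s⟩ := δ
  have : ∑ j, nb p (i, s) j = ∑ j, p j + (if s then 1 else -1) := by
    simp only [wb_apply, Finset.sum_add_distrib]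
    simp
  rw [this]
  cases s
  · simp only [Bool.false_eq_true, if_false]; omega
  · simp

private lemma wb_inj {p : Fin E → ℤ} {δ δ' : Fin E × Bool} (h : nb p δ = nb p δ') : δ = δ' := by
  obtain ⟨i, s⟩ := δ
  obtain ⟨j, t⟩ := δ'
  have h1 := congrFun h i
  have h2 := congrFun h j
  rw [wb_apply, wb_apply] at h1 h2
  by_cases hij : i = j
  · subst hij
    cases s <;> cases t <;> simp at h1 ⊢
  · exfalso
    rw [if_pos rfl, if_neg hij] at h1
    cases s <;> simp at h1

/-- common neighbours of `c` and `c ± e_i ± e_l`, `i ≠ l` -/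
private lemma wb_common {c x : Fin E → ℤ} {i l : Fin E} {σ τ : Bool} (hil : i ≠ l)
    {δ δ' : Fin E × Bool} (h : nb x δ = c) (h' : nb x δ' = nb (nb c (i, σ)) (l, τ)) :
    x = nb c (i, σ) ∨ x = nb c (l, τ) := by
  obtain ⟨a, s⟩ := δ
  obtain ⟨b, t⟩ := δ'
  have k1 := congrFun h i
  have k2 := congrFun h l
  have k3 := congrFun h' i
  have k4 := congrFun h' l
  simp only [wb_apply, if_pos rfl, if_neg hil, if_neg (Ne.symm hil)] at k1 k2 k3 k4
  have hx : ∀ j, x j = c j - (if j = a then (if s then 1 else -1) else 0) := by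
    intro j
    have := congrFun h j
    rw [wb_apply] at this
    omega
  by_cases hai : i = a
  · have hal : l ≠ a := fun e => hil (hai.trans e.symm)
    left
    have hs : (if s then (1 : ℤ) else -1) = -(if σ then (1 : ℤ) else -1) := by
      rw [if_pos hai] at k1
      rw [if_neg hal] at k2
      by_cases hbi : i = b
      · have hbl : l ≠ b := fun e => hil (hbi.trans e.symm)
        rw [if_neg hbl] at k4
        exfalso
        cases τ <;> simp at k4 <;> omega
      · rw [if_neg hbi] at k3
        omega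
    funext j
    rw [hx, wb_apply]
    by_cases hj : j = a
    · rw [if_pos hj, if_pos (hj.trans hai.symm), hs]; ring
    · rw [if_neg hj, if_neg (fun e => hj (e.trans hai))]; ring
  · right
    rw [if_neg hai] at k1
    have hbi : i = b := by
      by_contra hbi
      rw [if_neg hbi] at k3
      cases σ <;> simp at k3 <;> omega
    have hbl : l ≠ b := fun e => hil (hbi.trans e.symm)
    rw [if_neg hbl] at k4
    have hal : l = a := by
      by_contra hal
      rw [if_neg hal] at k2
      cases τ <;> simp at k4 <;> omega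
    rw [if_pos hal] at k2
    funext j
    rw [hx, wb_apply]
    by_cases hj : j = a
    · rw [if_pos hj, if_pos (hj.trans hal.symm)]
      omega
    · rw [if_neg hj, if_neg (fun e => hj (e.trans hal))]; ring

private lemma wb_comm (c : Fin E → ℤ) {i l : Fin E} (hil : i ≠ l) (σ τ : Bool) :
    nb (nb c (i, σ)) (l, τ) = nb (nb c (l, τ)) (i, σ) := by
  funext j
  simp only [wb_apply]
  ring

private lemma wb_back (c : Fin E → ℤ) (i : Fin E) : nb (nb c (i, true)) (i, false) = c := by
  have := nb_nb_not c i true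
  simpa using this

/-- common neighbours of `c + e_l` and `c + e_l'` -/
private lemma wb_leaves {c x : Fin E → ℤ} {l l' : Fin E} (hne : l ≠ l')
    {δ δ' : Fin E × Bool} (h : nb x δ = nb c (l, true)) (h' : nb x δ' = nb c (l', true)) :
    x = c ∨ x = nb (nb c (l, true)) (l', true) := by
  have h2 : nb x δ' = nb (nb (nb c (l, true)) (l, false)) (l', true) := by
    rw [wb_back, h']
  have := wb_common hne h h2
  rwa [wb_back] at this

/-- the directions from `c + e_l + e_l'` to the leaves `c + e_m` -/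
private lemma wb_dirs {c : Fin E → ℤ} {l l' m : Fin E} (hne : l ≠ l') {δ : Fin E × Bool}
    (h : nb (nb (nb c (l, true)) (l', true)) δ = nb c (m, true)) :
    δ = (l', false) ∨ δ = (l, false) := by
  obtain ⟨a, s⟩ := δ
  have h1 := congrFun h l
  have h2 := congrFun h l'
  simp only [wb_apply, if_pos rfl, if_neg hne, if_neg (Ne.symm hne), if_true] at h1 h2
  by_cases hal : l = a
  · right
    have hal' : l' ≠ a := fun e => hne (hal.trans e.symm)
    rw [if_neg hal'] at h2
    have hm' : l' = m := by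
      by_contra hm'
      rw [if_neg hm'] at h2
      omega
    have hm : l ≠ m := fun e => hne (e.trans hm'.symm)
    rw [if_neg hm, if_pos hal] at h1
    cases s
    · rw [hal]
    · simp at h1; omega
  · left
    rw [if_neg hal] at h1
    have hm : l = m := by
      by_contra hm
      rw [if_neg hm] at h1
      omega
    have hm' : l' ≠ m := fun e => hne (hm.trans e.symm)
    rw [if_neg hm'] at h2
    have hal' : l' = a := by
      by_contra hal'
      rw [if_neg hal'] at h2
      omega
    rw [if_pos hal'] at h2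
    cases s
    · rw [hal']
    · simp at h2; omega

/-- `c + e_l + e_l'` is not adjacent to `c ± e_i` for `i ≠ l, l'` -/
private lemma wb_nadj {c : Fin E → ℤ} {l l' i : Fin E} {s : Bool} (hne : l ≠ l') (hil : i ≠ l)
    (hil' : i ≠ l') {δ : Fin E × Bool}
    (h : nb (nb (nb c (l, true)) (l', true)) δ = nb c (i, s)) : False := by
  obtain ⟨a, t⟩ := δ
  have h1 := congrFun h l
  have h2 := congrFun h l'
  simp only [wb_apply, if_pos rfl, if_neg hne, if_neg (Ne.symm hne), if_true,
    if_neg (Ne.symm hil), if_neg (Ne.symm hil')] at h1 h2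
  by_cases hal : l = a
  · have hal' : l' ≠ a := fun e => hne (hal.trans e.symm)
    rw [if_neg hal'] at h2
    omega
  · rw [if_neg hal] at h1
    omega

private lemma wb_pair {l l' : Fin E} (hne : l ≠ l') :
    ({(l', false), (l, false)} : Finset (Fin E × Bool)).card = 2 := by
  rw [Finset.card_pair]
  intro h
  exact hne (Prod.ext_iff.1 h).1.symm

private lemma wb_nb1 (c : Fin E → ℤ) (l l' : Fin E) :
    nb (nb (nb c (l, true)) (l', true)) (l', false) = nb c (l, true) := wb_back _ _

private lemma wb_nb2 (c : Fin E → ℤ) {l l' : Fin E} (hne : l ≠ l') :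
    nb (nb (nb c (l, true)) (l', true)) (l, false) = nb c (l', true) := by
  rw [wb_comm c hne, wb_back]

/-- two points of `{X} ∪ {X' + e_l}`, `X' = X ± e_i`, both adjacent to `x` -/
private lemma wb_two (X : Fin E → ℤ) (J : Finset (Fin E)) (i : Fin E) (s : Bool) (hi : i ∉ J)
    (x : Fin E → ℤ) (hX' : x ≠ nb X (i, s)) (hJ : ∀ l ∈ J, x ≠ nb X (l, true))
    {δ δ' : Fin E × Bool} (hne : δ ≠ δ')
    (h : nb x δ = X ∨ ∃ l ∈ J, nb x δ = nb (nb X (i, s)) (l, true))
    (h' : nb x δ' = X ∨ ∃ l ∈ J, nb x δ' = nb (nb X (i, s)) (l, true)) :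
    ∃ l ∈ J, ∃ l' ∈ J, l ≠ l' ∧ x = nb (nb (nb X (i, s)) (l, true)) (l', true) := by
  rcases h with h | ⟨l, hl, h⟩ <;> rcases h' with h' | ⟨l', hl', h'⟩
  · exact absurd (wb_inj (h.trans h'.symm)) hne
  · have hil : i ≠ l' := fun e => hi (e ▸ hl')
    rcases wb_common hil h h' with e | e
    · exact absurd e hX'
    · exact absurd e (hJ l' hl')
  · have hil : i ≠ l := fun e => hi (e ▸ hl)
    rcases wb_common hil h' h with e | e
    · exact absurd e hX'
    · exact absurd e (hJ l hl)
  · have hll : l ≠ l' := by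
      intro e
      subst e
      exact hne (wb_inj (h.trans h'.symm))
    rcases wb_leaves hll h h' with e | e
    · exact absurd e hX'
    · exact ⟨l, hl, l', hl', hll, e⟩

/-- the count at `Z + e_l + e_l'` -/
private lemma wb_count (Z : Fin E → ℤ) (J : Finset (Fin E)) (i : Fin E) (s : Bool) (hi : i ∉ J)
    {l l' : Fin E} (hl : l ∈ J) (hl' : l' ∈ J) (hne : l ≠ l') :
    cz (fun y => (y = Z ∨ y = nb Z (i, s)) ∨
      ∃ m ∈ J, y = nb Z (m, true) ∨ y = nb (nb Z (i, s)) (m, true))
      (nb (nb Z (l, true)) (l', true)) = 2 := by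
  classical
  rw [← wb_pair hne]
  apply cz_eq_of_iff
  intro δ
  simp only [Finset.mem_insert, Finset.mem_singleton]
  have p0 := wb_par (nb (nb Z (l, true)) (l', true)) δ
  have p1 := wb_par (nb Z (l, true)) (l', true)
  have p2 := wb_par Z (l, true)
  constructor
  · rintro ((h | h) | ⟨m, hm, h | h⟩)
    · rw [h] at p0
      omega
    · exact (wb_nadj (i := i) hne (fun e => hi (by rw [e]; exact hl))
        (fun e => hi (by rw [e]; exact hl')) h).elim
    · exact wb_dirs hne h
    · rw [h] at p0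
      have p3 := wb_par (nb Z (i, s)) (m, true)
      have p4 := wb_par Z (i, s)
      omega
  · rintro (rfl | rfl)
    · exact Or.inr ⟨l, hl, Or.inl (wb_nb1 Z l l')⟩
    · exact Or.inr ⟨l', hl', Or.inl (wb_nb2 Z hne)⟩

/-- a point outside the star sees at most two of its points, and two only if it is
`X + e_l + e_{l'}` -/
theorem star_out (X : Fin E → ℤ) (J : Finset (Fin E)) (x : Fin E → ℤ) (hX : x ≠ X)
    (hJ : ∀ l ∈ J, x ≠ nb X (l, true)) :
    cz (fun y => y = X ∨ ∃ l ∈ J, y = nb X (l, true)) x ≤ 1 ∨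
    (cz (fun y => y = X ∨ ∃ l ∈ J, y = nb X (l, true)) x = 2 ∧
      ∃ l ∈ J, ∃ l' ∈ J, l ≠ l' ∧ x = nb (nb X (l, true)) (l', true)) := by
  classical
  by_cases H : ∀ δ δ', (nb x δ = X ∨ ∃ l ∈ J, nb x δ = nb X (l, true)) →
      (nb x δ' = X ∨ ∃ l ∈ J, nb x δ' = nb X (l, true)) → δ = δ'
  · exact Or.inl (cz_le_one H)
  · right
    push Not at H
    obtain ⟨δ, δ', h, h', hne⟩ := H
    have q1 := wb_par x δ
    have q2 := wb_par x δ'
    have key : ∃ l ∈ J, ∃ l' ∈ J, l ≠ l' ∧ x = nb (nb X (l, true)) (l', true) := by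
      rcases h with h | ⟨l, hl, h⟩ <;> rcases h' with h' | ⟨l', hl', h'⟩
      · exact absurd (wb_inj (h.trans h'.symm)) hne
      · exfalso
        rw [h] at q1
        rw [h'] at q2
        have := wb_par X (l', true)
        omega
      · exfalso
        rw [h] at q1
        rw [h'] at q2
        have := wb_par X (l, true)
        omega
      · have hll : l ≠ l' := by
          intro e
          subst e
          exact hne (wb_inj (h.trans h'.symm))
        rcases wb_leaves hll h h' with e | e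
        · exact absurd e hX
        · exact ⟨l, hl, l', hl', hll, e⟩
    refine ⟨?_, key⟩
    obtain ⟨l, hl, l', hl', hll, rfl⟩ := key
    rw [← wb_pair hll]
    apply cz_eq_of_iff
    intro δ
    simp only [Finset.mem_insert, Finset.mem_singleton]
    have p0 := wb_par (nb (nb X (l, true)) (l', true)) δ
    have p1 := wb_par (nb X (l, true)) (l', true)
    have p2 := wb_par X (l, true)
    constructor
    · rintro (h | ⟨m, hm, h⟩)
      · rw [h] at p0
        omega
      · exact wb_dirs hll h
    · rintro (rfl | rfl)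
      · exact Or.inr ⟨l, hl, wb_nb1 X l l'⟩
      · exact Or.inr ⟨l', hl', wb_nb2 X hll⟩

/-- the same for the union of the stars of `X` and `X' = nb X (i, s)`, `i ∉ J` -/
theorem star_out_two (X : Fin E → ℤ) (J : Finset (Fin E)) (i : Fin E) (s : Bool) (hi : i ∉ J)
    (x : Fin E → ℤ) (hX : x ≠ X) (hX' : x ≠ nb X (i, s)) (hJ : ∀ l ∈ J, x ≠ nb X (l, true))
    (hJ' : ∀ l ∈ J, x ≠ nb (nb X (i, s)) (l, true)) :
    cz (fun y => (y = X ∨ y = nb X (i, s)) ∨
      ∃ l ∈ J, y = nb X (l, true) ∨ y = nb (nb X (i, s)) (l, true)) x ≤ 1 ∨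
    (cz (fun y => (y = X ∨ y = nb X (i, s)) ∨
      ∃ l ∈ J, y = nb X (l, true) ∨ y = nb (nb X (i, s)) (l, true)) x = 2 ∧
      ∃ l ∈ J, ∃ l' ∈ J, l ≠ l' ∧ (x = nb (nb X (l, true)) (l', true) ∨
        x = nb (nb (nb X (i, s)) (l, true)) (l', true))) := by
  classical
  set Q : (Fin E → ℤ) → Prop := fun y => (y = X ∨ y = nb X (i, s)) ∨
      ∃ l ∈ J, y = nb X (l, true) ∨ y = nb (nb X (i, s)) (l, true) with hQ
  have hback : nb (nb X (i, s)) (i, !s) = X := nb_nb_not X i s
  by_cases H : ∀ δ δ', Q (nb x δ) → Q (nb x δ') → δ = δ'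
  · exact Or.inl (cz_le_one H)
  · right
    push Not at H
    obtain ⟨δ, δ', h, h', hne⟩ := H
    have q1 := wb_par x δ
    have q2 := wb_par x δ'
    have q3 := wb_par X (i, s)
    -- the two parity classes
    have split : ∀ ε, Q (nb x ε) →
        ((nb x ε = X ∨ ∃ l ∈ J, nb x ε = nb (nb X (i, s)) (l, true)) ∧
          (∑ j, nb x ε j) % 2 = (∑ j, X j) % 2) ∨
        ((nb x ε = nb X (i, s) ∨ ∃ l ∈ J, nb x ε = nb (nb (nb X (i, s)) (i, !s)) (l, true)) ∧
          (∑ j, nb x ε j) % 2 = (∑ j, X j + 1) % 2) := by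
      rintro ε ((h | h) | ⟨m, hm, h | h⟩)
      · exact Or.inl ⟨Or.inl h, by rw [h]⟩
      · exact Or.inr ⟨Or.inl h, by rw [h]; omega⟩
      · refine Or.inr ⟨Or.inr ⟨m, hm, by rw [hback]; exact h⟩, ?_⟩
        rw [h]
        exact wb_par X (m, true)
      · refine Or.inl ⟨Or.inr ⟨m, hm, h⟩, ?_⟩
        rw [h]
        have := wb_par (nb X (i, s)) (m, true)
        omega
    rcases split δ h with ⟨a, pa⟩ | ⟨a, pa⟩ <;> rcases split δ' h' with ⟨b, pb⟩ | ⟨b, pb⟩
    · obtain ⟨l, hl, l', hl', hll, e⟩ := wb_two X J i s hi x hX' hJ hne a b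
      refine ⟨?_, l, hl, l', hl', hll, Or.inr e⟩
      rw [e]
      have hc := wb_count (nb X (i, s)) J i (!s) hi hl hl' hll
      rw [hback] at hc
      rw [← hc]
      apply cz_congr
      intro ε
      constructor
      · rintro ((h | h) | ⟨m, hm, h | h⟩)
        · exact Or.inl (Or.inr h)
        · exact Or.inl (Or.inl h)
        · exact Or.inr ⟨m, hm, Or.inr h⟩
        · exact Or.inr ⟨m, hm, Or.inl h⟩
      · rintro ((h | h) | ⟨m, hm, h | h⟩)
        · exact Or.inl (Or.inr h)
        · exact Or.inl (Or.inl h)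
        · exact Or.inr ⟨m, hm, Or.inr h⟩
        · exact Or.inr ⟨m, hm, Or.inl h⟩
    · exfalso; omega
    · exfalso; omega
    · obtain ⟨l, hl, l', hl', hll, e⟩ := wb_two (nb X (i, s)) J i (!s) hi x
        (by rw [hback]; exact hX) hJ' hne a b
      rw [hback] at e
      refine ⟨?_, l, hl, l', hl', hll, Or.inl e⟩
      rw [e]
      exact wb_count X J i s hi hl hl' hll

end Pool.Agent.Lib.MP_1a3405_co.BP
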