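import Mathlib
import Pool.Agent.Lib.MP_1a3405_co.BP.Defs

/-!
If `x = Z + e_l + e_{l'}` with `l ≠ l' ∈ J b` and `Z ∈ {X b, X (b+1)}` then the cells
`(b+1; x)` and `(b-1; x)` are not cells of the wire: the cells of the wire at height `b + 1` are
at `X (b+1)`, `X (b+2)`, `X (b+1) + e_j`, `X (b+2) + e_j` (`j ∈ J (b+1)`).
* No step at `b` (`Z = X b = X (b+1)`): `x` is at distance `2` from `Z`; if there is a step at
  `b + 1` with axis `i`, then `X (b+2) = Z ± e_i` and `x = X (b+2) + e_j` would give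
  `i ∈ {l, l'}`, but `i ∉ J b`. Similarly at height `b - 1` (`X (b-1) = Z ± e_i`).
* Step at `b` with axis `i`: no steps at `b + 1`, `b - 1` (`gap`), so only the star of `X (b+1)`
  above and the star of `X b` below; `X b` and `X (b+1)` differ by `± e_i`, `i ∉ J b`, so `x` is
  at distance `2` from one of them and at distance `3` from the other one.
-/

namespace Pool.Agent.Lib.MP_1a3405_co.BP

open Pool.Agent.Lib.MP_1a3405_co Pool.Agent.Lib.MP_1a3405_co.Ord

variable {E r : ℕ} {lo hi : ℤ} {X : ℤ → Fin E → ℤ} {J : ℤ → Finset (Fin E)}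

private lemma wtwo_nb_ne {y : Fin E → ℤ} {k i : Fin E} (hk : k ≠ i) (s : Bool) :
    nb y (i, s) k = y k := by
  simp [nb, Function.update_of_ne hk]

private lemma wtwo_nb_self (y : Fin E → ℤ) (i : Fin E) : nb y (i, true) i = y i + 1 := by
  simp [nb]

private lemma wtwo_ne {Z x y : Fin E → ℤ} {l l' : Fin E} (hne : l ≠ l')
    (hx : x = nb (nb Z (l, true)) (l', true)) (h1 : y l = Z l) (h2 : y l' = Z l') :
    x ≠ y ∧ ∀ j, x ≠ nb y (j, true) := by
  have e1 : x l = Z l + 1 := by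
    rw [hx, wtwo_nb_ne hne, wtwo_nb_self]
  have e2 : x l' = Z l' + 1 := by
    rw [hx, wtwo_nb_self, wtwo_nb_ne (Ne.symm hne)]
  refine ⟨fun h => ?_, fun j h => ?_⟩
  · rw [h] at e1; omega
  · by_cases hj : l = j
    · have h3 : l' ≠ j := fun h4 => hne (hj.trans h4.symm)
      rw [h, wtwo_nb_ne h3] at e2
      omega
    · rw [h, wtwo_nb_ne hj] at e1
      omega

private lemma wtwo_step (h : Wire r lo hi X J) (c : ℤ) {l : Fin E}
    (hl : l ∈ J (c - 1) ∨ l ∈ J c ∨ l ∈ J (c + 1)) : X c l = X (c + 1) l := by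
  rcases h.step c with h1 | ⟨i, s, h1, h2, h3, h4⟩
  · rw [h1]
  · have hne : l ≠ i := by
      rintro rfl
      tauto
    rw [h1, wtwo_nb_ne hne]

theorem wire_two_vert (h : Wire r lo hi X J) (b : ℤ) {Z x : Fin E → ℤ}
    (hZ : Z = X b ∨ Z = X (b + 1)) {l l' : Fin E} (hl : l ∈ J b) (hl' : l' ∈ J b) (hne : l ≠ l')
    (hx : x = nb (nb Z (l, true)) (l', true)) :
    ¬ (WC lo hi X (Fin.cons (b + 1) x) ∨ WS lo hi X J (Fin.cons (b + 1) x)) ∧
      ¬ (WC lo hi X (Fin.cons (b - 1) x) ∨ WS lo hi X J (Fin.cons (b - 1) x)) := by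
  have key : ∀ k, k ∈ J b → X (b - 1) k = Z k ∧ X b k = Z k ∧ X (b + 1) k = Z k ∧
      X (b + 1 + 1) k = Z k := by
    intro k hk
    have a1 : X b k = X (b + 1) k := wtwo_step h b (Or.inr (Or.inl hk))
    have a2 : X (b - 1) k = X (b - 1 + 1) k :=
      wtwo_step h (b - 1) (Or.inr (Or.inr (by rw [show b - 1 + 1 = b by ring]; exact hk)))
    rw [show b - 1 + 1 = b by ring] at a2
    have a3 : X (b + 1) k = X (b + 1 + 1) k :=
      wtwo_step h (b + 1) (Or.inl (by rw [show b + 1 - 1 = b by ring]; exact hk))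
    have a0 : X b k = Z k := by
      rcases hZ with h1 | h1
      · rw [h1]
      · rw [h1, a1]
    refine ⟨by rw [a2, a0], a0, by rw [← a1, a0], by rw [← a3, ← a1, a0]⟩
  obtain ⟨p1, p2, p3, p4⟩ := key l hl
  obtain ⟨q1, q2, q3, q4⟩ := key l' hl'
  have r1 := wtwo_ne hne hx p1 q1
  have r2 := wtwo_ne hne hx p2 q2
  have r3 := wtwo_ne hne hx p3 q3
  have r4 := wtwo_ne hne hx p4 q4
  constructor
  · rintro (⟨-, -, h1 | h1⟩ | ⟨-, -, j, -, h1 | h1⟩)
    · rw [Fin.cons_zero, Fin.tail_cons] at h1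
      exact r3.1 h1
    · rw [Fin.cons_zero, Fin.tail_cons] at h1
      exact r4.1 h1
    · rw [Fin.cons_zero, Fin.tail_cons] at h1
      exact r3.2 j h1
    · rw [Fin.cons_zero, Fin.tail_cons] at h1
      exact r4.2 j h1
  · rintro (⟨-, -, h1 | h1⟩ | ⟨-, -, j, -, h1 | h1⟩)
    · rw [Fin.cons_zero, Fin.tail_cons] at h1
      exact r1.1 h1
    · rw [Fin.cons_zero, Fin.tail_cons, show b - 1 + 1 = b by ring] at h1
      exact r2.1 h1
    · rw [Fin.cons_zero, Fin.tail_cons] at h1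
      exact r1.2 j h1
    · rw [Fin.cons_zero, Fin.tail_cons, show b - 1 + 1 = b by ring] at h1
      exact r2.2 j h1

end Pool.Agent.Lib.MP_1a3405_co.BP
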