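import Mathlib
import Pool.Agent.Lib.MP_1a3405_co.BP.WStarB
import Pool.Agent.Lib.MP_1a3405_co.BP.WTwoA

/-!
A cell which is neither a chain cell nor a seed of a wire sees at most `3` cells of the wire,
and at most `2` if it is at one of the end heights.

Proof. Let `p = (b; x)`. The cells of the wire at height `b` form the star of `X b` (no step at
`b`), or the union of the stars of `X b` and `X (b+1) = nb (X b) (i, s)` with `i ∉ J b` (step at
`b`). By `star_out`, `star_out_two` either at most one neighbour of `p` at height `b` is in the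
wire, and the total is `≤ 1 + 2`, or two are and `x = Z + e_l + e_{l'}` with `l ≠ l' ∈ J b` and
`Z ∈ {X b, X (b+1)}`; in this case the cells above and below `p` are not in the wire: the cells
of the wire at height `b + 1` are `X (b+1)`, `X (b+2)` and `X (b+1) + e_j`, `X (b+2) + e_j`
(`j ∈ J (b+1)`), and if there is a step at `b + 1` (so not at `b`) its axis is not in `J b`;
similarly below. At an end height there is no step at `b` and at the next height, so if `p` has
one neighbour at height `b` there is only one of the two vertical neighbours inside the wire.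
Outside of the heights `[lo, hi]` only the cell above/below can be in the wire.
-/

namespace Pool.Agent.Lib.MP_1a3405_co.BP

open Pool.Agent.Lib.MP_1a3405_co Pool.Agent.Lib.MP_1a3405_co.Ord

variable {E r : ℕ} {lo hi : ℤ} {X : ℤ → Fin E → ℤ} {J : ℤ → Finset (Fin E)}

lemma wQ_iff (lo hi : ℤ) (X : ℤ → Fin E → ℤ) (J : ℤ → Finset (Fin E)) (c : ℤ)
    (z : Fin E → ℤ) :
    (WC lo hi X (Fin.cons c z) ∨ WS lo hi X J (Fin.cons c z)) ↔
      (lo ≤ c ∧ c ≤ hi) ∧ ((z = X c ∨ z = X (c + 1)) ∨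
        ∃ l ∈ J c, z = nb (X c) (l, true) ∨ z = nb (X (c + 1)) (l, true)) := by
  simp only [WC, WS, Fin.cons_zero, Fin.tail_cons]
  constructor
  · rintro (⟨h1, h2, h3⟩ | ⟨h1, h2, h3⟩)
    · exact ⟨⟨h1, h2⟩, Or.inl h3⟩
    · exact ⟨⟨h1, h2⟩, Or.inr h3⟩
  · rintro ⟨⟨h1, h2⟩, h3 | h3⟩
    · exact Or.inl ⟨h1, h2, h3⟩
    · exact Or.inr ⟨h1, h2, h3⟩

/-- the cells at the height of `p` -/
lemma wire_horiz (h : Wire r lo hi X J) {b : ℤ} {x : Fin E → ℤ} (hb : lo ≤ b ∧ b ≤ hi)
    (hx : ¬ ((x = X b ∨ x = X (b + 1)) ∨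
        ∃ l ∈ J b, x = nb (X b) (l, true) ∨ x = nb (X (b + 1)) (l, true))) :
    cz (fun z => WC lo hi X (Fin.cons b z) ∨ WS lo hi X J (Fin.cons b z)) x ≤ 1 ∨
      (cz (fun z => WC lo hi X (Fin.cons b z) ∨ WS lo hi X J (Fin.cons b z)) x = 2 ∧
        ∃ l ∈ J b, ∃ l' ∈ J b, l ≠ l' ∧ ∃ Z, (Z = X b ∨ Z = X (b + 1)) ∧
          x = nb (nb Z (l, true)) (l', true)) := by
  push Not at hx
  obtain ⟨⟨hx1, hx2⟩, hx3⟩ := hx
  rcases h.step b with hs | ⟨i, s, hs, -, hi', -⟩
  · have e : cz (fun z => WC lo hi X (Fin.cons b z) ∨ WS lo hi X J (Fin.cons b z)) x =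
        cz (fun y => y = X b ∨ ∃ l ∈ J b, y = nb (X b) (l, true)) x := by
      apply cz_congr
      intro δ
      rw [wQ_iff, ← hs]
      simp only [hb, or_self, true_and]
    rw [e]
    rcases star_out (X b) (J b) x hx1 (fun l hl => (hx3 l hl).1) with h1 | ⟨h1, l, hl, l', hl', hne, h2⟩
    · exact Or.inl h1
    · exact Or.inr ⟨h1, l, hl, l', hl', hne, X b, Or.inl rfl, h2⟩
  · have e : cz (fun z => WC lo hi X (Fin.cons b z) ∨ WS lo hi X J (Fin.cons b z)) x =
        cz (fun y => (y = X (b + 1) ∨ y = nb (X (b + 1)) (i, s)) ∨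
          ∃ l ∈ J b, y = nb (X (b + 1)) (l, true) ∨ y = nb (nb (X (b + 1)) (i, s)) (l, true)) x := by
      apply cz_congr
      intro δ
      rw [wQ_iff, hs]
      constructor
      · rintro ⟨-, (h1 | h1) | ⟨l, hl, h1 | h1⟩⟩
        · exact Or.inl (Or.inr h1)
        · exact Or.inl (Or.inl h1)
        · exact Or.inr ⟨l, hl, Or.inr h1⟩
        · exact Or.inr ⟨l, hl, Or.inl h1⟩
      · rintro ((h1 | h1) | ⟨l, hl, h1 | h1⟩)
        · exact ⟨hb, Or.inl (Or.inr h1)⟩
        · exact ⟨hb, Or.inl (Or.inl h1)⟩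
        · exact ⟨hb, Or.inr ⟨l, hl, Or.inr h1⟩⟩
        · exact ⟨hb, Or.inr ⟨l, hl, Or.inl h1⟩⟩
    rw [e]
    rcases star_out_two (X (b + 1)) (J b) i s hi' x hx2 (by rw [← hs]; exact hx1)
      (fun l hl => (hx3 l hl).2) (fun l hl => by rw [← hs]; exact (hx3 l hl).1) with
      h1 | ⟨h1, l, hl, l', hl', hne, h2⟩
    · exact Or.inl h1
    · refine Or.inr ⟨h1, l, hl, l', hl', hne, ?_⟩
      rcases h2 with h2 | h2
      · exact ⟨X (b + 1), Or.inr rfl, h2⟩
      · exact ⟨X b, Or.inl rfl, by rw [hs]; exact h2⟩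

theorem wire_two (h : Wire r lo hi X J) {p : Fin (E + 1) → ℤ} (hp : ¬ WC lo hi X p)
    (hp' : ¬ WS lo hi X J p) :
    cz (fun q => WC lo hi X q ∨ WS lo hi X J q) p ≤ 3 ∧
      (p 0 = lo ∨ p 0 = hi → cz (fun q => WC lo hi X q ∨ WS lo hi X J q) p ≤ 2) := by
  obtain ⟨b, x, rfl⟩ : ∃ b x, p = Fin.cons b x := ⟨p 0, Fin.tail p, (Fin.cons_self_tail p).symm⟩
  rw [cz_cons]
  simp only [Fin.cons_zero]
  by_cases hb : lo ≤ b ∧ b ≤ hi
  · have hx : ¬ ((x = X b ∨ x = X (b + 1)) ∨
        ∃ l ∈ J b, x = nb (X b) (l, true) ∨ x = nb (X (b + 1)) (l, true)) := by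
      intro hx
      rcases (wQ_iff lo hi X J b x).2 ⟨hb, hx⟩ with h1 | h1
      · exact hp h1
      · exact hp' h1
    rcases wire_horiz h hb hx with h1 | ⟨h1, l, hl, l', hl', hne, Z, hZ, hxZ⟩
    · constructor
      · split_ifs <;> omega
      · rintro (hb' | hb')
        · have : ¬ (WC lo hi X (Fin.cons (b - 1) x) ∨ WS lo hi X J (Fin.cons (b - 1) x)) := by
            rw [wQ_iff]; omega
          rw [if_neg this]
          split_ifs <;> omega
        · have : ¬ (WC lo hi X (Fin.cons (b + 1) x) ∨ WS lo hi X J (Fin.cons (b + 1) x)) := by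
            rw [wQ_iff]; omega
          rw [if_neg this]
          split_ifs <;> omega
    · obtain ⟨h2, h3⟩ := wire_two_vert h b hZ hl hl' hne hxZ
      rw [if_neg h2, if_neg h3, h1]
      omega
  · have h0 : cz (fun z => WC lo hi X (Fin.cons b z) ∨ WS lo hi X J (Fin.cons b z)) x = 0 := by
      apply cz_eq_zero
      intro δ
      rw [wQ_iff]
      exact fun h => hb h.1
    rw [h0]
    constructor
    · split_ifs <;> omega
    · split_ifs <;> omega

end Pool.Agent.Lib.MP_1a3405_co.BP
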