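import Mathlib
import Pool.Agent.Lib.MP_1a3405_co.BP.CTwo
import Pool.Agent.Lib.MP_1a3405_co.BP.LTwo
import Pool.Agent.Lib.MP_1a3405_co.BP.GStarA

/-!
Each cell outside of the chain and the seeds sees at most `r - 1` seeds and chain cells different
from the last one `(x (M-1), L-1; v (M-1))`.

Let `p = (a, b; y)`. Link cells have heights `3 … L-2` and columns `≤ -11`; core cells with
heights `3 … L-2` have columns `≥ 0`.
* `b ≤ 1`, `b ≥ L`, or `a ≥ -5`: no link cell near `p`; `core_two`.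
* `b = 2`, `a ≤ -6`: the only possible link neighbour is above. If it is in a link, by
  `lc_three`, `ls_three`: either `p` would be a core cell (`(e g, 2)`, `(e g + 1, 2)`), or
  `y = v g + e_i` is in the pattern and `a = e g` (`core_two_ends` gives `r - 2 + 1`), or
  `a ≤ eF - 5` and there is no core cell near `p`.
* `b = L - 1`, `a ≤ -6`: similarly (`lc_top`, `ls_top`); no exception since also the last wire
  starts at `(x (M-1), L-2)`.
* `4 ≤ b ≤ L - 3`, `a ≤ -6`: no core cell near; `l_two`, or `fp_seeds`, `fp_lc`.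
* `b = 3` or `b = L - 2`, `a ≤ -6`: at most one core neighbour (below, resp. above) and at most
  `2` link neighbours (`l_two`), or `p` is a cell of the final wire: then for `b = 3` there is no
  core cell near (`fp_three`), and for `b = L - 2` the only core neighbour is the last cell
  (`fp_top`).
-/

namespace Pool.Agent.Lib.MP_1a3405_co.BP

open Pool.Agent.Lib.MP_1a3405_co Pool.Agent.Lib.MP_1a3405_co.Ord

namespace Plan

variable {D r : ℕ} (P : Plan D r)

private theorem gt_dir {d : ℕ} (p : Fin (d + 1) → ℤ) (δ : Fin (d + 1) × Bool) :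
    (nb p δ 0 = p 0 - 1 → δ = (0, false)) ∧ (nb p δ 0 = p 0 + 1 → δ = (0, true)) := by
  obtain ⟨i, s⟩ := δ
  by_cases hi : (0 : Fin (d + 1)) = i
  · subst hi
    rw [nb_self]
    cases s
    · simp
    · simp
      omega
  · rw [nb_other p s hi]
    constructor <;> intro h <;> omega

private theorem gt_core (q : Fin (D + 2) → ℤ) (h : P.CC q ∨ P.CS q) :
    0 ≤ q 0 ∧ q 0 ≤ P.L + 1 ∧ P.eF ≤ q 1 ∧ (3 ≤ q 0 → q 0 ≤ P.L - 2 → 0 ≤ q 1) := by
  have hxF : P.xF ≤ -12 := (P.xF_le 0 P.M_pos).trans (P.x_le 0 P.M_pos)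
  rcases h with ⟨g, hg, _, h⟩ | ⟨g, hg, _, h⟩ | ⟨_, h⟩
  · obtain ⟨h1, h2, h3, _, h5, _⟩ := core_zone P.hL P.hL12 (P.ex g hg) (P.x_le g hg) (Or.inl h)
    exact ⟨h1, h2, (P.eF_le g hg).trans h3, h5⟩
  · obtain ⟨h1, h2, h3, _, h5, _⟩ := core_zone P.hL P.hL12 (P.ex g hg) (P.x_le g hg) (Or.inr h)
    exact ⟨h1, h2, (P.eF_le g hg).trans h3, h5⟩
  · obtain ⟨h1, h2, h3, _, h5, _⟩ := face_zone P.hL P.hL12 P.eF_xF hxF h
    exact ⟨h1, h2, h3, h5⟩

private theorem gt_split (p : Fin (D + 2) → ℤ) :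
    cz (fun q => P.S q ∨ (P.C q ∧ q ≠ P.last)) p ≤
      cz (fun q => P.CC q ∨ P.CS q) p + cz (fun q => P.LC q ∨ P.LS q) p := by
  refine (cz_mono (Q' := fun q => (P.CC q ∨ P.CS q) ∨ (P.LC q ∨ P.LS q)) fun δ h => ?_).trans
    (cz_or_le _ _ _)
  rcases h with (h | h) | ⟨h | h, _⟩
  · exact Or.inl (Or.inr h)
  · exact Or.inr (Or.inr h)
  · exact Or.inl (Or.inl h)
  · exact Or.inr (Or.inl h)

theorem two {p : Fin (D + 2) → ℤ} (h1 : ¬ P.C p) (h2 : ¬ P.S p) :
    cz (fun q => P.S q ∨ (P.C q ∧ q ≠ P.last)) p ≤ r - 1 := by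
  have hr := P.hr
  have hL := P.hL12
  have hCC : ¬ P.CC p := fun h => h1 (Or.inl h)
  have hLC : ¬ P.LC p := fun h => h1 (Or.inr h)
  have hCS : ¬ P.CS p := fun h => h2 (Or.inl h)
  have hLS : ¬ P.LS p := fun h => h2 (Or.inr h)
  have hcore := P.core_two hCC hCS
  have hsplit := P.gt_split p
  have hnear : ∀ δ, (nb p δ 0 ≤ p 0 + 1 ∧ p 0 - 1 ≤ nb p δ 0) ∧
      (nb p δ 1 ≤ p 1 + 1 ∧ p 1 - 1 ≤ nb p δ 1) := fun δ => ⟨nb_near p δ 0, nb_near p δ 1⟩
  have hlz : ∀ q, (P.LC q ∨ P.LS q) → 3 ≤ q 0 ∧ q 0 ≤ P.L - 2 ∧ q 1 ≤ -11 := by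
    intro q hq
    obtain ⟨e1, e2, _, e4⟩ := P.l_zone q (by
      rcases hq with hq | hq
      · exact Or.inl hq
      · exact Or.inr (Or.inl hq))
    exact ⟨e1, e2, e4⟩
  -- no link cell near `p`
  by_cases hc0 : p 0 ≤ 1 ∨ P.L ≤ p 0 ∨ -9 ≤ p 1
  · have h0 : cz (fun q => P.LC q ∨ P.LS q) p = 0 := by
      refine cz_eq_zero fun δ h => ?_
      obtain ⟨e1, e2, e3⟩ := hlz _ h
      obtain ⟨⟨n1, n2⟩, n3, n4⟩ := hnear δ
      omega
    omega
  push Not at hc0
  obtain ⟨hb1, hb2, ha⟩ := hc0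
  -- core cells near `p` are at the heights `≤ 2` or `≥ L - 1`
  have hcz : ∀ δ, (P.CC (nb p δ) ∨ P.CS (nb p δ)) →
      P.eF ≤ p 1 + 1 ∧ (nb p δ 0 ≤ 2 ∨ P.L - 1 ≤ nb p δ 0) := by
    intro δ h
    obtain ⟨e1, e2, e3, e4⟩ := P.gt_core _ h
    obtain ⟨⟨n1, n2⟩, n3, n4⟩ := hnear δ
    refine ⟨by omega, ?_⟩
    by_contra hcon
    push Not at hcon
    have := e4 (by omega) (by omega)
    omega
  -- the cells of the final wire
  have hfp : P.FP p → cz (fun q => P.LC q ∨ P.LS q) p ≤ r - 1 := by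
    intro h
    have e1 := cz_or_le P.LC P.LS p
    rw [P.fp_seeds h, P.fp_lc h] at e1
    omega
  have hlink : ¬ P.FP p → _ := fun h => P.l_two hLC hLS h
  by_cases hb4 : 4 ≤ p 0 ∧ p 0 ≤ P.L - 3
  · have h0 : cz (fun q => P.CC q ∨ P.CS q) p = 0 := by
      refine cz_eq_zero fun δ h => ?_
      obtain ⟨_, e2⟩ := hcz δ h
      obtain ⟨⟨n1, n2⟩, _⟩ := hnear δ
      omega
    by_cases hF : P.FP p
    · have := hfp hF
      omega
    · have := (hlink hF).1
      omega
  by_cases hb3 : p 0 = 3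
  · by_cases hF : P.FP p
    · have h0 : cz (fun q => P.CC q ∨ P.CS q) p = 0 := by
        refine cz_eq_zero fun δ h => ?_
        obtain ⟨e1, _⟩ := hcz δ h
        have e2 : p 1 = P.aF := by
          refine P.fp_three (p 1) (fib p) ?_
          rw [← hb3, pt_eta]
          exact hF
        have := P.aF_lt
        omega
      have := hfp hF
      omega
    · have e1 : cz (fun q => P.CC q ∨ P.CS q) p ≤ 1 := by
        have key : ∀ δ, (P.CC (nb p δ) ∨ P.CS (nb p δ)) → δ = (0, false) := by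
          intro δ h
          obtain ⟨_, e2⟩ := hcz δ h
          obtain ⟨⟨n1, n2⟩, _⟩ := hnear δ
          exact (gt_dir p δ).1 (by omega)
        exact cz_le_one fun δ δ' h h' => (key δ h).trans (key δ' h').symm
      have := (hlink hF).2 (Or.inl hb3)
      omega
  by_cases hbt : p 0 = P.L - 2
  · have key : ∀ δ, (P.CC (nb p δ) ∨ P.CS (nb p δ)) → δ = (0, true) := by
      intro δ h
      obtain ⟨_, e2⟩ := hcz δ h
      obtain ⟨⟨n1, n2⟩, _⟩ := hnear δ
      exact (gt_dir p δ).2 (by omega)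
    by_cases hF : P.FP p
    · have e1 : fib p = P.v (P.M - 1) ∧ p 1 = P.x (P.M - 1) := by
        rw [← P.fp_top (p 1) (fib p), ← hbt, pt_eta]
        exact hF
      have hlast : nb p (0, true) = P.last := by
        have e2 : p = pt (P.x (P.M - 1)) (P.L - 2) (P.v (P.M - 1)) := by
          rw [← e1.1, ← e1.2, ← hbt, pt_eta]
        rw [e2, nb_pt_b]
        unfold last
        rw [pt_inj]
        refine ⟨rfl, ?_, rfl⟩
        simp only [if_true]
        ring
      have hM := P.M_pos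
      have hCl : P.C P.last := by
        refine Or.inl ⟨P.M - 1, by omega, rfl, ?_⟩
        exact Or.inr (Or.inr (Or.inr (Or.inr ⟨rfl, rfl⟩)))
      have hSl : ¬ P.S P.last := P.c_not_s hCl
      have e3 : cz (fun q => P.S q ∨ (P.C q ∧ q ≠ P.last)) p ≤
          cz (fun q => P.LC q ∨ P.LS q) p := by
        refine cz_mono fun δ h => ?_
        rcases h with (h | h) | ⟨h | h, hne⟩
        · have e4 := key δ (Or.inr h)
          rw [e4, hlast] at h
          exact absurd (Or.inl h) hSl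
        · exact Or.inr h
        · have e4 := key δ (Or.inl h)
          rw [e4, hlast] at hne
          exact absurd rfl hne
        · exact Or.inl h
      exact e3.trans (hfp hF)
    · have e1 : cz (fun q => P.CC q ∨ P.CS q) p ≤ 1 :=
        cz_le_one fun δ δ' h h' => (key δ h).trans (key δ' h').symm
      have := (hlink hF).2 (Or.inr hbt)
      omega
  -- the heights `2` and `L - 1`
  have hcases : p 0 = 2 ∨ p 0 = P.L - 1 := by omega
  rcases hcases with hb | hb
  · have key : ∀ δ, (P.LC (nb p δ) ∨ P.LS (nb p δ)) → δ = (0, true) := by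
      intro δ h
      obtain ⟨e1, _⟩ := hlz _ h
      obtain ⟨⟨n1, n2⟩, _⟩ := hnear δ
      exact (gt_dir p δ).2 (by omega)
    have hl1 : cz (fun q => P.LC q ∨ P.LS q) p ≤ 1 :=
      cz_le_one fun δ δ' h h' => (key δ h).trans (key δ' h').symm
    have hup : nb p (0, true) = pt (p 1) 3 (fib p) := by
      conv_lhs => rw [← pt_eta p]
      rw [nb_pt_b, hb]
      rfl
    by_cases hex : P.LC (pt (p 1) 3 (fib p)) ∨ P.LS (pt (p 1) 3 (fib p))
    · rcases hex with h | h
      · exfalso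
        rw [lc_three] at h
        obtain ⟨g, hg, e1, e2⟩ := h
        exact hCC ⟨g, hg, e1, Or.inl ⟨hb, e2⟩⟩
      · rcases P.ls_three _ _ h with ⟨g, hg, e1, e2⟩ | ⟨g, hg, i, e0, e1, e2⟩ | e1
        · exfalso
          refine hCS (Or.inl ⟨g, hg, e1, Or.inl (Or.inr (Or.inl ⟨hb, ?_, ?_⟩))⟩)
          · omega
          · have := P.ex g hg
            have := P.x_le g hg
            omega
        · have e3 := (P.core_two_ends hg e0).1
          rw [← e1, ← e2, ← hb, pt_eta] at e3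
          omega
        · have h0 : cz (fun q => P.CC q ∨ P.CS q) p = 0 := by
            refine cz_eq_zero fun δ h => ?_
            obtain ⟨e2, _⟩ := hcz δ h
            omega
          omega
    · have h0 : cz (fun q => P.LC q ∨ P.LS q) p = 0 := by
        refine cz_eq_zero fun δ h => ?_
        rw [key δ h, hup] at h
        exact hex h
      omega
  · have key : ∀ δ, (P.LC (nb p δ) ∨ P.LS (nb p δ)) → δ = (0, false) := by
      intro δ h
      obtain ⟨_, e1, _⟩ := hlz _ h
      obtain ⟨⟨n1, n2⟩, _⟩ := hnear δ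
      exact (gt_dir p δ).1 (by omega)
    have hl1 : cz (fun q => P.LC q ∨ P.LS q) p ≤ 1 :=
      cz_le_one fun δ δ' h h' => (key δ h).trans (key δ' h').symm
    have hdn : nb p (0, false) = pt (p 1) (P.L - 2) (fib p) := by
      conv_lhs => rw [← pt_eta p]
      rw [nb_pt_b, hb, pt_inj]
      refine ⟨rfl, ?_, rfl⟩
      simp only [Bool.false_eq_true, if_false]
      ring
    by_cases hex : P.LC (pt (p 1) (P.L - 2) (fib p)) ∨ P.LS (pt (p 1) (P.L - 2) (fib p))
    · rcases hex with h | h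
      · exfalso
        rw [lc_top] at h
        obtain ⟨g, hg, e1, e2⟩ := h
        exact hCC ⟨g, by omega, e1, Or.inr (Or.inr (Or.inr (Or.inr ⟨hb, e2⟩)))⟩
      · rcases P.ls_top _ _ h with ⟨g, hg, e1, e2⟩ | ⟨g, hg, i, e0, e1, e2⟩
        · exfalso
          refine hCS (Or.inl ⟨g, hg, e1, Or.inl (Or.inr (Or.inr (Or.inr (Or.inr
            ⟨hb, ?_, ?_⟩))))⟩)
          · omega
          · have := P.x_le g hg
            omega
        · have e3 := (P.core_two_ends hg e0).2
          rw [← e1, ← e2, ← hb, pt_eta] at e3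
          omega
    · have h0 : cz (fun q => P.LC q ∨ P.LS q) p = 0 := by
        refine cz_eq_zero fun δ h => ?_
        rw [key δ h, hdn] at h
        exact hex h
      omega

end Plan

end Pool.Agent.Lib.MP_1a3405_co.BP
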