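import Mathlib
import Pool.Agent.Lib.MP_1a3405_co.BP.CPercB
import Pool.Agent.Lib.MP_1a3405_co.BP.CSideB

/-!
The lower bound given by a plan.
-/

namespace Pool.Agent.Lib.MP_1a3405_co.BP

open Pool.Agent.Lib.MP_1a3405_co Pool.Agent.Lib.MP_1a3405_co.Ord

namespace Plan

variable {D r : ℕ} (P : Plan D r)

theorem good {τ : (Fin (D + 2) → ℤ) → ℤ} (hτ : P.IsRank τ) :
    Good P.n r ({p | P.C p}.ncard : ℤ) (P.side τ) (P.last + P.w) where
  box_w := fun i => by
    have := P.box_c P.c_start i
    change 1 ≤ (P.start + P.w) i ∧ (P.start + P.w) i ≤ P.n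
    omega
  not_w := P.side_not P.c_start
  tau_w := by
    change (P.side τ).τ (P.start + P.w) = 1
    rw [P.side_τ_add P.c_start, hτ.start]
  box_w' := fun i => by
    have := P.box_c P.c_last i
    omega
  not_w' := P.side_not P.c_last
  tau_w' := by
    rw [P.side_τ_add P.c_last, hτ.last]
  range := fun p _ _ => by
    by_cases h : P.C (p - P.w)
    · rw [P.side_τ_of_c h]
      have := hτ.range _ h
      omega
    · rw [P.side_τ_of_not h]
      omega
  star := fun p hp hT hne => P.side_star hτ p hp hT hne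
  star_w := P.side_star_w hτ
  perc := fun U hU => P.perc_all hτ U hU

theorem le_max : (P.M : ℤ) * P.L ^ 2 ≤ (maxPercTime (grid (D + 2) P.n) r : ℤ) := by
  obtain ⟨τ, hτ⟩ := P.exists_isRank
  exact le_trans P.c_card (P.good hτ).le_max

end Plan

end Pool.Agent.Lib.MP_1a3405_co.BP
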