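import Mathlib
import Pool.Agent.Lib.MP_1a3405_co.BP.Cz

/-!
Enumeration of the points of a set in the box `[1, B]^D` in an order increasing along each axis
(for instance the lexicographic order of `Fin D → ℤ`, or by the value of an injective integer
function like `∑ y j * (B + 1) ^ j`), and the snake order of the rooms (from `Ord.exists_ham`,
reversed, so that it ends at the origin).
-/

namespace Pool.Agent.Lib.MP_1a3405_co.BP

open Pool.Agent.Lib.MP_1a3405_co Pool.Agent.Lib.MP_1a3405_co.Ord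

theorem exists_enum {D : ℕ} (T : (Fin D → ℤ) → Prop) (B : ℤ) :
    ∃ (N : ℕ) (u : ℕ → Fin D → ℤ), N = {y | T y ∧ ∀ j, 1 ≤ y j ∧ y j ≤ B}.ncard ∧
      (∀ t < N, ∀ j, 1 ≤ u t j ∧ u t j ≤ B) ∧ (∀ t < N, T (u t)) ∧
      (∀ s < N, ∀ t < N, u s = u t → s = t) ∧
      (∀ y, T y → (∀ j, 1 ≤ y j ∧ y j ≤ B) → ∃ t < N, u t = y) ∧
      (∀ s < N, ∀ t < N, ∀ i, u t = nb (u s) (i, true) → s < t) := by
  classical
  set S : Set (Fin D → ℤ) := {y | T y ∧ ∀ j, 1 ≤ y j ∧ y j ≤ B} with hS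
  have hfin : S.Finite := by
    apply (Set.finite_Icc (fun _ : Fin D => (1 : ℤ)) (fun _ => B)).subset
    rintro y ⟨-, hy⟩
    exact ⟨fun j => (hy j).1, fun j => (hy j).2⟩
  set F : Finset (Lex (Fin D → ℤ)) := hfin.toFinset.map toLex.toEmbedding with hF
  have hmem : ∀ z : Lex (Fin D → ℤ), z ∈ F ↔ ofLex z ∈ S := by
    intro z
    rw [hF, Finset.mem_map_equiv, Set.Finite.mem_toFinset]
    rfl
  have hcard : F.card = S.ncard := by
    rw [hF, Finset.card_map, Set.ncard_eq_toFinset_card _ hfin]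
  set e : Fin S.ncard ↪o Lex (Fin D → ℤ) := F.orderEmbOfFin hcard with he
  have he1 : ∀ t, ofLex (e t) ∈ S := fun t => (hmem _).1 (Finset.orderEmbOfFin_mem F hcard t)
  set u : ℕ → Fin D → ℤ := fun t => if h : t < S.ncard then ofLex (e ⟨t, h⟩) else 0 with hu
  have hu1 : ∀ t (h : t < S.ncard), u t = ofLex (e ⟨t, h⟩) := fun t h => by
    rw [hu]; exact dif_pos h
  refine ⟨S.ncard, u, rfl, ?_, ?_, ?_, ?_, ?_⟩
  · intro t ht
    rw [hu1 t ht]
    exact (he1 ⟨t, ht⟩).2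
  · intro t ht
    rw [hu1 t ht]
    exact (he1 ⟨t, ht⟩).1
  · intro s hs t ht h
    rw [hu1 s hs, hu1 t ht] at h
    have h1 := e.injective (ofLex.injective h)
    exact congrArg Fin.val h1
  · intro y hy hb
    have h1 : toLex y ∈ (F : Set (Lex (Fin D → ℤ))) := (hmem _).2 ⟨hy, hb⟩
    rw [← Finset.range_orderEmbOfFin F hcard] at h1
    obtain ⟨t, ht⟩ := h1
    refine ⟨t, t.2, ?_⟩
    rw [hu1 t t.2]
    show ofLex (e t) = y
    rw [he, ht]
    rfl
  · intro s hs t ht i h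
    rw [hu1 s hs, hu1 t ht] at h
    have h1 : ofLex (e ⟨s, hs⟩) < ofLex (e ⟨t, ht⟩) := by
      rw [h, nb]
      rw [lt_update_self_iff]
      simp
    have h2 : e ⟨s, hs⟩ < e ⟨t, ht⟩ := Pi.toLex_strictMono h1
    exact e.lt_iff_lt.1 h2

end Pool.Agent.Lib.MP_1a3405_co.BP
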