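import Mathlib
import Pool.Agent.Lib.MP_1a3405_co.BP.Cz

/-!
Linear patterns: `T y` holds iff `(∑ g i * y i) mod m` lies in a set `A` of residues.
-/

namespace Pool.Agent.Lib.MP_1a3405_co.BP

open Pool.Agent.Lib.MP_1a3405_co Pool.Agent.Lib.MP_1a3405_co.Ord

/-- the linear pattern with weights `g`, modulus `m` and residues `A` -/
def LinPat {D : ℕ} (m : ℕ) (g : Fin D → ℤ) (A : ℤ → Prop) (y : Fin D → ℤ) : Prop :=
  A ((∑ i, g i * y i) % m)

/-- odd `r`: modulus, weights, residues -/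
def mO (D r : ℕ) : ℕ := D + 2 - (r + 1) / 2

def gO (D r : ℕ) (i : Fin D) : ℤ := if (i : ℕ) + 1 < mO D r then ((i : ℕ) : ℤ) + 1 else 0

def AO (r : ℕ) (z : ℤ) : Prop := 0 ≤ z ∧ 2 * z + 3 ≤ r

/-- even `r`: modulus, weights, residues -/
def mE (D r : ℕ) : ℕ := 2 * D + 3 - r

def gE (D r : ℕ) (i : Fin D) : ℤ := if 2 * ((i : ℕ) + 1) < mE D r then ((i : ℕ) : ℤ) + 1 else 0

def AE (D r : ℕ) (z : ℤ) : Prop :=
  (0 ≤ z ∧ 2 * z + 2 ≤ r) ∨ ((mE D r : ℤ) + 1 ≤ 2 * z ∧ 2 * z + 3 ≤ (mE D r : ℤ) + r)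

/-- the pattern -/
def Pat (D r : ℕ) (y : Fin D → ℤ) : Prop :=
  if r % 2 = 1 then LinPat (mO D r) (gO D r) (AO r) y
  else LinPat (mE D r) (gE D r) (AE D r) y

/-- its modulus -/
def mP (D r : ℕ) : ℕ := if r % 2 = 1 then mO D r else mE D r

/-- the residue of a neighbour -/
lemma linPat_nb {D : ℕ} (m : ℕ) (g : Fin D → ℤ) (A : ℤ → Prop) (y : Fin D → ℤ) (i : Fin D)
    (s : Bool) : LinPat m g A (nb y (i, s)) ↔
      A (((∑ j, g j * y j) % m + if s then g i else - g i) % m) := by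
  have h : ∑ j, g j * nb y (i, s) j = (∑ j, g j * y j) + if s then g i else - g i := by
    have h1 : ∀ j, g j * nb y (i, s) j = g j * y j + if j = i then (if s then g i else - g i)
        else 0 := by
      intro j
      by_cases hj : j = i
      · subst hj
        rw [nb_self, if_pos rfl]
        cases s <;> simp <;> ring
      · rw [nb_other y s hj, if_neg hj, add_zero]
    rw [Finset.sum_congr rfl fun j _ => h1 j, Finset.sum_add_distrib, Finset.sum_ite_eq']
    simp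
  rw [LinPat, h, Int.emod_add_emod]

end Pool.Agent.Lib.MP_1a3405_co.BP
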