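import Mathlib
import Pool.Agent.Lib.MP_1a3405_co.BP.PatDefs

/-!
Density of a linear pattern in the boxes `[1, m β]^D`: if the weight of the coordinate `i0` is
`1`, then for fixed other coordinates each residue is taken `β` times by `y i0 ∈ [1, m β]`.
-/

namespace Pool.Agent.Lib.MP_1a3405_co.BP

open Pool.Agent.Lib.MP_1a3405_co Pool.Agent.Lib.MP_1a3405_co.Ord

lemma sum_update {D : ℕ} (g : Fin D → ℤ) (i0 : Fin D) (hi0 : g i0 = 1) (y : Fin D → ℤ) (v : ℤ) :
    ∑ j, g j * Function.update y i0 v j = (∑ j, g j * y j) + (v - y i0) := by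
  have h1 : ∀ j, g j * Function.update y i0 v j = g j * y j + if j = i0 then v - y i0 else 0 := by
    intro j
    by_cases hj : j = i0
    · subst hj
      rw [Function.update_self, if_pos rfl, hi0]
      ring
    · rw [Function.update_of_ne hj, if_neg hj, add_zero]
  rw [Finset.sum_congr rfl fun j _ => h1 j, Finset.sum_add_distrib, Finset.sum_ite_eq']
  simp

/-- the points of the box with a given residue -/
noncomputable def fibSet {D : ℕ} (m : ℕ) (g : Fin D → ℤ) (N z : ℤ) : Finset (Fin D → ℤ) :=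
  (Fintype.piFinset fun _ : Fin D => Finset.Icc 1 N).filter fun y => (∑ j, g j * y j - z) % m = 0

lemma mem_fibSet {D : ℕ} {m : ℕ} {g : Fin D → ℤ} {N z : ℤ} {y : Fin D → ℤ} :
    y ∈ fibSet m g N z ↔ (∀ j, 1 ≤ y j ∧ y j ≤ N) ∧ (∑ j, g j * y j - z) % m = 0 := by
  rw [fibSet, Finset.mem_filter, Fintype.mem_piFinset]
  simp only [Finset.mem_Icc]

lemma card_fibSet_succ {D : ℕ} (m : ℕ) (g : Fin D → ℤ) (i0 : Fin D)
    (hi0 : g i0 = 1) (N : ℤ) (hN : (m : ℤ) ∣ N) (z : ℤ) :
    (fibSet m g N z).card = (fibSet m g N (z + 1)).card := by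
  classical
  refine Finset.card_nbij'
    (fun y => Function.update y i0 (if y i0 = N then 1 else y i0 + 1))
    (fun y => Function.update y i0 (if y i0 = 1 then N else y i0 - 1)) ?_ ?_ ?_ ?_
  · intro y hy
    rw [Finset.mem_coe, mem_fibSet] at hy
    rw [Finset.mem_coe, mem_fibSet]
    obtain ⟨hy1, hy2⟩ := hy
    dsimp only
    constructor
    · intro j
      by_cases hj : j = i0
      · subst hj
        rw [Function.update_self]
        have := hy1 j
        split_ifs <;> constructor <;> omega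
      · rw [Function.update_of_ne hj]
        exact hy1 j
    · rw [sum_update g i0 hi0]
      have h3 : (m : ℤ) ∣ ∑ j, g j * y j - z := Int.dvd_of_emod_eq_zero hy2
      apply Int.emod_eq_zero_of_dvd
      split_ifs with h
      · have : (∑ j, g j * y j + (1 - y i0) - (z + 1)) = (∑ j, g j * y j - z) - N := by
          rw [h]; ring
        rw [this]
        exact dvd_sub h3 hN
      · have : (∑ j, g j * y j + (y i0 + 1 - y i0) - (z + 1)) = (∑ j, g j * y j - z) := by
          ring
        rw [this]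
        exact h3
  · intro y hy
    rw [Finset.mem_coe, mem_fibSet] at hy
    rw [Finset.mem_coe, mem_fibSet]
    obtain ⟨hy1, hy2⟩ := hy
    dsimp only
    constructor
    · intro j
      by_cases hj : j = i0
      · subst hj
        rw [Function.update_self]
        have := hy1 j
        split_ifs <;> constructor <;> omega
      · rw [Function.update_of_ne hj]
        exact hy1 j
    · rw [sum_update g i0 hi0]
      have h3 : (m : ℤ) ∣ ∑ j, g j * y j - (z + 1) := Int.dvd_of_emod_eq_zero hy2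
      apply Int.emod_eq_zero_of_dvd
      split_ifs with h
      · have : (∑ j, g j * y j + (N - y i0) - z) = (∑ j, g j * y j - (z + 1)) + N := by
          rw [h]; ring
        rw [this]
        exact dvd_add h3 hN
      · have : (∑ j, g j * y j + (y i0 - 1 - y i0) - z) = (∑ j, g j * y j - (z + 1)) := by
          ring
        rw [this]
        exact h3
  · intro y hy
    rw [Finset.mem_coe, mem_fibSet] at hy
    have := hy.1 i0
    funext j
    by_cases hj : j = i0
    · subst hj
      simp only [Function.update_self]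
      split_ifs <;> omega
    · simp only [Function.update_of_ne hj]
  · intro y hy
    rw [Finset.mem_coe, mem_fibSet] at hy
    have := hy.1 i0
    funext j
    by_cases hj : j = i0
    · subst hj
      simp only [Function.update_self]
      split_ifs <;> omega
    · simp only [Function.update_of_ne hj]

lemma card_fibSet_nat {D : ℕ} (m : ℕ) (g : Fin D → ℤ) (i0 : Fin D)
    (hi0 : g i0 = 1) (N : ℤ) (hN : (m : ℤ) ∣ N) (k : ℕ) :
    (fibSet m g N (k : ℤ)).card = (fibSet m g N 0).card := by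
  induction k with
  | zero => rfl
  | succ k ih => rw [Nat.cast_succ, ← card_fibSet_succ m g i0 hi0 N hN, ih]

lemma card_fibSet {D : ℕ} (m : ℕ) (g : Fin D → ℤ) (i0 : Fin D)
    (hi0 : g i0 = 1) (N : ℤ) (hN : (m : ℤ) ∣ N) (z : ℤ) (hz : 0 ≤ z) :
    (fibSet m g N z).card = (fibSet m g N 0).card := by
  obtain ⟨k, rfl⟩ := Int.eq_ofNat_of_zero_le hz
  exact card_fibSet_nat m g i0 hi0 N hN k

/-- union of fibres -/
lemma card_biUnion_fibSet {D : ℕ} (m : ℕ) (hm : 1 ≤ m) (g : Fin D → ℤ) (i0 : Fin D)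
    (hi0 : g i0 = 1) (N : ℤ) (hN : (m : ℤ) ∣ N) (S : Finset ℤ) (hS : ∀ z ∈ S, 0 ≤ z ∧ z < m) :
    ((Fintype.piFinset fun _ : Fin D => Finset.Icc 1 N).filter
      fun y => (∑ j, g j * y j) % m ∈ S).card = S.card * (fibSet m g N 0).card := by
  classical
  have h1 : ((Fintype.piFinset fun _ : Fin D => Finset.Icc 1 N).filter
      fun y => (∑ j, g j * y j) % m ∈ S) = S.biUnion fun z => fibSet m g N z := by
    ext y
    rw [Finset.mem_biUnion, Finset.mem_filter, Fintype.mem_piFinset]
    simp only [Finset.mem_Icc]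
    constructor
    · rintro ⟨h1, h2⟩
      refine ⟨_, h2, mem_fibSet.2 ⟨h1, ?_⟩⟩
      apply Int.emod_eq_zero_of_dvd
      exact Int.dvd_self_sub_emod
    · rintro ⟨z, hz, hy⟩
      rw [mem_fibSet] at hy
      refine ⟨hy.1, ?_⟩
      have h3 : (∑ j, g j * y j) % m = z % m := by
        exact Int.emod_eq_emod_iff_emod_sub_eq_zero.2 hy.2
      rw [h3, Int.emod_eq_of_lt (hS z hz).1 (hS z hz).2]
      exact hz
  rw [h1, Finset.card_biUnion]
  · rw [Finset.sum_congr rfl fun z hz => card_fibSet m g i0 hi0 N hN z (hS z hz).1,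
      Finset.sum_const, smul_eq_mul]
  · intro z hz w hw hzw
    show Disjoint (fibSet m g N z) (fibSet m g N w)
    rw [Finset.disjoint_left]
    intro y hy hy'
    have hz' := hS z hz
    have hw' := hS w hw
    rw [mem_fibSet] at hy hy'
    apply hzw
    have h3 : (∑ j, g j * y j) % m = z % m :=
      Int.emod_eq_emod_iff_emod_sub_eq_zero.2 hy.2
    have h4 : (∑ j, g j * y j) % m = w % m :=
      Int.emod_eq_emod_iff_emod_sub_eq_zero.2 hy'.2
    rw [h3, Int.emod_eq_of_lt hz'.1 hz'.2, Int.emod_eq_of_lt hw'.1 hw'.2] at h4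
    exact h4

theorem linPat_dens {D : ℕ} (m : ℕ) (hm : 1 ≤ m) (g : Fin D → ℤ) (i0 : Fin D) (hi0 : g i0 = 1)
    (A : ℤ → Prop) (S : Finset ℤ) (hS : ∀ z, z ∈ S ↔ 0 ≤ z ∧ z < m ∧ A z) (β : ℕ) :
    {y : Fin D → ℤ | LinPat m g A y ∧ ∀ j, 1 ≤ y j ∧ y j ≤ m * β}.ncard * m =
      S.card * (m * β) ^ D := by
  classical
  have hm0 : (0 : ℤ) < m := by exact_mod_cast hm
  have hN : (m : ℤ) ∣ (m : ℤ) * β := Dvd.intro _ rfl
  have h1 : {y : Fin D → ℤ | LinPat m g A y ∧ ∀ j, 1 ≤ y j ∧ y j ≤ m * β} =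
      (((Fintype.piFinset fun _ : Fin D => Finset.Icc 1 ((m : ℤ) * β)).filter
      fun y => (∑ j, g j * y j) % m ∈ S : Finset (Fin D → ℤ)) : Set (Fin D → ℤ)) := by
    ext y
    rw [Finset.mem_coe, Finset.mem_filter, Fintype.mem_piFinset, Set.mem_ofPred_eq]
    simp only [Finset.mem_Icc]
    rw [hS, LinPat]
    constructor
    · rintro ⟨h1, h2⟩
      exact ⟨h2, Int.emod_nonneg _ hm0.ne', Int.emod_lt_of_pos _ hm0, h1⟩
    · rintro ⟨h1, -, -, h2⟩
      exact ⟨h2, h1⟩
  have h2 := card_biUnion_fibSet m hm g i0 hi0 _ hN S fun z hz => ⟨((hS z).1 hz).1, ((hS z).1 hz).2.1⟩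
  have h3 := card_biUnion_fibSet m hm g i0 hi0 _ hN (Finset.Ico 0 (m : ℤ))
    fun z hz => Finset.mem_Ico.1 hz
  have h4 : ((Fintype.piFinset fun _ : Fin D => Finset.Icc 1 ((m : ℤ) * β)).filter
      fun y => (∑ j, g j * y j) % m ∈ Finset.Ico 0 (m : ℤ)).card = (m * β) ^ D := by
    rw [Finset.filter_true_of_mem, Fintype.card_piFinset_const]
    · rw [Int.card_Icc]
      congr 1
      have : (m : ℤ) * β + 1 - 1 = ((m * β : ℕ) : ℤ) := by push_cast; ring
      rw [this, Int.toNat_natCast]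
    · intro y _
      exact Finset.mem_Ico.2 ⟨Int.emod_nonneg _ hm0.ne', Int.emod_lt_of_pos _ hm0⟩
  rw [h4, Int.card_Ico, sub_zero, Int.toNat_natCast] at h3
  rw [h1, Set.ncard_coe_finset, h2, mul_assoc, h3, mul_comm (fibSet m g _ 0).card m]

end Pool.Agent.Lib.MP_1a3405_co.BP
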