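import Mathlib
import Pool.Agent.Lib.MP_1a3405_co.BP.PatDefs

/-!
The pattern for even `r`. Let `m = mE D r = 2D + 3 - r` (odd) and `ρ` the residue of `y`. There
are `(r - 2)/2` directions of weight `0`, and the others have the weights `1, …, (m - 1)/2` (once
each). `A = [0, (r - 2)/2] ∪ [(m + 1)/2, (m + 1)/2 + (r - 4)/2]` has `r - 1` elements.
For `ρ ∈ A` the half circle `ρ + [1, (m - 1)/2]` contains exactly `(r - 2)/2` elements of `A`:
if `ρ = j ≤ (r - 2)/2`: the `(r - 2)/2 - j` elements `j + 1, …, (r - 2)/2` and the `j` elements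
`(m + 1)/2, …, (m + 1)/2 + j - 1`; if `ρ = (m + 1)/2 + j`: the `(r - 4)/2 - j` elements above it
and (after passing `m`) the `j + 1` elements `0, …, j`. Similarly for `ρ - [1, (m - 1)/2]` (or by
counting: all the `r - 2` other elements of `A` are in one of the two half circles).
For `ρ ∉ A` the two half circles together contain the `r - 1` elements of `A` once each.
-/

namespace Pool.Agent.Lib.MP_1a3405_co.BP

open Pool.Agent.Lib.MP_1a3405_co Pool.Agent.Lib.MP_1a3405_co.Ord

namespace PatEvenAux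

lemma emod_a {x m : ℤ} (h0 : 0 ≤ x) (h1 : x < m) : x % m = x := Int.emod_eq_of_lt h0 h1

lemma emod_b {x m : ℤ} (h0 : m ≤ x) (h1 : x < 2 * m) : x % m = x - m := by
  rw [← Int.sub_emod_right x m]
  exact Int.emod_eq_of_lt (by linarith) (by linarith)

lemma emod_c {x m : ℤ} (h0 : -m ≤ x) (h1 : x < 0) : x % m = x + m := by
  rw [← Int.add_emod_right x m]
  exact Int.emod_eq_of_lt (by linarith) (by linarith)

lemma card_fin {D : ℕ} (P : Fin D → Prop) [DecidablePred P] (S : Finset ℕ)
    (h : ∀ i : ℕ, (∃ hi : i < D, P ⟨i, hi⟩) ↔ i ∈ S) :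
    (Finset.univ.filter P).card = S.card := by
  have h1 : (Finset.univ.filter P).map Fin.valEmbedding = S := by
    ext i
    rw [Finset.mem_map, ← h i]
    constructor
    · rintro ⟨a, ha, rfl⟩
      exact ⟨a.2, by simpa using ha⟩
    · rintro ⟨hi, hP⟩
      exact ⟨⟨i, hi⟩, by simpa using hP, rfl⟩
  rw [← h1, Finset.card_map]

/-- the residue as a natural number -/
lemma resid {D : ℕ} (m : ℕ) (hm : 0 < m) (g : Fin D → ℤ) (y : Fin D → ℤ) :
    ∃ ρ : ℕ, ρ < m ∧ (∑ j, g j * y j) % (m : ℤ) = (ρ : ℤ) := by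
  have h0 : 0 ≤ (∑ j, g j * y j) % (m : ℤ) := Int.emod_nonneg _ (by omega)
  have h1 : (∑ j, g j * y j) % (m : ℤ) < m := Int.emod_lt_of_pos _ (by omega)
  obtain ⟨ρ, hρ⟩ := Int.eq_ofNat_of_zero_le h0
  exact ⟨ρ, by omega, hρ⟩

/-- membership in the set of residues -/
lemma AE_iff {D r k h : ℕ} (hk : r = 2 * k) (hk1 : 2 ≤ k) (hh : h + k = D + 1) (hkh : k ≤ h)
    (z : ℤ) : AE D r z ↔ (0 ≤ z ∧ z + 1 ≤ k) ∨ ((h : ℤ) + 1 ≤ z ∧ z + 1 ≤ h + k) := by
  have hm : mE D r = 2 * h + 1 := by unfold mE; omega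
  unfold AE
  rw [hm]
  push_cast
  omega

/-- upper neighbours -/
lemma up_iff {D r k h : ℕ} (hk : r = 2 * k) (hk1 : 2 ≤ k) (hh : h + k = D + 1) (hkh : k ≤ h)
    (y : Fin D → ℤ) {ρ : ℕ} (hρ : ρ < 2 * h + 1)
    (hy : (∑ j, gE D r j * y j) % (mE D r : ℤ) = (ρ : ℤ)) (i : Fin D) :
    LinPat (mE D r) (gE D r) (AE D r) (nb y (i, true)) ↔
      ((i : ℕ) < h ∧ ((i : ℕ) + 1 + ρ < k ∨ (h + 1 ≤ (i : ℕ) + 1 + ρ ∧ (i : ℕ) + 1 + ρ < h + k) ∨
        (2 * h + 1 ≤ (i : ℕ) + 1 + ρ ∧ (i : ℕ) + 1 + ρ < 2 * h + 1 + k))) ∨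
      (h ≤ (i : ℕ) ∧ (ρ < k ∨ (h + 1 ≤ ρ ∧ ρ < h + k))) := by
  rw [linPat_nb, hy]
  simp only [if_true]
  have hm : mE D r = 2 * h + 1 := by unfold mE; omega
  rw [AE_iff hk hk1 hh hkh, hm]
  by_cases h1 : (i : ℕ) < h
  · have hg : gE D r i = ((i : ℕ) : ℤ) + 1 := by
      unfold gE; rw [hm, if_pos (by omega)]
    rw [hg]
    by_cases h2 : ρ + ((i : ℕ) + 1) < 2 * h + 1
    · rw [emod_a (by omega) (by push_cast; omega)]
      omega
    · rw [emod_b (by push_cast; omega) (by push_cast; omega)]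
      push_cast
      omega
  · have hg : gE D r i = 0 := by
      unfold gE; rw [hm, if_neg (by omega)]
    rw [hg, add_zero, emod_a (by omega) (by push_cast; omega)]
    omega

/-- lower neighbours -/
lemma dn_iff {D r k h : ℕ} (hk : r = 2 * k) (hk1 : 2 ≤ k) (hh : h + k = D + 1) (hkh : k ≤ h)
    (y : Fin D → ℤ) {ρ : ℕ} (hρ : ρ < 2 * h + 1)
    (hy : (∑ j, gE D r j * y j) % (mE D r : ℤ) = (ρ : ℤ)) (i : Fin D) :
    LinPat (mE D r) (gE D r) (AE D r) (nb y (i, false)) ↔
      ((i : ℕ) < h ∧ (((i : ℕ) + 1 ≤ ρ ∧ ρ < k + ((i : ℕ) + 1)) ∨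
        (h + 1 + ((i : ℕ) + 1) ≤ ρ ∧ ρ < h + k + ((i : ℕ) + 1)) ∨
        (ρ < (i : ℕ) + 1 ∧ ρ + (h + 1) < k + ((i : ℕ) + 1)))) ∨
      (h ≤ (i : ℕ) ∧ (ρ < k ∨ (h + 1 ≤ ρ ∧ ρ < h + k))) := by
  rw [linPat_nb, hy]
  simp only [Bool.false_eq_true, if_false]
  have hm : mE D r = 2 * h + 1 := by unfold mE; omega
  rw [AE_iff hk hk1 hh hkh, hm]
  by_cases h1 : (i : ℕ) < h
  · have hg : gE D r i = ((i : ℕ) : ℤ) + 1 := by
      unfold gE; rw [hm, if_pos (by omega)]
    rw [hg]
    by_cases h2 : (i : ℕ) + 1 ≤ ρ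
    · rw [emod_a (by omega) (by push_cast; omega)]
      omega
    · rw [emod_c (by push_cast; omega) (by omega)]
      push_cast
      omega
  · have hg : gE D r i = 0 := by
      unfold gE; rw [hm, if_neg (by omega)]
    rw [hg, neg_zero, add_zero, emod_a (by omega) (by push_cast; omega)]
    omega

lemma self_iff {D r k h : ℕ} (hk : r = 2 * k) (hk1 : 2 ≤ k) (hh : h + k = D + 1) (hkh : k ≤ h)
    (y : Fin D → ℤ) {ρ : ℕ} (hy : (∑ j, gE D r j * y j) % (mE D r : ℤ) = (ρ : ℤ)) :
    LinPat (mE D r) (gE D r) (AE D r) y ↔ (ρ < k ∨ (h + 1 ≤ ρ ∧ ρ < h + k)) := by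
  unfold LinPat
  rw [hy, AE_iff hk hk1 hh hkh]
  omega

end PatEvenAux

open PatEvenAux

theorem patE_up {D r : ℕ} (hr : 4 ≤ r) (hr2 : r % 2 = 0) (hrD : r ≤ D + 1) (y : Fin D → ℤ)
    (h : LinPat (mE D r) (gE D r) (AE D r) y) :
    {i : Fin D | LinPat (mE D r) (gE D r) (AE D r) (nb y (i, true))}.ncard = r - 2 := by
  classical
  obtain ⟨k, hk⟩ : ∃ k, r = 2 * k := ⟨r / 2, by omega⟩
  obtain ⟨t, ht⟩ : ∃ t, t + k = D + 1 := ⟨D + 1 - k, by omega⟩
  have hm : mE D r = 2 * t + 1 := by unfold mE; omega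
  obtain ⟨ρ, hρ, hy⟩ := resid (mE D r) (by omega) (gE D r) y
  rw [self_iff hk (by omega) ht (by omega) y hy] at h
  have h1 : {i : Fin D | LinPat (mE D r) (gE D r) (AE D r) (nb y (i, true))} =
      ((Finset.univ.filter fun i : Fin D =>
        LinPat (mE D r) (gE D r) (AE D r) (nb y (i, true)) : Finset (Fin D)) : Set (Fin D)) := by
    ext i; simp
  rw [h1, Set.ncard_coe_finset]
  rcases h with h | h
  · rw [card_fin _ (Finset.range (k - ρ - 1) ∪ Finset.Ico (t - ρ) D)]
    · rw [Finset.card_union_of_disjoint, Finset.card_range, Nat.card_Ico]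
      · omega
      · rw [Finset.disjoint_left]
        intro i hi hi'
        rw [Finset.mem_range] at hi
        rw [Finset.mem_Ico] at hi'
        omega
    · intro i
      rw [Finset.mem_union, Finset.mem_range, Finset.mem_Ico]
      constructor
      · rintro ⟨hi, hP⟩
        rw [up_iff hk (by omega) ht (by omega) y (by omega) hy] at hP
        simp only at hP
        omega
      · intro hi
        have hiD : i < D := by omega
        refine ⟨hiD, ?_⟩
        rw [up_iff hk (by omega) ht (by omega) y (by omega) hy]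
        simp only
        omega
  · rw [card_fin _ (Finset.range (t + k - 1 - ρ) ∪ Finset.Ico (2 * t - ρ) D)]
    · rw [Finset.card_union_of_disjoint, Finset.card_range, Nat.card_Ico]
      · omega
      · rw [Finset.disjoint_left]
        intro i hi hi'
        rw [Finset.mem_range] at hi
        rw [Finset.mem_Ico] at hi'
        omega
    · intro i
      rw [Finset.mem_union, Finset.mem_range, Finset.mem_Ico]
      constructor
      · rintro ⟨hi, hP⟩
        rw [up_iff hk (by omega) ht (by omega) y (by omega) hy] at hP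
        simp only at hP
        omega
      · intro hi
        have hiD : i < D := by omega
        refine ⟨hiD, ?_⟩
        rw [up_iff hk (by omega) ht (by omega) y (by omega) hy]
        simp only
        omega

theorem patE_dn {D r : ℕ} (hr : 4 ≤ r) (hr2 : r % 2 = 0) (hrD : r ≤ D + 1) (y : Fin D → ℤ)
    (h : LinPat (mE D r) (gE D r) (AE D r) y) :
    {i : Fin D | LinPat (mE D r) (gE D r) (AE D r) (nb y (i, false))}.ncard = r - 2 := by
  classical
  obtain ⟨k, hk⟩ : ∃ k, r = 2 * k := ⟨r / 2, by omega⟩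
  obtain ⟨t, ht⟩ : ∃ t, t + k = D + 1 := ⟨D + 1 - k, by omega⟩
  have hm : mE D r = 2 * t + 1 := by unfold mE; omega
  obtain ⟨ρ, hρ, hy⟩ := resid (mE D r) (by omega) (gE D r) y
  rw [self_iff hk (by omega) ht (by omega) y hy] at h
  have h1 : {i : Fin D | LinPat (mE D r) (gE D r) (AE D r) (nb y (i, false))} =
      ((Finset.univ.filter fun i : Fin D =>
        LinPat (mE D r) (gE D r) (AE D r) (nb y (i, false)) : Finset (Fin D)) : Set (Fin D)) := by
    ext i; simp
  rw [h1, Set.ncard_coe_finset]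
  rcases h with h | h
  · rw [card_fin _ (Finset.range ρ ∪ Finset.Ico (t + 1 + ρ - k) D)]
    · rw [Finset.card_union_of_disjoint, Finset.card_range, Nat.card_Ico]
      · omega
      · rw [Finset.disjoint_left]
        intro i hi hi'
        rw [Finset.mem_range] at hi
        rw [Finset.mem_Ico] at hi'
        omega
    · intro i
      rw [Finset.mem_union, Finset.mem_range, Finset.mem_Ico]
      constructor
      · rintro ⟨hi, hP⟩
        rw [dn_iff hk (by omega) ht (by omega) y (by omega) hy] at hP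
        simp only at hP
        omega
      · intro hi
        have hiD : i < D := by omega
        refine ⟨hiD, ?_⟩
        rw [dn_iff hk (by omega) ht (by omega) y (by omega) hy]
        simp only
        omega
  · rw [card_fin _ (Finset.range (ρ - t - 1) ∪ Finset.Ico (ρ - k) D)]
    · rw [Finset.card_union_of_disjoint, Finset.card_range, Nat.card_Ico]
      · omega
      · rw [Finset.disjoint_left]
        intro i hi hi'
        rw [Finset.mem_range] at hi
        rw [Finset.mem_Ico] at hi'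
        omega
    · intro i
      rw [Finset.mem_union, Finset.mem_range, Finset.mem_Ico]
      constructor
      · rintro ⟨hi, hP⟩
        rw [dn_iff hk (by omega) ht (by omega) y (by omega) hy] at hP
        simp only at hP
        omega
      · intro hi
        have hiD : i < D := by omega
        refine ⟨hiD, ?_⟩
        rw [dn_iff hk (by omega) ht (by omega) y (by omega) hy]
        simp only
        omega

theorem patE_out {D r : ℕ} (hr : 4 ≤ r) (hr2 : r % 2 = 0) (hrD : r ≤ D + 1) (y : Fin D → ℤ)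
    (h : ¬ LinPat (mE D r) (gE D r) (AE D r) y) :
    cz (LinPat (mE D r) (gE D r) (AE D r)) y ≤ r - 1 := by
  classical
  obtain ⟨k, hk⟩ : ∃ k, r = 2 * k := ⟨r / 2, by omega⟩
  obtain ⟨t, ht⟩ : ∃ t, t + k = D + 1 := ⟨D + 1 - k, by omega⟩
  have hm : mE D r = 2 * t + 1 := by unfold mE; omega
  obtain ⟨ρ, hρ, hy⟩ := resid (mE D r) (by omega) (gE D r) y
  rw [self_iff hk (by omega) ht (by omega) y hy] at h
  have h' : (k ≤ ρ ∧ ρ ≤ t) ∨ (t + k ≤ ρ ∧ ρ ≤ 2 * t) := by omega
  rw [cz_up_dn]
  rcases h' with h' | h'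
  · rw [card_fin _ (Finset.Ico (t - ρ) (t + k - 1 - ρ)), card_fin _ (Finset.Ico (ρ - k) ρ)]
    · rw [Nat.card_Ico, Nat.card_Ico]
      omega
    · intro i
      rw [Finset.mem_Ico]
      constructor
      · rintro ⟨hi, hP⟩
        rw [dn_iff hk (by omega) ht (by omega) y (by omega) hy] at hP
        simp only at hP
        omega
      · intro hi
        have hiD : i < D := by omega
        refine ⟨hiD, ?_⟩
        rw [dn_iff hk (by omega) ht (by omega) y (by omega) hy]
        simp only
        omega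
    · intro i
      rw [Finset.mem_Ico]
      constructor
      · rintro ⟨hi, hP⟩
        rw [up_iff hk (by omega) ht (by omega) y (by omega) hy] at hP
        simp only at hP
        omega
      · intro hi
        have hiD : i < D := by omega
        refine ⟨hiD, ?_⟩
        rw [up_iff hk (by omega) ht (by omega) y (by omega) hy]
        simp only
        omega
  · rw [card_fin _ (Finset.Ico (2 * t - ρ) (2 * t + k - ρ)),
      card_fin _ (Finset.Ico (ρ - t - k) (ρ - t - 1))]
    · rw [Nat.card_Ico, Nat.card_Ico]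
      omega
    · intro i
      rw [Finset.mem_Ico]
      constructor
      · rintro ⟨hi, hP⟩
        rw [dn_iff hk (by omega) ht (by omega) y (by omega) hy] at hP
        simp only at hP
        omega
      · intro hi
        have hiD : i < D := by omega
        refine ⟨hiD, ?_⟩
        rw [dn_iff hk (by omega) ht (by omega) y (by omega) hy]
        simp only
        omega
    · intro i
      rw [Finset.mem_Ico]
      constructor
      · rintro ⟨hi, hP⟩
        rw [up_iff hk (by omega) ht (by omega) y (by omega) hy] at hP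
        simp only at hP
        omega
      · intro hi
        have hiD : i < D := by omega
        refine ⟨hiD, ?_⟩
        rw [up_iff hk (by omega) ht (by omega) y (by omega) hy]
        simp only
        omega

end Pool.Agent.Lib.MP_1a3405_co.BP
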