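import Mathlib
import Pool.Agent.Lib.MP_1a3405_co.BP.PatDefs

/-!
The pattern for odd `r`. Let `m = mO D r = D + 2 - (r + 1)/2` and `ρ` the residue of `y`. There
are `(r - 1)/2` directions of weight `0`, and the others have the weights `1, …, m - 1` (once
each). `A = [0, (r - 3)/2]` has `(r - 1)/2` elements. For `ρ ∈ A`: the weight `0` directions and
the `(r - 3)/2` weights `γ ≠ 0` with `ρ + γ ∈ A` (mod `m`) give `r - 2`. For `ρ ∉ A`: `(r - 1)/2`
weights upwards and `(r - 1)/2` weights downwards.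
-/

namespace Pool.Agent.Lib.MP_1a3405_co.BP

open Pool.Agent.Lib.MP_1a3405_co Pool.Agent.Lib.MP_1a3405_co.Ord

namespace PatOddAux

lemma emod_a {x m : ℤ} (h0 : 0 ≤ x) (h1 : x < m) : x % m = x := Int.emod_eq_of_lt h0 h1

lemma emod_b {x m : ℤ} (h0 : m ≤ x) (h1 : x < 2 * m) : x % m = x - m := by
  rw [← Int.sub_emod_right x m]
  exact Int.emod_eq_of_lt (by linarith) (by linarith)

lemma emod_c {x m : ℤ} (h0 : -m ≤ x) (h1 : x < 0) : x % m = x + m := by
  rw [← Int.add_emod_right x m]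
  exact Int.emod_eq_of_lt (by linarith) (by linarith)

lemma card_fin {D : ℕ} (P : Fin D → Prop) [DecidablePred P] (S : Finset ℕ)
    (h : ∀ i : ℕ, (∃ hi : i < D, P ⟨i, hi⟩) ↔ i ∈ S) :
    (Finset.univ.filter P).card = S.card := by
  have h1 : (Finset.univ.filter P).map Fin.valEmbedding = S := by
    ext i
    rw [Finset.mem_map, ← h i]
    constructor
    · rintro ⟨a, ha, rfl⟩
      exact ⟨a.2, by simpa using ha⟩
    · rintro ⟨hi, hP⟩
      exact ⟨⟨i, hi⟩, by simpa using hP, rfl⟩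
  rw [← h1, Finset.card_map]

/-- the residue as a natural number -/
lemma resid {D : ℕ} (m : ℕ) (hm : 0 < m) (g : Fin D → ℤ) (y : Fin D → ℤ) :
    ∃ ρ : ℕ, ρ < m ∧ (∑ j, g j * y j) % (m : ℤ) = (ρ : ℤ) := by
  have h0 : 0 ≤ (∑ j, g j * y j) % (m : ℤ) := Int.emod_nonneg _ (by omega)
  have h1 : (∑ j, g j * y j) % (m : ℤ) < m := Int.emod_lt_of_pos _ (by omega)
  obtain ⟨ρ, hρ⟩ := Int.eq_ofNat_of_zero_le h0
  exact ⟨ρ, by omega, hρ⟩

/-- upper neighbours -/
lemma up_iff {D r k : ℕ} (hk : r = 2 * k + 1) (hk1 : 1 ≤ k) (hkD : 2 * k ≤ D) (y : Fin D → ℤ)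
    {ρ : ℕ} (hρ : ρ < mO D r) (hy : (∑ j, gO D r j * y j) % (mO D r : ℤ) = (ρ : ℤ)) (i : Fin D) :
    LinPat (mO D r) (gO D r) (AO r) (nb y (i, true)) ↔
      ((i : ℕ) + 1 < mO D r ∧ ((i : ℕ) + 1 + ρ < k ∨ (mO D r ≤ (i : ℕ) + 1 + ρ ∧
        (i : ℕ) + 1 + ρ < mO D r + k))) ∨ (mO D r ≤ (i : ℕ) + 1 ∧ ρ < k) := by
  rw [linPat_nb, hy]
  simp only [if_true]
  have hm : mO D r = D + 1 - k := by unfold mO; omega
  set m := mO D r with hmdef
  by_cases h1 : (i : ℕ) + 1 < m
  · have hg : gO D r i = ((i : ℕ) : ℤ) + 1 := by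
      unfold gO; rw [← hmdef, if_pos h1]
    rw [hg]
    by_cases h2 : ρ + ((i : ℕ) + 1) < m
    · rw [emod_a (by omega) (by omega)]
      unfold AO
      omega
    · rw [emod_b (by omega) (by omega)]
      unfold AO
      omega
  · have hg : gO D r i = 0 := by
      unfold gO; rw [← hmdef, if_neg h1]
    rw [hg, add_zero, emod_a (by omega) (by omega)]
    unfold AO
    omega

/-- lower neighbours -/
lemma dn_iff {D r k : ℕ} (hk : r = 2 * k + 1) (hk1 : 1 ≤ k) (hkD : 2 * k ≤ D) (y : Fin D → ℤ)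
    {ρ : ℕ} (hρ : ρ < mO D r) (hy : (∑ j, gO D r j * y j) % (mO D r : ℤ) = (ρ : ℤ)) (i : Fin D) :
    LinPat (mO D r) (gO D r) (AO r) (nb y (i, false)) ↔
      ((i : ℕ) + 1 < mO D r ∧ (((i : ℕ) + 1 ≤ ρ ∧ ρ < k + ((i : ℕ) + 1)) ∨ (ρ < (i : ℕ) + 1 ∧
        ρ + mO D r < k + ((i : ℕ) + 1)))) ∨ (mO D r ≤ (i : ℕ) + 1 ∧ ρ < k) := by
  rw [linPat_nb, hy]
  simp only [Bool.false_eq_true, if_false]
  have hm : mO D r = D + 1 - k := by unfold mO; omega
  set m := mO D r with hmdef
  by_cases h1 : (i : ℕ) + 1 < m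
  · have hg : gO D r i = ((i : ℕ) : ℤ) + 1 := by
      unfold gO; rw [← hmdef, if_pos h1]
    rw [hg]
    by_cases h2 : (i : ℕ) + 1 ≤ ρ
    · rw [emod_a (by omega) (by omega)]
      unfold AO
      omega
    · rw [emod_c (by omega) (by omega)]
      unfold AO
      omega
  · have hg : gO D r i = 0 := by
      unfold gO; rw [← hmdef, if_neg h1]
    rw [hg, neg_zero, add_zero, emod_a (by omega) (by omega)]
    unfold AO
    omega

lemma self_iff {D r k : ℕ} (hk : r = 2 * k + 1) (y : Fin D → ℤ)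
    {ρ : ℕ} (hy : (∑ j, gO D r j * y j) % (mO D r : ℤ) = (ρ : ℤ)) :
    LinPat (mO D r) (gO D r) (AO r) y ↔ ρ < k := by
  unfold LinPat
  rw [hy]
  unfold AO
  omega

end PatOddAux

open PatOddAux

theorem patO_up {D r : ℕ} (hr : 3 ≤ r) (hr2 : r % 2 = 1) (hrD : r ≤ D + 1) (y : Fin D → ℤ)
    (h : LinPat (mO D r) (gO D r) (AO r) y) :
    {i : Fin D | LinPat (mO D r) (gO D r) (AO r) (nb y (i, true))}.ncard = r - 2 := by
  classical
  obtain ⟨k, hk⟩ : ∃ k, r = 2 * k + 1 := ⟨r / 2, by omega⟩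
  have hm : mO D r = D + 1 - k := by unfold mO; omega
  obtain ⟨ρ, hρ, hy⟩ := resid (mO D r) (by omega) (gO D r) y
  rw [self_iff hk y hy] at h
  have h1 : {i : Fin D | LinPat (mO D r) (gO D r) (AO r) (nb y (i, true))} =
      ((Finset.univ.filter fun i : Fin D =>
        LinPat (mO D r) (gO D r) (AO r) (nb y (i, true)) : Finset (Fin D)) : Set (Fin D)) := by
    ext i; simp
  rw [h1, Set.ncard_coe_finset,
    card_fin _ (Finset.range (k - ρ - 1) ∪ Finset.Ico (mO D r - ρ - 1) D)]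
  · rw [Finset.card_union_of_disjoint, Finset.card_range, Nat.card_Ico]
    · omega
    · rw [Finset.disjoint_left]
      intro i hi hi'
      rw [Finset.mem_range] at hi
      rw [Finset.mem_Ico] at hi'
      omega
  · intro i
    rw [Finset.mem_union, Finset.mem_range, Finset.mem_Ico]
    constructor
    · rintro ⟨hi, hP⟩
      rw [up_iff hk (by omega) (by omega) y hρ hy] at hP
      simp only at hP
      omega
    · intro hi
      have hiD : i < D := by omega
      refine ⟨hiD, ?_⟩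
      rw [up_iff hk (by omega) (by omega) y hρ hy]
      simp only
      omega

theorem patO_dn {D r : ℕ} (hr : 3 ≤ r) (hr2 : r % 2 = 1) (hrD : r ≤ D + 1) (y : Fin D → ℤ)
    (h : LinPat (mO D r) (gO D r) (AO r) y) :
    {i : Fin D | LinPat (mO D r) (gO D r) (AO r) (nb y (i, false))}.ncard = r - 2 := by
  classical
  obtain ⟨k, hk⟩ : ∃ k, r = 2 * k + 1 := ⟨r / 2, by omega⟩
  have hm : mO D r = D + 1 - k := by unfold mO; omega
  obtain ⟨ρ, hρ, hy⟩ := resid (mO D r) (by omega) (gO D r) y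
  rw [self_iff hk y hy] at h
  have h1 : {i : Fin D | LinPat (mO D r) (gO D r) (AO r) (nb y (i, false))} =
      ((Finset.univ.filter fun i : Fin D =>
        LinPat (mO D r) (gO D r) (AO r) (nb y (i, false)) : Finset (Fin D)) : Set (Fin D)) := by
    ext i; simp
  rw [h1, Set.ncard_coe_finset,
    card_fin _ (Finset.range ρ ∪ Finset.Ico (mO D r + ρ - k) D)]
  · rw [Finset.card_union_of_disjoint, Finset.card_range, Nat.card_Ico]
    · omega
    · rw [Finset.disjoint_left]
      intro i hi hi'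
      rw [Finset.mem_range] at hi
      rw [Finset.mem_Ico] at hi'
      omega
  · intro i
    rw [Finset.mem_union, Finset.mem_range, Finset.mem_Ico]
    constructor
    · rintro ⟨hi, hP⟩
      rw [dn_iff hk (by omega) (by omega) y hρ hy] at hP
      simp only at hP
      omega
    · intro hi
      have hiD : i < D := by omega
      refine ⟨hiD, ?_⟩
      rw [dn_iff hk (by omega) (by omega) y hρ hy]
      simp only
      omega

theorem patO_out {D r : ℕ} (hr : 3 ≤ r) (hr2 : r % 2 = 1) (hrD : r ≤ D + 1) (y : Fin D → ℤ)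
    (h : ¬ LinPat (mO D r) (gO D r) (AO r) y) :
    cz (LinPat (mO D r) (gO D r) (AO r)) y ≤ r - 1 := by
  classical
  obtain ⟨k, hk⟩ : ∃ k, r = 2 * k + 1 := ⟨r / 2, by omega⟩
  have hm : mO D r = D + 1 - k := by unfold mO; omega
  obtain ⟨ρ, hρ, hy⟩ := resid (mO D r) (by omega) (gO D r) y
  rw [self_iff hk y hy] at h
  rw [cz_up_dn, card_fin _ (Finset.Ico (mO D r - ρ - 1) (mO D r - ρ - 1 + k)),
    card_fin _ (Finset.Ico (ρ - k) ρ)]
  · rw [Nat.card_Ico, Nat.card_Ico]
    omega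
  · intro i
    rw [Finset.mem_Ico]
    constructor
    · rintro ⟨hi, hP⟩
      rw [dn_iff hk (by omega) (by omega) y hρ hy] at hP
      simp only at hP
      omega
    · intro hi
      have hiD : i < D := by omega
      refine ⟨hiD, ?_⟩
      rw [dn_iff hk (by omega) (by omega) y hρ hy]
      simp only
      omega
  · intro i
    rw [Finset.mem_Ico]
    constructor
    · rintro ⟨hi, hP⟩
      rw [up_iff hk (by omega) (by omega) y hρ hy] at hP
      simp only at hP
      omega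
    · intro hi
      have hiD : i < D := by omega
      refine ⟨hiD, ?_⟩
      rw [up_iff hk (by omega) (by omega) y hρ hy]
      simp only
      omega

end Pool.Agent.Lib.MP_1a3405_co.BP
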