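import Mathlib
import Pool.Agent.Lib.MP_1a3405_co.BP.PatOdd
import Pool.Agent.Lib.MP_1a3405_co.BP.PatEven
import Pool.Agent.Lib.MP_1a3405_co.BP.PatDens

/-!
The pattern `Pat D r` for `3 ≤ r ≤ D + 1`.
-/

namespace Pool.Agent.Lib.MP_1a3405_co.BP

open Pool.Agent.Lib.MP_1a3405_co Pool.Agent.Lib.MP_1a3405_co.Ord

theorem mP_ge {D r : ℕ} (hr : 3 ≤ r) (hrD : r ≤ D + 1) :
    2 ≤ mP D r ∧ 2 * D + 3 - r ≤ 2 * mP D r := by
  unfold mP mO mE
  split_ifs <;> omega

private theorem linPat_per {D m : ℕ} {g : Fin D → ℤ} {A : ℤ → Prop} (y z : Fin D → ℤ)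
    (h : ∀ j, (m : ℤ) ∣ y j - z j) : LinPat m g A y ↔ LinPat m g A z := by
  have h1 : (∑ i, g i * y i) % (m : ℤ) = (∑ i, g i * z i) % (m : ℤ) := by
    rw [← Int.ModEq, Int.modEq_comm, Int.modEq_iff_dvd, ← Finset.sum_sub_distrib]
    refine Finset.dvd_sum fun i _ => ?_
    rw [← mul_sub]
    exact Dvd.dvd.mul_left (h i) _
  unfold LinPat
  rw [h1]

theorem pat_per {D r : ℕ} (y z : Fin D → ℤ) (h : ∀ j, (mP D r : ℤ) ∣ y j - z j) :
    Pat D r y ↔ Pat D r z := by
  unfold Pat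
  unfold mP at h
  split_ifs with h2
  · rw [if_pos h2] at h
    exact linPat_per y z h
  · rw [if_neg h2] at h
    exact linPat_per y z h

theorem pat_up {D r : ℕ} (hr : 3 ≤ r) (hrD : r ≤ D + 1) (y : Fin D → ℤ) (h : Pat D r y) :
    {i : Fin D | Pat D r (nb y (i, true))}.ncard = r - 2 := by
  by_cases h2 : r % 2 = 1
  · simp only [Pat, if_pos h2] at h ⊢
    exact patO_up (by omega) h2 hrD y h
  · simp only [Pat, if_neg h2] at h ⊢
    exact patE_up (by omega) (by omega) hrD y h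

theorem pat_dn {D r : ℕ} (hr : 3 ≤ r) (hrD : r ≤ D + 1) (y : Fin D → ℤ) (h : Pat D r y) :
    {i : Fin D | Pat D r (nb y (i, false))}.ncard = r - 2 := by
  by_cases h2 : r % 2 = 1
  · simp only [Pat, if_pos h2] at h ⊢
    exact patO_dn (by omega) h2 hrD y h
  · simp only [Pat, if_neg h2] at h ⊢
    exact patE_dn (by omega) (by omega) hrD y h

theorem pat_out {D r : ℕ} (hr : 3 ≤ r) (hrD : r ≤ D + 1) (y : Fin D → ℤ) (h : ¬ Pat D r y) :
    cz (Pat D r) y ≤ r - 1 := by
  by_cases h2 : r % 2 = 1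
  · have e : Pat D r = LinPat (mO D r) (gO D r) (AO r) := by
      funext y; simp only [Pat, if_pos h2]
    rw [e] at h ⊢
    exact patO_out (by omega) h2 hrD y h
  · have e : Pat D r = LinPat (mE D r) (gE D r) (AE D r) := by
      funext y; simp only [Pat, if_neg h2]
    rw [e] at h ⊢
    exact patE_out (by omega) (by omega) hrD y h

/-- the density of the pattern is `(r - 1)/(2D + 3 - r)` (use `linPat_dens`) -/
theorem pat_dens {D r : ℕ} (hr : 3 ≤ r) (hrD : r ≤ D + 1) (β : ℕ) :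
    {y : Fin D → ℤ | Pat D r y ∧ ∀ j, 1 ≤ y j ∧ y j ≤ mP D r * β}.ncard * (2 * D + 3 - r) =
      (r - 1) * (mP D r * β) ^ D := by
  by_cases h2 : r % 2 = 1
  · have hm : mP D r = mO D r := by simp only [mP, if_pos h2]
    have e : Pat D r = LinPat (mO D r) (gO D r) (AO r) := by
      funext y; simp only [Pat, if_pos h2]
    have hmv : mO D r = D + 2 - (r + 1) / 2 := rfl
    have h1 := linPat_dens (mO D r) (by omega) (gO D r) (⟨0, by omega⟩ : Fin D)
      (by unfold gO; rw [if_pos (by show 0 + 1 < mO D r; omega)]; simp) (AO r)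
      (Finset.Icc 0 (((r - 3) / 2 : ℕ) : ℤ)) (by
        intro z
        unfold AO
        rw [Finset.mem_Icc]
        omega) β
    have hc : (Finset.Icc (0 : ℤ) (((r - 3) / 2 : ℕ) : ℤ)).card = (r - 1) / 2 := by
      rw [Int.card_Icc]
      omega
    rw [hc] at h1
    rw [hm, e]
    have e1 : 2 * D + 3 - r = mO D r * 2 := by omega
    have e2 : r - 1 = 2 * ((r - 1) / 2) := by omega
    rw [e1, ← mul_assoc, h1]
    conv_rhs => rw [e2]
    ring
  · have hm : mP D r = mE D r := by simp only [mP, if_neg h2]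
    have e : Pat D r = LinPat (mE D r) (gE D r) (AE D r) := by
      funext y; simp only [Pat, if_neg h2]
    have hmv : mE D r = 2 * D + 3 - r := rfl
    have h1 := linPat_dens (mE D r) (by omega) (gE D r) (⟨0, by omega⟩ : Fin D)
      (by unfold gE; rw [if_pos (by show 2 * (0 + 1) < mE D r; omega)]; simp) (AE D r)
      (Finset.Icc 0 ((r / 2 - 1 : ℕ) : ℤ) ∪
        Finset.Icc (((mE D r + 1) / 2 : ℕ) : ℤ) (((mE D r + r - 3) / 2 : ℕ) : ℤ)) (by
        intro z
        unfold AE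
        rw [Finset.mem_union, Finset.mem_Icc, Finset.mem_Icc]
        omega) β
    have hc : (Finset.Icc 0 ((r / 2 - 1 : ℕ) : ℤ) ∪
        Finset.Icc (((mE D r + 1) / 2 : ℕ) : ℤ) (((mE D r + r - 3) / 2 : ℕ) : ℤ)).card =
        r - 1 := by
      rw [Finset.card_union_of_disjoint, Int.card_Icc, Int.card_Icc]
      · omega
      · rw [Finset.disjoint_left]
        intro z hz hz'
        rw [Finset.mem_Icc] at hz hz'
        omega
    rw [hc] at h1
    rw [hm, e, ← hmv]
    exact h1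

end Pool.Agent.Lib.MP_1a3405_co.BP
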