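import Mathlib
import Pool.Agent.Lib.MP_1a3405_co.BP.Defs

/-!
# Rooms: definitions

The active fibres are the pattern fibres of `K` disjoint blocks (rooms) of side `B`, visited in
the order of a snake `ρ 0, …, ρ (K-1)` in `[0, q)^D` which ends at the origin. The room `k`
has the origin `org k = 6 m + Cs · ρ k` (`Cs = B + 14 m`), its block is `org k + [1, B]^D`, and
its fibres are `org k + u t`, `0 ≤ t < N`, where `u` enumerates the pattern in `[1, B]^D` in an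
order increasing along each axis. The number of the fibre `t` of the room `k` is `g = k N + t`.
-/

namespace Pool.Agent.Lib.MP_1a3405_co.BP

open Pool.Agent.Lib.MP_1a3405_co Pool.Agent.Lib.MP_1a3405_co.Ord

/-- the data of the rooms -/
structure Rooms (D r : ℕ) where
  /-- the pattern -/
  T : (Fin D → ℤ) → Prop
  /-- its period -/
  m : ℕ
  /-- side of the blocks -/
  B : ℤ
  /-- number of fibres of a room -/
  N : ℕ
  /-- the fibres of a block, in their order -/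
  u : ℕ → Fin D → ℤ
  /-- number of rooms in each direction -/
  q : ℕ
  /-- number of rooms -/
  K : ℕ
  /-- the snake -/
  ρ : ℕ → Fin D → ℤ
  hr : 3 ≤ r
  hrD : r ≤ D + 1
  hm : 1 ≤ m
  T_per : ∀ y z : Fin D → ℤ, (∀ j, (m : ℤ) ∣ y j - z j) → (T y ↔ T z)
  T_up : ∀ y, T y → {i : Fin D | T (nb y (i, true))}.ncard = r - 2
  T_dn : ∀ y, T y → {i : Fin D | T (nb y (i, false))}.ncard = r - 2
  T_out : ∀ y, ¬ T y → cz T y ≤ r - 1
  hB : (m : ℤ) ∣ B
  B_pos : 1 ≤ B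
  hN : 2 ≤ N
  u_box : ∀ t < N, ∀ j, 1 ≤ u t j ∧ u t j ≤ B
  u_T : ∀ t < N, T (u t)
  u_inj : ∀ s < N, ∀ t < N, u s = u t → s = t
  u_surj : ∀ y, T y → (∀ j, 1 ≤ y j ∧ y j ≤ B) → ∃ t < N, u t = y
  u_mono : ∀ s < N, ∀ t < N, ∀ i, u t = nb (u s) (i, true) → s < t
  K_pos : 1 ≤ K
  ρ_box : ∀ k < K, ∀ j, 0 ≤ ρ k j ∧ ρ k j < q
  ρ_inj : ∀ k < K, ∀ l < K, ρ k = ρ l → k = l
  ρ_step : ∀ k, k + 1 < K → ∃ δ, ρ (k + 1) = nb (ρ k) δ
  ρ_last : ρ (K - 1) = fun _ => 0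

namespace Rooms

variable {D r : ℕ} (R : Rooms D r)

/-- distance of the origins of neighbouring rooms -/
def Cs : ℤ := R.B + 14 * R.m

/-- the origin of a room -/
def org (k : ℕ) : Fin D → ℤ := fun j => 6 * R.m + R.Cs * R.ρ k j

/-- number of active fibres -/
def M : ℕ := R.K * R.N

/-- the room of a fibre -/
def rm (g : ℕ) : ℕ := g / R.N

/-- the number of a fibre inside its room -/
def ti (g : ℕ) : ℕ := g % R.N

/-- the active fibres -/
def v (g : ℕ) : Fin D → ℤ := fun j => R.org (R.rm g) j + R.u (R.ti g) j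

/-- the entry column of a room -/
def ent (k : ℕ) : ℤ := -6 * (R.N + 3 + (k % 2 : ℕ))

/-- entry columns -/
def e (g : ℕ) : ℤ := if R.ti g = 0 then R.ent (R.rm g) else -6 * (R.N + 2 - R.ti g)

/-- exit columns -/
def x (g : ℕ) : ℤ := -6 * (R.N + 1 - R.ti g)

/-- entry column of the faces -/
def eF : ℤ := -6 * (R.N + 4)

/-- exit column of the faces -/
def xF : ℤ := -6 * (R.N + 1)

/-- final column -/
def aF : ℤ := -6 * (R.N + 6)

/-- the face fibres -/
def F (y : Fin D → ℤ) : Prop :=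
  R.T y ∧ ∃ k < R.K, ∃ i, y i = R.org k i ∧ ∀ j, j ≠ i → R.org k j + 1 ≤ y j ∧
    y j ≤ R.org k j + R.B

/-- the point outside of the block where the column is changed -/
def o (k : ℕ) : Fin D → ℤ := fun j => R.org k j + R.B + 4

/-- the end of the final wire -/
def xs (_ : Rooms D r) : Fin D → ℤ := fun j => if (j : ℕ) < r - 1 then 2 else 1

/-- the region of the positions of the wire after the fibre `g`, inside a room -/
def RegI (g : ℕ) (p : Fin (D + 1) → ℤ) : Prop :=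
  p 0 = R.x g ∧ ∀ j : Fin D, R.org (R.rm g) j + 1 ≤ p j.succ ∧
    p j.succ ≤ R.org (R.rm g) j + R.B

/-- the region of the positions of the wire after the fibre `g`, the last one of the room `k`,
on the way to the room `k + 1` -/
def RegB (g : ℕ) (p : Fin (D + 1) → ℤ) : Prop :=
  (p 0 = -12 ∧ ∀ j : Fin D, R.org (R.rm g) j + 1 ≤ p j.succ ∧
    p j.succ ≤ R.org (R.rm g) j + R.B + 4) ∨
  (R.ent (R.rm g + 1) ≤ p 0 ∧ p 0 ≤ -12 ∧ ∀ j : Fin D, p j.succ = R.o (R.rm g) j) ∨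
  (p 0 = R.ent (R.rm g + 1) ∧ ∃ i s, R.ρ (R.rm g + 1) = nb (R.ρ (R.rm g)) (i, s) ∧
    ((p (Fin.succ i) = R.o (R.rm g) i ∧ ∀ j : Fin D, j ≠ i →
        R.org (R.rm g) j + 1 ≤ p j.succ ∧ p j.succ ≤ R.org (R.rm g) j + R.B + 4) ∨
     ((∀ j : Fin D, j ≠ i →
        R.org (R.rm g) j + 1 ≤ p j.succ ∧ p j.succ ≤ R.org (R.rm g) j + R.B) ∧
        min (R.org (R.rm g) i) (R.org (R.rm g + 1) i) + 1 ≤ p (Fin.succ i) ∧
        p (Fin.succ i) ≤ max (R.org (R.rm g) i) (R.org (R.rm g + 1) i) + R.B + 4)))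

/-- the region of the positions of the final wire -/
def RegF (g : ℕ) (p : Fin (D + 1) → ℤ) : Prop :=
  (p 0 = -12 ∧ ∀ j : Fin D, R.org (R.rm g) j + 1 ≤ p j.succ ∧
    p j.succ ≤ R.org (R.rm g) j + R.B + 4) ∨
  (R.aF ≤ p 0 ∧ p 0 ≤ -12 ∧ ∀ j : Fin D, p j.succ = R.o (R.rm g) j) ∨
  (p 0 = R.aF ∧ ∀ j : Fin D, R.xs j ≤ p j.succ ∧ p j.succ ≤ R.o (R.rm g) j)

/-- the region of the positions of the wire after the fibre `g` -/
def Reg (g : ℕ) (p : Fin (D + 1) → ℤ) : Prop :=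
  if R.ti g + 1 < R.N then R.RegI g p
  else if R.rm g + 1 < R.K then R.RegB g p
  else R.RegF g p

end Rooms

end Pool.Agent.Lib.MP_1a3405_co.BP
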