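import Mathlib
import Pool.Agent.Lib.MP_1a3405_co.BP.RDefs

/-!
Basic facts on the rooms: division with remainder by `N`; all origins are multiples of `m` and
the pattern has period `m`, so `T (org k + z) ↔ T z`; the origins of different rooms differ by at
least `Cs ≥ B + 14` in some coordinate.
-/

namespace Pool.Agent.Lib.MP_1a3405_co.BP

open Pool.Agent.Lib.MP_1a3405_co Pool.Agent.Lib.MP_1a3405_co.Ord

namespace Rooms

variable {D r : ℕ} (R : Rooms D r)

private theorem N_pos : 0 < R.N := by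
  have := R.hN
  omega

private theorem Cs_pos : 0 < R.Cs := by
  have h1 := R.B_pos
  have h2 : (0 : ℤ) ≤ R.m := Int.natCast_nonneg _
  unfold Cs
  omega

private theorem dvd_Cs : (R.m : ℤ) ∣ R.Cs := by
  unfold Cs
  exact dvd_add R.hB (Dvd.intro_left _ rfl)

theorem rm_lt {g : ℕ} (hg : g < R.M) : R.rm g < R.K := by
  unfold M at hg
  unfold rm
  rw [mul_comm] at hg
  exact Nat.div_lt_of_lt_mul hg

theorem ti_lt (g : ℕ) : R.ti g < R.N := Nat.mod_lt _ R.N_pos

theorem g_eq (g : ℕ) : g = R.rm g * R.N + R.ti g := (Nat.div_add_mod' g R.N).symm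

theorem rm_ti {k t : ℕ} (ht : t < R.N) : R.rm (k * R.N + t) = k ∧ R.ti (k * R.N + t) = t := by
  unfold rm ti
  constructor
  · rw [mul_comm, Nat.mul_add_div R.N_pos, Nat.div_eq_of_lt ht, add_zero]
  · rw [mul_comm, Nat.mul_add_mod, Nat.mod_eq_of_lt ht]

theorem lt_M {k t : ℕ} (hk : k < R.K) (ht : t < R.N) : k * R.N + t < R.M := by
  unfold M
  calc k * R.N + t < k * R.N + R.N := by omega
    _ = (k + 1) * R.N := by ring
    _ ≤ R.K * R.N := Nat.mul_le_mul_right _ hk

theorem T_org (k : ℕ) (z : Fin D → ℤ) : R.T (fun j => R.org k j + z j) ↔ R.T z := by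
  apply R.T_per
  intro j
  have h : R.org k j + z j - z j = 6 * R.m + R.Cs * R.ρ k j := by
    unfold org
    ring
  rw [h]
  exact dvd_add (Dvd.intro_left _ rfl) (Dvd.dvd.mul_right R.dvd_Cs _)

/-- origins of different rooms are far from each other in some coordinate -/
theorem org_far {k l : ℕ} (hk : k < R.K) (hl : l < R.K) (h : k ≠ l) :
    ∃ j, R.Cs ≤ |R.org k j - R.org l j| := by
  have h1 : R.ρ k ≠ R.ρ l := fun e => h (R.ρ_inj k hk l hl e)
  obtain ⟨j, hj⟩ := Function.ne_iff.1 h1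
  refine ⟨j, ?_⟩
  have h2 : R.org k j - R.org l j = R.Cs * (R.ρ k j - R.ρ l j) := by
    unfold org
    ring
  have h3 : (1 : ℤ) ≤ |R.ρ k j - R.ρ l j| := Int.one_le_abs (sub_ne_zero.2 hj)
  rw [h2, abs_mul, abs_of_pos R.Cs_pos]
  have h4 := R.Cs_pos
  nlinarith

/-- boxes -/
theorem org_box {k : ℕ} (hk : k < R.K) (j : Fin D) :
    6 ≤ R.org k j ∧ R.org k j + R.B + 14 ≤ 6 * R.m + R.Cs * R.q := by
  obtain ⟨h1, h2⟩ := R.ρ_box k hk j
  have hm : (1 : ℤ) ≤ R.m := by exact_mod_cast R.hm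
  have hC := R.Cs_pos
  have hCd : R.Cs = R.B + 14 * R.m := rfl
  unfold org
  constructor
  · nlinarith
  · have h3 : R.Cs * (R.ρ k j + 1) ≤ R.Cs * R.q := mul_le_mul_of_nonneg_left (by omega) hC.le
    nlinarith

end Rooms

end Pool.Agent.Lib.MP_1a3405_co.BP
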