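import Mathlib
import Pool.Agent.Lib.MP_1a3405_co.BP.ROrdA

/-!
The active fibres and the faces: order conditions of a `Plan`.

All origins are multiples of `m` and the pattern has period `m`, so
`T (org k + z) ↔ T z` (`T_org`). Neighbouring fibres belong to the same room: the origins of
different rooms differ by at least `Cs ≥ B + 14` in some coordinate.
`low`: for `v g - e_i` in the pattern with `g = k N + t`, the point `u t - e_i` of the pattern
has the coordinate `i` equal to `0` (then it is a face) or it is `u s` with `s < t` (`u_mono`),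
and `x (k N + s) = -6 (N + 1 - s) ≤ -6 (N + 2 - t) = e g`.
-/

namespace Pool.Agent.Lib.MP_1a3405_co.BP

open Pool.Agent.Lib.MP_1a3405_co Pool.Agent.Lib.MP_1a3405_co.Ord

namespace Rooms

variable {D r : ℕ} (R : Rooms D r)

private theorem nb_same (p : Fin D → ℤ) (i : Fin D) (s : Bool) :
    nb p (i, s) i = p i + (if s then 1 else -1) := by
  unfold nb
  simp

private theorem nb_other (p : Fin D → ℤ) {i j : Fin D} (s : Bool) (h : j ≠ i) :
    nb p (i, s) j = p j := by
  unfold nb
  simp [Function.update_of_ne h]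

private theorem Cs_ge : R.B + 14 ≤ R.Cs := by
  have h1 : (1 : ℤ) ≤ R.m := by exact_mod_cast R.hm
  unfold Cs
  omega

theorem v_inj : ∀ g < R.M, ∀ h < R.M, R.v g = R.v h → g = h := by
  intro g hg h hh hv
  have hj : ∀ j, R.org (R.rm g) j + R.u (R.ti g) j = R.org (R.rm h) j + R.u (R.ti h) j :=
    fun j => congrFun hv j
  by_cases hk : R.rm g = R.rm h
  · have hu : R.u (R.ti g) = R.u (R.ti h) := by
      funext j
      have := hj j
      rw [hk] at this
      exact add_left_cancel this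
    have ht := R.u_inj _ (R.ti_lt g) _ (R.ti_lt h) hu
    rw [R.g_eq g, R.g_eq h, hk, ht]
  · obtain ⟨j, hf⟩ := R.org_far (R.rm_lt hg) (R.rm_lt hh) hk
    have h1 := hj j
    obtain ⟨a1, a2⟩ := R.u_box _ (R.ti_lt g) j
    obtain ⟨b1, b2⟩ := R.u_box _ (R.ti_lt h) j
    have hC := R.Cs_ge
    rcases abs_cases (R.org (R.rm g) j - R.org (R.rm h) j) with ⟨e1, _⟩ | ⟨e1, _⟩ <;> omega

theorem v_T : ∀ g < R.M, R.T (R.v g) := by
  intro g _
  exact (R.T_org (R.rm g) (R.u (R.ti g))).2 (R.u_T _ (R.ti_lt g))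

theorem v_F : ∀ g < R.M, ¬ R.F (R.v g) := by
  rintro g hg ⟨_, k, hk, i, hi, hoth⟩
  have hvi : R.v g i = R.org (R.rm g) i + R.u (R.ti g) i := rfl
  obtain ⟨a1, a2⟩ := R.u_box _ (R.ti_lt g) i
  by_cases hkk : R.rm g = k
  · rw [hvi, hkk] at hi
    omega
  · obtain ⟨j, hf⟩ := R.org_far (R.rm_lt hg) hk hkk
    have hC := R.Cs_ge
    by_cases hji : j = i
    · subst hji
      rcases abs_cases (R.org (R.rm g) j - R.org k j) with ⟨e1, _⟩ | ⟨e1, _⟩ <;> omega
    · have hvj : R.v g j = R.org (R.rm g) j + R.u (R.ti g) j := rfl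
      obtain ⟨b1, b2⟩ := R.u_box _ (R.ti_lt g) j
      obtain ⟨c1, c2⟩ := hoth j hji
      rcases abs_cases (R.org (R.rm g) j - R.org k j) with ⟨e1, _⟩ | ⟨e1, _⟩ <;> omega

theorem low : ∀ g < R.M, ∀ i, R.T (nb (R.v g) (i, false)) →
    R.F (nb (R.v g) (i, false)) ∨ ∃ h < g, R.v h = nb (R.v g) (i, false) ∧ R.x h ≤ R.e g := by
  intro g hg i hT
  have hnb : nb (R.v g) (i, false) = fun j => R.org (R.rm g) j + nb (R.u (R.ti g)) (i, false) j := by
    funext j
    by_cases hji : j = i
    · subst hji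
      rw [nb_same, nb_same]
      show R.org (R.rm g) j + R.u (R.ti g) j + _ = _
      ring
    · rw [nb_other _ _ hji, nb_other _ _ hji]
      rfl
  have hTu : R.T (nb (R.u (R.ti g)) (i, false)) := by
    rw [hnb] at hT
    exact (R.T_org _ _).1 hT
  obtain ⟨a1, a2⟩ := R.u_box _ (R.ti_lt g) i
  by_cases h1 : R.u (R.ti g) i = 1
  · left
    refine ⟨hT, R.rm g, R.rm_lt hg, i, ?_, ?_⟩
    · rw [nb_same]
      show R.org (R.rm g) i + R.u (R.ti g) i + (if (false : Bool) = true then 1 else -1) = _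
      rw [h1]
      simp
    · intro j hji
      rw [nb_other _ _ hji]
      obtain ⟨b1, b2⟩ := R.u_box _ (R.ti_lt g) j
      show R.org (R.rm g) j + 1 ≤ R.org (R.rm g) j + R.u (R.ti g) j ∧
        R.org (R.rm g) j + R.u (R.ti g) j ≤ R.org (R.rm g) j + R.B
      omega
  · right
    have hbox : ∀ j, 1 ≤ nb (R.u (R.ti g)) (i, false) j ∧ nb (R.u (R.ti g)) (i, false) j ≤ R.B := by
      intro j
      by_cases hji : j = i
      · subst hji
        rw [nb_same]
        simp only [Bool.false_eq_true, if_false]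
        omega
      · rw [nb_other _ _ hji]
        exact R.u_box _ (R.ti_lt g) j
    obtain ⟨s, hs, hus⟩ := R.u_surj _ hTu hbox
    have hut : R.u (R.ti g) = nb (R.u s) (i, true) := by
      rw [hus]
      funext j
      by_cases hji : j = i
      · subst hji
        rw [nb_same, nb_same]
        simp
      · rw [nb_other _ _ hji, nb_other _ _ hji]
    have hst := R.u_mono s hs _ (R.ti_lt g) i hut
    have hrt := R.rm_ti (k := R.rm g) hs
    refine ⟨R.rm g * R.N + s, ?_, ?_, ?_⟩
    · conv_rhs => rw [R.g_eq g]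
      omega
    · rw [hnb]
      unfold v
      rw [hrt.1, hrt.2, hus]
    · unfold x e
      rw [hrt.2, if_neg (by omega)]
      have : (s : ℤ) + 1 ≤ (R.ti g : ℤ) := by exact_mod_cast hst
      omega

theorem up_F : ∀ g < R.M, ∀ i, ¬ R.F (nb (R.v g) (i, true)) := by
  rintro g hg i ⟨_, k, hk, i', hi, hoth⟩
  have hv : ∀ j, R.org (R.rm g) j + 1 ≤ nb (R.v g) (i, true) j ∧
      nb (R.v g) (i, true) j ≤ R.org (R.rm g) j + R.B + 1 := by
    intro j
    obtain ⟨b1, b2⟩ := R.u_box _ (R.ti_lt g) j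
    by_cases hji : j = i
    · subst hji
      rw [nb_same]
      show R.org (R.rm g) j + 1 ≤ R.org (R.rm g) j + R.u (R.ti g) j + (if (true : Bool) = true then 1 else -1) ∧
        R.org (R.rm g) j + R.u (R.ti g) j + (if (true : Bool) = true then 1 else -1) ≤ R.org (R.rm g) j + R.B + 1
      simp only [if_true]
      omega
    · rw [nb_other _ _ hji]
      show R.org (R.rm g) j + 1 ≤ R.org (R.rm g) j + R.u (R.ti g) j ∧
        R.org (R.rm g) j + R.u (R.ti g) j ≤ R.org (R.rm g) j + R.B + 1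
      omega
  by_cases hkk : R.rm g = k
  · have := hv i'
    rw [hi, hkk] at this
    omega
  · obtain ⟨j, hf⟩ := R.org_far (R.rm_lt hg) hk hkk
    have hC := R.Cs_ge
    obtain ⟨b1, b2⟩ := hv j
    by_cases hji : j = i'
    · subst hji
      rcases abs_cases (R.org (R.rm g) j - R.org k j) with ⟨e1, _⟩ | ⟨e1, _⟩ <;> omega
    · obtain ⟨c1, c2⟩ := hoth j hji
      rcases abs_cases (R.org (R.rm g) j - R.org k j) with ⟨e1, _⟩ | ⟨e1, _⟩ <;> omega

theorem ex : ∀ g < R.M, R.e g + 6 ≤ R.x g := by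
  intro g _
  have ht := R.ti_lt g
  unfold e x ent
  split_ifs with h0
  · rw [h0]
    omega
  · omega

theorem x_le : ∀ g < R.M, R.x g ≤ -12 := by
  intro g _
  have ht := R.ti_lt g
  unfold x
  omega

theorem eF_le : ∀ g < R.M, R.eF ≤ R.e g := by
  intro g _
  have ht := R.ti_lt g
  unfold e eF ent
  split_ifs with h0
  · omega
  · omega

theorem xF_le : ∀ g < R.M, R.xF ≤ R.x g := by
  intro g _
  unfold x xF
  omega

end Rooms

end Pool.Agent.Lib.MP_1a3405_co.BP
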