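import Mathlib
import Pool.Agent.Lib.MP_1a3405_co.BP.ROrdB

/-!
Faces, and the pattern fibres which are neither active nor faces.

* `F_one`: a face `y` of the room `k` has `y i = org k i` for one `i` and the other coordinates
  in the block; an active neighbour is in the same room (`org_far`), so it is `y + e_i`.
* `out_two`: if `y` (in the pattern, not active, not a face) has a neighbour `z` in the room `k`
  (active or face), all such neighbours are in the room `k`. Let `y' = y - org k`. Since `y'` is
  not in `[1, B]^D` and not a face, either some coordinate of `y'` is `< 0` or `> B` (then only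
  the neighbour in this direction can be in the room: at most one), or at least two coordinates
  of `y'` are `0` and the others are in `[1, B]`: if exactly two, `i` and `j`, only `y + e_i`,
  `y + e_j` are possible; if at least three, none.
-/

namespace Pool.Agent.Lib.MP_1a3405_co.BP

open Pool.Agent.Lib.MP_1a3405_co Pool.Agent.Lib.MP_1a3405_co.Ord

namespace Rooms

variable {D r : ℕ} (R : Rooms D r)

/-- `z` is in the room `k`, all coordinates except possibly `i` in the block -/
private def InR (k : ℕ) (i : Fin D) (z : Fin D → ℤ) : Prop :=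
  R.org k i ≤ z i ∧ z i ≤ R.org k i + R.B ∧
    ∀ j, j ≠ i → R.org k j + 1 ≤ z j ∧ z j ≤ R.org k j + R.B

private lemma inR_all {k : ℕ} {i : Fin D} {z : Fin D → ℤ} (h : InR R k i z) (j : Fin D) :
    R.org k j ≤ z j ∧ z j ≤ R.org k j + R.B := by
  by_cases hj : j = i
  · subst hj; exact ⟨h.1, h.2.1⟩
  · have := h.2.2 j hj
    exact ⟨by omega, this.2⟩

private lemma v_box' {g : ℕ} (j : Fin D) :
    R.org (R.rm g) j + 1 ≤ R.v g j ∧ R.v g j ≤ R.org (R.rm g) j + R.B := by
  have := R.u_box (R.ti g) (R.ti_lt g) j
  unfold v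
  constructor <;> omega

private lemma room_eq {k l : ℕ} (hk : k < R.K) (hl : l < R.K) {z z' : Fin D → ℤ}
    (hz : ∀ j, R.org k j ≤ z j ∧ z j ≤ R.org k j + R.B)
    (hz' : ∀ j, R.org l j ≤ z' j ∧ z' j ≤ R.org l j + R.B)
    (h : ∀ j, z j ≤ z' j + 2 ∧ z' j ≤ z j + 2) : k = l := by
  by_contra hne
  obtain ⟨j, hj⟩ := R.org_far hk hl hne
  have h1 := hz j
  have h2 := hz' j
  have h3 := h j
  have hm := R.hm
  have hm' : (1 : ℤ) ≤ (R.m : ℤ) := by exact_mod_cast hm
  unfold Cs at hj
  rcases abs_cases (R.org k j - R.org l j) with h4 | h4 <;> omega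

theorem F_one : ∀ y, R.F y → ∀ δ δ', (∃ g < R.M, R.v g = nb y δ) →
    (∃ g < R.M, R.v g = nb y δ') → δ = δ' := by
  rintro y ⟨-, k, hk, i, hi, hj⟩ δ δ' h h'
  have key : ∀ δ : Fin D × Bool, (∃ g < R.M, R.v g = nb y δ) → δ = (i, true) := by
    rintro ⟨j, s⟩ ⟨g, hg, hv⟩
    have hrm : R.rm g = k := by
      apply R.room_eq (R.rm_lt hg) hk (z := R.v g) (z' := y)
      · intro j
        have := R.v_box' (g := g) j
        exact ⟨by omega, this.2⟩
      · intro j
        by_cases h : j = i
        · subst h
          have := R.B_pos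
          omega
        · have := hj j h
          omega
      · intro j'
        rw [hv]
        have := nb_near y (j, s) j'
        omega
    have h1 := (R.v_box' (g := g) i).1
    rw [hrm, hv] at h1
    by_cases hji : i = j
    · subst hji
      rw [nb_self] at h1
      cases s
      · simp only [Bool.false_eq_true, if_false] at h1
        omega
      · rfl
    · rw [nb_other y s hji] at h1
      omega
  rw [key δ h, key δ' h']

/-- active fibres and faces are in a room -/
private lemma q_inR (hD : 0 < D) {z : Fin D → ℤ} (h : R.F z ∨ ∃ g < R.M, R.v g = z) :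
    ∃ k < R.K, ∃ i, InR R k i z := by
  rcases h with ⟨-, k, hk, i, hi, hj⟩ | ⟨g, hg, rfl⟩
  · have := R.B_pos
    exact ⟨k, hk, i, by omega, by omega, hj⟩
  · refine ⟨R.rm g, R.rm_lt hg, ⟨0, hD⟩, ?_, ?_, ?_⟩
    · have := R.v_box' (g := g) ⟨0, hD⟩; omega
    · have := R.v_box' (g := g) ⟨0, hD⟩; omega
    · intro j _; exact R.v_box' (g := g) j

private lemma not_inR {y : Fin D → ℤ} (hT : R.T y) (hF : ¬ R.F y) (hv : ∀ g < R.M, R.v g ≠ y)
    {k : ℕ} (hk : k < R.K) (i : Fin D) : ¬ InR R k i y := by
  rintro ⟨h1, h2, h3⟩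
  rcases h1.eq_or_lt with h4 | h4
  · exact hF ⟨hT, k, hk, i, h4.symm, h3⟩
  · have hall : ∀ j, R.org k j + 1 ≤ y j ∧ y j ≤ R.org k j + R.B := by
      intro j
      by_cases h : j = i
      · subst h; omega
      · exact h3 j h
    have hT' : R.T (fun j => y j - R.org k j) := by
      rw [← R.T_org k]
      convert hT using 2
      ring
    obtain ⟨t, ht, hu⟩ := R.u_surj _ hT' (fun j => by have := hall j; constructor <;> omega)
    refine hv (k * R.N + t) (R.lt_M hk ht) ?_
    funext j
    unfold v
    rw [(R.rm_ti ht).1, (R.rm_ti ht).2, hu]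
    ring

theorem out_two : ∀ y, R.T y → ¬ R.F y → (∀ g < R.M, R.v g ≠ y) →
    cz (fun z => R.F z ∨ ∃ g < R.M, R.v g = z) y ≤ 2 := by
  classical
  intro y hT hF hv
  have hD : 0 < D := by have := R.hr; have := R.hrD; omega
  by_cases hex : ∃ δ, (fun z => R.F z ∨ ∃ g < R.M, R.v g = z) (nb y δ)
  · obtain ⟨δ₀, hδ₀⟩ := hex
    obtain ⟨k, hk, i₀, hi₀⟩ := R.q_inR hD hδ₀
    -- the bad coordinates
    set Bd : Finset (Fin D) := Finset.univ.filter
      (fun j => ¬ (R.org k j + 1 ≤ y j ∧ y j ≤ R.org k j + R.B)) with hBd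
    have hmem : ∀ j, j ∈ Bd ↔ ¬ (R.org k j + 1 ≤ y j ∧ y j ≤ R.org k j + R.B) := by
      intro j; simp [hBd]
    have key : ∀ δ : Fin D × Bool, (R.F (nb y δ) ∨ ∃ g < R.M, R.v g = nb y δ) →
        ∃ i, InR R k i (nb y δ) := by
      intro δ hδ
      obtain ⟨l, hl, i, hi⟩ := R.q_inR hD hδ
      have : k = l := by
        apply R.room_eq hk hl (z := nb y δ₀) (z' := nb y δ) (R.inR_all hi₀) (R.inR_all hi)
        intro j
        have := nb_near y δ₀ j
        have := nb_near y δ j
        omega
      subst this
      exact ⟨i, hi⟩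
    have claim1 : ∀ δ : Fin D × Bool, (R.F (nb y δ) ∨ ∃ g < R.M, R.v g = nb y δ) →
        δ ∈ Bd.image (fun j => (j, decide (y j ≤ R.org k j))) := by
      rintro ⟨i, s⟩ hδ
      obtain ⟨i1, hi1⟩ := key _ hδ
      have hiB : i ∈ Bd := by
        rw [hmem]
        intro hgood
        apply R.not_inR hT hF hv hk i1
        refine ⟨?_, ?_, ?_⟩
        · by_cases h : i1 = i
          · subst h; omega
          · have := hi1.1; rwa [nb_other y s h] at this
        · by_cases h : i1 = i
          · subst h; omega
          · have := hi1.2.1; rwa [nb_other y s h] at this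
        · intro j hj
          by_cases h : j = i
          · subst h; exact hgood
          · have := hi1.2.2 j hj; rwa [nb_other y s h] at this
      rw [Finset.mem_image]
      refine ⟨i, hiB, ?_⟩
      rw [Prod.mk.injEq]
      refine ⟨rfl, ?_⟩
      have h1 := R.inR_all hi1 i
      rw [nb_self] at h1
      rw [hmem] at hiB
      have hB := R.B_pos
      cases s
      · simp only [Bool.false_eq_true, if_false] at h1
        rw [decide_eq_false_iff_not]
        omega
      · simp only [if_true] at h1
        rw [decide_eq_true_iff]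
        omega
    have claim2 : Bd.card ≤ 2 := by
      have : Bd ⊆ {δ₀.1, i₀} := by
        intro j hj
        rw [hmem] at hj
        rw [Finset.mem_insert, Finset.mem_singleton]
        by_contra hcon
        push Not at hcon
        apply hj
        have := hi₀.2.2 j hcon.2
        obtain ⟨i, s⟩ := δ₀
        rwa [nb_other y s hcon.1] at this
      exact (Finset.card_le_card this).trans Finset.card_le_two
    calc cz (fun z => R.F z ∨ ∃ g < R.M, R.v g = z) y
        ≤ (Bd.image (fun j => (j, decide (y j ≤ R.org k j)))).card := cz_le_of_subset _ claim1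
      _ ≤ Bd.card := Finset.card_image_le
      _ ≤ 2 := claim2
  · rw [cz_eq_zero (fun δ hδ => hex ⟨δ, hδ⟩)]
    omega

end Rooms

end Pool.Agent.Lib.MP_1a3405_co.BP
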