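import Mathlib
import Pool.Agent.Lib.MP_1a3405_co.BP.ROrdA

/-!
Separation of cells and edges of the snake. `InCell k p`: `p ∈ org k + [0, B+4]^D`;
`InHull k p`: `p` in the bounding box of the cells `k` and `k + 1`. The origins are
`6 m + Cs · ρ` with `Cs ≥ B + 14`, so if all coordinates of `p`, `q` differ by less than `4`,
then in each coordinate the intervals of lattice points `[ρ k j, ρ (k+1) j]` must intersect;
two edges (or an edge and a point) of the lattice whose bounding boxes intersect have a common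
end point (`ρ_step`, `ρ_inj`).
-/

namespace Pool.Agent.Lib.MP_1a3405_co.BP

open Pool.Agent.Lib.MP_1a3405_co Pool.Agent.Lib.MP_1a3405_co.Ord

namespace Rooms

variable {D r : ℕ} (R : Rooms D r)

/-- two edges or points of the lattice whose bounding boxes intersect have a common end point -/
private theorem lattice_meet {a a' c c' : Fin D → ℤ} {i i' : Fin D}
    (ha : ∀ j, j ≠ i → a' j = a j) (ha' : a' i ≤ a i + 1 ∧ a i ≤ a' i + 1)
    (hc : ∀ j, j ≠ i' → c' j = c j) (hc' : c' i' ≤ c i' + 1 ∧ c i' ≤ c' i' + 1)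
    (hj : ∀ j, (a j ≤ c j ∨ a j ≤ c' j ∨ a' j ≤ c j ∨ a' j ≤ c' j) ∧
      (c j ≤ a j ∨ c j ≤ a' j ∨ c' j ≤ a j ∨ c' j ≤ a' j)) :
    a = c ∨ a = c' ∨ a' = c ∨ a' = c' := by
  by_cases h : i = i'
  · subst h
    have hne : ∀ j, j ≠ i → a j = c j := by
      intro j hji
      have h1 := hj j
      rw [ha j hji, hc j hji] at h1
      omega
    have hi := hj i
    have h4 : a i = c i ∨ a i = c' i ∨ a' i = c i ∨ a' i = c' i := by omega
    rcases h4 with h4 | h4 | h4 | h4
    · left
      funext j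
      by_cases hji : j = i
      · rw [hji, h4]
      · exact hne j hji
    · right; left
      funext j
      by_cases hji : j = i
      · rw [hji, h4]
      · rw [hc j hji]
        exact hne j hji
    · right; right; left
      funext j
      by_cases hji : j = i
      · rw [hji, h4]
      · rw [ha j hji]
        exact hne j hji
    · right; right; right
      funext j
      by_cases hji : j = i
      · rw [hji, h4]
      · rw [ha j hji, hc j hji]
        exact hne j hji
  · have hne : ∀ j, j ≠ i → j ≠ i' → a j = c j := by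
      intro j hji hji'
      have h1 := hj j
      rw [ha j hji, hc j hji'] at h1
      omega
    have e1 : c' i = c i := hc i h
    have e2 : a' i' = a i' := ha i' (Ne.symm h)
    have hi : a i = c i ∨ a' i = c i := by
      have h1 := hj i
      rw [e1] at h1
      omega
    have hi' : c i' = a i' ∨ c' i' = a i' := by
      have h1 := hj i'
      rw [e2] at h1
      omega
    rcases hi with hi | hi <;> rcases hi' with hi' | hi'
    · left
      funext j
      by_cases hji : j = i
      · rw [hji, hi]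
      · by_cases hji' : j = i'
        · rw [hji', hi']
        · exact hne j hji hji'
    · right; left
      funext j
      by_cases hji : j = i
      · rw [hji, hi, e1]
      · by_cases hji' : j = i'
        · rw [hji', hi']
        · rw [hc j hji']
          exact hne j hji hji'
    · right; right; left
      funext j
      by_cases hji : j = i
      · rw [hji, hi]
      · rw [ha j hji]
        by_cases hji' : j = i'
        · rw [hji', hi']
        · exact hne j hji hji'
    · right; right; right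
      funext j
      by_cases hji : j = i
      · rw [hji, hi, e1]
      · rw [ha j hji]
        by_cases hji' : j = i'
        · rw [hji', hi']
        · rw [hc j hji']
          exact hne j hji hji'

/-- the cell of a room -/
def InCell (k : ℕ) (p : Fin D → ℤ) : Prop :=
  ∀ j, R.org k j ≤ p j ∧ p j ≤ R.org k j + R.B + 4

/-- the bounding box of two consecutive cells -/
def InHull (k : ℕ) (p : Fin D → ℤ) : Prop :=
  ∀ j, min (R.org k j) (R.org (k + 1) j) ≤ p j ∧
    p j ≤ max (R.org k j) (R.org (k + 1) j) + R.B + 4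

private theorem cs_pos : 1 ≤ R.Cs ∧ R.B + 14 ≤ R.Cs := by
  have h1 := R.hm
  have h2 := R.B_pos
  unfold Cs
  have h3 : (1 : ℤ) ≤ R.m := by exact_mod_cast h1
  constructor <;> linarith

/-- the step of the snake, coordinate by coordinate -/
private theorem step_coord {k : ℕ} (hk : k + 1 < R.K) :
    ∃ i, (∀ j, j ≠ i → R.ρ (k + 1) j = R.ρ k j) ∧
      (R.ρ (k + 1) i ≤ R.ρ k i + 1 ∧ R.ρ k i ≤ R.ρ (k + 1) i + 1) := by
  obtain ⟨⟨i, s⟩, h⟩ := R.ρ_step k hk
  refine ⟨i, fun j hj => ?_, ?_⟩
  · rw [h]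
    exact nb_other _ s hj
  · have h1 := nb_near (R.ρ k) (i, s) i
    rw [← h] at h1
    omega

/-- if two points are near, the scaled intervals intersect -/
private theorem le_of_near {a c p q : ℤ} (h1 : 6 * (R.m : ℤ) + R.Cs * a ≤ p)
    (h2 : q ≤ 6 * (R.m : ℤ) + R.Cs * c + R.B + 4) (h3 : |p - q| < 4) : a ≤ c := by
  by_contra hlt
  have h4 : c + 1 ≤ a := by omega
  obtain ⟨h5, h6⟩ := R.cs_pos
  have h7 : R.Cs * (c + 1) ≤ R.Cs * a := mul_le_mul_of_nonneg_left h4 (by linarith)
  have h8 := abs_lt.1 h3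
  have h9 : R.Cs * (c + 1) = R.Cs * c + R.Cs := by ring
  linarith [h8.1, h8.2]

private theorem hull_bd {k : ℕ} {p : Fin D → ℤ} (hp : R.InHull k p) (j : Fin D) :
    (6 * (R.m : ℤ) + R.Cs * R.ρ k j ≤ p j ∨ 6 * (R.m : ℤ) + R.Cs * R.ρ (k + 1) j ≤ p j) ∧
      (p j ≤ 6 * (R.m : ℤ) + R.Cs * R.ρ k j + R.B + 4 ∨
        p j ≤ 6 * (R.m : ℤ) + R.Cs * R.ρ (k + 1) j + R.B + 4) := by
  obtain ⟨h1, h2⟩ := hp j
  unfold org at h1 h2
  constructor
  · rcases min_choice (6 * (R.m : ℤ) + R.Cs * R.ρ k j) (6 * (R.m : ℤ) + R.Cs * R.ρ (k + 1) j)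
      with h | h
    · rw [h] at h1
      exact Or.inl h1
    · rw [h] at h1
      exact Or.inr h1
  · rcases max_choice (6 * (R.m : ℤ) + R.Cs * R.ρ k j) (6 * (R.m : ℤ) + R.Cs * R.ρ (k + 1) j)
      with h | h
    · rw [h] at h2
      exact Or.inl h2
    · rw [h] at h2
      exact Or.inr h2

theorem far_cell_cell {k l : ℕ} (hk : k < R.K) (hl : l < R.K) (h : k ≠ l) {p q : Fin D → ℤ}
    (hp : R.InCell k p) (hq : R.InCell l q) : ∃ j, 4 ≤ |p j - q j| := by
  by_contra hno
  push Not at hno
  apply h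
  apply R.ρ_inj k hk l hl
  funext j
  obtain ⟨p1, p2⟩ := hp j
  obtain ⟨q1, q2⟩ := hq j
  have h3 := hno j
  have h4 : |q j - p j| < 4 := by
    rw [abs_sub_comm]
    exact h3
  exact le_antisymm (R.le_of_near p1 q2 h3) (R.le_of_near q1 p2 h4)

theorem far_hull_cell {k l : ℕ} (hk : k + 1 < R.K) (hl : l < R.K) (h : l ≠ k)
    (h' : l ≠ k + 1) {p q : Fin D → ℤ} (hp : R.InHull k p) (hq : R.InCell l q) :
    ∃ j, 4 ≤ |p j - q j| := by
  by_contra hno
  push Not at hno
  obtain ⟨i, ha, ha'⟩ := R.step_coord hk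
  have key : R.ρ k = R.ρ l ∨ R.ρ k = R.ρ l ∨ R.ρ (k + 1) = R.ρ l ∨ R.ρ (k + 1) = R.ρ l := by
    refine lattice_meet (i := i) (i' := i) ha ha' (fun _ _ => rfl) (by omega) (fun j => ?_)
    obtain ⟨p1, p2⟩ := R.hull_bd hp j
    obtain ⟨q1, q2⟩ := hq j
    have h3 := hno j
    have h4 : |q j - p j| < 4 := by
      rw [abs_sub_comm]
      exact h3
    constructor
    · rcases p1 with p1 | p1
      · exact Or.inl (R.le_of_near p1 q2 h3)
      · exact Or.inr (Or.inr (Or.inl (R.le_of_near p1 q2 h3)))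
    · rcases p2 with p2 | p2
      · exact Or.inl (R.le_of_near q1 p2 h4)
      · exact Or.inr (Or.inl (R.le_of_near q1 p2 h4))
  rcases key with e | e | e | e
  · exact h (R.ρ_inj k (by omega) l hl e).symm
  · exact h (R.ρ_inj k (by omega) l hl e).symm
  · exact h' (R.ρ_inj (k + 1) hk l hl e).symm
  · exact h' (R.ρ_inj (k + 1) hk l hl e).symm

theorem far_hull_hull {k l : ℕ} (hk : k + 1 < R.K) (hl : l + 1 < R.K) (h : k ≠ l)
    (h' : k ≠ l + 1) (h'' : k + 1 ≠ l) {p q : Fin D → ℤ} (hp : R.InHull k p)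
    (hq : R.InHull l q) : ∃ j, 4 ≤ |p j - q j| := by
  by_contra hno
  push Not at hno
  obtain ⟨i, ha, ha'⟩ := R.step_coord hk
  obtain ⟨i', hc, hc'⟩ := R.step_coord hl
  have key : R.ρ k = R.ρ l ∨ R.ρ k = R.ρ (l + 1) ∨ R.ρ (k + 1) = R.ρ l ∨
      R.ρ (k + 1) = R.ρ (l + 1) := by
    refine lattice_meet (i := i) (i' := i') ha ha' hc hc' (fun j => ?_)
    obtain ⟨p1, p2⟩ := R.hull_bd hp j
    obtain ⟨q1, q2⟩ := R.hull_bd hq j
    have h3 := hno j
    have h4 : |q j - p j| < 4 := by
      rw [abs_sub_comm]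
      exact h3
    constructor
    · rcases p1 with p1 | p1 <;> rcases q2 with q2 | q2
      · exact Or.inl (R.le_of_near p1 q2 h3)
      · exact Or.inr (Or.inl (R.le_of_near p1 q2 h3))
      · exact Or.inr (Or.inr (Or.inl (R.le_of_near p1 q2 h3)))
      · exact Or.inr (Or.inr (Or.inr (R.le_of_near p1 q2 h3)))
    · rcases q1 with q1 | q1 <;> rcases p2 with p2 | p2
      · exact Or.inl (R.le_of_near q1 p2 h4)
      · exact Or.inr (Or.inl (R.le_of_near q1 p2 h4))
      · exact Or.inr (Or.inr (Or.inl (R.le_of_near q1 p2 h4)))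
      · exact Or.inr (Or.inr (Or.inr (R.le_of_near q1 p2 h4)))
  rcases key with e | e | e | e
  · exact h (R.ρ_inj k (by omega) l (by omega) e)
  · exact h' (R.ρ_inj k (by omega) (l + 1) hl e)
  · exact h'' (R.ρ_inj (k + 1) hk l (by omega) e)
  · have := R.ρ_inj (k + 1) hk (l + 1) hl e
    omega

end Rooms

end Pool.Agent.Lib.MP_1a3405_co.BP
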