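import Mathlib
import Pool.Agent.Lib.MP_1a3405_co.BP.RFarA

/-!
The regions of different wires are far from each other, and far from the start position.

All columns except those of the horizontal parts (`p` at `o k`, between `ent (k+1)` resp. `aF`
and `-12`) are multiples of `6`: `x g = -6 (N + 1 - t)` inside the rooms (`t + 1 < N`), `-12`
(first part of the way between the rooms), `ent k ∈ {-6 (N+3), -6 (N+4)}` and `aF`. If the
columns differ they differ by `≥ 6`. Otherwise:
* inside / inside: same `t`, so different rooms: `far_cell_cell`;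
* column `-12` / column `-12`: different rooms;
* horizontal `k` / inside, `-12` or horizontal: in the same room `o k = org k + B + 4` against
  `≤ org k + B`, in different rooms `far_cell_cell`;
* horizontal `k` / column `ent (l + 1)` (`k ≠ l`): first part: cell `l`; second part: if
  `k = l + 1` use a coordinate `j ≠ i` (`D ≥ 2`): `≤ org l j + B` against `org k j + B + 4`
  with `org k j = org l j`; if `k ≠ l, l + 1`: `far_hull_cell`;
* `ent (k + 1)` / `ent (l + 1)`: `k`, `l` have the same parity, so `far_hull_hull`.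
The start `(e 0; v 0)`, `e 0 = -6 (N + 3)`: against `ent (k + 1)` with `k + 1` even (so `k ≥ 1`)
use `far_hull_cell`; against the horizontal part at `o k` as above.
-/

namespace Pool.Agent.Lib.MP_1a3405_co.BP

open Pool.Agent.Lib.MP_1a3405_co Pool.Agent.Lib.MP_1a3405_co.Ord

namespace Rooms

variable {D r : ℕ} (R : Rooms D r)

private theorem rfb_lt {g : ℕ} (hg : g < R.M) : R.rm g < R.K := by
  unfold Rooms.rm
  unfold Rooms.M at hg
  exact Nat.div_lt_of_lt_mul (by rw [Nat.mul_comm]; exact hg)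

private theorem rfb_ne {g h : ℕ} (hne : g ≠ h) (ht : R.ti g = R.ti h) : R.rm g ≠ R.rm h := by
  intro hr
  apply hne
  unfold Rooms.rm at hr
  unfold Rooms.ti at ht
  rw [← Nat.div_add_mod g R.N, ← Nat.div_add_mod h R.N, hr, ht]

/-- two points of different cells -/
private theorem rfb_cells {k l : ℕ} (hk : k < R.K) (hl : l < R.K) (h : k ≠ l)
    {p q : Fin (D + 1) → ℤ}
    (hp : ∀ j : Fin D, R.org k j ≤ p j.succ ∧ p j.succ ≤ R.org k j + R.B + 4)
    (hq : ∀ j : Fin D, R.org l j ≤ q j.succ ∧ q j.succ ≤ R.org l j + R.B + 4) :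
    ∃ i, 4 ≤ |p i - q i| := by
  obtain ⟨j, hj⟩ := R.far_cell_cell hk hl h (p := fun j => p j.succ) (q := fun j => q j.succ) hp hq
  exact ⟨j.succ, hj⟩

/-- a point of a block and the corner of a cell -/
private theorem rfb_corner {k l : ℕ} (hk : k < R.K) (hl : l < R.K) {p q : Fin (D + 1) → ℤ}
    (hp : ∀ j : Fin D, R.org k j + 1 ≤ p j.succ ∧ p j.succ ≤ R.org k j + R.B)
    (hq : ∀ j : Fin D, q j.succ = R.o l j) : ∃ i, 4 ≤ |p i - q i| := by
  have hB := R.B_pos
  by_cases h : k = l
  · subst h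
    have hr := R.hr
    have hrD := R.hrD
    obtain ⟨j⟩ : Nonempty (Fin D) := ⟨⟨0, by omega⟩⟩
    refine ⟨j.succ, ?_⟩
    have h1 := (hp j).2
    have h2 := hq j
    unfold Rooms.o at h2
    rw [h2, le_abs]
    right
    linarith
  · refine R.rfb_cells hk hl h (fun j => ?_) (fun j => ?_)
    · have := hp j
      constructor <;> linarith [this.1, this.2]
    · have := hq j
      unfold Rooms.o at this
      constructor <;> linarith

private theorem rfb_col {n : ℕ} {p q : Fin (n + 1) → ℤ} (h : 4 ≤ |p 0 - q 0|) :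
    ∃ i, 4 ≤ |p i - q i| := ⟨0, h⟩

theorem far_II {g h : ℕ} (hg : g < R.M) (hh : h < R.M) (hne : g ≠ h)
    (tg : R.ti g + 1 < R.N) (th : R.ti h + 1 < R.N)
    {p q : Fin (D + 1) → ℤ} (hp : R.RegI g p) (hq : R.RegI h q) : ∃ i, 4 ≤ |p i - q i| := by
  have hp0 := hp.1
  have hq0 := hq.1
  unfold Rooms.x at hp0 hq0
  by_cases ht : R.ti g = R.ti h
  · have hr := R.rfb_ne hne ht
    have hB := R.B_pos
    refine R.rfb_cells (R.rfb_lt hg) (R.rfb_lt hh) hr (fun j => ?_) (fun j => ?_)
    · have := hp.2 j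
      constructor <;> linarith [this.1, this.2]
    · have := hq.2 j
      constructor <;> linarith [this.1, this.2]
  · refine rfb_col ?_
    rw [hp0, hq0, le_abs]
    rcases Nat.lt_or_gt_of_ne ht with h | h
    · right
      omega
    · left
      omega

theorem far_IB {g h : ℕ} (hg : g < R.M) (hh : h < R.M)
    (tg : R.ti g + 1 < R.N) (th : R.ti h + 1 = R.N) (kh : R.rm h + 1 < R.K)
    {p q : Fin (D + 1) → ℤ} (hp : R.RegI g p) (hq : R.RegB h q) : ∃ i, 4 ≤ |p i - q i| := by
  have hp0 := hp.1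
  unfold Rooms.x at hp0
  rcases hq with hq | hq | hq
  · refine rfb_col ?_
    rw [hp0, hq.1, le_abs]
    right
    omega
  · exact R.rfb_corner (R.rfb_lt hg) (R.rfb_lt hh) hp.2 hq.2.2
  · refine rfb_col ?_
    have hq0 := hq.1
    unfold Rooms.ent at hq0
    rw [hp0, hq0, le_abs]
    left
    omega

theorem far_IF {g h : ℕ} (hg : g < R.M) (hh : h < R.M)
    (tg : R.ti g + 1 < R.N) (th : R.ti h + 1 = R.N) (kh : R.rm h + 1 = R.K)
    {p q : Fin (D + 1) → ℤ} (hp : R.RegI g p) (hq : R.RegF h q) : ∃ i, 4 ≤ |p i - q i| := by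
  have hp0 := hp.1
  unfold Rooms.x at hp0
  rcases hq with hq | hq | hq
  · refine rfb_col ?_
    rw [hp0, hq.1, le_abs]
    right
    omega
  · exact R.rfb_corner (R.rfb_lt hg) (R.rfb_lt hh) hp.2 hq.2.2
  · refine rfb_col ?_
    have hq0 := hq.1
    unfold Rooms.aF at hq0
    rw [hp0, hq0, le_abs]
    left
    omega

end Rooms

end Pool.Agent.Lib.MP_1a3405_co.BP
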