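import Mathlib
import Pool.Agent.Lib.MP_1a3405_co.BP.RFarA

/-!
(This file: two wires between rooms.) The regions of different wires are far from each other, and far from the start position.

All columns except those of the horizontal parts (`p` at `o k`, between `ent (k+1)` resp. `aF`
and `-12`) are multiples of `6`: `x g = -6 (N + 1 - t)` inside the rooms (`t + 1 < N`), `-12`
(first part of the way between the rooms), `ent k ∈ {-6 (N+3), -6 (N+4)}` and `aF`. If the
columns differ they differ by `≥ 6`. Otherwise: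
* inside / inside: same `t`, so different rooms: `far_cell_cell`;
* column `-12` / column `-12`: different rooms;
* horizontal `k` / inside, `-12` or horizontal: in the same room `o k = org k + B + 4` against
  `≤ org k + B`, in different rooms `far_cell_cell`;
* horizontal `k` / column `ent (l + 1)` (`k ≠ l`): first part: cell `l`; second part: if
  `k = l + 1` use a coordinate `j ≠ i` (`D ≥ 2`): `≤ org l j + B` against `org k j + B + 4`
  with `org k j = org l j`; if `k ≠ l, l + 1`: `far_hull_cell`;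
* `ent (k + 1)` / `ent (l + 1)`: `k`, `l` have the same parity, so `far_hull_hull`.
The start `(e 0; v 0)`, `e 0 = -6 (N + 3)`: against `ent (k + 1)` with `k + 1` even (so `k ≥ 1`)
use `far_hull_cell`; against the horizontal part at `o k` as above.
-/

namespace Pool.Agent.Lib.MP_1a3405_co.BP

open Pool.Agent.Lib.MP_1a3405_co Pool.Agent.Lib.MP_1a3405_co.Ord

namespace Rooms

variable {D r : ℕ} (R : Rooms D r)

/-- the fibre coordinates of a position -/
private def fc (p : Fin (D + 1) → ℤ) : Fin D → ℤ := fun j => p j.succ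

/-- weakened horizontal part of the region of the room `k` -/
private def PO (k : ℕ) (p : Fin (D + 1) → ℤ) : Prop := ∀ j : Fin D, fc p j = R.o k j

/-- weakened last part of the region of the room `k` -/
private def PH (k : ℕ) (p : Fin (D + 1) → ℤ) : Prop :=
  p 0 = R.ent (k + 1) ∧ R.InHull k (fc p) ∧
    (R.InCell k (fc p) ∨ ∃ i s, R.ρ (k + 1) = nb (R.ρ k) (i, s) ∧
      ∀ j : Fin D, j ≠ i → fc p j ≤ R.org k j + R.B)

private theorem cell_hull {k : ℕ} {p : Fin D → ℤ} (h : R.InCell k p) : R.InHull k p := by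
  intro j
  have h1 := h j
  constructor
  · exact (min_le_left _ _).trans h1.1
  · have := le_max_left (R.org k j) (R.org (k + 1) j)
    omega

private theorem po_cell {k : ℕ} {p : Fin (D + 1) → ℤ} (h : R.PO k p) : R.InCell k (fc p) := by
  intro j
  have hB := R.B_pos
  have h1 := h j
  rw [h1]
  unfold o
  constructor <;> omega

private theorem regB_cases {g : ℕ} {p : Fin (D + 1) → ℤ} (h : R.RegB g p) :
    (p 0 = -12 ∧ R.InCell (R.rm g) (fc p)) ∨ R.PO (R.rm g) p ∨ R.PH (R.rm g) p := by
  rcases h with ⟨h0, h1⟩ | ⟨-, -, h1⟩ | ⟨h0, i, s, hρ, h1⟩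
  · refine Or.inl ⟨h0, fun j => ?_⟩
    have := h1 j
    unfold fc
    omega
  · exact Or.inr (Or.inl h1)
  · refine Or.inr (Or.inr ⟨h0, ?_⟩)
    rcases h1 with ⟨hi, hj⟩ | ⟨hj, hi1, hi2⟩
    · have hc : R.InCell (R.rm g) (fc p) := by
        intro j
        by_cases hji : j = i
        · subst hji
          have hB := R.B_pos
          show R.org (R.rm g) j ≤ p j.succ ∧ p j.succ ≤ R.org (R.rm g) j + R.B + 4
          rw [hi]
          unfold o
          constructor <;> omega
        · have := hj j hji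
          unfold fc
          omega
      exact ⟨R.cell_hull hc, Or.inl hc⟩
    · refine ⟨fun j => ?_, Or.inr ⟨i, s, hρ, fun j hji => (hj j hji).2⟩⟩
      by_cases hji : j = i
      · subst hji
        show min (R.org (R.rm g) j) (R.org (R.rm g + 1) j) ≤ p j.succ ∧
          p j.succ ≤ max (R.org (R.rm g) j) (R.org (R.rm g + 1) j) + R.B + 4
        omega
      · have h2 := hj j hji
        have h3 := min_le_left (R.org (R.rm g) j) (R.org (R.rm g + 1) j)
        have h4 := le_max_left (R.org (R.rm g) j) (R.org (R.rm g + 1) j)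
        show min (R.org (R.rm g) j) (R.org (R.rm g + 1) j) ≤ p j.succ ∧
          p j.succ ≤ max (R.org (R.rm g) j) (R.org (R.rm g + 1) j) + R.B + 4
        omega

private theorem far_succ {p q : Fin (D + 1) → ℤ} (h : ∃ j, 4 ≤ |fc p j - fc q j|) :
    ∃ i, 4 ≤ |p i - q i| := by
  obtain ⟨j, hj⟩ := h
  exact ⟨j.succ, hj⟩

private theorem far_OH {k l : ℕ} (hk : k + 1 < R.K) (hl : l + 1 < R.K) (hkl : k ≠ l)
    {p q : Fin (D + 1) → ℤ} (hp : R.PO k p) (hq : R.PH l q) : ∃ j, 4 ≤ |fc p j - fc q j| := by
  obtain ⟨-, hh, hc | ⟨i, s, hρ, hle⟩⟩ := hq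
  · exact R.far_cell_cell (by omega) (by omega) hkl (R.po_cell hp) hc
  · by_cases e : k = l + 1
    · subst e
      have hD : 2 ≤ D := by
        have h1 := R.hr
        have h2 := R.hrD
        omega
      obtain ⟨j, hji⟩ : ∃ j : Fin D, j ≠ i := by
        by_cases h0 : (i : ℕ) = 0
        · exact ⟨⟨1, by omega⟩, fun h => by
            have := congrArg Fin.val h
            simp only at this
            omega⟩
        · exact ⟨⟨0, by omega⟩, fun h => by
            have := congrArg Fin.val h
            simp only at this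
            omega⟩
      refine ⟨j, ?_⟩
      have h1 := hle j hji
      have h2 := hp j
      have h3 : R.org (l + 1) j = R.org l j := by
        unfold org
        rw [hρ, nb_other _ s hji]
      have h4 : fc p j = R.org l j + R.B + 4 := by
        rw [h2]
        unfold o
        rw [h3]
      rw [h4, le_abs]
      left
      omega
    · obtain ⟨j, hj⟩ := R.far_hull_cell hl (by omega) hkl e hh (R.po_cell hp)
      exact ⟨j, by rwa [abs_sub_comm]⟩

private theorem ent_le (k : ℕ) : R.ent k ≤ -30 := by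
  have h := R.hN
  unfold ent
  have h1 : (2 : ℤ) ≤ (R.N : ℤ) := by exact_mod_cast h
  have h2 : (0 : ℤ) ≤ ((k % 2 : ℕ) : ℤ) := by positivity
  omega

private theorem far_CH {k l : ℕ} {p q : Fin (D + 1) → ℤ} (hp : p 0 = -12 ∧ R.InCell k (fc p))
    (hq : R.PH l q) : ∃ i, 4 ≤ |p i - q i| := by
  refine ⟨0, ?_⟩
  have h1 := R.ent_le (l + 1)
  rw [hp.1, hq.1, le_abs]
  left
  omega

private theorem far_HH {k l : ℕ} (hk : k + 1 < R.K) (hl : l + 1 < R.K) (hkl : k ≠ l)
    {p q : Fin (D + 1) → ℤ} (hp : R.PH k p) (hq : R.PH l q) : ∃ i, 4 ≤ |p i - q i| := by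
  by_cases hpar : (k + 1) % 2 = (l + 1) % 2
  · exact far_succ (R.far_hull_hull hk hl hkl (by omega) (by omega) hp.2.1 hq.2.1)
  · refine ⟨0, ?_⟩
    rw [hp.1, hq.1]
    unfold ent
    have h1 : (k + 1) % 2 = 0 ∨ (k + 1) % 2 = 1 := by omega
    have h2 : (l + 1) % 2 = 0 ∨ (l + 1) % 2 = 1 := by omega
    rcases h1 with h1 | h1 <;> rcases h2 with h2 | h2
    · exact absurd (h1.trans h2.symm) hpar
    · rw [h1, h2, le_abs]
      left
      push_cast
      omega
    · rw [h1, h2, le_abs]
      right
      push_cast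
      omega
    · exact absurd (h1.trans h2.symm) hpar

private theorem far_symm {p q : Fin (D + 1) → ℤ} (h : ∃ i, 4 ≤ |q i - p i|) :
    ∃ i, 4 ≤ |p i - q i| := by
  obtain ⟨i, hi⟩ := h
  exact ⟨i, by rwa [abs_sub_comm]⟩

theorem far_BB {g h : ℕ} (hg : g < R.M) (hh : h < R.M) (hne : g ≠ h)
    (tg : R.ti g + 1 = R.N) (th : R.ti h + 1 = R.N) (kg : R.rm g + 1 < R.K)
    (kh : R.rm h + 1 < R.K)
    {p q : Fin (D + 1) → ℤ} (hp : R.RegB g p) (hq : R.RegB h q) : ∃ i, 4 ≤ |p i - q i| := by
  have hkl : R.rm g ≠ R.rm h := by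
    intro e
    apply hne
    have htt : R.ti g = R.ti h := by omega
    rw [R.g_eq g, R.g_eq h, e, htt]
  have hp' := R.regB_cases hp
  have hq' := R.regB_cases hq
  have hk : R.rm g < R.K := by omega
  have hl : R.rm h < R.K := by omega
  rcases hp' with hp1 | hp1 | hp1 <;> rcases hq' with hq1 | hq1 | hq1
  · exact far_succ (R.far_cell_cell hk hl hkl hp1.2 hq1.2)
  · exact far_succ (R.far_cell_cell hk hl hkl hp1.2 (R.po_cell hq1))
  · exact R.far_CH hp1 hq1
  · exact far_succ (R.far_cell_cell hk hl hkl (R.po_cell hp1) hq1.2)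
  · exact far_succ (R.far_cell_cell hk hl hkl (R.po_cell hp1) (R.po_cell hq1))
  · exact far_succ (R.far_OH kg kh hkl hp1 hq1)
  · exact far_symm (R.far_CH hq1 hp1)
  · exact far_symm (far_succ (R.far_OH kh kg hkl.symm hq1 hp1))
  · exact R.far_HH kg kh hkl hp1 hq1

end Rooms

end Pool.Agent.Lib.MP_1a3405_co.BP
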