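import Mathlib
import Pool.Agent.Lib.MP_1a3405_co.BP.RFarB
import Pool.Agent.Lib.MP_1a3405_co.BP.RFarC

/-!
(This file: the remaining cases and the assembly.) The regions of different wires are far from each other, and far from the start position.

All columns except those of the horizontal parts (`p` at `o k`, between `ent (k+1)` resp. `aF`
and `-12`) are multiples of `6`: `x g = -6 (N + 1 - t)` inside the rooms (`t + 1 < N`), `-12`
(first part of the way between the rooms), `ent k ∈ {-6 (N+3), -6 (N+4)}` and `aF`. If the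
columns differ they differ by `≥ 6`. Otherwise:
* inside / inside: same `t`, so different rooms: `far_cell_cell`;
* column `-12` / column `-12`: different rooms;
* horizontal `k` / inside, `-12` or horizontal: in the same room `o k = org k + B + 4` against
  `≤ org k + B`, in different rooms `far_cell_cell`;
* horizontal `k` / column `ent (l + 1)` (`k ≠ l`): first part: cell `l`; second part: if
  `k = l + 1` use a coordinate `j ≠ i` (`D ≥ 2`): `≤ org l j + B` against `org k j + B + 4`
  with `org k j = org l j`; if `k ≠ l, l + 1`: `far_hull_cell`;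
* `ent (k + 1)` / `ent (l + 1)`: `k`, `l` have the same parity, so `far_hull_hull`.
The start `(e 0; v 0)`, `e 0 = -6 (N + 3)`: against `ent (k + 1)` with `k + 1` even (so `k ≥ 1`)
use `far_hull_cell`; against the horizontal part at `o k` as above.
-/

namespace Pool.Agent.Lib.MP_1a3405_co.BP

open Pool.Agent.Lib.MP_1a3405_co Pool.Agent.Lib.MP_1a3405_co.Ord

namespace Rooms

variable {D r : ℕ} (R : Rooms D r)

/-- the fibre coordinates of a position -/
private def fcD (p : Fin (D + 1) → ℤ) : Fin D → ℤ := fun j => p j.succ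

/-- weakened horizontal part of the region of the room `k` -/
private def POD (k : ℕ) (p : Fin (D + 1) → ℤ) : Prop := ∀ j : Fin D, fcD p j = R.o k j

/-- weakened last part of the region of the room `k` -/
private def PHD (k : ℕ) (p : Fin (D + 1) → ℤ) : Prop :=
  p 0 = R.ent (k + 1) ∧ R.InHull k (fcD p) ∧
    (R.InCell k (fcD p) ∨ ∃ i s, R.ρ (k + 1) = nb (R.ρ k) (i, s) ∧
      ∀ j : Fin D, j ≠ i → fcD p j ≤ R.org k j + R.B)

private theorem cell_hullD {k : ℕ} {p : Fin D → ℤ} (h : R.InCell k p) : R.InHull k p := by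
  intro j
  have h1 := h j
  constructor
  · exact (min_le_left _ _).trans h1.1
  · have := le_max_left (R.org k j) (R.org (k + 1) j)
    omega

private theorem po_cellD {k : ℕ} {p : Fin (D + 1) → ℤ} (h : R.POD k p) :
    R.InCell k (fcD p) := by
  intro j
  have hB := R.B_pos
  have h1 := h j
  rw [h1]
  unfold o
  constructor <;> omega

private theorem regB_casesD {g : ℕ} {p : Fin (D + 1) → ℤ} (h : R.RegB g p) :
    (p 0 = -12 ∧ R.InCell (R.rm g) (fcD p)) ∨
      (R.ent (R.rm g + 1) ≤ p 0 ∧ R.POD (R.rm g) p) ∨ R.PHD (R.rm g) p := by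
  rcases h with ⟨h0, h1⟩ | ⟨h0, -, h1⟩ | ⟨h0, i, s, hρ, h1⟩
  · refine Or.inl ⟨h0, fun j => ?_⟩
    have := h1 j
    unfold fcD
    omega
  · exact Or.inr (Or.inl ⟨h0, h1⟩)
  · refine Or.inr (Or.inr ⟨h0, ?_⟩)
    rcases h1 with ⟨hi, hj⟩ | ⟨hj, hi1, hi2⟩
    · have hc : R.InCell (R.rm g) (fcD p) := by
        intro j
        by_cases hji : j = i
        · subst hji
          have hB := R.B_pos
          show R.org (R.rm g) j ≤ p j.succ ∧ p j.succ ≤ R.org (R.rm g) j + R.B + 4
          rw [hi]
          unfold o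
          constructor <;> omega
        · have := hj j hji
          unfold fcD
          omega
      exact ⟨R.cell_hullD hc, Or.inl hc⟩
    · refine ⟨fun j => ?_, Or.inr ⟨i, s, hρ, fun j hji => (hj j hji).2⟩⟩
      by_cases hji : j = i
      · subst hji
        show min (R.org (R.rm g) j) (R.org (R.rm g + 1) j) ≤ p j.succ ∧
          p j.succ ≤ max (R.org (R.rm g) j) (R.org (R.rm g + 1) j) + R.B + 4
        omega
      · have h2 := hj j hji
        have h3 := min_le_left (R.org (R.rm g) j) (R.org (R.rm g + 1) j)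
        have h4 := le_max_left (R.org (R.rm g) j) (R.org (R.rm g + 1) j)
        show min (R.org (R.rm g) j) (R.org (R.rm g + 1) j) ≤ p j.succ ∧
          p j.succ ≤ max (R.org (R.rm g) j) (R.org (R.rm g + 1) j) + R.B + 4
        omega

private theorem regF_casesD {g : ℕ} {p : Fin (D + 1) → ℤ} (h : R.RegF g p) :
    (p 0 = -12 ∧ R.InCell (R.rm g) (fcD p)) ∨ R.POD (R.rm g) p ∨ p 0 = R.aF := by
  rcases h with ⟨h0, h1⟩ | ⟨-, -, h1⟩ | ⟨h0, -⟩
  · refine Or.inl ⟨h0, fun j => ?_⟩
    have := h1 j
    unfold fcD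
    omega
  · exact Or.inr (Or.inl h1)
  · exact Or.inr (Or.inr h0)

private theorem far_succD {p q : Fin (D + 1) → ℤ} (h : ∃ j, 4 ≤ |fcD p j - fcD q j|) :
    ∃ i, 4 ≤ |p i - q i| := by
  obtain ⟨j, hj⟩ := h
  exact ⟨j.succ, hj⟩

private theorem far_symmD {p q : Fin (D + 1) → ℤ} (h : ∃ i, 4 ≤ |q i - p i|) :
    ∃ i, 4 ≤ |p i - q i| := by
  obtain ⟨i, hi⟩ := h
  exact ⟨i, by rwa [abs_sub_comm]⟩

private theorem far_OHD {k l : ℕ} (hk : k < R.K) (hl : l + 1 < R.K) (hkl : k ≠ l)
    {p q : Fin (D + 1) → ℤ} (hp : R.POD k p) (hq : R.PHD l q) :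
    ∃ j, 4 ≤ |fcD p j - fcD q j| := by
  obtain ⟨-, hh, hc | ⟨i, s, hρ, hle⟩⟩ := hq
  · exact R.far_cell_cell hk (by omega) hkl (R.po_cellD hp) hc
  · by_cases e : k = l + 1
    · subst e
      have hD : 2 ≤ D := by
        have h1 := R.hr
        have h2 := R.hrD
        omega
      obtain ⟨j, hji⟩ : ∃ j : Fin D, j ≠ i := by
        by_cases h0 : (i : ℕ) = 0
        · exact ⟨⟨1, by omega⟩, fun h => by
            have := congrArg Fin.val h
            simp only at this
            omega⟩
        · exact ⟨⟨0, by omega⟩, fun h => by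
            have := congrArg Fin.val h
            simp only at this
            omega⟩
      refine ⟨j, ?_⟩
      have h1 := hle j hji
      have h2 := hp j
      have h3 : R.org (l + 1) j = R.org l j := by
        unfold org
        rw [hρ, nb_other _ s hji]
      have h4 : fcD p j = R.org l j + R.B + 4 := by
        rw [h2]
        unfold o
        rw [h3]
      rw [h4, le_abs]
      left
      omega
    · obtain ⟨j, hj⟩ := R.far_hull_cell hl hk hkl e hh (R.po_cellD hp)
      exact ⟨j, by rwa [abs_sub_comm]⟩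

private theorem ent_leD (k : ℕ) : R.ent k ≤ -30 ∧ R.aF + 12 ≤ R.ent k := by
  have h := R.hN
  unfold ent aF
  have h1 : (2 : ℤ) ≤ (R.N : ℤ) := by exact_mod_cast h
  have h2 : (0 : ℤ) ≤ ((k % 2 : ℕ) : ℤ) := by positivity
  have h3 : ((k % 2 : ℕ) : ℤ) ≤ 1 := by
    have : k % 2 ≤ 1 := by omega
    exact_mod_cast this
  constructor <;> omega

private theorem aF_leD : R.aF ≤ -48 := by
  have h := R.hN
  unfold aF
  have h1 : (2 : ℤ) ≤ (R.N : ℤ) := by exact_mod_cast h
  omega

theorem far_BF {g h : ℕ} (hg : g < R.M) (hh : h < R.M)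
    (tg : R.ti g + 1 = R.N) (th : R.ti h + 1 = R.N) (kg : R.rm g + 1 < R.K)
    (kh : R.rm h + 1 = R.K)
    {p q : Fin (D + 1) → ℤ} (hp : R.RegB g p) (hq : R.RegF h q) : ∃ i, 4 ≤ |p i - q i| := by
  have hk : R.rm g < R.K := by omega
  have hl : R.rm h < R.K := by omega
  have hkl : R.rm g ≠ R.rm h := by omega
  have hp' := R.regB_casesD hp
  have hq' := R.regF_casesD hq
  have e1 := R.ent_leD (R.rm g + 1)
  have e2 := R.aF_leD
  rcases hp' with hp1 | hp1 | hp1 <;> rcases hq' with hq1 | hq1 | hq1
  · exact far_succD (R.far_cell_cell hk hl hkl hp1.2 hq1.2)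
  · exact far_succD (R.far_cell_cell hk hl hkl hp1.2 (R.po_cellD hq1))
  · refine ⟨0, ?_⟩
    rw [hp1.1, hq1, le_abs]
    left
    omega
  · exact far_succD (R.far_cell_cell hk hl hkl (R.po_cellD hp1.2) hq1.2)
  · exact far_succD (R.far_cell_cell hk hl hkl (R.po_cellD hp1.2) (R.po_cellD hq1))
  · refine ⟨0, ?_⟩
    have := hp1.1
    rw [hq1, le_abs]
    left
    omega
  · refine ⟨0, ?_⟩
    rw [hp1.1, hq1.1, le_abs]
    right
    omega
  · exact far_symmD (far_succD (R.far_OHD hl kg hkl.symm hq1 hp1))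
  · refine ⟨0, ?_⟩
    rw [hp1.1, hq1, le_abs]
    left
    omega

theorem reg_far {g h : ℕ} (hg : g < R.M) (hh : h < R.M) (hne : g ≠ h)
    {p q : Fin (D + 1) → ℤ} (hp : R.Reg g p) (hq : R.Reg h q) : ∃ i, 4 ≤ |p i - q i| := by
  have ug := R.ti_lt g
  have uh := R.ti_lt h
  have vg := R.rm_lt hg
  have vh := R.rm_lt hh
  unfold Reg at hp hq
  by_cases tg : R.ti g + 1 < R.N
  · rw [if_pos tg] at hp
    by_cases th : R.ti h + 1 < R.N
    · rw [if_pos th] at hq
      exact R.far_II hg hh hne tg th hp hq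
    · rw [if_neg th] at hq
      by_cases kh : R.rm h + 1 < R.K
      · rw [if_pos kh] at hq
        exact R.far_IB hg hh tg (by omega) kh hp hq
      · rw [if_neg kh] at hq
        exact R.far_IF hg hh tg (by omega) (by omega) hp hq
  · rw [if_neg tg] at hp
    by_cases kg : R.rm g + 1 < R.K
    · rw [if_pos kg] at hp
      by_cases th : R.ti h + 1 < R.N
      · rw [if_pos th] at hq
        exact far_symmD (R.far_IB hh hg th (by omega) kg hq hp)
      · rw [if_neg th] at hq
        by_cases kh : R.rm h + 1 < R.K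
        · rw [if_pos kh] at hq
          exact R.far_BB hg hh hne (by omega) (by omega) kg kh hp hq
        · rw [if_neg kh] at hq
          exact R.far_BF hg hh (by omega) (by omega) kg (by omega) hp hq
    · rw [if_neg kg] at hp
      by_cases th : R.ti h + 1 < R.N
      · rw [if_pos th] at hq
        exact far_symmD (R.far_IF hh hg th (by omega) (by omega) hq hp)
      · rw [if_neg th] at hq
        by_cases kh : R.rm h + 1 < R.K
        · rw [if_pos kh] at hq
          exact far_symmD (R.far_BF hh hg (by omega) (by omega) kh (by omega) hq hp)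
        · exfalso
          apply hne
          have e1 : R.rm g = R.rm h := by omega
          have e2 : R.ti g = R.ti h := by omega
          rw [R.g_eq g, R.g_eq h, e1, e2]

private theorem start_cellD : R.InCell 0 (fcD (Fin.cons (R.e 0) (R.v 0) : Fin (D + 1) → ℤ)) := by
  intro j
  have hN := R.hN
  have h0 : R.rm 0 = 0 := by
    unfold rm
    exact Nat.zero_div _
  have h1 : R.ti 0 = 0 := by
    unfold ti
    exact Nat.zero_mod _
  have h2 := R.u_box 0 (by omega) j
  show R.org 0 j ≤ R.v 0 j ∧ R.v 0 j ≤ R.org 0 j + R.B + 4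
  unfold v
  rw [h0, h1]
  constructor <;> omega

private theorem start_blockD (j : Fin D) :
    fcD (Fin.cons (R.e 0) (R.v 0) : Fin (D + 1) → ℤ) j ≤ R.org 0 j + R.B := by
  have hN := R.hN
  have h0 : R.rm 0 = 0 := by
    unfold rm
    exact Nat.zero_div _
  have h1 : R.ti 0 = 0 := by
    unfold ti
    exact Nat.zero_mod _
  have h2 := R.u_box 0 (by omega) j
  show R.v 0 j ≤ R.org 0 j + R.B
  unfold v
  rw [h0, h1]
  omega

private theorem start_colD :
    (Fin.cons (R.e 0) (R.v 0) : Fin (D + 1) → ℤ) 0 = -6 * (R.N + 3) := by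
  show R.e 0 = _
  have h0 : R.rm 0 = 0 := by
    unfold rm
    exact Nat.zero_div _
  have h1 : R.ti 0 = 0 := by
    unfold ti
    exact Nat.zero_mod _
  unfold e
  rw [if_pos h1, h0]
  unfold ent
  simp

private theorem start_POD {k : ℕ} (hk : k < R.K) {p : Fin (D + 1) → ℤ} (hp : R.POD k p) :
    ∃ i, 4 ≤ |p i - (Fin.cons (R.e 0) (R.v 0) : Fin (D + 1) → ℤ) i| := by
  apply far_succD
  by_cases h : k = 0
  · subst h
    have hr := R.hr
    have hrD := R.hrD
    obtain ⟨j⟩ : Nonempty (Fin D) := ⟨⟨0, by omega⟩⟩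
    refine ⟨j, ?_⟩
    have h1 := R.start_blockD j
    have h2 := hp j
    unfold o at h2
    rw [h2, le_abs]
    left
    omega
  · exact R.far_cell_cell hk R.K_pos h (R.po_cellD hp) R.start_cellD

theorem reg_far_start {g : ℕ} (hg : g < R.M) {p : Fin (D + 1) → ℤ} (hp : R.Reg g p) :
    ∃ i, 4 ≤ |p i - (Fin.cons (R.e 0) (R.v 0) : Fin (D + 1) → ℤ) i| := by
  have hN : (2 : ℤ) ≤ (R.N : ℤ) := by exact_mod_cast R.hN
  have vg := R.rm_lt hg
  have hs := R.start_colD
  unfold Reg at hp
  by_cases tg : R.ti g + 1 < R.N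
  · rw [if_pos tg] at hp
    refine ⟨0, ?_⟩
    have h0 := hp.1
    unfold x at h0
    rw [hs, h0, le_abs]
    left
    omega
  · rw [if_neg tg] at hp
    by_cases kg : R.rm g + 1 < R.K
    · rw [if_pos kg] at hp
      rcases R.regB_casesD hp with h1 | h1 | h1
      · refine ⟨0, ?_⟩
        rw [hs, h1.1, le_abs]
        left
        omega
      · exact R.start_POD vg h1.2
      · by_cases hpar : (R.rm g + 1) % 2 = 0
        · have := R.far_hull_cell kg R.K_pos (by omega) (by omega) h1.2.1 R.start_cellD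
          exact far_succD this
        · refine ⟨0, ?_⟩
          have h2 : (R.rm g + 1) % 2 = 1 := by omega
          have h3 := h1.1
          unfold ent at h3
          rw [h2] at h3
          rw [hs, h3, le_abs]
          right
          push_cast
          omega
    · rw [if_neg kg] at hp
      rcases R.regF_casesD hp with h1 | h1 | h1
      · refine ⟨0, ?_⟩
        rw [hs, h1.1, le_abs]
        left
        omega
      · exact R.start_POD vg h1
      · refine ⟨0, ?_⟩
        unfold aF at h1
        rw [hs, h1, le_abs]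
        right
        omega

end Rooms

end Pool.Agent.Lib.MP_1a3405_co.BP
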