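import Mathlib
import Pool.Agent.Lib.MP_1a3405_co.BP.Defs

/-!
Walks in `ℤ^E`.
-/

namespace Pool.Agent.Lib.MP_1a3405_co.BP

open Pool.Agent.Lib.MP_1a3405_co Pool.Agent.Lib.MP_1a3405_co.Ord

/-- a walk with `ℓ` unit steps -/
def IsWalk {E : ℕ} (ℓ : ℕ) (y : ℕ → Fin E → ℤ) : Prop :=
  ∀ j < ℓ, ∃ δ, y (j + 1) = nb (y j) δ

/-- a walk between two points inside their bounding box -/
theorem exists_walk {E : ℕ} (P Q : Fin E → ℤ) :
    ∃ (ℓ : ℕ) (y : ℕ → Fin E → ℤ), IsWalk ℓ y ∧ y 0 = P ∧ y ℓ = Q ∧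
      (ℓ : ℤ) = ∑ i, |P i - Q i| ∧
      ∀ j ≤ ℓ, ∀ i, min (P i) (Q i) ≤ y j i ∧ y j i ≤ max (P i) (Q i) := by
  have key : ∀ (ℓ : ℕ) (P : Fin E → ℤ), (ℓ : ℤ) = ∑ i, |P i - Q i| →
      ∃ (y : ℕ → Fin E → ℤ), IsWalk ℓ y ∧ y 0 = P ∧ y ℓ = Q ∧
      ∀ j ≤ ℓ, ∀ i, min (P i) (Q i) ≤ y j i ∧ y j i ≤ max (P i) (Q i) := by
    intro ℓ
    induction ℓ with
    | zero =>
      intro P hP
      have h0 : ∀ i, P i = Q i := by
        intro i
        have h1 : ∑ i, |P i - Q i| = 0 := by rw [← hP]; simp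
        have h2 := (Finset.sum_eq_zero_iff_of_nonneg (fun i _ => abs_nonneg (P i - Q i))).1 h1 i
          (Finset.mem_univ i)
        have h3 := abs_eq_zero.1 h2
        linarith
      have hPQ : P = Q := funext h0
      refine ⟨fun _ => P, fun j hj => absurd hj (Nat.not_lt_zero j), rfl, hPQ, ?_⟩
      intro j _ i
      exact ⟨min_le_left _ _, le_max_left _ _⟩
    | succ ℓ ih =>
      intro P hP
      have hne : ∃ i, P i ≠ Q i := by
        by_contra hcon
        push Not at hcon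
        have : ∑ i, |P i - Q i| = 0 := Finset.sum_eq_zero fun i _ => by rw [hcon i]; simp
        rw [this] at hP
        push_cast at hP
        omega
      obtain ⟨i, hi⟩ := hne
      -- the step
      have hstep : ∃ δ : Fin E × Bool, ∃ e : ℤ, nb P δ = Function.update P i (P i + e) ∧
          ((e = 1 ∧ P i < Q i) ∨ (e = -1 ∧ Q i < P i)) := by
        rcases lt_or_gt_of_ne hi with h | h
        · refine ⟨(i, true), 1, ?_, Or.inl ⟨rfl, h⟩⟩
          simp [nb]
        · refine ⟨(i, false), -1, ?_, Or.inr ⟨rfl, h⟩⟩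
          simp [nb]
      obtain ⟨δ, e, hδ, he⟩ := hstep
      set P' := nb P δ with hP'
      have hP'i : P' i = P i + e := by rw [hδ]; simp
      have hP'k : ∀ k, k ≠ i → P' k = P k := by
        intro k hk
        rw [hδ, Function.update_of_ne hk]
      have hsum : (ℓ : ℤ) = ∑ k, |P' k - Q k| := by
        have h1 : ∑ k, |P k - Q k| = ∑ k, |P' k - Q k| + 1 := by
          rw [← Finset.add_sum_erase _ _ (Finset.mem_univ i),
            ← Finset.add_sum_erase _ _ (Finset.mem_univ i)]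
          have h2 : ∑ k ∈ Finset.univ.erase i, |P k - Q k| =
              ∑ k ∈ Finset.univ.erase i, |P' k - Q k| :=
            Finset.sum_congr rfl fun k hk => by rw [hP'k k (Finset.ne_of_mem_erase hk)]
          rw [h2, hP'i]
          have h3 : |P i - Q i| = |P i + e - Q i| + 1 := by
            rcases he with ⟨rfl, h⟩ | ⟨rfl, h⟩
            · rw [abs_of_neg (by linarith), abs_of_nonpos (by linarith)]; ring
            · rw [abs_of_pos (by linarith), abs_of_nonneg (by linarith)]; ring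
          rw [h3]; ring
        rw [h1] at hP
        push_cast at hP
        linarith
      obtain ⟨y, hw, h0, hl, hb⟩ := ih P' hsum
      refine ⟨fun j => Nat.casesOn j P y, ?_, rfl, hl, ?_⟩
      · intro j hj
        rcases j with _ | j
        · exact ⟨δ, by simpa using h0⟩
        · exact hw j (by omega)
      · intro j hj k
        rcases j with _ | j
        · exact ⟨min_le_left _ _, le_max_left _ _⟩
        · have h1 := hb j (by omega) k
          have h2 : min (P k) (Q k) ≤ min (P' k) (Q k) ∧ max (P' k) (Q k) ≤ max (P k) (Q k) := by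
            by_cases hk : k = i
            · subst hk
              rw [hP'i]
              rcases he with ⟨rfl, h⟩ | ⟨rfl, h⟩
              · constructor
                · rw [min_eq_left h.le, min_eq_left (by linarith)]; linarith
                · rw [max_eq_right h.le, max_eq_right (by linarith)]
              · constructor
                · rw [min_eq_right h.le, min_eq_right (by linarith)]
                · rw [max_eq_left h.le, max_eq_left (by linarith)]; linarith
            · rw [hP'k k hk]; exact ⟨le_rfl, le_rfl⟩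
          exact ⟨h2.1.trans h1.1, h1.2.trans h2.2⟩
  have hnn : 0 ≤ ∑ i, |P i - Q i| := Finset.sum_nonneg fun i _ => abs_nonneg _
  obtain ⟨ℓ, hℓ⟩ := Int.eq_ofNat_of_zero_le hnn
  obtain ⟨y, h1, h2, h3, h4⟩ := key ℓ P hℓ.symm
  exact ⟨ℓ, y, h1, h2, h3, hℓ.symm, h4⟩

/-- concatenation of walks -/
theorem walk_append {E : ℕ} {ℓ ℓ' : ℕ} {y y' : ℕ → Fin E → ℤ} (h : IsWalk ℓ y)
    (h' : IsWalk ℓ' y') (he : y ℓ = y' 0) :
    ∃ z : ℕ → Fin E → ℤ, IsWalk (ℓ + ℓ') z ∧ z 0 = y 0 ∧ z (ℓ + ℓ') = y' ℓ' ∧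
      ∀ j ≤ ℓ + ℓ', (∃ k ≤ ℓ, z j = y k) ∨ ∃ k ≤ ℓ', z j = y' k := by
  refine ⟨fun j => if j ≤ ℓ then y j else y' (j - ℓ), ?_, ?_, ?_, ?_⟩
  · intro j hj
    by_cases h1 : j + 1 ≤ ℓ
    · obtain ⟨δ, hδ⟩ := h j (by omega)
      refine ⟨δ, ?_⟩
      simp only [h1, if_true, show j ≤ ℓ by omega]
      exact hδ
    · obtain ⟨δ, hδ⟩ := h' (j - ℓ) (by omega)
      refine ⟨δ, ?_⟩
      have h2 : j + 1 - ℓ = j - ℓ + 1 := by omega
      by_cases h3 : j ≤ ℓ
      · have h4 : j = ℓ := by omega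
        subst h4
        simp only [h1, if_false, le_refl, if_true]
        rw [h2, hδ, he]
        simp
      · simp only [h1, h3, if_false]
        rw [h2, hδ]
  · simp
  · by_cases h1 : ℓ + ℓ' ≤ ℓ
    · have h2 : ℓ' = 0 := by omega
      subst h2
      simp [he]
    · simp only [h1, if_false]
      congr 1
      omega
  · intro j hj
    by_cases h1 : j ≤ ℓ
    · exact Or.inl ⟨j, h1, by simp [h1]⟩
    · exact Or.inr ⟨j - ℓ, by omega, by simp [h1]⟩

end Pool.Agent.Lib.MP_1a3405_co.BP
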