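import Mathlib
import Pool.Agent.Lib.MP_1a3405_co.BP.Walk

/-!
The existence of a wire along a walk.

Put `k b = min ℓ ((hi - b) / 3)` (clipped at `0`), `X b = y (k b)`: the steps
are at the heights `hi - 3k`, `1 ≤ k ≤ ℓ`. For `b ∈ {hi-3k-1, hi-3k, hi-3k+1}` let `J b` be a set
of `r - 1 ≤ E - 1` directions avoiding the axis of the step from `y (k-1)` to `y k`, and
`J hi = Jhi`, `J lo = Jlo`, `J b` arbitrary (with `r - 1` elements) otherwise.
-/

namespace Pool.Agent.Lib.MP_1a3405_co.BP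

open Pool.Agent.Lib.MP_1a3405_co Pool.Agent.Lib.MP_1a3405_co.Ord

private lemma exists_J_avoid {E r : ℕ} (hr : 1 ≤ r) (hE : r ≤ E) (i : Fin E) :
    ∃ J : Finset (Fin E), J.card = r - 1 ∧ i ∉ J := by
  have h : r - 1 ≤ (Finset.univ.erase i).card := by
    rw [Finset.card_erase_of_mem (Finset.mem_univ _), Finset.card_univ, Fintype.card_fin]; omega
  obtain ⟨J, hJ, hc⟩ := Finset.exists_subset_card_eq h
  exact ⟨J, hc, fun hi => by simpa using hJ hi⟩

/-- a wire along a walk -/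
theorem exists_wire {E r : ℕ} (hr : 1 ≤ r) (hE : r ≤ E) (lo hi : ℤ) (ℓ : ℕ)
    (y : ℕ → Fin E → ℤ) (hw : IsWalk ℓ y) (hlen : lo + 3 * ℓ + 8 ≤ hi)
    (Jlo Jhi : Finset (Fin E)) (hlo : Jlo.card = r - 1) (hhi : Jhi.card = r - 1) :
    ∃ (X : ℤ → Fin E → ℤ) (J : ℤ → Finset (Fin E)), Wire r lo hi X J ∧
      X hi = y 0 ∧ X lo = y ℓ ∧ J lo = Jlo ∧ J hi = Jhi ∧ ∀ b, ∃ j ≤ ℓ, X b = y j := by
  have hE0 : 0 < E := by omega
  have hax : ∀ k : ℕ, ∃ i : Fin E, 1 ≤ k → k ≤ ℓ → ∃ s, y k = nb (y (k - 1)) (i, s) := by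
    intro k
    by_cases hk : 1 ≤ k ∧ k ≤ ℓ
    · obtain ⟨⟨i, s⟩, h⟩ := hw (k - 1) (by omega)
      refine ⟨i, fun _ _ => ⟨s, ?_⟩⟩
      rw [← h]
      congr 1
      omega
    · exact ⟨⟨0, hE0⟩, fun h1 h2 => absurd ⟨h1, h2⟩ hk⟩
  choose ax hax using hax
  have hJ : ∀ k, ∃ J : Finset (Fin E), J.card = r - 1 ∧ ax k ∉ J :=
    fun k => exists_J_avoid hr hE (ax k)
  choose J' hJc hJn using hJ
  obtain ⟨k, hk⟩ : ∃ k : ℤ → ℕ, ∀ b, k b = (min (ℓ : ℤ) (max 0 ((hi - b) / 3))).toNat :=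
    ⟨_, fun b => rfl⟩
  obtain ⟨J, hJ⟩ : ∃ J : ℤ → Finset (Fin E), ∀ c, J c =
      if c = hi then Jhi else if c = lo then Jlo else J' ((hi - c + 1) / 3).toNat :=
    ⟨_, fun b => rfl⟩
  have hJhi : J hi = Jhi := by rw [hJ, if_pos rfl]
  have hJlo : J lo = Jlo := by rw [hJ, if_neg (by omega), if_pos rfl]
  -- the set `J c` near a step
  have hJs : ∀ (m : ℕ) (c : ℤ), 1 ≤ m → m ≤ ℓ → (hi - c + 1) / 3 = m → ax m ∉ J c := by
    intro m c h1 h2 h3
    rw [hJ, if_neg (by omega), if_neg (by omega), h3]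
    exact hJn _
  refine ⟨fun b => y (k b), J, ⟨by omega, ?_, ?_, ?_, ?_, ?_⟩, ?_, ?_, hJlo, hJhi, ?_⟩
  · intro b
    rw [hJ]
    split_ifs
    · exact hhi
    · exact hlo
    · exact hJc _
  · intro b
    by_cases hb : k b = k (b + 1)
    · exact Or.inl (by simp only [hb])
    · refine Or.inr ?_
      have h1 := hk b
      have h2 := hk (b + 1)
      have h3 : k (b + 1) = k b - 1 := by omega
      have h4 : 1 ≤ k b := by omega
      have h5 : k b ≤ ℓ := by omega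
      obtain ⟨s, hs⟩ := hax (k b) h4 h5
      refine ⟨ax (k b), s, ?_, ?_, ?_, ?_⟩
      · simp only [h3]; exact hs
      · exact hJs _ _ h4 h5 (by omega)
      · exact hJs _ _ h4 h5 (by omega)
      · exact hJs _ _ h4 h5 (by omega)
  · intro b hb
    have hb' : k b ≠ k (b + 1) := fun h => hb (by simp only [h])
    have h1 := hk b
    have h2 := hk (b + 1)
    have h3 := hk (b + 2)
    have : k (b + 1) = k (b + 2) := by omega
    simp only [this]
  · intro b hb
    have h1 := hk b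
    have h2 := hk lo
    have : k b = k lo := by omega
    simp only [this]
  · intro b hb
    have h1 := hk b
    have h2 := hk hi
    have : k b = k hi := by omega
    simp only [this]
  · have h2 := hk hi
    have : k hi = 0 := by omega
    simp only [this]
  · have h2 := hk lo
    have : k lo = ℓ := by omega
    simp only [this]
  · intro b
    have h1 := hk b
    exact ⟨k b, by omega, rfl⟩

end Pool.Agent.Lib.MP_1a3405_co.BP
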