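import Mathlib
import Pool.Agent.Lib.MP_1a3405_co.BP.ROrdA
import Pool.Agent.Lib.MP_1a3405_co.BP.WExist

/-!
Existence of the wires inside their regions.

Inside a room (`ti g + 1 < N`, so `rm (g+1) = rm g`, `e (g+1) = x g`): a walk in the bounding box
from `(x g; v g)` to `(x g; v (g+1))`. Between two rooms (`x g = -12`): walks
`(-12; v g) → (-12; o k) → (ent (k+1); o k) → (ent (k+1); z) → (ent (k+1); v (g+1))` with
`z = v (g+1)` except `z i = o k i`, where `i` is the direction of the step of the snake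
(`org (k+1) j = org k j` for `j ≠ i`). The final wire:
`(-12; v g) → (-12; o k) → (aF; o k) → (aF; xs)`. The total length is at most
`3 (D + 1) (2 B + 14 m + 10) + 6 (N + 6)`. The directions at the ends: `{0}` and the `r - 2`
directions `i.succ` with `v + e_i` in the pattern (`T_up`).
-/

namespace Pool.Agent.Lib.MP_1a3405_co.BP

open Pool.Agent.Lib.MP_1a3405_co Pool.Agent.Lib.MP_1a3405_co.Ord

/-- a wire along a walk in a region -/
theorem wire_of_walk {E r : ℕ} (hr : 1 ≤ r) (hE : r ≤ E) (L : ℤ) (W : (Fin E → ℤ) → Prop)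
    (ℓ : ℕ) (y : ℕ → Fin E → ℤ) (hw : IsWalk ℓ y) (hlen : 3 * (ℓ : ℤ) + 13 ≤ L)
    (hW : ∀ j ≤ ℓ, W (y j))
    (Jlo Jhi : Finset (Fin E)) (hlo : Jlo.card = r - 1) (hhi : Jhi.card = r - 1) :
    ∃ (X : ℤ → Fin E → ℤ) (J : ℤ → Finset (Fin E)), Wire r 3 (L - 2) X J ∧
      X (L - 2) = y 0 ∧ X 3 = y ℓ ∧ J 3 = Jlo ∧ J (L - 2) = Jhi ∧ ∀ b, W (X b) := by
  obtain ⟨X, J, h1, h2, h3, h4, h5, h6⟩ :=
    exists_wire hr hE 3 (L - 2) ℓ y hw (by linarith) Jlo Jhi hlo hhi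
  refine ⟨X, J, h1, h2, h3, h4, h5, fun b => ?_⟩
  obtain ⟨j, hj, hb⟩ := h6 b
  rw [hb]
  exact hW j hj

/-- extending a walk in a region by a straight walk in a region -/
theorem walk_extend {E : ℕ} {ℓ : ℕ} {y : ℕ → Fin E → ℤ} (W : (Fin E → ℤ) → Prop)
    (h : IsWalk ℓ y) (hW : ∀ j ≤ ℓ, W (y j)) (Q : Fin E → ℤ)
    (hQ : ∀ z : Fin E → ℤ, (∀ i, min (y ℓ i) (Q i) ≤ z i ∧ z i ≤ max (y ℓ i) (Q i)) → W z) :
    ∃ (ℓ' : ℕ) (y' : ℕ → Fin E → ℤ), IsWalk ℓ' y' ∧ y' 0 = y 0 ∧ y' ℓ' = Q ∧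
      (ℓ' : ℤ) = ℓ + ∑ i, |y ℓ i - Q i| ∧ ∀ j ≤ ℓ', W (y' j) := by
  obtain ⟨k, u, hu, hu0, hu1, hk, hb⟩ := exists_walk (y ℓ) Q
  obtain ⟨z, hz, hz0, hz1, hz2⟩ := walk_append h hu hu0.symm
  refine ⟨ℓ + k, z, hz, hz0, by rw [hz1, hu1], by push_cast; rw [hk], fun j hj => ?_⟩
  rcases hz2 j hj with ⟨i, hi, e⟩ | ⟨i, hi, e⟩
  · rw [e]; exact hW i hi
  · rw [e]; exact hQ _ (fun l => hb i hi l)

namespace Rooms

variable {D r : ℕ} (R : Rooms D r)

/-- the directions at an end -/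
theorem exists_dirs {y : Fin D → ℤ} (hy : R.T y) : ∃ J : Finset (Fin (D + 1)),
    J.card = r - 1 ∧ ∀ l, l ∈ J ↔ l = 0 ∨ ∃ i : Fin D, l = i.succ ∧ R.T (nb y (i, true)) := by
  classical
  refine ⟨insert 0 ((Finset.univ.filter fun i : Fin D => R.T (nb y (i, true))).image Fin.succ),
    ?_, fun l => ?_⟩
  · rw [Finset.card_insert_of_notMem, Finset.card_image_of_injective _ (Fin.succ_injective D)]
    · have h := R.T_up y hy
      have e : ({i : Fin D | R.T (nb y (i, true))} : Set (Fin D)) =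
          ((Finset.univ.filter fun i : Fin D => R.T (nb y (i, true)) : Finset (Fin D)) :
            Set (Fin D)) := by
        ext i; simp
      rw [e, Set.ncard_coe_finset] at h
      have := R.hr
      omega
    · intro h
      rw [Finset.mem_image] at h
      obtain ⟨i, -, hi⟩ := h
      exact Fin.succ_ne_zero i hi
  · simp only [Finset.mem_insert, Finset.mem_image, Finset.mem_filter, Finset.mem_univ, true_and]
    constructor
    · rintro (h | ⟨i, hi, e⟩)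
      · exact Or.inl h
      · exact Or.inr ⟨i, e.symm, hi⟩
    · rintro (h | ⟨i, e, hi⟩)
      · exact Or.inl h
      · exact Or.inr ⟨i, hi, e.symm⟩

theorem v_box_rm (g : ℕ) (j : Fin D) :
    R.org (R.rm g) j + 1 ≤ R.v g j ∧ R.v g j ≤ R.org (R.rm g) j + R.B := by
  have h := R.u_box (R.ti g) (R.ti_lt g) j
  simp only [v]
  constructor <;> linarith [h.1, h.2]

theorem v_mem_T (g : ℕ) : R.T (R.v g) :=
  (R.T_org (R.rm g) (R.u (R.ti g))).2 (R.u_T _ (R.ti_lt g))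

theorem exists_wire_inside {g : ℕ} (hg : g < R.M) (ht : R.ti g + 1 < R.N) (L : ℤ)
    (hL : 100 * (D + 2) * (R.B + 14 * R.m + R.N + 10) ≤ L) :
    g + 1 < R.M ∧ ∃ (X : ℤ → Fin (D + 1) → ℤ) (J : ℤ → Finset (Fin (D + 1))),
      Wire r 3 (L - 2) X J ∧ X (L - 2) = Fin.cons (R.x g) (R.v g) ∧
      X 3 = Fin.cons (R.e (g + 1)) (R.v (g + 1)) ∧
      (∀ l, l ∈ J (L - 2) ↔ l = 0 ∨ ∃ i : Fin D, l = i.succ ∧ R.T (nb (R.v g) (i, true))) ∧
      (∀ l, l ∈ J 3 ↔ l = 0 ∨ ∃ i : Fin D, l = i.succ ∧ R.T (nb (R.v (g + 1)) (i, true))) ∧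
      ∀ b, R.Reg g (X b) := by
  have hgk := R.rm_lt hg
  have hg1 : g + 1 = R.rm g * R.N + (R.ti g + 1) := by
    have := R.g_eq g
    omega
  obtain ⟨hrm, hti⟩ := R.rm_ti (k := R.rm g) (t := R.ti g + 1) ht
  rw [← hg1] at hrm hti
  refine ⟨by rw [hg1]; exact R.lt_M hgk ht, ?_⟩
  have he : R.e (g + 1) = R.x g := by
    rw [e, hti, if_neg (by omega), x]
    push_cast
    ring
  have hv1 := R.v_box_rm g
  have hv2 := R.v_box_rm (g + 1)
  rw [hrm] at hv2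
  obtain ⟨Jhi, hJhi, hJhi'⟩ := R.exists_dirs (R.v_mem_T g)
  obtain ⟨Jlo, hJlo, hJlo'⟩ := R.exists_dirs (R.v_mem_T (g + 1))
  obtain ⟨ℓ, y, hy, hy0, hy1, hℓ, hyb⟩ :=
    exists_walk (Fin.cons (R.x g) (R.v g) : Fin (D + 1) → ℤ) (Fin.cons (R.x g) (R.v (g + 1)))
  have hlen : (ℓ : ℤ) ≤ D * R.B := by
    rw [hℓ, Fin.sum_univ_succ]
    simp only [Fin.cons_zero, sub_self, abs_zero, zero_add, Fin.cons_succ]
    calc ∑ i : Fin D, |R.v g i - R.v (g + 1) i| ≤ ∑ _i : Fin D, R.B := by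
          apply Finset.sum_le_sum
          intro i _
          rw [abs_le]
          constructor <;> linarith [(hv1 i).1, (hv1 i).2, (hv2 i).1, (hv2 i).2]
      _ = D * R.B := by simp
  have hB := R.B_pos
  have hlen' : 3 * (ℓ : ℤ) + 13 ≤ L := by
    have h1 : (0 : ℤ) ≤ D := Int.natCast_nonneg D
    have h2 : (0 : ℤ) ≤ R.m := Int.natCast_nonneg _
    have h3 : (0 : ℤ) ≤ R.N := Int.natCast_nonneg _
    nlinarith [mul_nonneg h1 h2, mul_nonneg h1 h3, mul_nonneg h1 (by linarith : 0 ≤ R.B)]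
  obtain ⟨X, J, h1, h2, h3, h4, h5, h6⟩ := wire_of_walk (r := r) (by have := R.hr; omega) R.hrD L
    (R.Reg g) ℓ y hy hlen' (fun j hj => by
      have hb := hyb j hj
      rw [Reg, if_pos ht, RegI]
      constructor
      · have := hb 0
        simp only [Fin.cons_zero, min_self, max_self] at this
        omega
      · intro i
        have h := hb i.succ
        simp only [Fin.cons_succ] at h
        have a1 := hv1 i
        have a2 := hv2 i
        omega) Jlo Jhi hJlo hJhi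
  refine ⟨X, J, h1, by rw [h2, hy0], by rw [h3, hy1, he], fun l => by rw [h5]; exact hJhi' l,
    fun l => by rw [h4]; exact hJlo' l, h6⟩

end Rooms

end Pool.Agent.Lib.MP_1a3405_co.BP
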