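import Mathlib
import Pool.Agent.Lib.MP_1a3405_co.BP.RWireA

/-!
Existence of the wires inside their regions.

Inside a room (`ti g + 1 < N`, so `rm (g+1) = rm g`, `e (g+1) = x g`): a walk in the bounding box
from `(x g; v g)` to `(x g; v (g+1))`. Between two rooms (`x g = -12`): walks
`(-12; v g) → (-12; o k) → (ent (k+1); o k) → (ent (k+1); z) → (ent (k+1); v (g+1))` with
`z = v (g+1)` except `z i = o k i`, where `i` is the direction of the step of the snake
(`org (k+1) j = org k j` for `j ≠ i`). The final wire: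
`(-12; v g) → (-12; o k) → (aF; o k) → (aF; xs)`. The total length is at most
`3 (D + 1) (2 B + 14 m + 10) + 6 (N + 6)`. The directions at the ends: `{0}` and the `r - 2`
directions `i.succ` with `v + e_i` in the pattern (`T_up`).
-/

namespace Pool.Agent.Lib.MP_1a3405_co.BP

open Pool.Agent.Lib.MP_1a3405_co Pool.Agent.Lib.MP_1a3405_co.Ord

namespace Rooms

namespace RWireBAux

/-- a walk from `P` to `Q` of length at most `c` inside a region -/
def WalkIn {E : ℕ} (G : (Fin E → ℤ) → Prop) (P Q : Fin E → ℤ) (c : ℤ) : Prop :=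
  ∃ (ℓ : ℕ) (y : ℕ → Fin E → ℤ), IsWalk ℓ y ∧ y 0 = P ∧ y ℓ = Q ∧ (ℓ : ℤ) ≤ c ∧
    ∀ j ≤ ℓ, G (y j)

lemma WalkIn.trans {E : ℕ} {G : (Fin E → ℤ) → Prop} {P Q S : Fin E → ℤ} {c c' : ℤ}
    (h : WalkIn G P Q c) (h' : WalkIn G Q S c') : WalkIn G P S (c + c') := by
  obtain ⟨ℓ, y, hw, h0, h1, hc, hG⟩ := h
  obtain ⟨ℓ', y', hw', h0', h1', hc', hG'⟩ := h'
  obtain ⟨z, hz, hz0, hz1, hzG⟩ := walk_append hw hw' (h1.trans h0'.symm)
  refine ⟨ℓ + ℓ', z, hz, hz0.trans h0, hz1.trans h1', by push_cast; omega, fun j hj => ?_⟩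
  rcases hzG j hj with ⟨k, hk, e⟩ | ⟨k, hk, e⟩
  · rw [e]; exact hG k hk
  · rw [e]; exact hG' k hk

lemma WalkIn.box {E : ℕ} {G : (Fin E → ℤ) → Prop} {P Q : Fin E → ℤ} {c : ℤ}
    (hc : ∀ i, |P i - Q i| ≤ c)
    (h : ∀ p : Fin E → ℤ, (∀ i, min (P i) (Q i) ≤ p i ∧ p i ≤ max (P i) (Q i)) → G p) :
    WalkIn G P Q (E * c) := by
  obtain ⟨ℓ, y, hw, h0, h1, hs, hb⟩ := exists_walk P Q
  refine ⟨ℓ, y, hw, h0, h1, ?_, fun j hj => h _ (hb j hj)⟩
  rw [hs]
  calc ∑ i, |P i - Q i| ≤ ∑ _i : Fin E, c := Finset.sum_le_sum fun i _ => hc i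
    _ = E * c := by simp

end RWireBAux

open RWireBAux

variable {D r : ℕ} (R : Rooms D r)

theorem exists_wire_between {g : ℕ} (hg : g < R.M) (ht : R.ti g + 1 = R.N)
    (hk : R.rm g + 1 < R.K) (L : ℤ)
    (hL : 100 * (D + 2) * (R.B + 14 * R.m + R.N + 10) ≤ L) :
    g + 1 < R.M ∧ ∃ (X : ℤ → Fin (D + 1) → ℤ) (J : ℤ → Finset (Fin (D + 1))),
      Wire r 3 (L - 2) X J ∧ X (L - 2) = Fin.cons (R.x g) (R.v g) ∧
      X 3 = Fin.cons (R.e (g + 1)) (R.v (g + 1)) ∧
      (∀ l, l ∈ J (L - 2) ↔ l = 0 ∨ ∃ i : Fin D, l = i.succ ∧ R.T (nb (R.v g) (i, true))) ∧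
      (∀ l, l ∈ J 3 ↔ l = 0 ∨ ∃ i : Fin D, l = i.succ ∧ R.T (nb (R.v (g + 1)) (i, true))) ∧
      ∀ b, R.Reg g (X b) := by
  have hN := R.hN
  have hm := R.hm
  have hB := R.B_pos
  have hr := R.hr
  have hN0 : 0 < R.N := by omega
  -- the next fibre
  have hg1 : g + 1 = (R.rm g + 1) * R.N + 0 := by
    have := R.g_eq g
    rw [add_mul]
    omega
  have hM1 : g + 1 < R.M := by rw [hg1]; exact R.lt_M hk hN0
  have hrm : R.rm (g + 1) = R.rm g + 1 := by rw [hg1]; exact (R.rm_ti hN0).1
  have hti : R.ti (g + 1) = 0 := by rw [hg1]; exact (R.rm_ti hN0).2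
  have hx : R.x g = -12 := by
    unfold Rooms.x
    have : (R.N : ℤ) = R.ti g + 1 := by exact_mod_cast ht.symm
    rw [this]; ring
  have he : R.e (g + 1) = R.ent (R.rm g + 1) := by
    unfold Rooms.e
    rw [if_pos hti, hrm]
  have hent : -6 * ((R.N : ℤ) + 4) ≤ R.ent (R.rm g + 1) ∧ R.ent (R.rm g + 1) ≤ -12 := by
    unfold Rooms.ent
    have h1 : (R.rm g + 1) % 2 < 2 := Nat.mod_lt _ (by norm_num)
    have h2 : (0 : ℤ) ≤ (((R.rm g + 1) % 2 : ℕ) : ℤ) := by positivity
    have h3 : (((R.rm g + 1) % 2 : ℕ) : ℤ) ≤ 1 := by exact_mod_cast Nat.lt_succ_iff.1 h1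
    have h4 : (2 : ℤ) ≤ R.N := by exact_mod_cast hN
    constructor <;> linarith
  -- the boxes of the fibres
  have hu : ∀ j, R.org (R.rm g) j + 1 ≤ R.v g j ∧ R.v g j ≤ R.org (R.rm g) j + R.B := by
    intro j
    have := R.u_box (R.ti g) (by omega) j
    unfold Rooms.v
    constructor <;> linarith [this.1, this.2]
  have hu1 : ∀ j, R.org (R.rm g + 1) j + 1 ≤ R.v (g + 1) j ∧
      R.v (g + 1) j ≤ R.org (R.rm g + 1) j + R.B := by
    intro j
    have := R.u_box 0 hN0 j
    unfold Rooms.v
    rw [hrm, hti]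
    constructor <;> linarith [this.1, this.2]
  -- the step of the snake
  obtain ⟨⟨i, s⟩, hρ⟩ := R.ρ_step (R.rm g) hk
  have horg : ∀ j, j ≠ i → R.org (R.rm g + 1) j = R.org (R.rm g) j := by
    intro j hj
    unfold Rooms.org
    rw [hρ, nb_other _ _ hj]
  have horgi : |R.org (R.rm g) i - R.org (R.rm g + 1) i| = R.Cs := by
    have hC : 0 ≤ R.Cs := by unfold Rooms.Cs; positivity
    unfold Rooms.org
    rw [hρ, nb_self]
    cases s
    · have : (6 * (R.m : ℤ) + R.Cs * R.ρ (R.rm g) i -
        (6 * R.m + R.Cs * (R.ρ (R.rm g) i + if false = true then 1 else -1))) = R.Cs := by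
        simp; ring
      rw [this, abs_of_nonneg hC]
    · have : (6 * (R.m : ℤ) + R.Cs * R.ρ (R.rm g) i -
        (6 * R.m + R.Cs * (R.ρ (R.rm g) i + if true = true then 1 else -1))) = -R.Cs := by
        simp; ring
      rw [this, abs_neg, abs_of_nonneg hC]
  -- regions
  have hReg : ∀ p, R.RegB g p → R.Reg g p := by
    intro p hp
    unfold Rooms.Reg
    rw [if_neg (by omega), if_pos hk]
    exact hp
  -- the intermediate point
  set z : Fin D → ℤ := Function.update (R.v (g + 1)) i (R.o (R.rm g) i) with hz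
  have hzi : z i = R.o (R.rm g) i := by rw [hz, Function.update_self]
  have hzj : ∀ j, j ≠ i → z j = R.v (g + 1) j := by
    intro j hj
    rw [hz, Function.update_of_ne hj]
  have hoj : ∀ j, R.o (R.rm g) j = R.org (R.rm g) j + R.B + 4 := fun j => rfl
  set k := R.rm g with hkdef
  -- the four walks
  have w1 : WalkIn (R.Reg g) (Fin.cons (-12) (R.v g)) (Fin.cons (-12) (R.o k))
      (((D + 1 : ℕ) : ℤ) * (R.B + 3)) := by
    apply WalkIn.box
    · intro l
      refine Fin.cases ?_ (fun j => ?_) l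
      · simp only [Fin.cons_zero, sub_self, abs_zero]; omega
      · simp only [Fin.cons_succ]
        have := hu j
        rw [hoj, abs_le]
        constructor <;> linarith [this.1, this.2]
    · intro p hp
      apply hReg
      refine Or.inl ⟨?_, fun j => ?_⟩
      · have := hp 0
        simp only [Fin.cons_zero, min_self, max_self] at this
        omega
      · have h1 := hp j.succ
        have h2 := hu j
        simp only [Fin.cons_succ] at h1
        rw [hoj] at h1
        constructor
        · exact le_trans (le_min (by linarith [h2.1]) (by linarith)) h1.1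
        · exact le_trans h1.2 (max_le (by linarith [h2.2]) (by linarith))
  have w2 : WalkIn (R.Reg g) (Fin.cons (-12) (R.o k)) (Fin.cons (R.ent (k + 1)) (R.o k))
      (((D + 1 : ℕ) : ℤ) * (6 * R.N + 12)) := by
    apply WalkIn.box
    · intro l
      refine Fin.cases ?_ (fun j => ?_) l
      · simp only [Fin.cons_zero]
        rw [abs_le]
        constructor <;> linarith [hent.1, hent.2]
      · simp only [Fin.cons_succ, sub_self, abs_zero]; positivity
    · intro p hp
      apply hReg
      refine Or.inr (Or.inl ⟨?_, ?_, fun j => ?_⟩)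
      · have := hp 0
        simp only [Fin.cons_zero] at this
        exact le_trans (le_min hent.2 le_rfl) this.1
      · have := hp 0
        simp only [Fin.cons_zero] at this
        exact le_trans this.2 (max_le le_rfl hent.2)
      · have := hp j.succ
        simp only [Fin.cons_succ, min_self, max_self] at this
        exact le_antisymm this.2 this.1
  have w3 : WalkIn (R.Reg g) (Fin.cons (R.ent (k + 1)) (R.o k)) (Fin.cons (R.ent (k + 1)) z)
      (((D + 1 : ℕ) : ℤ) * (R.B + 3)) := by
    have hzb : ∀ j, j ≠ i → R.org k j + 1 ≤ z j ∧ z j ≤ R.org k j + R.B := by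
      intro j hj
      rw [hzj j hj, ← horg j hj]
      exact hu1 j
    apply WalkIn.box
    · intro l
      refine Fin.cases ?_ (fun j => ?_) l
      · simp only [Fin.cons_zero, sub_self, abs_zero]; omega
      · simp only [Fin.cons_succ]
        by_cases hj : j = i
        · subst hj
          rw [hzi, sub_self, abs_zero]; omega
        · have := hzb j hj
          rw [hoj, abs_le]
          constructor <;> linarith [this.1, this.2]
    · intro p hp
      apply hReg
      refine Or.inr (Or.inr ⟨?_, i, s, hρ, Or.inl ⟨?_, fun j hj => ?_⟩⟩)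
      · have := hp 0
        simp only [Fin.cons_zero, min_self, max_self] at this
        exact le_antisymm this.2 this.1
      · have := hp i.succ
        simp only [Fin.cons_succ] at this
        rw [hzi, min_self, max_self] at this
        exact le_antisymm this.2 this.1
      · have h1 := hp j.succ
        have h2 := hzb j hj
        simp only [Fin.cons_succ] at h1
        rw [hoj] at h1
        constructor
        · exact le_trans (le_min (by linarith) (by linarith [h2.1])) h1.1
        · exact le_trans h1.2 (max_le (by linarith) (by linarith [h2.2]))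
  have w4 : WalkIn (R.Reg g) (Fin.cons (R.ent (k + 1)) z)
      (Fin.cons (R.ent (k + 1)) (R.v (g + 1)))
      (((D + 1 : ℕ) : ℤ) * (2 * R.B + 14 * R.m + 4)) := by
    have hui := hu1 i
    have hCs : R.Cs = R.B + 14 * R.m := rfl
    have hab := abs_le.1 (le_of_eq horgi)
    apply WalkIn.box
    · intro l
      refine Fin.cases ?_ (fun j => ?_) l
      · simp only [Fin.cons_zero, sub_self, abs_zero]; positivity
      · simp only [Fin.cons_succ]
        by_cases hj : j = i
        · subst hj
          rw [hzi, hoj, abs_le]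
          constructor <;> linarith [hui.1, hui.2, hab.1, hab.2]
        · rw [hzj j hj, sub_self, abs_zero]; positivity
    · intro p hp
      apply hReg
      refine Or.inr (Or.inr ⟨?_, i, s, hρ, Or.inr ⟨fun j hj => ?_, ?_, ?_⟩⟩)
      · have := hp 0
        simp only [Fin.cons_zero, min_self, max_self] at this
        exact le_antisymm this.2 this.1
      · have h1 := hp j.succ
        simp only [Fin.cons_succ] at h1
        rw [hzj j hj, min_self, max_self] at h1
        have h2 := hu1 j
        rw [horg j hj] at h2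
        exact ⟨le_trans h2.1 h1.1, le_trans h1.2 h2.2⟩
      · have h1 := hp i.succ
        simp only [Fin.cons_succ] at h1
        rw [hzi, hoj] at h1
        refine le_trans (le_min ?_ ?_) h1.1
        · have := min_le_left (R.org k i) (R.org (k + 1) i)
          linarith
        · have := min_le_right (R.org k i) (R.org (k + 1) i)
          linarith [hui.1]
      · have h1 := hp i.succ
        simp only [Fin.cons_succ] at h1
        rw [hzi, hoj] at h1
        refine le_trans h1.2 (max_le ?_ ?_)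
        · have := le_max_left (R.org k i) (R.org (k + 1) i)
          linarith
        · have := le_max_right (R.org k i) (R.org (k + 1) i)
          linarith [hui.2]
  obtain ⟨ℓ, y, hw, h0, h1, hℓ, hG⟩ := ((w1.trans w2).trans w3).trans w4
  -- the directions at the ends
  obtain ⟨Jhi, hJhi, hJhi'⟩ := R.exists_dirs
    (show R.T (R.v g) from (R.T_org _ _).2 (R.u_T _ (by omega)))
  obtain ⟨Jlo, hJlo, hJlo'⟩ := R.exists_dirs
    (show R.T (R.v (g + 1)) from (R.T_org _ _).2 (R.u_T _ (by omega)))
  have hlen : (3 : ℤ) + 3 * ℓ + 8 ≤ L - 2 := by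
    have hN' : (2 : ℤ) ≤ R.N := by exact_mod_cast hN
    have hm' : (1 : ℤ) ≤ R.m := by exact_mod_cast hm
    have hD : (0 : ℤ) ≤ D := by positivity
    have h2 : (D : ℤ) * (4 * R.B + 14 * R.m + 6 * R.N + 22) ≤
        D * (25 * (R.B + 14 * R.m + R.N + 10)) := by
      apply mul_le_mul_of_nonneg_left _ hD
      linarith
    push_cast at hℓ
    nlinarith [hℓ, h2, hL]
  obtain ⟨X, J, hW, hXhi, hXlo, hJl, hJh, hX⟩ := exists_wire (r := r) (by omega) R.hrD 3 (L - 2)
    ℓ y hw hlen Jlo Jhi hJlo hJhi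
  refine ⟨hM1, X, J, hW, ?_, ?_, ?_, ?_, fun b => ?_⟩
  · rw [hXhi, h0, hx]
  · rw [hXlo, h1, he]
  · rw [hJh]; exact hJhi'
  · rw [hJl]; exact hJlo'
  · obtain ⟨j, hj, e⟩ := hX b
    rw [e]; exact hG j hj

end Rooms

end Pool.Agent.Lib.MP_1a3405_co.BP
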