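import Mathlib
import Pool.Agent.Lib.MP_1a3405_co.BP.RFace
import Pool.Agent.Lib.MP_1a3405_co.BP.RFarD
import Pool.Agent.Lib.MP_1a3405_co.BP.RWireB
import Pool.Agent.Lib.MP_1a3405_co.BP.RWireC

/-!
The rooms give a plan.
-/

namespace Pool.Agent.Lib.MP_1a3405_co.BP

open Pool.Agent.Lib.MP_1a3405_co Pool.Agent.Lib.MP_1a3405_co.Ord

namespace Rooms

variable {D r : ℕ} (R : Rooms D r)

/-- the wires, with the case distinction made -/
private theorem exists_wires (L : ℤ)
    (hL : 100 * (D + 2) * (R.B + 14 * R.m + R.N + 10) ≤ L) (g : ℕ) :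
    ∃ (X : ℤ → Fin (D + 1) → ℤ) (J : ℤ → Finset (Fin (D + 1))), g < R.M →
      Wire r 3 (L - 2) X J ∧ X (L - 2) = Fin.cons (R.x g) (R.v g) ∧
      (g + 1 < R.M → X 3 = Fin.cons (R.e (g + 1)) (R.v (g + 1))) ∧
      (g + 1 = R.M → X 3 = Fin.cons R.aF R.xs) ∧
      (∀ l, l ∈ J (L - 2) ↔ l = 0 ∨ ∃ i : Fin D, l = i.succ ∧ R.T (nb (R.v g) (i, true))) ∧
      (g + 1 < R.M → ∀ l, l ∈ J 3 ↔
        l = 0 ∨ ∃ i : Fin D, l = i.succ ∧ R.T (nb (R.v (g + 1)) (i, true))) ∧
      (∀ b, R.Reg g (X b)) ∧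
      (g + 1 < R.M → R.ti g + 1 < R.N ∨ R.rm g + 1 < R.K) ∧
      (g + 1 = R.M → ¬ R.ti g + 1 < R.N ∧ ¬ R.rm g + 1 < R.K) := by
  by_cases hg : g < R.M
  · by_cases ht : R.ti g + 1 < R.N
    · obtain ⟨h1, X, J, h2, h3, h4, h5, h6, h7⟩ := R.exists_wire_inside hg ht L hL
      exact ⟨X, J, fun _ => ⟨h2, h3, fun _ => h4, fun h => absurd h (by omega), h5,
        fun _ => h6, h7, fun _ => Or.inl ht, fun h => absurd h (by omega)⟩⟩
    · have ht' : R.ti g + 1 = R.N := by
        have := R.ti_lt g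
        omega
      by_cases hk : R.rm g + 1 < R.K
      · obtain ⟨h1, X, J, h2, h3, h4, h5, h6, h7⟩ := R.exists_wire_between hg ht' hk L hL
        exact ⟨X, J, fun _ => ⟨h2, h3, fun _ => h4, fun h => absurd h (by omega), h5,
          fun _ => h6, h7, fun _ => Or.inr hk, fun h => absurd h (by omega)⟩⟩
      · obtain ⟨h1, X, J, h2, h3, h4, h5, h6⟩ := R.exists_wire_final hg ht' hk L hL
        exact ⟨X, J, fun _ => ⟨h2, h3, fun h => absurd h (by omega), fun _ => h4, h5,
          fun h => absurd h (by omega), h6, fun h => absurd h (by omega), fun _ => ⟨ht, hk⟩⟩⟩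
  · exact ⟨fun _ _ => 0, fun _ => ∅, fun h => absurd h hg⟩

theorem exists_plan (h4 : 4 ≤ r) (n : ℕ) (L : ℤ) (hL2 : L % 2 = 0)
    (hL : 100 * (D + 2) * (R.B + 14 * R.m + R.N + 10) ≤ L) (hLn : L + 8 ≤ n)
    (hLn' : L + 5 - R.aF ≤ n) (hq : 6 * R.m + R.Cs * R.q ≤ n) :
    ∃ P : Plan D r, P.n = n ∧ P.L = L ∧ P.M = R.M := by
  choose X J hXJ using R.exists_wires L hL
  have hN := R.hN
  have hB := R.B_pos
  have hM : 1 ≤ R.M := by
    have h1 := R.K_pos
    unfold M
    exact Nat.one_le_iff_ne_zero.2 (Nat.mul_ne_zero (by omega) (by omega))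
  have hm1 : R.M - 1 < R.M := by omega
  have hm2 : R.M - 1 + 1 = R.M := by omega
  have hL12 : 12 ≤ L := by
    have h1 : (0 : ℤ) ≤ D := by positivity
    have h2 : (0 : ℤ) ≤ R.m := by positivity
    have h3 : (0 : ℤ) ≤ R.N := by positivity
    have h4 : (2 : ℤ) * 10 ≤ (D + 2) * (R.B + 14 * R.m + R.N + 10) :=
      mul_le_mul (by omega) (by omega) (by norm_num) (by omega)
    have h5 : 100 * (D + 2) * (R.B + 14 * R.m + R.N + 10) =
        100 * (((D : ℤ) + 2) * (R.B + 14 * R.m + R.N + 10)) := by ring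
    rw [h5] at hL
    omega
  have hent : ∀ k, R.eF ≤ R.ent k ∧ R.ent k ≤ -12 := by
    intro k
    unfold eF ent
    have h1 : k % 2 < 2 := Nat.mod_lt _ (by norm_num)
    omega
  have hobox : ∀ k < R.K, ∀ j, 6 ≤ R.org k j ∧ R.org k j + R.B + 14 ≤ n := fun k hk j =>
    ⟨(R.org_box hk j).1, (R.org_box hk j).2.trans hq⟩
  -- the positions of the wires which are not the last one
  have hreg : ∀ g, g + 1 < R.M → ∀ b, (R.eF ≤ X g b 0 ∧ X g b 0 ≤ -12) ∧
      ∀ j : Fin D, 6 ≤ X g b j.succ ∧ X g b j.succ + 2 ≤ n := by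
    intro g hg b
    have hg' : g < R.M := by omega
    obtain ⟨-, -, -, -, -, -, hr, hc, -⟩ := hXJ g hg'
    have hrb := hr b
    have hk := R.rm_lt hg'
    unfold Reg at hrb
    by_cases ht : R.ti g + 1 < R.N
    · rw [if_pos ht] at hrb
      obtain ⟨h1, h2⟩ := hrb
      refine ⟨?_, fun j => ?_⟩
      · rw [h1]
        unfold eF x
        omega
      · have := h2 j
        have := hobox _ hk j
        omega
    · rw [if_neg ht] at hrb
      have hk' : R.rm g + 1 < R.K := (hc hg).resolve_left ht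
      rw [if_pos hk'] at hrb
      have he := hent (R.rm g + 1)
      rcases hrb with ⟨h1, h2⟩ | ⟨h1, h2, h3⟩ | ⟨h1, i, s, h2, h3⟩
      · refine ⟨by rw [h1]; unfold eF; omega, fun j => ?_⟩
        have := h2 j
        have := hobox _ hk j
        omega
      · refine ⟨⟨by omega, h2⟩, fun j => ?_⟩
        have h4 := h3 j
        have := hobox _ hk j
        unfold o at h4
        omega
      · refine ⟨by rw [h1]; exact he, fun j => ?_⟩
        have o1 := hobox _ hk j
        have o2 := hobox _ hk' j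
        rcases h3 with ⟨h4, h5⟩ | ⟨h4, h5, h6⟩
        · by_cases hji : j = i
          · subst hji
            unfold o at h4
            omega
          · have := h5 j hji
            omega
        · by_cases hji : j = i
          · subst hji
            omega
          · have := h4 j hji
            omega
  have hlast : ∀ b, (R.aF ≤ X (R.M - 1) b 0 ∧ X (R.M - 1) b 0 ≤ -12) ∧
      ∀ j : Fin D, (if (j : ℕ) < r - 1 then (2 : ℤ) else 1) ≤ X (R.M - 1) b j.succ ∧
        X (R.M - 1) b j.succ + 2 ≤ n := by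
    intro b
    obtain ⟨-, -, -, -, -, -, hr, -, hc⟩ := hXJ _ hm1
    obtain ⟨hc1, hc2⟩ := hc hm2
    have hrb := hr b
    have hk := R.rm_lt hm1
    unfold Reg at hrb
    rw [if_neg hc1, if_neg hc2] at hrb
    have hif : ∀ j : Fin D, (if (j : ℕ) < r - 1 then (2 : ℤ) else 1) ≤ 2 := by
      intro j
      split_ifs <;> norm_num
    have haF : R.aF ≤ -12 := by
      unfold aF
      omega
    rcases hrb with ⟨h1, h2⟩ | ⟨h1, h2, h3⟩ | ⟨h1, h2⟩
    · refine ⟨by rw [h1]; exact ⟨haF, le_rfl⟩, fun j => ?_⟩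
      have := h2 j
      have := hobox _ hk j
      have := hif j
      omega
    · refine ⟨⟨h1, h2⟩, fun j => ?_⟩
      have h4 := h3 j
      have := hobox _ hk j
      have := hif j
      unfold o at h4
      omega
    · refine ⟨by rw [h1]; exact ⟨le_rfl, haF⟩, fun j => ?_⟩
      have h3 := h2 j
      have := hobox _ hk j
      refine ⟨h3.1, ?_⟩
      have h4 := h3.2
      unfold o at h4
      omega
  refine ⟨{
    n := n
    L := L
    T := R.T
    M := R.M
    v := R.v
    e := R.e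
    x := R.x
    F := R.F
    eF := R.eF
    xF := R.xF
    X := X
    J := J
    aF := R.aF
    hr := h4
    hrD := R.hrD
    hL := hL2
    hL12 := hL12
    T_up := R.T_up
    T_dn := R.T_dn
    T_out := R.T_out
    M_pos := hM
    v_inj := R.v_inj
    v_T := R.v_T
    F_T := fun y h => h.1
    v_F := R.v_F
    low := R.low
    up_F := R.up_F
    F_one := R.F_one
    out_two := R.out_two
    ex := R.ex
    x_le := R.x_le
    eF_le := R.eF_le
    xF_le := R.xF_le
    eF_xF := by unfold eF xF; omega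
    wire := fun g hg => (hXJ g hg).1
    X_hi := fun g hg => (hXJ g hg).2.1
    X_lo := fun g hg => (hXJ g (by omega)).2.2.1 hg
    J_hi := fun g hg => (hXJ g hg).2.2.2.2.1
    J_lo := fun g hg => (hXJ g (by omega)).2.2.2.2.2.1 hg
    far := fun g hg h hh hne b c =>
      R.reg_far hg hh hne ((hXJ g hg).2.2.2.2.2.2.1 b) ((hXJ h hh).2.2.2.2.2.2.1 c)
    far0 := fun g hg b => R.reg_far_start hg ((hXJ g hg).2.2.2.2.2.2.1 b)
    X_last := (hXJ _ hm1).2.2.2.1 hm2
    aF_lt := by unfold aF eF; omega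
    v_box := fun g hg j => by
      have h1 := R.v_box_rm g j
      have h2 := hobox _ (R.rm_lt hg) j
      omega
    F_box := fun y hy j => by
      obtain ⟨-, k, hk, i, h1, h2⟩ := hy
      have h3 := hobox k hk j
      by_cases hji : j = i
      · subst hji
        omega
      · have := h2 j hji
        omega
    X_col := fun g hg b => (hreg g hg b).1
    X_box := fun g hg b j => (hreg g hg b).2 j
    Xl_col := fun b => (hlast b).1
    Xl_box := fun b j => (hlast b).2 j
    L_box := ⟨hLn, hLn'⟩ }, rfl, rfl, rfl⟩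

end Rooms

end Pool.Agent.Lib.MP_1a3405_co.BP
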