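import Mathlib
import Pool.Agent.Lib.MP_1a3405_co.BP.Cz
import Pool.Agent.Lib.MP_1a3405_co.Ord.Ham

/-!
The snake order of the rooms: from `Ord.exists_ham` (the function `h` on `{1..q}^D` is a
bijection onto `[0, q^D)`, consecutive values at neighbouring points, value `0` at `(1,…,1)`),
reversed and translated by `-1`, so that it ends at the origin.
-/

namespace Pool.Agent.Lib.MP_1a3405_co.BP

open Pool.Agent.Lib.MP_1a3405_co Pool.Agent.Lib.MP_1a3405_co.Ord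

open Classical in
/-- the walk following the values of `h` -/
noncomputable def hamWalk {D : ℕ} (q : ℕ) (h : (Fin D → ℤ) → ℤ) : ℕ → Fin D → ℤ
  | 0 => fun _ => 1
  | k + 1 =>
    if hx : ∃ δ, InBox q (nb (hamWalk q h k) δ) ∧ h (nb (hamWalk q h k) δ) = h (hamWalk q h k) + 1
    then nb (hamWalk q h k) hx.choose else hamWalk q h k

lemma hamWalk_succ {D : ℕ} (q : ℕ) (h : (Fin D → ℤ) → ℤ) (k : ℕ)
    (hx : ∃ δ, InBox q (nb (hamWalk q h k) δ) ∧
      h (nb (hamWalk q h k) δ) = h (hamWalk q h k) + 1) :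
    ∃ δ, InBox q (nb (hamWalk q h k) δ) ∧ h (nb (hamWalk q h k) δ) = h (hamWalk q h k) + 1 ∧
      hamWalk q h (k + 1) = nb (hamWalk q h k) δ := by
  refine ⟨hx.choose, hx.choose_spec.1, hx.choose_spec.2, ?_⟩
  rw [hamWalk, dif_pos hx]

lemma nb_sub_one {D : ℕ} (p : Fin D → ℤ) (δ : Fin D × Bool) :
    (fun j => nb p δ j - 1) = nb (fun j => p j - 1) δ := by
  obtain ⟨i, s⟩ := δ
  funext j
  by_cases hj : j = i
  · subst hj
    rw [nb_self, nb_self]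
    ring
  · rw [nb_other _ _ hj, nb_other _ _ hj]

theorem exists_snake (D q : ℕ) (hD : 1 ≤ D) (hq : 2 ≤ q) (hq2 : Even q) :
    ∃ ρ : ℕ → Fin D → ℤ, (∀ k < q ^ D, ∀ j, 0 ≤ ρ k j ∧ ρ k j < q) ∧
      (∀ k < q ^ D, ∀ l < q ^ D, ρ k = ρ l → k = l) ∧
      (∀ k, k + 1 < q ^ D → ∃ δ, ρ (k + 1) = nb (ρ k) δ) ∧
      ρ (q ^ D - 1) = fun _ => 0 := by
  classical
  obtain ⟨g, rfl⟩ : ∃ g, D = g + 1 := ⟨D - 1, by omega⟩
  obtain ⟨h, h1, h2, -, h4, -⟩ := exists_ham g q hq hq2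
  obtain ⟨c, hc0, hcs⟩ : ∃ c : ℕ → Fin (g + 1) → ℤ, (c 0 = fun _ => 1) ∧
      ∀ k, (∃ δ, InBox q (nb (c k) δ) ∧ h (nb (c k) δ) = h (c k) + 1) →
        ∃ δ, InBox q (nb (c k) δ) ∧ h (nb (c k) δ) = h (c k) + 1 ∧ c (k + 1) = nb (c k) δ :=
    ⟨hamWalk q h, rfl, fun k hx => hamWalk_succ q h k hx⟩
  have hbox1 : InBox q (fun _ : Fin (g + 1) => (1 : ℤ)) := fun i => ⟨le_refl _, by
    have : (1 : ℤ) ≤ q := by exact_mod_cast (by omega : 1 ≤ q)
    exact this⟩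
  have hstep0 : ∀ k, InBox q (c k) → h (c k) + 1 < (q : ℤ) ^ (g + 1) →
      ∃ δ, InBox q (nb (c k) δ) ∧ h (nb (c k) δ) = h (c k) + 1 ∧ c (k + 1) = nb (c k) δ := by
    intro k hb hlt
    apply hcs
    have hcnt := h2 _ hb hlt
    rw [cnt_eq_ncard] at hcnt
    obtain ⟨δ, hδ⟩ := Set.nonempty_of_ncard_ne_zero (by rw [hcnt]; exact one_ne_zero)
    exact ⟨δ, hδ⟩
  have key : ∀ k, k < q ^ (g + 1) → InBox q (c k) ∧ h (c k) = k := by
    intro k
    induction k with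
    | zero =>
      intro _
      rw [hc0]
      exact ⟨hbox1, by rw [(h4 _ hbox1).2 rfl]; simp⟩
    | succ k ih =>
      intro hk
      obtain ⟨hb, hv⟩ := ih (by omega)
      have hlt : h (c k) + 1 < (q : ℤ) ^ (g + 1) := by
        rw [hv]
        exact_mod_cast hk
      obtain ⟨δ, hδ1, hδ2, hδ3⟩ := hstep0 k hb hlt
      rw [hδ3]
      refine ⟨hδ1, ?_⟩
      rw [hδ2, hv]
      push_cast
      ring
  have hstep : ∀ k, k + 1 < q ^ (g + 1) → ∃ δ, c (k + 1) = nb (c k) δ := by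
    intro k hk
    obtain ⟨hb, hv⟩ := key k (by omega)
    have hlt : h (c k) + 1 < (q : ℤ) ^ (g + 1) := by
      rw [hv]
      exact_mod_cast hk
    obtain ⟨δ, -, -, hδ3⟩ := hstep0 k hb hlt
    exact ⟨δ, hδ3⟩
  have hpos : 0 < q ^ (g + 1) := pow_pos (by omega) _
  refine ⟨fun k j => c (q ^ (g + 1) - 1 - k) j - 1, ?_, ?_, ?_, ?_⟩
  · intro k hk j
    have := (key (q ^ (g + 1) - 1 - k) (by omega)).1 j
    constructor
    · show 0 ≤ c _ j - 1
      linarith [this.1]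
    · show c _ j - 1 < q
      linarith [this.2]
  · intro k hk l hl hkl
    have h5 : c (q ^ (g + 1) - 1 - k) = c (q ^ (g + 1) - 1 - l) := by
      funext j
      have := congrFun hkl j
      simpa using this
    have h6 := (key (q ^ (g + 1) - 1 - k) (by omega)).2
    have h7 := (key (q ^ (g + 1) - 1 - l) (by omega)).2
    rw [h5, h7] at h6
    have h8 : q ^ (g + 1) - 1 - l = q ^ (g + 1) - 1 - k := by exact_mod_cast h6
    omega
  · intro k hk
    obtain ⟨⟨i, s⟩, hδ⟩ := hstep (q ^ (g + 1) - 1 - (k + 1)) (by omega)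
    have h5 : q ^ (g + 1) - 1 - (k + 1) + 1 = q ^ (g + 1) - 1 - k := by omega
    rw [h5] at hδ
    refine ⟨(i, !s), ?_⟩
    have h6 : c (q ^ (g + 1) - 1 - (k + 1)) = nb (c (q ^ (g + 1) - 1 - k)) (i, !s) := by
      rw [hδ, nb_nb_not]
    show (fun j => c (q ^ (g + 1) - 1 - (k + 1)) j - 1) = _
    rw [h6, nb_sub_one]
  · funext j
    show c (q ^ (g + 1) - 1 - (q ^ (g + 1) - 1)) j - 1 = 0
    rw [Nat.sub_self, hc0]
    norm_num

end Pool.Agent.Lib.MP_1a3405_co.BP
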