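import Mathlib
import Pool.Agent.Lib.MP_1a3405_co.BP.Cert
import Pool.Agent.Lib.MP_1a3405_co.BP.RPlan
import Pool.Agent.Lib.MP_1a3405_co.BP.Enum
import Pool.Agent.Lib.MP_1a3405_co.BP.Snake
import Pool.Agent.Lib.MP_1a3405_co.BP.Pat

/-!
The lower bound with explicit parameters: blocks of side `m β`, rooms at distance
`m β + 14 m`, `2 q` rooms in each direction.
-/

namespace Pool.Agent.Lib.MP_1a3405_co.BP

open Pool.Agent.Lib.MP_1a3405_co Pool.Agent.Lib.MP_1a3405_co.Ord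

/-- the number of active fibres of a block -/
noncomputable def nBlock (D r β : ℕ) : ℕ :=
  {y : Fin D → ℤ | Pat D r y ∧ ∀ j, 1 ≤ y j ∧ y j ≤ mP D r * β}.ncard

theorem two_le_nBlock {D r : ℕ} (hr : 3 ≤ r) (hrD : r ≤ D + 1) {β : ℕ} (hβ : 1 ≤ β) :
    2 ≤ nBlock D r β := by
  have hd := pat_dens hr hrD β
  obtain ⟨hm2, hm3⟩ := mP_ge hr hrD
  have hN : nBlock D r β = {y : Fin D → ℤ | Pat D r y ∧ ∀ j, 1 ≤ y j ∧ y j ≤ mP D r * β}.ncard := rfl
  rw [← hN] at hd
  by_contra hlt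
  push Not at hlt
  have hN1 : nBlock D r β ≤ 1 := by omega
  set m := mP D r with hm
  have h1 : nBlock D r β * (2 * D + 3 - r) ≤ 1 * (2 * m) := Nat.mul_le_mul hN1 hm3
  have h2 : m ^ 2 ≤ (m * β) ^ D := by
    calc m ^ 2 ≤ m ^ D := Nat.pow_le_pow_right (by omega) (by omega)
      _ ≤ (m * β) ^ D := Nat.pow_le_pow_left (Nat.le_mul_of_pos_right m (by omega)) D
  have h3 : 2 * m ^ 2 ≤ (r - 1) * (m * β) ^ D := Nat.mul_le_mul (by omega) h2
  have h4 : 2 * m ≤ m ^ 2 := by
    calc 2 * m ≤ m * m := Nat.mul_le_mul_right m hm2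
      _ = m ^ 2 := by ring
  omega

theorem exists_rooms {D r : ℕ} (hr : 3 ≤ r) (hrD : r ≤ D + 1) {β q : ℕ} (hβ : 1 ≤ β)
    (hq : 1 ≤ q) : ∃ R : Rooms D r, R.m = mP D r ∧ R.B = mP D r * β ∧ R.N = nBlock D r β ∧
      R.q = 2 * q ∧ R.K = (2 * q) ^ D := by
  obtain ⟨N, u, hN, hu1, hu2, hu3, hu4, hu5⟩ := exists_enum (Pat D r) ((mP D r : ℤ) * β)
  obtain ⟨ρ, hρ1, hρ2, hρ3, hρ4⟩ := exists_snake D (2 * q) (by omega) (by omega) ⟨q, by ring⟩
  have hNb : N = nBlock D r β := hN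
  obtain ⟨hm2, -⟩ := mP_ge hr hrD
  refine ⟨{ T := Pat D r
            m := mP D r
            B := mP D r * β
            N := N
            u := u
            q := 2 * q
            K := (2 * q) ^ D
            ρ := ρ
            hr := hr
            hrD := hrD
            hm := by omega
            T_per := pat_per
            T_up := fun y hy => pat_up hr hrD y hy
            T_dn := fun y hy => pat_dn hr hrD y hy
            T_out := fun y hy => pat_out hr hrD y hy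
            hB := Dvd.intro _ rfl
            B_pos := ?_
            hN := by rw [hNb]; exact two_le_nBlock hr hrD hβ
            u_box := hu1
            u_T := hu2
            u_inj := hu3
            u_surj := hu4
            u_mono := hu5
            K_pos := Nat.one_le_iff_ne_zero.2 (pow_ne_zero _ (by omega))
            ρ_box := fun k hk j => hρ1 k hk j
            ρ_inj := hρ2
            ρ_step := hρ3
            ρ_last := hρ4 }, rfl, rfl, hNb, rfl, rfl⟩
  have h1 : 1 ≤ mP D r * β := Nat.mul_pos (by omega) (by omega)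
  exact_mod_cast h1

theorem lower_explicit {D r : ℕ} (hr : 4 ≤ r) (hrD : r ≤ D + 1) {β q : ℕ} (hβ : 1 ≤ β)
    (hq : 1 ≤ q) (n : ℕ) (L : ℤ) (hL2 : L % 2 = 0)
    (hL : 100 * (D + 2) * (mP D r * β + 14 * mP D r + nBlock D r β + 10) ≤ L)
    (hLn : L + 6 * nBlock D r β + 50 ≤ n)
    (hqn : 6 * mP D r + (mP D r * β + 14 * mP D r) * (2 * q) ≤ n) :
    ((2 * q : ℤ) ^ D * nBlock D r β) * L ^ 2 ≤ (maxPercTime (grid (D + 2) n) r : ℤ) := by
  obtain ⟨R, hRm, hRB, hRN, hRq, hRK⟩ := exists_rooms (by omega) hrD hβ hq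
  have haF : R.aF = -6 * ((nBlock D r β : ℤ) + 6) := by
    unfold Rooms.aF
    rw [hRN]
  have hCs : R.Cs = mP D r * β + 14 * mP D r := by
    unfold Rooms.Cs
    rw [hRB, hRm]
  obtain ⟨P, hPn, hPL, hPM⟩ := R.exists_plan hr n L hL2 (by rw [hRB, hRm, hRN]; exact hL) (by omega)
    (by rw [haF]; omega) (by
      rw [hCs, hRm, hRq]
      have h1 : (6 * (mP D r : ℤ) + ((mP D r : ℤ) * β + 14 * mP D r) * (2 * q)) ≤ n := by
        exact_mod_cast hqn
      push_cast
      linarith)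
  have h2 := P.le_max
  rw [hPn, hPL, hPM] at h2
  have h3 : ((R.M : ℕ) : ℤ) = (2 * q : ℤ) ^ D * nBlock D r β := by
    unfold Rooms.M
    rw [hRK, hRN]
    push_cast
    ring
  rw [h3] at h2
  exact h2

end Pool.Agent.Lib.MP_1a3405_co.BP
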