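import Mathlib
import Pool.Agent.Lib.MP_1a3405_co.BP.Lower

/-!
The asymptotic lower bound: for `4 ≤ r < d`,
`liminf M([n]^d, r) / n^d ≥ (r - 1)/(2d - r - 1)`. (Here `d = D + 2`, `2d - r - 1 = 2D + 3 - r`.)

Given `ε`, choose `β` with `(β / (β + 14))^D ≥ 1 - ε/2`; for `n → ∞` let `q` be the integer part
of `(n - 6m) / (2 m (β + 14))` and `L` the largest even number `≤ n - 6 N - 50`; then
`(2q)^D N L^2 = ((r-1)/(2D+3-r)) (2 q m β)^D L^2` (`pat_dens`) and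
`2 q m β ≥ (β/(β+14)) (n - 6 m - 2 m (β + 14))`.
-/

namespace Pool.Agent.Lib.MP_1a3405_co.BP

open Pool.Agent.Lib.MP_1a3405_co Pool.Agent.Lib.MP_1a3405_co.Ord

/-- the number of active fibres of a block, over the reals -/
lemma nBlock_real {D r : ℕ} (hr : 3 ≤ r) (hrD : r ≤ D + 1) (β : ℕ) :
    (nBlock D r β : ℝ) = ((r : ℝ) - 1) / (2 * D + 3 - r) * ((mP D r : ℝ) * β) ^ D := by
  have h := pat_dens (by omega) hrD β
  change nBlock D r β * (2 * D + 3 - r) = _ at h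
  have h2 : ((nBlock D r β * (2 * D + 3 - r) : ℕ) : ℝ) =
      (((r - 1) * (mP D r * β) ^ D : ℕ) : ℝ) := by rw [h]
  have hrD' : (r : ℝ) ≤ D + 1 := by exact_mod_cast hrD
  have hrR : (3 : ℝ) ≤ r := by exact_mod_cast hr
  have hden : (0 : ℝ) < 2 * D + 3 - r := by linarith
  rw [Nat.cast_mul, Nat.cast_mul, Nat.cast_sub (by omega : r ≤ 2 * D + 3),
    Nat.cast_sub (by omega : 1 ≤ r)] at h2
  push_cast at h2
  rw [div_mul_eq_mul_div, eq_div_iff hden.ne', h2]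

/-- Bernoulli: `(n - k)^(d) ≥ (1 - η) n^d` if `d k ≤ η n` -/
lemma pow_sub_ge (d : ℕ) (n k η : ℝ) (hn : 0 < n) (hkn : k ≤ n) (hk : 0 ≤ k)
    (h : d * k ≤ η * n) : (1 - η) * n ^ d ≤ (n - k) ^ d := by
  have h1 : n - k = n * (1 + -(k / n)) := by
    field_simp
    ring
  have h2 : -2 ≤ -(k / n) := by
    have : k / n ≤ 1 := by rw [div_le_one hn]; exact hkn
    linarith
  have h3 := one_add_mul_le_pow h2 d
  have h4 : (d : ℝ) * (k / n) ≤ η := by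
    rw [← mul_div_assoc, div_le_iff₀ hn]
    exact h
  rw [h1, mul_pow, mul_comm]
  refine mul_le_mul_of_nonneg_left ?_ (by positivity)
  linarith

theorem bp_lower {D r : ℕ} (hr : 4 ≤ r) (hrD : r ≤ D + 1) (ε : ℝ) (hε : 0 < ε) :
    ∃ n₀ : ℕ, ∀ n : ℕ, n₀ ≤ n →
      (((r : ℝ) - 1) / (2 * D + 3 - r) - ε) * (n : ℝ) ^ (D + 2) ≤
        (maxPercTime (grid (D + 2) n) r : ℝ) := by
  have hrD' : (r : ℝ) ≤ D + 1 := by exact_mod_cast hrD
  have hrR : (4 : ℝ) ≤ r := by exact_mod_cast hr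
  have hden : (0 : ℝ) < 2 * D + 3 - r := by linarith
  have hNB := nBlock_real (D := D) (r := r) (by omega) hrD
  set c : ℝ := ((r : ℝ) - 1) / (2 * D + 3 - r) with hc
  have hc0 : 0 < c := div_pos (by linarith) hden
  have hc1 : c ≤ 1 := by rw [hc, div_le_one hden]; linarith
  rcases le_or_gt 1 ε with h1 | h1
  · refine ⟨0, fun n _ => ?_⟩
    have : (c - ε) * (n : ℝ) ^ (D + 2) ≤ 0 :=
      mul_nonpos_of_nonpos_of_nonneg (by linarith) (by positivity)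
    exact this.trans (Nat.cast_nonneg _)
  -- the parameters
  obtain ⟨β', hβ'⟩ : ∃ β : ℕ, 28 * (D : ℝ) / ε ≤ β := exists_nat_ge _
  obtain ⟨β, hβ1, hβ⟩ : ∃ β : ℕ, 1 ≤ β ∧ 28 * (D : ℝ) / ε ≤ β :=
    ⟨β' + 1, by omega, by push_cast; linarith⟩
  have hm2 : 2 ≤ mP D r := (mP_ge (by omega) hrD).1
  have hNBβ := hNB β
  have hlow := fun q => @lower_explicit D r hr hrD β q hβ1
  generalize nBlock D r β = N at hNBβ hlow
  generalize mP D r = m at hm2 hNBβ hlow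
  obtain ⟨P, hP⟩ : ∃ P : ℕ, P = m * β + 14 * m := ⟨_, rfl⟩
  have hP1 : 1 ≤ P := by omega
  obtain ⟨K₁, hK1⟩ : ∃ K₁ : ℕ, K₁ = 100 * (D + 2) * (P + N + 10) := ⟨_, rfl⟩
  obtain ⟨k, hk⟩ : ∃ k : ℕ, k = 6 * m + 2 * P + 6 * N + 52 := ⟨_, rfl⟩
  obtain ⟨n₁, hn₁⟩ : ∃ n : ℕ, ((D + 2 : ℕ) : ℝ) * k / (ε / 2) ≤ n := exists_nat_ge _
  refine ⟨K₁ + k + n₁, fun n hn => ?_⟩
  have hnk : k ≤ n := by omega
  -- the choice of q
  obtain ⟨q, hq1, hq2, hq3⟩ : ∃ q : ℕ, 1 ≤ q ∧ 6 * m + P * (2 * q) ≤ n ∧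
      n ≤ 6 * m + 2 * P + P * (2 * q) := by
    have hdm := Nat.div_add_mod (n - 6 * m) (2 * P)
    have hlt := Nat.mod_lt (n - 6 * m) (by omega : 2 * P > 0)
    refine ⟨(n - 6 * m) / (2 * P), ?_, ?_, ?_⟩
    · rw [Nat.one_le_div_iff (by omega)]
      omega
    · have e : P * (2 * ((n - 6 * m) / (2 * P))) = 2 * P * ((n - 6 * m) / (2 * P)) := by ring
      rw [e]
      omega
    · have e : P * (2 * ((n - 6 * m) / (2 * P))) = 2 * P * ((n - 6 * m) / (2 * P)) := by ring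
      rw [e]
      omega
  -- the choice of L
  obtain ⟨L, hL1, hL2, hL3, hL4⟩ : ∃ L : ℕ, L % 2 = 0 ∧ L + 6 * N + 50 ≤ n ∧
      n ≤ L + 6 * N + 52 ∧ K₁ ≤ L := by
    refine ⟨2 * ((n - 6 * N - 50) / 2), by omega, by omega, by omega, by omega⟩
  have hex := hlow q hq1 n (L : ℤ) (by exact_mod_cast hL1)
    (by
      have : ((K₁ : ℕ) : ℤ) ≤ ((L : ℕ) : ℤ) := by exact_mod_cast hL4
      rw [hK1, hP] at this
      push_cast at this
      exact this)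
    (by exact_mod_cast hL2) (by rw [← hP]; exact hq2)
  have hexR : ((2 * (q : ℝ)) ^ D * N) * (L : ℝ) ^ 2 ≤
      (maxPercTime (grid (D + 2) n) r : ℝ) := by exact_mod_cast hex
  refine le_trans ?_ hexR
  -- the estimate
  have hmR : (2 : ℝ) ≤ m := by exact_mod_cast hm2
  have hβR : (1 : ℝ) ≤ β := by exact_mod_cast hβ1
  have hnkR : (k : ℝ) ≤ n := by exact_mod_cast hnk
  have hk0 : (0 : ℝ) ≤ k := Nat.cast_nonneg k
  have hkpos : (52 : ℝ) ≤ k := by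
    have : 52 ≤ k := by omega
    exact_mod_cast this
  have hn0 : (0 : ℝ) < n := by linarith
  have hPR : (P : ℝ) = m * β + 14 * m := by rw [hP]; push_cast; ring
  have hkR : (k : ℝ) = 6 * m + 2 * P + 6 * N + 52 := by rw [hk]; push_cast; ring
  have hN0 : (0 : ℝ) ≤ N := Nat.cast_nonneg N
  set θ : ℝ := β / (β + 14) with hθ
  have hθ0 : 0 ≤ θ := by positivity
  have hb14 : (0 : ℝ) < β + 14 := by linarith
  have hmb : (m : ℝ) * β = θ * P := by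
    rw [hθ, hPR]
    field_simp
  have hq3R : (n : ℝ) ≤ 6 * m + 2 * P + P * (2 * q) := by exact_mod_cast hq3
  have hL3R : (n : ℝ) ≤ L + 6 * N + 52 := by exact_mod_cast hL3
  have hP0 : (0 : ℝ) ≤ P := Nat.cast_nonneg P
  have hA : θ * ((n : ℝ) - k) ≤ 2 * q * (m * β) := by
    rw [hmb]
    have : (n : ℝ) - k ≤ P * (2 * q) := by linarith
    calc θ * ((n : ℝ) - k) ≤ θ * (P * (2 * q)) := mul_le_mul_of_nonneg_left this hθ0
      _ = 2 * q * (θ * P) := by ring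
  have hB : (n : ℝ) - k ≤ L := by linarith
  have hnk0 : (0 : ℝ) ≤ (n : ℝ) - k := by linarith
  have hθD : 1 - ε / 2 ≤ θ ^ D := by
    have e : θ = 1 + -(14 / (β + 14)) := by
      rw [hθ]
      field_simp
      ring
    have h2 : -2 ≤ -(14 / ((β : ℝ) + 14)) := by
      have : 14 / ((β : ℝ) + 14) ≤ 1 := by rw [div_le_one hb14]; linarith
      linarith
    have h3 := one_add_mul_le_pow h2 D
    rw [← e] at h3
    have h4 : (D : ℝ) * (14 / (β + 14)) ≤ ε / 2 := by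
      rw [← mul_div_assoc, div_le_iff₀ hb14]
      rw [div_le_iff₀ hε] at hβ
      linarith
    linarith
  have hC : (1 - ε / 2) * (n : ℝ) ^ (D + 2) ≤ ((n : ℝ) - k) ^ (D + 2) := by
    refine pow_sub_ge (D + 2) n k (ε / 2) hn0 hnkR hk0 ?_
    have h5 : ((D + 2 : ℕ) : ℝ) * k / (ε / 2) ≤ n := hn₁.trans (by exact_mod_cast (by omega))
    rw [div_le_iff₀ (by positivity)] at h5
    linarith
  have hD : c * (θ ^ D * ((n : ℝ) - k) ^ (D + 2)) ≤ ((2 * (q : ℝ)) ^ D * N) * (L : ℝ) ^ 2 := by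
    rw [hNBβ]
    have e1 : (2 * (q : ℝ)) ^ D * (c * ((m : ℝ) * β) ^ D) * (L : ℝ) ^ 2 =
        c * ((2 * q * (m * β)) ^ D * (L : ℝ) ^ 2) := by
      rw [mul_pow (2 * (q : ℝ)) ((m : ℝ) * β) D]
      ring
    have e2 : θ ^ D * ((n : ℝ) - k) ^ (D + 2) =
        (θ * ((n : ℝ) - k)) ^ D * ((n : ℝ) - k) ^ 2 := by
      rw [mul_pow, pow_add]
      ring
    rw [e1, e2]
    refine mul_le_mul_of_nonneg_left ?_ hc0.le
    refine mul_le_mul (pow_le_pow_left₀ (by positivity) hA D) (pow_le_pow_left₀ hnk0 hB 2)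
      (by positivity) (by positivity)
  refine le_trans ?_ hD
  have hnD : (0 : ℝ) < (n : ℝ) ^ (D + 2) := by positivity
  have h6 : (1 - ε / 2) * ((1 - ε / 2) * (n : ℝ) ^ (D + 2)) ≤
      θ ^ D * ((n : ℝ) - k) ^ (D + 2) := by
    refine mul_le_mul hθD hC (mul_nonneg (by linarith) hnD.le) (by positivity)
  have h7 : c * ((1 - ε / 2) * ((1 - ε / 2) * (n : ℝ) ^ (D + 2))) ≤
      c * (θ ^ D * ((n : ℝ) - k) ^ (D + 2)) := mul_le_mul_of_nonneg_left h6 hc0.le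
  refine le_trans ?_ h7
  have h8 : c - ε ≤ c * ((1 - ε / 2) * (1 - ε / 2)) := by
    have h9 : c * ε ≤ ε := mul_le_of_le_one_left hε.le hc1
    have h10 : 0 ≤ c * (ε * ε) := by positivity
    have e : c * ((1 - ε / 2) * (1 - ε / 2)) = c - c * ε + c * (ε * ε) / 4 := by ring
    rw [e]
    linarith
  calc (c - ε) * (n : ℝ) ^ (D + 2) ≤ (c * ((1 - ε / 2) * (1 - ε / 2))) * (n : ℝ) ^ (D + 2) :=
        mul_le_mul_of_nonneg_right h8 hnD.le
    _ = c * ((1 - ε / 2) * ((1 - ε / 2) * (n : ℝ) ^ (D + 2))) := by ring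

end Pool.Agent.Lib.MP_1a3405_co.BP
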